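import Pool.Agent.Lib.MP_1b6faf_co.Setup

/-!
First order estimates for the cliques of a cluster and of its outside neighbours.
-/

namespace Pool.Agent.Lib.MP_1b6faf_co

open Finset
open scoped Classical

noncomputable def P0 (s k : ℕ) (a : ℝ) : ℝ := ((s - 1).choose (k + 1) : ℝ) * a ^ (k + 1)

noncomputable def KK (s k : ℕ) : ℝ := 100 * ((s : ℝ) + 1) ^ 3 * (2 * ((s : ℝ) + 1)) ^ k

noncomputable def rho (s k a r : ℕ) : ℝ := ebal (k + 3) (s + 1) a r / ((s + 1) * a + r)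

noncomputable def lam (s k : ℕ) (a η : ℝ) : ℝ := (1 - η) * rho0 s k a / (s * a)

lemma choose_id (n k : ℕ) :
    ((k : ℝ) + 1) * ((n + 1).choose (k + 1) : ℝ) = ((n : ℝ) + 1) * (n.choose k : ℝ) := by
  have := Nat.add_one_mul_choose_eq n k
  exact_mod_cast (by rw [this]; ring : (k + 1) * (n + 1).choose (k + 1) = (n + 1) * n.choose k)

lemma choose_s {s : ℕ} (hs : 1 ≤ s) (k : ℕ) :
    (s.choose (k + 2) : ℝ) = s * ((s - 1).choose (k + 1) : ℝ) / (k + 2) := by
  obtain ⟨s', rfl⟩ : ∃ s', s = s' + 1 := ⟨s - 1, by omega⟩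
  have := choose_id s' (k + 1)
  rw [Nat.add_sub_cancel, eq_div_iff (by positivity)]
  push_cast at this ⊢
  linarith

lemma P0_ge {s k : ℕ} (hk : k + 2 ≤ s) {a : ℝ} (ha : 0 ≤ a) : a ^ (k + 1) ≤ P0 s k a := by
  have : 1 ≤ (s - 1).choose (k + 1) := Nat.choose_pos (by omega)
  have h1 : (1 : ℝ) ≤ ((s - 1).choose (k + 1) : ℝ) := by exact_mod_cast this
  have h2 : 0 ≤ a ^ (k + 1) := by positivity
  unfold P0; nlinarith

lemma P0_pos {s k : ℕ} (hk : k + 2 ≤ s) {a : ℝ} (ha : 0 < a) : 0 < P0 s k a :=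
  lt_of_lt_of_le (by positivity) (P0_ge hk ha.le)

lemma M0_eq {s : ℕ} (hs : 1 ≤ s) (k : ℕ) (a : ℝ) :
    (s.choose (k + 2) : ℝ) * a ^ (k + 2) = s * (P0 s k a * a) / (k + 2) := by
  rw [choose_s hs]; unfold P0; ring

lemma rho0_eq {s : ℕ} (hs : 1 ≤ s) (k : ℕ) (a : ℝ) :
    rho0 s k a = s * (P0 s k a * a) / ((k + 2) * (k + 3)) := by
  unfold rho0; rw [M0_eq hs]; field_simp

lemma lam_eq {s : ℕ} (hs : 1 ≤ s) (k : ℕ) {a : ℝ} (ha : 0 < a) (η : ℝ) :
    lam s k a η = (1 - η) * P0 s k a / ((k + 2) * (k + 3)) := by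
  have : (0 : ℝ) < s := by exact_mod_cast hs
  unfold lam; rw [rho0_eq hs]; field_simp

lemma rho0_nonneg (s k : ℕ) {a : ℝ} (ha : 0 ≤ a) : 0 ≤ rho0 s k a := by
  unfold rho0; positivity

lemma choose_top (s k : ℕ) (a : ℝ) :
    ((s + 1).choose (k + 3) : ℝ) * a ^ (k + 3) = rho0 s k a * ((s + 1) * a) := by
  have h2 := choose_id s (k + 2)
  have h3 : ((s + 1).choose (k + 3) : ℝ) = (s + 1) * (s.choose (k + 2) : ℝ) / (k + 3) := by
    rw [eq_div_iff (by positivity), ← h2]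
    push_cast; ring
  unfold rho0
  rw [h3]; ring

lemma rho_ge (s k a r : ℕ) (hr : r ≤ s + 1) (ha : 1 ≤ a) :
    rho0 s k a * (1 - 1 / a) ≤ rho s k a r := by
  have ha1 : (1 : ℝ) ≤ a := by exact_mod_cast ha
  have hr1 : (r : ℝ) ≤ s + 1 := by exact_mod_cast hr
  have h1 := es_ge (k + 3) (I := range (s + 1)) (w := fun i => (balw a r i : ℝ)) (b := a)
    (by positivity) (fun i _ => by unfold balw; split_ifs <;> simp)
  rw [card_range] at h1
  have h0 := rho0_nonneg s k (a := a) (by positivity)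
  unfold rho
  rw [le_div_iff₀ (by positivity)]
  refine le_trans ?_ h1
  have h3 : ((s + 1).choose (k + 3) : ℝ) * (a : ℝ) ^ (k + 3) = rho0 s k a * ((s + 1) * a) := by
    exact choose_top s k a
  rw [h3, mul_assoc]
  refine mul_le_mul_of_nonneg_left ?_ h0
  have h4 : 0 ≤ 1 - 1 / (a : ℝ) := by
    rw [sub_nonneg, div_le_one (by linarith)]; exact ha1
  calc (1 - 1 / (a : ℝ)) * ((s + 1) * a + r) ≤ (1 - 1 / a) * ((s + 1) * (a + 1)) := by
        gcongr; linarith
    _ = (s + 1) * a - (s + 1) / a := by field_simp; ring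
    _ ≤ _ := by have : 0 ≤ ((s : ℝ) + 1) / a := by positivity
                linarith

lemma rho_le (s k a r : ℕ) (ha : 1 ≤ a) :
    rho s k a r ≤ rho0 s k a * (1 + 2 ^ (k + 3) / a) := by
  have ha1 : (1 : ℝ) ≤ a := by exact_mod_cast ha
  have h1 := es_le (k + 3) (I := range (s + 1)) (w := fun i => (balw a r i : ℝ)) (b := a + 1)
    (fun _ _ => by positivity) (fun i _ => by unfold balw; split_ifs <;> simp)
  rw [card_range] at h1
  have h0 := rho0_nonneg s k (a := a) (by positivity)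
  have h3 : ((s + 1).choose (k + 3) : ℝ) * (a : ℝ) ^ (k + 3) = rho0 s k a * ((s + 1) * a) := by
    exact choose_top s k a
  have h4 := mul_le_mul_of_nonneg_left (succ_pow_le a ha1 (k + 3))
    (Nat.cast_nonneg (α := ℝ) ((s + 1).choose (k + 3)))
  rw [← mul_assoc, h3] at h4
  unfold rho
  rw [div_le_iff₀ (by positivity)]
  refine (h1.trans h4).trans ?_
  have h5 : 0 ≤ rho0 s k a * (1 + 2 ^ (k + 3) / a) * r := by positivity
  nlinarith

lemma KK_ge (s k : ℕ) : 100 * ((s : ℝ) + 1) ^ 3 * 2 ^ k ≤ KK s k := by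
  unfold KK
  have : (2 : ℝ) ^ k ≤ (2 * ((s : ℝ) + 1)) ^ k :=
    pow_le_pow_left₀ (by norm_num) (by nlinarith [Nat.cast_nonneg (α := ℝ) s]) _
  gcongr

lemma KK_ge' (s k : ℕ) : 100 * ((s : ℝ) + 1) ^ 3 ≤ KK s k := by
  have h1 := KK_ge s k
  have h2 : (1 : ℝ) ≤ 2 ^ k := one_le_pow₀ (by norm_num)
  have h3 : 0 ≤ 100 * ((s : ℝ) + 1) ^ 3 := by positivity
  nlinarith

lemma KK_ge2 (s k : ℕ) : 100 * ((s : ℝ) + 1) * 2 ^ k ≤ KK s k := by
  refine le_trans ?_ (KK_ge s k)
  have h0 : (1 : ℝ) ≤ (s : ℝ) + 1 := by linarith [Nat.cast_nonneg (α := ℝ) s]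
  have : (s : ℝ) + 1 ≤ ((s : ℝ) + 1) ^ 3 := le_self_pow₀ h0 (by norm_num)
  gcongr

lemma chord (k : ℕ) (u1 u η : ℝ) (h0 : 0 < u1) (h1 : u1 < 1) (hu1 : (k + 3) * u1 ^ (k + 1) ≤ 1)
    (hη : 0 ≤ η) (hη1 : η ≤ 1) (hu : u1 ≤ u) (hu2 : u ≤ 1 + η) :
    u ^ (k + 2) / (k + 2) - (1 - η) * u / ((k + 2) * (k + 3))
      ≤ 1 / (k + 3) + 5 * 2 ^ k * η - 1 / ((k + 3) * (1 - u1)) * (1 - u) := by
  have hk2 : (0 : ℝ) < (k : ℝ) + 2 := by positivity
  have hk3 : (0 : ℝ) < (k : ℝ) + 3 := by positivity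
  have h2k : (1 : ℝ) ≤ 2 ^ k := one_le_pow₀ (by norm_num)
  have hd : 0 < 1 - u1 := by linarith
  have hk6 : (1 : ℝ) ≤ ((k : ℝ) + 2) * (k + 3) := by nlinarith [Nat.cast_nonneg (α := ℝ) k]
  rcases le_total u 1 with hle | hle
  · have hconv := (convexOn_pow (𝕜 := ℝ) (k + 2)).2 (show u1 ∈ Set.Ici (0 : ℝ) from h0.le)
      (show (1 : ℝ) ∈ Set.Ici (0 : ℝ) by simp)
      (show 0 ≤ (1 - u) / (1 - u1) from div_nonneg (by linarith) hd.le)
      (show 0 ≤ (u - u1) / (1 - u1) from div_nonneg (by linarith) hd.le) (by field_simp; ring)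
    simp only [smul_eq_mul, one_pow, mul_one] at hconv
    have e1 : (1 - u) / (1 - u1) * u1 + (u - u1) / (1 - u1) = u := by field_simp; ring
    rw [e1] at hconv
    have h3 : u1 ^ (k + 2) ≤ u1 / (k + 3) := by
      rw [le_div_iff₀ hk3, pow_succ]; nlinarith
    have h4 := mul_le_mul_of_nonneg_left h3 (div_nonneg (show 0 ≤ 1 - u by linarith) hd.le)
    have h5 : u ^ (k + 2) / (k + 2) ≤ ((1 - u) / (1 - u1) * (u1 / (k + 3)) + (u - u1) / (1 - u1)) / (k + 2) :=
      div_le_div_of_nonneg_right (by linarith) hk2.le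
    have e2 : ((1 - u) / (1 - u1) * (u1 / (k + 3)) + (u - u1) / (1 - u1)) / (k + 2)
        - (1 - η) * u / ((k + 2) * (k + 3))
        = 1 / (k + 3) - 1 / ((k + 3) * (1 - u1)) * (1 - u) + η * u / ((k + 2) * (k + 3)) := by
      field_simp; ring
    have h6 : η * u / ((k + 2) * (k + 3)) ≤ η := by
      rw [div_le_iff₀ (by positivity)]; nlinarith
    nlinarith
  · have h3 : u ^ (k + 2) ≤ 1 + 2 ^ (k + 2) * η :=
      (pow_le_pow_left₀ (by linarith) hu2 _).trans (one_add_pow_le' η hη hη1 _)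
    have h4 : u ^ (k + 2) / (k + 2) ≤ 1 / (k + 2) + 4 * 2 ^ k * η := by
      rw [div_le_iff₀ hk2, add_mul, div_mul_cancel₀ _ hk2.ne']
      have : 0 ≤ 4 * 2 ^ k * η := by positivity
      have e : (2 : ℝ) ^ (k + 2) = 4 * 2 ^ k := by ring
      rw [e] at h3
      nlinarith [Nat.cast_nonneg (α := ℝ) k]
    have h5 : (1 - η) / ((k + 2) * (k + 3)) ≤ (1 - η) * u / ((k + 2) * (k + 3)) :=
      div_le_div_of_nonneg_right (by nlinarith) (by positivity)
    have e2 : 1 / ((k : ℝ) + 2) - (1 - η) / ((k + 2) * (k + 3))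
        = 1 / (k + 3) + η / ((k + 2) * (k + 3)) := by field_simp; ring
    have h6 : η / ((k + 2) * (k + 3)) ≤ η := div_le_self hη hk6
    have h7 : 0 ≤ 1 / ((k + 3) * (1 - u1)) * (u - 1) := by
      have : 0 ≤ u - 1 := by linarith
      positivity
    nlinarith

lemma nat_quad (o c m : ℕ) (h : o ≤ c + m) :
    (o : ℝ) * (o - 1) ≤ c * (c - 1) + m * (o + c) := by
  rcases le_or_gt o c with h1 | h1
  · have h2 : (0 : ℝ) ≤ m * (o + c) := by positivity
    rcases h1.eq_or_lt with h3 | h3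
    · rw [h3]; rw [h3] at h2; linarith
    · have : (o : ℝ) + 1 ≤ c := by exact_mod_cast h3
      nlinarith [Nat.cast_nonneg (α := ℝ) o]
  · have h2 : (c : ℝ) + 1 ≤ o := by exact_mod_cast h1
    have h3 : (o : ℝ) ≤ c + m := by exact_mod_cast h
    nlinarith [Nat.cast_nonneg (α := ℝ) c]

/-- free capacity as a natural number -/
noncomputable def cn {V : Type*} (s a r : ℕ) (W : Finset V) (p : V → ℕ) (i : ℕ) : ℕ :=
  s * a + r + (part W p i).card - W.card

lemma cn_eq {V : Type*} (s a r : ℕ) (W : Finset V) (p : V → ℕ) (i : ℕ) :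
    (cn s a r W p i : ℝ) = max (cc s a r W p i) 0 := by
  have e : cc s a r W p i = ((s * a + r + (part W p i).card : ℕ) : ℝ) - W.card := by
    unfold cc jj ww; push_cast; ring
  rw [e]
  unfold cn
  rcases le_total W.card (s * a + r + (part W p i).card) with h | h
  · rw [Nat.cast_sub h, max_eq_left]
    rw [sub_nonneg]; exact_mod_cast h
  · rw [Nat.sub_eq_zero_of_le h, max_eq_right]
    · simp
    · rw [sub_nonpos]; exact_mod_cast h

namespace Setup

variable {V : Type*} [Fintype V] {G : SimpleGraph V} {s a r : ℕ} {η ξ ξ1 : ℝ}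
  {W Z Cs : Finset V} {p : V → ℕ} (h : Setup G s a r η ξ ξ1 W Z Cs p) {k : ℕ} (hk : k + 2 ≤ s)
include h

lemma kc_W_le (k : ℕ) : kc G (k + 2) W + ∑ e ∈ mis G p W, kc G k (nb G e.1 (nb G e.2 W))
    ≤ es (k + 2) (range (s + 1)) (ww W p) := by
  have h1 := kc_destroyed h.clu.proper k
  rw [kc_mp p (k + 2) W (range (s + 1)) (fun x hx => h.mem_range_p hx)] at h1
  exact h1

include hk

omit [Fintype V] h in
lemma kR : (k : ℝ) + 2 ≤ s := by exact_mod_cast hk

lemma destroyed {e : V × V} (he : e ∈ mis G p W) :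
    P0 s k a * (1 - KK s k * ξ1) ≤ kc G (k + 1) (nb G e.1 (nb G e.2 W)) := by
  obtain ⟨a1, a2, a3, _⟩ := mem_mis.1 he
  have hξa := mul_pos h.ξ1pos h.apos
  have hη1 : η ≤ ξ1 := by linarith [h.η6, h.hξ, h.hη]
  have hηa := mul_le_mul_of_nonneg_right hη1 h.apos.le
  have hs1 := mul_le_mul_of_nonneg_right h.sξ1 h.apos.le
  have hkR := kR hk
  have e1 : p e.2 ∈ (range (s + 1)).erase (p e.1) := mem_erase.2 ⟨a3.ne', h.mem_range_p a2⟩
  have h1 := h.greedy (k + 1) (((range (s + 1)).erase (p e.1)).erase (p e.2))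
    (nb G e.1 (nb G e.2 W)) ((1 - η) * a - 2 * (ξ1 * a)) (fun i hi => by
      have b1 := ne_of_mem_erase hi
      have b2 := ne_of_mem_erase (mem_of_mem_erase hi)
      have b3 := h.wlo (mem_range.1 (mem_of_mem_erase (mem_of_mem_erase hi)))
      have b4 := h.part_miss b2.symm (mem_part.2 ⟨a1, rfl⟩)
      have b5 := h.part_miss b1.symm (mem_part.2 ⟨a2, rfl⟩)
      have b6 : part W p i ⊆ (nb G e.1 (nb G e.2 W) ∩ part W p i) ∪ nn G e.1 (part W p i)
          ∪ nn G e.2 (part W p i) := by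
        intro u hu
        have := (mem_part.1 hu).1
        simp only [mem_union, mem_inter, mem_nb, mem_nn]
        tauto
      have b7 : ww W p i ≤ (nb G e.1 (nb G e.2 W) ∩ part W p i).card + (nn G e.1 (part W p i)).card
          + (nn G e.2 (part W p i)).card := by
        unfold ww
        exact_mod_cast (card_le_card b6).trans ((card_union_le _ _).trans
          (Nat.add_le_add_right (card_union_le _ _) _))
      linarith) (by push_cast; nlinarith)
  rw [card_erase_of_mem e1, card_erase_of_mem (h.mem_range_p a1), card_range,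
    Nat.add_sub_cancel] at h1
  refine le_trans ?_ h1
  have e2 : (1 - η) * a - 2 * (ξ1 * a) - ((k + 1 : ℕ) : ℝ) * (ξ1 * a)
      = a * (1 - (η + (k + 3) * ξ1)) := by push_cast; ring
  rw [e2, mul_pow]
  unfold P0
  rw [mul_assoc]
  refine mul_le_mul_of_nonneg_left (mul_le_mul_of_nonneg_left ?_ (by positivity)) (by positivity)
  have h2 := one_sub_pow_ge (η + (k + 3) * ξ1) (by nlinarith [h.sξ1, h.ξ1pos]) (k + 1)
  refine le_trans ?_ h2
  have h3 := KK_ge' s k
  have h4 : ((k : ℝ) + 1) * (k + 4) ≤ 100 * ((s : ℝ) + 1) ^ 3 := by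
    have : ((k : ℝ) + 1) * (k + 4) ≤ (s + 1) * (2 * (s + 1)) := by
      gcongr <;> linarith [h.s2]
    nlinarith [h.s2, sq_nonneg ((s : ℝ) + 1)]
  push_cast
  have h5 : ((k : ℝ) + 1) * η ≤ (k + 1) * ξ1 := by gcongr
  nlinarith [h.ξ1pos]

lemma B1 : kc G (k + 3) W ≤ es (k + 3) (range (s + 1)) (ww W p)
    - (mis G p W).card * (P0 s k a * (1 - KK s k * ξ1)) := by
  have h1 := h.kc_W_le (k + 1)
  have h2 := card_nsmul_le_sum _ _ _ (fun e he => h.destroyed hk (e := e) he)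
  rw [nsmul_eq_mul] at h2
  linarith

lemma B2 : es (k + 3) (range (s + 1)) (ww W p) - rho s k a r * W.card
    ≤ P0 s k a * a * (jj s a r W * s / (k + 3) + KK s k * ξ1 * max (jj s a r W) 0
      + KK s k * η * max (-jj s a r W) 0) := by
  have hs1 : 1 ≤ s := by have := h.hs; omega
  have ha1 : 1 ≤ a := by exact_mod_cast h.a1
  have hU : 0 < P0 s k a * a := mul_pos (P0_pos hk h.apos) h.apos
  have hlo := rho_ge s k a r (by have := h.hr; omega) ha1
  have hhi := rho_le s k a r ha1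
  rw [rho0_eq hs1] at hlo hhi
  have hn : (0 : ℝ) < (s + 1) * a + r := by have := h.apos; positivity
  have hρ : rho s k a r * ((s + 1) * a + r) = ebal (k + 3) (s + 1) a r := by
    unfold rho; field_simp
  have hsum : ∑ i ∈ range (s + 1), (part W p i).card = W.card :=
    (card_eq_sum_parts (fun x hx => h.mem_range_p hx)).symm
  have hηa : 1 / (a : ℝ) ≤ η := by rw [div_le_iff₀ h.apos]; exact h.ha
  have hη1 : η ≤ ξ1 := by linarith [h.η6, h.hξ, h.hη]
  have hK := KK_ge2 s k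
  have h2k : (1 : ℝ) ≤ 2 ^ k := one_le_pow₀ (by norm_num)
  have hk0 : (0 : ℝ) ≤ k := Nat.cast_nonneg _
  have hs0 := h.s2
  set U := P0 s k a * a with hUdef
  have hk2 : (s : ℝ) / (k + 2) ≤ s := div_le_self (by linarith) (by linarith)
  have hk3 : (s : ℝ) / ((k + 2) * (k + 3)) ≤ s := div_le_self (by linarith) (by nlinarith)
  have hk3' : (0 : ℝ) ≤ (s : ℝ) / ((k + 2) * (k + 3)) := by positivity
  have hk2' : (0 : ℝ) ≤ (s : ℝ) / (k + 2) := by positivity
  have eid : (s : ℝ) / (k + 2) - s / ((k + 2) * (k + 3)) = s / (k + 3) := by field_simp; ring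
  rcases le_total ((s + 1) * a + r) W.card with hc | hc
  · obtain ⟨j, hj⟩ := Nat.exists_eq_add_of_le hc
    have hjj : jj s a r W = j := by unfold jj; rw [hj]; push_cast; ring
    have h1 := es_up (k + 1) (s + 1) a r (by have := h.hr; omega) ((1 + ξ1) * a) j
      (fun i => (part W p i).card) (by rw [hsum, hj]) (fun i hi => h.whi (mem_range.1 hi))
    rw [Nat.add_sub_cancel, mul_pow, mul_comm ((1 + ξ1) ^ _), ← mul_assoc (s.choose _ : ℝ),
      M0_eq hs1] at h1
    have h2 := one_add_pow_le' ξ1 h.ξ1pos.le (by linarith [h.ξ1small, h.ξ1pos]) (k + 2)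
    rw [hjj, max_eq_left (Nat.cast_nonneg _), max_eq_right (by simp), hj]
    push_cast
    have h3 : s * U / (k + 2) * (1 + ξ1) ^ (k + 2) - rho s k a r
        ≤ U * (s / (k + 3) + KK s k * ξ1) := by
      have b1 : s * U / (k + 2) * (1 + ξ1) ^ (k + 2) ≤ U * (s / (k + 2) * (1 + 2 ^ (k + 2) * ξ1)) := by
        have : s * U / (k + 2) * (1 + ξ1) ^ (k + 2) = U * (s / (k + 2) * (1 + ξ1) ^ (k + 2)) := by ring
        rw [this]; gcongr
      have b2 : U * (s / ((k + 2) * (k + 3)) * (1 - ξ1)) ≤ rho s k a r := by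
        refine le_trans ?_ hlo
        have : s * U / ((k + 2) * (k + 3)) * (1 - 1 / a)
          = U * (s / ((k + 2) * (k + 3)) * (1 - 1 / a)) := by ring
        rw [this]; gcongr; linarith
      have b3 : s / (k + 2) * (1 + 2 ^ (k + 2) * ξ1) - s / ((k + 2) * (k + 3)) * (1 - ξ1)
          ≤ s / (k + 3) + KK s k * ξ1 := by
        have c1 : (s : ℝ) / (k + 2) * 2 ^ (k + 2) + s / ((k + 2) * (k + 3)) ≤ KK s k := by
          have : (s : ℝ) / (k + 2) * 2 ^ (k + 2) ≤ s * 2 ^ (k + 2) := by gcongr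
          have e : (2 : ℝ) ^ (k + 2) = 4 * 2 ^ k := by ring
          rw [e] at this ⊢
          nlinarith
        have c2 := mul_le_mul_of_nonneg_right c1 h.ξ1pos.le
        rw [← eid]; linarith
      have b4 := mul_le_mul_of_nonneg_left b3 hU.le
      linarith
    have h4 := mul_le_mul_of_nonneg_left h3 (Nat.cast_nonneg (α := ℝ) j)
    change es (k + 3) (range (s + 1)) (ww W p) ≤ ebal (k + 3) (s + 1) a r + _ at h1
    have e : U * (j * s / (k + 3) + KK s k * ξ1 * j + KK s k * η * 0)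
      = j * (U * (s / (k + 3) + KK s k * ξ1)) := by ring
    rw [e]
    nlinarith
  · obtain ⟨q, hq⟩ := Nat.exists_eq_add_of_le hc
    have hjj : jj s a r W = -q := by
      unfold jj
      have : (((s + 1) * a + r : ℕ) : ℝ) = W.card + q := by rw [hq]; push_cast; ring
      push_cast at this
      linarith
    have hη0 : η ≤ 1 := by linarith [h.ξ1small]
    have h1 := es_down (k + 1) (s + 1) a r (by omega) (by have := h.hr; omega) ((1 - η) * a)
      (mul_nonneg (by linarith) h.apos.le) q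
      (fun i => (part W p i).card) (by rw [hsum, hq]) (fun i hi => h.wlo (mem_range.1 hi))
    rw [Nat.add_sub_cancel, mul_pow, mul_comm ((1 - η) ^ _), ← mul_assoc (s.choose _ : ℝ),
      M0_eq hs1] at h1
    have h2 := one_sub_pow_ge η hη0 (k + 2)
    have hW : (W.card : ℝ) = (s + 1) * a + r - q := by unfold jj at hjj; linarith
    rw [hjj, max_eq_right (by simp), neg_neg, max_eq_left (Nat.cast_nonneg _), hW]
    have h3 : rho s k a r - s * U / (k + 2) * (1 - η) ^ (k + 2)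
        ≤ U * (-(s / (k + 3)) + KK s k * η) := by
      have b1 : U * (s / (k + 2) * (1 - (k + 2) * η)) ≤ s * U / (k + 2) * (1 - η) ^ (k + 2) := by
        have : s * U / (k + 2) * (1 - η) ^ (k + 2) = U * (s / (k + 2) * (1 - η) ^ (k + 2)) := by ring
        rw [this]; push_cast at h2; gcongr
      have b2 : rho s k a r ≤ U * (s / ((k + 2) * (k + 3)) * (1 + 2 ^ (k + 3) * η)) := by
        refine hhi.trans ?_
        have : s * U / ((k + 2) * (k + 3)) * (1 + 2 ^ (k + 3) / a)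
          = U * (s / ((k + 2) * (k + 3)) * (1 + 2 ^ (k + 3) * (1 / a))) := by ring
        rw [this]; gcongr
      have b3 : s / ((k + 2) * (k + 3)) * (1 + 2 ^ (k + 3) * η) - s / (k + 2) * (1 - (k + 2) * η)
          ≤ -(s / (k + 3)) + KK s k * η := by
        have c1 : (s : ℝ) / ((k + 2) * (k + 3)) * 2 ^ (k + 3) + s / (k + 2) * (k + 2) ≤ KK s k := by
          have : (s : ℝ) / ((k + 2) * (k + 3)) * 2 ^ (k + 3) ≤ s * 2 ^ (k + 3) := by gcongr
          have e : (2 : ℝ) ^ (k + 3) = 8 * 2 ^ k := by ring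
          rw [e] at this ⊢
          rw [div_mul_cancel₀ _ (by positivity)]
          nlinarith
        have c2 := mul_le_mul_of_nonneg_right c1 h.hη.le
        rw [← eid]; linarith
      have b4 := mul_le_mul_of_nonneg_left b3 hU.le
      linarith
    have h4 := mul_le_mul_of_nonneg_left h3 (Nat.cast_nonneg (α := ℝ) q)
    change es (k + 3) (range (s + 1)) (ww W p) ≤ ebal (k + 3) (s + 1) a r - _ at h1
    have e : U * (-q * s / (k + 3) + KK s k * ξ1 * 0 + KK s k * η * q)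
      = q * (U * (-(s / (k + 3)) + KK s k * η)) := by ring
    rw [e]
    nlinarith

lemma kappa_le (z : V) : kc G (k + 2) (nb G z W)
    ≤ s * (P0 s k a * a) / (k + 2) * (((nb G z W).card : ℝ) / (s * a)) ^ (k + 2) := by
  have h1 : CF G s (nb G z W) := (h.cf.nb (mem_univ z)).mono (nb_mono _ (subset_univ _))
  have h2 := zykov h1 (k + 2)
  rw [← M0_eq (by omega)]
  refine h2.trans (le_of_eq ?_)
  have := h.apos
  have := h.s2
  rw [div_pow, div_pow, mul_pow]
  field_simp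

lemma B3 {u1 ε : ℝ} (hu : (k + 3) * u1 ^ (k + 1) + 2 * ε * ((k + 2) * (k + 3)) ≤ 1)
    (hε : η ≤ ε) {z : V} (hz : ((nb G z W).card : ℝ) ≤ u1 * (s * a)) :
    kc G (k + 2) (nb G z W) - lam s k a η * (nb G z W).card
      ≤ -(ε * (P0 s k a * (nb G z W).card)) := by
  have h1 := h.kappa_le hk z
  have ha := h.apos
  have hs := h.s2
  have hP := P0_pos hk ha
  set σ : ℝ := ((nb G z W).card : ℝ) with hσ
  have hσ0 : 0 ≤ σ := Nat.cast_nonneg _
  have h2 : (σ / (s * a)) ^ (k + 1) ≤ u1 ^ (k + 1) :=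
    pow_le_pow_left₀ (by positivity) (by rw [div_le_iff₀ (by positivity)]; exact hz) _
  have h3 : s * (P0 s k a * a) / (k + 2) * (σ / (s * a)) ^ (k + 2)
      = P0 s k a * σ * ((σ / (s * a)) ^ (k + 1) / (k + 2)) := by
    rw [pow_succ]; field_simp
  rw [lam_eq (by omega) k ha]
  have h4 : (σ / (s * a)) ^ (k + 1) / (k + 2) - (1 - η) / ((k + 2) * (k + 3)) ≤ -ε := by
    have e : (σ / (s * a)) ^ (k + 1) / (k + 2) - (1 - η) / ((k + 2) * (k + 3))
      = ((k + 3) * (σ / (s * a)) ^ (k + 1) - (1 - η)) / ((k + 2) * (k + 3)) := by field_simp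
    rw [e, div_le_iff₀ (by positivity)]
    have b1 := mul_le_mul_of_nonneg_left h2 (show (0 : ℝ) ≤ k + 3 by positivity)
    have b2 : (1 : ℝ) ≤ ((k : ℝ) + 2) * (k + 3) := by nlinarith [Nat.cast_nonneg (α := ℝ) k]
    nlinarith [h.hη]
  have h5 := mul_le_mul_of_nonneg_left h4 (mul_nonneg hP.le hσ0)
  have e2 : (1 - η) * P0 s k a / ((k + 2) * (k + 3)) * σ
    = P0 s k a * σ * ((1 - η) / ((k + 2) * (k + 3))) := by ring
  rw [e2]
  linarith

lemma B4 {u1 : ℝ} (h0 : 0 < u1) (h1 : u1 < 1) (hu : (k + 3) * u1 ^ (k + 1) ≤ 1)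
    {z : V} (hz : u1 * (s * a) ≤ ((nb G z W).card : ℝ)) :
    kc G (k + 2) (nb G z W) - lam s k a η * (nb G z W).card
      ≤ P0 s k a * a * (s / (k + 3) + KK s k * η)
        - 1 / ((k + 3) * (1 - u1)) * (P0 s k a * (s * a - (nb G z W).card)) := by
  have h2 := h.kappa_le hk z
  have ha := h.apos
  have hs := h.s2
  have hP := P0_pos hk ha
  have hd := h.degR' z W
  set σ : ℝ := ((nb G z W).card : ℝ) with hσ
  have hη1 : η ≤ 1 := by linarith [h.ξ1small, h.η6, h.hξ, h.hη]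
  have h3 := chord k u1 (σ / (s * a)) η h0 h1 hu h.hη.le hη1
    (by rw [le_div_iff₀ (by positivity)]; exact hz)
    (by rw [div_le_iff₀ (by positivity)]; nlinarith [h.ha])
  have h4 := mul_le_mul_of_nonneg_left h3 (show 0 ≤ s * (P0 s k a * a) by positivity)
  rw [lam_eq (by omega) k ha]
  have e1 : s * (P0 s k a * a) * ((σ / (s * a)) ^ (k + 2) / (k + 2)
      - (1 - η) * (σ / (s * a)) / ((k + 2) * (k + 3)))
      = s * (P0 s k a * a) / (k + 2) * (σ / (s * a)) ^ (k + 2)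
        - (1 - η) * P0 s k a / ((k + 2) * (k + 3)) * σ := by
    field_simp
  have hd1 : 0 < 1 - u1 := by linarith
  have e2 : s * (P0 s k a * a) * (1 / (k + 3) + 5 * 2 ^ k * η
      - 1 / ((k + 3) * (1 - u1)) * (1 - σ / (s * a)))
      = P0 s k a * a * (s / (k + 3) + 5 * s * 2 ^ k * η)
        - 1 / ((k + 3) * (1 - u1)) * (P0 s k a * (s * a - σ)) := by
    field_simp
  rw [e1, e2] at h4
  have h5 : 5 * s * 2 ^ k * η ≤ KK s k * η := by
    have := KK_ge2 s k
    have h2k : (0 : ℝ) ≤ 2 ^ k := by positivity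
    exact mul_le_mul_of_nonneg_right (by nlinarith) h.hη.le
  have h6 := mul_le_mul_of_nonneg_left h5 (mul_pos hP ha).le
  linarith

end Setup

end Pool.Agent.Lib.MP_1b6faf_co
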