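import Pool.Agent.Lib.MP_1b6faf_co.Constr

/-!
Translation to the standard notions for finite graphs.
-/

namespace Pool.Agent.Lib.MP_1b6faf_co

open Finset
open scoped Classical

section
variable {V : Type} [Fintype V] (G : SimpleGraph V)

lemma ncard_clique (t : ℕ) : ((G.cliqueSet t).ncard : ℝ) = kc G t univ := by
  rw [kc_eq_card, ← Set.ncard_coe_finset]
  congr 2
  ext K
  simp [mem_cl, SimpleGraph.isNClique_iff]

lemma ncard_nbr (v : V) : (G.neighborSet v).ncard = (nb G v univ).card := by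
  rw [← Set.ncard_coe_finset]
  congr 1
  ext u
  simp [mem_nb]

lemma cliqueFree_iff_CF (m : ℕ) : G.CliqueFree (m + 1) ↔ CF G m univ := by
  constructor
  · intro h K _ hc
    by_contra hlt
    obtain ⟨T, hT, hcard⟩ := exists_subset_card_eq (s := K) (n := m + 1) (by omega)
    exact h T ⟨hc.subset (coe_subset.2 hT), hcard⟩
  · intro h K hK
    have := h K (subset_univ _) hK.1
    rw [hK.2] at this
    omega

lemma kc3_le {D : ℕ} (h : ∀ v, (nb G v univ).card ≤ D) :
    kc G 3 univ ≤ (D : ℝ) ^ 2 * (univ : Finset V).card := by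
  have h1 := kc_succ (G := G) 2 univ
  have h2 := sum_le_card_nsmul univ (fun x => kc G 2 (nb G x univ)) ((D : ℝ) ^ 2) (fun x _ =>
    (kc_le_pow 2 _).trans (pow_le_pow_left₀ (Nat.cast_nonneg _) (by exact_mod_cast h x) 2))
  rw [nsmul_eq_mul] at h2
  have h3 := kc_nonneg (G := G) 3 univ
  push_cast at h1
  linarith

end

lemma kc_restrict (G : SimpleGraph ℕ) (S : Finset ℕ) (t : ℕ) :
    kc (G.comap (Subtype.val : S → ℕ)) t univ = kc G t S := by
  rw [kc_eq_card, kc_eq_card]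
  congr 1
  refine card_bij (fun K _ => K.map (Function.Embedding.subtype _)) ?_ ?_ ?_
  · intro K hK
    obtain ⟨h1, h2⟩ := mem_filter.1 hK
    refine mem_filter.2 ⟨mem_cl.2 ⟨fun x hx => ?_, fun x hx y hy hxy => ?_⟩, by rw [card_map, h2]⟩
    · obtain ⟨u, _, rfl⟩ := mem_map.1 hx
      exact u.2
    · obtain ⟨u, hu, rfl⟩ := mem_map.1 hx
      obtain ⟨v, hv, rfl⟩ := mem_map.1 hy
      exact (mem_cl.1 h1).2 hu hv (fun c => hxy (by rw [c]))
  · intro K _ K' _ h
    exact map_injective _ h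
  · intro K hK
    obtain ⟨h1, h2⟩ := mem_filter.1 hK
    have h3 : (K.subtype (· ∈ S)).map (Function.Embedding.subtype _) = K :=
      subtype_map_of_mem (fun x hx => (mem_cl.1 h1).1 hx)
    refine ⟨K.subtype (· ∈ S), mem_filter.2 ⟨mem_cl.2 ⟨subset_univ _, fun x hx y hy hxy => ?_⟩, ?_⟩,
      h3⟩
    · exact (mem_cl.1 h1).2 (mem_subtype.1 hx) (mem_subtype.1 hy) (fun c => hxy (Subtype.ext c))
    · rw [← h2, ← card_map (Function.Embedding.subtype _), h3]

lemma Wit.restrict {s a r : ℕ} {G : SimpleGraph ℕ} {S : Finset ℕ} (h : Wit s a r G S) :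
    Nonempty S ∧ (∀ v, ((G.comap (Subtype.val : S → ℕ)).neighborSet v).ncard ≤ s * a + r) ∧
      (G.comap (Subtype.val : S → ℕ)).CliqueFree (s + 1 + 1) := by
  refine ⟨h.1.to_subtype, fun v => ?_, fun K hK => ?_⟩
  · rw [ncard_nbr]
    refine le_trans (card_le_card_of_injOn Subtype.val (fun u hu => ?_)
      (fun _ _ _ _ c => Subtype.ext c)) (h.2.1 v v.2)
    exact mem_coe.2 (mem_nb.2 ⟨u.2, (mem_nb.1 hu).2⟩)
  · have := h.2.2 (K.map (Function.Embedding.subtype _)) (fun x hx => by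
      obtain ⟨u, _, rfl⟩ := mem_map.1 hx
      exact u.2) (fun x hx y hy hxy => by
      obtain ⟨u, hu, rfl⟩ := mem_map.1 hx
      obtain ⟨v, hv, rfl⟩ := mem_map.1 hy
      exact hK.1 hu hv (fun c => hxy (by rw [c])))
    rw [card_map, hK.2] at this
    omega

lemma dens_restrict (G : SimpleGraph ℕ) (S : Finset ℕ) (t : ℕ) :
    (((G.comap (Subtype.val : S → ℕ)).cliqueSet t).ncard : ℝ) / (Nat.card S : ℝ)
      = kc G t S / S.card := by
  rw [ncard_clique, kc_restrict]
  simp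

/-- the upper bound with its equality case -/
def UB (s k r a : ℕ) : Prop :=
  ∀ (V : Type) [Finite V] [Nonempty V] (G : SimpleGraph V),
    (∀ v, (G.neighborSet v).ncard ≤ s * a + r) → G.CliqueFree (s + 1 + 1) →
    ((G.cliqueSet (k + 3)).ncard : ℝ) / (Nat.card V : ℝ) ≤ rho s k a r ∧
    (((G.cliqueSet (k + 3)).ncard : ℝ) / (Nat.card V : ℝ) = rho s k a r →
      ((G.cliqueSet 3).ncard : ℝ) / (Nat.card V : ℝ) ≤ rho s 0 a r)

lemma uniform (s : ℕ) : ∃ a0 : ℕ, ∀ a ≥ a0, ∀ k r, k + 2 ≤ s → r < s → CI s k r → UB s k r a := by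
  have h1 : ∀ x ∈ range s ×ˢ range s, ∀ᶠ a in Filter.atTop,
      x.1 + 2 ≤ s → x.2 < s → CI s x.1 x.2 → UB s x.1 x.2 a := by
    rintro ⟨k, r⟩ _
    by_cases c : k + 2 ≤ s ∧ r < s ∧ CI s k r
    · obtain ⟨a0, h⟩ := global c.1 c.2.1 c.2.2
      refine Filter.eventually_atTop.2 ⟨a0, fun a ha _ _ _ V _ _ G hd hc => ?_⟩
      let _ := Fintype.ofFinite V
      have h2 := h a ha V G (fun x S => (card_le_card (nb_mono x (subset_univ S))).trans
        (by rw [← ncard_nbr]; exact hd x)) ((cliqueFree_iff_CF G _).1 hc)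
      have hn : (0 : ℝ) < (univ : Finset V).card := by exact_mod_cast card_pos.2 univ_nonempty
      rw [ncard_clique, ncard_clique, Nat.card_eq_fintype_card, ← card_univ, div_le_iff₀ hn,
        div_le_iff₀ hn, div_eq_iff hn.ne']
      exact h2
    · exact Filter.Eventually.of_forall fun a h1 h2 h3 => absurd ⟨h1, h2, h3⟩ c
  obtain ⟨a0, h⟩ := Filter.eventually_atTop.1 ((Filter.eventually_all_finset _).2 h1)
  exact ⟨a0, fun a ha k r hk hr => h a ha (k, r)
    (mem_product.2 ⟨mem_range.2 (by omega), mem_range.2 hr⟩) hk hr⟩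

lemma dens3_le {V : Type} [Finite V] [Nonempty V] (G : SimpleGraph V) {D : ℕ}
    (h : ∀ v, (G.neighborSet v).ncard ≤ D) :
    ((G.cliqueSet 3).ncard : ℝ) / (Nat.card V : ℝ) ≤ (D : ℝ) ^ 2 := by
  let _ := Fintype.ofFinite V
  have hn : (0 : ℝ) < (univ : Finset V).card := by exact_mod_cast card_pos.2 univ_nonempty
  rw [ncard_clique, Nat.card_eq_fintype_card, ← card_univ, div_le_iff₀ hn]
  exact kc3_le G (fun v => by rw [← ncard_nbr]; exact h v)

end Pool.Agent.Lib.MP_1b6faf_co
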