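import Pool.Agent.Lib.MP_1b6faf_co.CaseG

/-!
One extra vertex when the cliques have the largest size.
-/

namespace Pool.Agent.Lib.MP_1b6faf_co

open Finset
open scoped Classical

set_option linter.unusedSectionVars false

variable {V : Type*}

lemma es_top (k : ℕ) (y : ℕ → ℝ) (B : ℝ) (hy0 : ∀ i, 0 ≤ y i) (hB : ∀ i < k + 3, y i ≤ B)
    {i0 l : ℕ} (h0 : i0 < k + 3) (hl : l < k + 3) (hne : l ≠ i0) :
    es (k + 2) (range (k + 3)) y ≤ (y l + (k + 2) * y i0) * B ^ (k + 1) := by
  have e1 : l ∈ (range (k + 3)).erase i0 := mem_erase.2 ⟨hne, mem_range.2 hl⟩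
  rw [es_erase (k + 1) (mem_range.2 h0), es_erase (k + 1) e1]
  have c1 : ((range (k + 3)).erase i0).card = k + 2 := by
    rw [card_erase_of_mem (mem_range.2 h0), card_range]; rfl
  have c2 : (((range (k + 3)).erase i0).erase l).card = k + 1 := by
    rw [card_erase_of_mem e1, c1]; rfl
  have h1 := es_le (k + 2) (I := ((range (k + 3)).erase i0).erase l) (w := y) (b := B)
    (fun i _ => hy0 i) (fun i hi => hB i (mem_range.1 (mem_of_mem_erase (mem_of_mem_erase hi))))
  have h2 := es_le (k + 1) (I := ((range (k + 3)).erase i0).erase l) (w := y) (b := B)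
    (fun i _ => hy0 i) (fun i hi => hB i (mem_range.1 (mem_of_mem_erase (mem_of_mem_erase hi))))
  have h3 := es_le (k + 1) (I := (range (k + 3)).erase i0) (w := y) (b := B)
    (fun i _ => hy0 i) (fun i hi => hB i (mem_range.1 (mem_of_mem_erase hi)))
  rw [c2, Nat.choose_succ_self] at h1
  rw [c2, Nat.choose_self] at h2
  rw [c1, Nat.choose_succ_self_right] at h3
  have h4 := mul_le_mul_of_nonneg_left h2 (hy0 l)
  have h5 := mul_le_mul_of_nonneg_left h3 (hy0 i0)
  push_cast at *
  linarith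

namespace Setup

variable [Fintype V] {G : SimpleGraph V} {s a r : ℕ} {η ξ ξ1 : ℝ}
  {W Z Cs : Finset V} {p : V → ℕ} (h : Setup G s a r η ξ ξ1 W Z Cs p) {k : ℕ}
include h

/-- the part that an outside vertex misses -/
noncomputable def low (z : V) : ℕ := (h.low_part z).choose

lemma low_lt (z : V) : h.low z < s + 1 := (h.low_part z).choose_spec.1

lemma low_spec (z : V) : yy G W p z (h.low z) = 0 ∨
    (yy G W p z (h.low z) ≤ (s + 2) * (ξ1 * a) ∧
      ∃ i1 < s + 1, i1 ≠ h.low z ∧ yy G W p z i1 ≤ (s + 2) * (ξ1 * a)) :=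
  (h.low_part z).choose_spec.2

lemma kappa_es (k : ℕ) (z : V) : kc G k (nb G z W) ≤ es k (range (s + 1)) (yy G W p z) := by
  have h1 : Proper G p (nb G z W) := fun x hx y hy =>
    h.clu.proper x (nb_subset _ _ hx) y (nb_subset _ _ hy)
  have := kc_le_es h1 k (range (s + 1)) (fun x hx => h.mem_range_p (nb_subset _ _ hx))
  refine this.trans (le_of_eq (es_congr k fun i _ => ?_))
  rw [part_nb]; rfl

lemma wmax (hj : jj s a r W ≤ 0) {i : ℕ} (hi : i < s + 1) : ww W p i ≤ a * (1 + 2 * s * η) := by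
  have := h.cc_le hi
  unfold cc at this
  linarith

lemma dpos (hj : jj s a r W ≤ 0) {z : V} (hz : z ∈ Z) :
    ξ * a / 2 ≤ s * a - ((nb G z W).card : ℝ) := by
  have := h.far_le (h.notMem_of_Z hz)
  rw [max_eq_right hj] at this
  linarith

end Setup

namespace Setup

variable [Fintype V] {G : SimpleGraph V} {k a r : ℕ} {η ξ ξ1 : ℝ}
  {W Z Cs : Finset V} {p : V → ℕ} (h : Setup G (k + 2) a r η ξ ξ1 W Z Cs p)
  {u1 ε : ℝ} (hp : Par (k + 2) k u1 ε η ξ ξ1) (hεu : 4 * ((k : ℝ) + 3) ^ 2 * ε ≤ u1)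
include h hp hεu

lemma topC (hj : jj (k + 2) a r W ≤ 0) {z : V} (hz : z ∈ Hv G (k + 2) a u1 W Z) {i : ℕ}
    (hi : i < k + 3) (hne : i ≠ h.low z) :
    Fz G (k + 2) k a η W z ≤ P0 (k + 2) k a * (a * ((k + 2) / (k + 3) + KK (k + 2) k * η)
      - ((k + 2) / (k + 3) + u1 / (2 * (k + 3))) * (a - yy G W p z i)) := by
  have ha := h.apos
  have hP : P0 (k + 2) k a = (a : ℝ) ^ (k + 1) := by unfold P0; simp
  have hP0 := P0_pos (le_refl (k + 2)) ha
  have hu0 := hp.u0
  have hu1 := hp.uhalf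
  have hB4 := h.B4 le_rfl hu0 (by linarith) hp.hu' (mem_filter.1 hz).2
  have hσ := (mem_filter.1 hz).2
  have hd := h.dpos hj (mem_filter.1 hz).1
  have hξa : 0 < ξ * a / 2 := by have := h.ξpos; positivity
  have hk0 : (0 : ℝ) ≤ k := Nat.cast_nonneg _
  have hη := h.hη
  have hK0 : 0 ≤ KK (k + 2) k * η := mul_nonneg (by linarith [h.K1 (k := k)]) hη.le
  change Fz G (k + 2) k a η W z ≤ _ at hB4
  rw [mul_assoc, mul_left_comm (1 / _), ← mul_sub] at hB4
  have hlam := lam_eq (s := k + 2) (by omega) k ha η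
  push_cast at hB4 hσ hd
  set σ : ℝ := ((nb G z W).card : ℝ) with hσdef
  set y := yy G W p z i with hy
  set T : ℝ := (k + 2) / (k + 3) with hT
  set θ1 : ℝ := 1 / ((k + 3) * (1 - u1)) with hθ1
  have hθ10 : 0 < θ1 := by rw [hθ1]; exact one_div_pos.2 (mul_pos (by positivity) (by linarith))
  have hθ2 : 0 < T + u1 / (2 * (k + 3)) := by positivity
  rcases le_total (a : ℝ) y with hv | hv
  · refine hB4.trans (mul_le_mul_of_nonneg_left ?_ hP0.le)
    have b1 : 0 ≤ θ1 * ((k + 2) * a - σ) := mul_nonneg hθ10.le (by linarith)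
    have b2 : (T + u1 / (2 * (k + 3))) * (a - y) ≤ 0 :=
      mul_nonpos_of_nonneg_of_nonpos hθ2.le (by linarith)
    linarith
  have hes := h.kappa_es (k + 2) z
  have hy0 : 0 ≤ y := yy_nonneg _ _ _ _ _
  have hlow := h.low_lt z
  rcases h.low_spec z with h0 | ⟨h0, i1, hi1, hne1, h1⟩
  · by_cases hcase : y + u1 / 2 * (a - y) ≤ σ / (k + 2)
    · have b1 := es_top k (yy G W p z) (a * (1 + 2 * (k + 2) * η)) (yy_nonneg G W p z)
        (fun l hl => (yy_le G W p z l).trans (by have := h.wmax hj hl; push_cast at this; exact this))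
        hlow hi hne
      rw [h0, mul_zero, add_zero, mul_pow, ← hP, ← hy] at b1
      have hs1 : 2 * ((k : ℝ) + 2) * η ≤ 1 := by
        have := h.hηξ; push_cast at this; nlinarith [h.hξ, h.ξ1small]
      have b2 := one_add_pow_le' (2 * (k + 2) * η) (by positivity) hs1 (k + 1)
      have b3 : 2 ^ (k + 1) * (2 * ((k : ℝ) + 2) * η) + η ≤ KK (k + 2) k * η := by
        have c1 := KK_ge2 (k + 2) k
        have h2k : (1 : ℝ) ≤ 2 ^ k := one_le_pow₀ (by norm_num)
        push_cast at c1
        have : 2 ^ (k + 1) * (2 * ((k : ℝ) + 2)) + 1 ≤ KK (k + 2) k := by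
          rw [pow_succ]; nlinarith
        nlinarith
      have b4 : y * (1 + 2 * (k + 2) * η) ^ (k + 1) ≤ y + a * (2 ^ (k + 1) * (2 * ((k : ℝ) + 2) * η)) := by
        have c1 := mul_le_mul_of_nonneg_left b2 hy0
        have c2 : y * (2 ^ (k + 1) * (2 * ((k : ℝ) + 2) * η))
            ≤ a * (2 ^ (k + 1) * (2 * ((k : ℝ) + 2) * η)) := by gcongr
        linarith
      have b5 : η * (σ / ((k + 2) * (k + 3))) ≤ η * a := by
        gcongr
        rw [div_le_iff₀ (by positivity)]
        nlinarith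
      have b6 : (y + u1 / 2 * (a - y)) / (k + 3) ≤ σ / ((k + 2) * (k + 3)) := by
        rw [← div_div]; gcongr
      have b7 : y - (y + u1 / 2 * (a - y)) / (k + 3)
          = a * T - (T + u1 / (2 * (k + 3))) * (a - y) := by
        rw [hT]; field_simp; ring
      have b8 := mul_le_mul_of_nonneg_left b3 ha.le
      have b9 : y * (1 + 2 * (k + 2) * η) ^ (k + 1) - (1 - η) * (σ / ((k + 2) * (k + 3)))
          ≤ a * (T + KK (k + 2) k * η) - (T + u1 / (2 * (k + 3))) * (a - y) := by linarith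
      have b10 := mul_le_mul_of_nonneg_left b9 hP0.le
      unfold Fz
      rw [hlam]
      have e : (1 - η) * P0 (k + 2) k a / ((k + 2) * (k + 3)) * σ
        = P0 (k + 2) k a * ((1 - η) * (σ / ((k + 2) * (k + 3)))) := by ring
      rw [e]
      linarith
    · refine hB4.trans (mul_le_mul_of_nonneg_left ?_ hP0.le)
      push Not at hcase
      rw [div_lt_iff₀ (by positivity)] at hcase
      have b1 : (k + 2) * (1 - u1 / 2) * (a - y) ≤ (k + 2) * a - σ := by linarith
      have b2 : T + u1 / (2 * (k + 3)) ≤ θ1 * ((k + 2) * (1 - u1 / 2)) := by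
        have c1 : T + u1 / (2 * (k + 3)) = ((k + 2) + u1 / 2) / (k + 3) := by
          rw [hT]; field_simp
        have c2 : θ1 * ((k + 2) * (1 - u1 / 2)) = ((k + 2) * (1 - u1 / 2) / (1 - u1)) / (k + 3) := by
          have : 1 - u1 ≠ 0 := by linarith
          rw [hθ1]; field_simp
        rw [c1, c2]
        gcongr
        rw [le_div_iff₀ (by linarith)]
        nlinarith
      have b3 := mul_le_mul_of_nonneg_right b2 (sub_nonneg.2 hv)
      have b4 := mul_le_mul_of_nonneg_left b1 hθ10.le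
      linarith
  · have b1 := es_top k (yy G W p z) (2 * a) (yy_nonneg G W p z)
      (fun l hl => (yy_le G W p z l).trans (h.w2 hl)) hlow hi1 hne1
    rw [mul_pow, ← hP] at b1
    push_cast at h0 h1
    have hξ1 := h.ξ1pos
    have b2 : (yy G W p z i1 + (k + 2) * yy G W p z (h.low z)) * 2 ^ (k + 1)
        ≤ a * (KK (k + 2) k * ξ1) := by
      have c1 : yy G W p z i1 + (k + 2) * yy G W p z (h.low z)
          ≤ (k + 3) * ((k + 2 + 2) * (ξ1 * a)) := by
        have := mul_le_mul_of_nonneg_left h0 (show (0 : ℝ) ≤ k + 2 by positivity)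
        linarith
      have c2 := KK_ge (k + 2) k
      push_cast at c2
      have c3 : ((k : ℝ) + 3) * (k + 2 + 2) * 2 ≤ 100 * (k + 2 + 1) ^ 3 := by
        nlinarith [sq_nonneg ((k : ℝ) + 3), pow_pos (show (0 : ℝ) < k + 3 by positivity) 3]
      have c4 : ((k : ℝ) + 3) * (k + 2 + 2) * 2 * 2 ^ k ≤ KK (k + 2) k :=
        le_trans (by gcongr) c2
      calc _ ≤ (k + 3) * ((k + 2 + 2) * (ξ1 * a)) * 2 ^ (k + 1) := by gcongr
        _ = a * (((k : ℝ) + 3) * (k + 2 + 2) * 2 * 2 ^ k * ξ1) := by ring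
        _ ≤ _ := by gcongr
    have b3 : u1 * a / (k + 3) ≤ σ / ((k + 2) * (k + 3)) := by
      rw [← div_div]; gcongr
      rw [le_div_iff₀ (by positivity)]; linarith
    have b4 : KK (k + 2) k * ξ1 ≤ u1 / (4 * (k + 3)) := by
      have c1 := h.Kξ hp
      rw [le_div_iff₀ (by positivity)]
      have c2 : 0 ≤ KK (k + 2) k * ξ1 := mul_nonneg (by linarith [h.K1 (k := k)]) hξ1.le
      nlinarith [hp.ε0]
    have hη4 : η ≤ 1 / 4 := by linarith [h.ηξ1, h.ξ1small]
    have b5 : a * (KK (k + 2) k * ξ1) - (1 - η) * (σ / ((k + 2) * (k + 3)))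
        ≤ a * (T + KK (k + 2) k * η) - (T + u1 / (2 * (k + 3))) * (a - y) := by
      have c1 := mul_le_mul_of_nonneg_left b4 ha.le
      have c2 : 3 / 4 * (u1 * a / (k + 3)) ≤ (1 - η) * (σ / ((k + 2) * (k + 3))) :=
        mul_le_mul (by linarith) b3 (by positivity) (by linarith)
      have c3 : (T + u1 / (2 * (k + 3))) * (a - y) ≤ (T + u1 / (2 * (k + 3))) * a := by
        gcongr; linarith
      have c4 : a * (u1 / (4 * (k + 3))) - 3 / 4 * (u1 * a / (k + 3))
          = -(u1 / (2 * (k + 3)) * a) := by field_simp; ring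
      have c5 := mul_nonneg ha.le hK0
      linarith
    have b10 := mul_le_mul_of_nonneg_left b5 hP0.le
    have b11 := mul_le_mul_of_nonneg_left b2 hP0.le
    unfold Fz
    rw [hlam]
    have e : (1 - η) * P0 (k + 2) k a / ((k + 2) * (k + 3)) * σ
      = P0 (k + 2) k a * ((1 - η) * (σ / ((k + 2) * (k + 3)))) := by ring
    rw [e]
    linarith

lemma caseE (hJ : jj (k + 2) a r W + (Hv G (k + 2) a u1 W Z).card = 1)
    (hj0 : (Hv G (k + 2) a u1 W Z).card * max (jj (k + 2) a r W) 0 = 0)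
    (hj : (Hv G (k + 2) a u1 W Z).Nonempty → jj (k + 2) a r W ≤ 0)
    {i : ℕ} (hi : i < k + 3) (hD : DD a W p (Hv G (k + 2) a u1 W Z) h.low i ≤ 0) :
    valW G (k + 2) k a η ξ1 W Z Cs < rho (k + 2) k a r * W.card := by
  have hu0 := hp.u0
  have hu1 := hp.uhalf
  have hε0 := hp.ε0
  have hk0 : (0 : ℝ) ≤ k := Nat.cast_nonneg _
  have ha := h.apos
  have hP0 := P0_pos (le_refl (k + 2)) ha
  set T : ℝ := (k + 2) / (k + 3) with hT
  set τ : ℝ := u1 / (4 * (k + 3)) with hτ
  have hτ0 : 0 < τ := by positivity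
  have hετ : (k + 3) * ε ≤ τ := by rw [hτ, le_div_iff₀ (by positivity)]; linarith
  have hT1 : T + 2 * τ ≤ 1 := by
    have : T + 2 * τ = ((k + 2) + u1 / 2) / (k + 3) := by rw [hT, hτ]; field_simp; ring
    rw [this, div_le_one (by positivity)]; linarith
  have hT0 : 0 < T := by positivity
  have hετ' : ε ≤ τ := by nlinarith
  refine h.caseG hp le_rfl h.low (fun l => if l = i then T + τ else 0) (fun l => ?_)
    (fun l l' hll => ?_) hJ hj0 (fun l _ => ?_) ?_ (fun z hz => ?_)
  · split_ifs <;> positivity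
  · split_ifs with h1 h2 h2
    · exact absurd (h1.trans h2.symm) hll
    all_goals linarith
  · by_cases h1 : l = i
    · right; rw [h1]; exact hD
    · left; simp [h1]
  · rw [sum_eq_single i (fun l _ hl => by simp [hl]) (fun hn => absurd (mem_range.2 hi) hn)]
    push_cast
    rw [if_pos rfl, ← hT]
    nlinarith
  · have hj' := hj ⟨z, hz⟩
    have hB4 := h.B4 le_rfl hu0 (by linarith) hp.hu' (mem_filter.1 hz).2
    have hd := h.dpos hj' (mem_filter.1 hz).1
    have hξa : 0 < ξ * a / 2 := by have := h.ξpos; positivity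
    have hθ := h.θ1_ge hp le_rfl
    change Fz G (k + 2) k a η W z ≤ _ at hB4
    rw [mul_assoc, mul_left_comm (1 / _), ← mul_sub] at hB4
    have hK0 : 0 ≤ KK (k + 2) k * η := mul_nonneg (by linarith [h.K1 (k := k)]) h.hη.le
    have hK0' := mul_nonneg ha.le hK0
    push_cast at hB4 hd hθ ⊢
    rw [← hT] at hB4 ⊢
    set θ1 : ℝ := 1 / ((k + 3) * (1 - u1)) with hθ1
    set d : ℝ := (k + 2) * a - ((nb G z W).card : ℝ) with hdd
    have hεθ : ε ≤ τ * θ1 := by
      have c1 : τ * (1 / ((k : ℝ) + 2 + 1)) ≤ τ * θ1 := by gcongr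
      refine le_trans ?_ c1
      rw [mul_one_div, le_div_iff₀ (by positivity)]; linarith
    have hθ10 : 0 ≤ θ1 := le_trans (by positivity) hθ
    by_cases hne : i = h.low z
    · rw [sum_eq_zero (fun l hl => by
        have : l ≠ i := by rw [hne]; exact ne_of_mem_erase hl
        simp [this])]
      refine hB4.trans (mul_le_mul_of_nonneg_left ?_ hP0.le)
      have c1 : τ * θ1 ≤ θ1 := by nlinarith
      have c2 : ε * d ≤ θ1 * d := by gcongr <;> linarith
      linarith
    · rw [sum_eq_single i (fun l _ hl => by simp [hl])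
        (fun hn => absurd (mem_erase.2 ⟨hne, mem_range.2 hi⟩) hn), if_pos rfl]
      have hC := h.topC hp hεu hj' hz hi hne
      have e : u1 / (2 * (k + 3)) = 2 * τ := by rw [hτ]; field_simp; ring
      rw [← hT, e] at hC
      have hw := h.wmax hj' hi
      push_cast at hw
      have he := yy_le G W p z i
      have c1 := mul_le_mul_of_nonneg_left hC (show 0 ≤ 1 - τ by linarith)
      have c2 := mul_le_mul_of_nonneg_left hB4 hτ0.le
      have c3 : 2 * (k + 2) * η ≤ KK (k + 2) k * η := by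
        have := Ks (s := k + 2) (k := k)
        push_cast at this
        exact mul_le_mul_of_nonneg_right (by nlinarith) h.hη.le
      have c4 := mul_le_mul_of_nonneg_left c3 ha.le
      have c5 : (T + τ) * (ww W p i - yy G W p z i) - a * (2 * (k + 2) * η)
          ≤ (1 - τ) * ((T + 2 * τ) * (a - yy G W p z i)) := by
        have d1 : T + τ ≤ (1 - τ) * (T + 2 * τ) := by nlinarith
        have d2 : (1 - τ) * (T + 2 * τ) ≤ 1 := by nlinarith
        have d3 := mul_le_mul_of_nonneg_right d1 (sub_nonneg.2 he)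
        have d4 : 0 ≤ a * (2 * (k + 2) * η) := by have := h.hη; positivity
        have d5 := mul_le_mul_of_nonneg_right d2 d4
        have d6 : (1 - τ) * (T + 2 * τ) * (ww W p i - a)
            ≤ (1 - τ) * (T + 2 * τ) * (a * (2 * (k + 2) * η)) :=
          mul_le_mul_of_nonneg_left (by linarith) (by linarith)
        linarith
      have c6 : ε * d ≤ τ * θ1 * d := by gcongr; linarith
      have c7 : (1 - τ) * (a * (T + KK (k + 2) k * η) - (T + 2 * τ) * (a - yy G W p z i))
          + τ * (a * (T + KK (k + 2) k * η) - θ1 * d)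
          ≤ a * (T + 2 * (KK (k + 2) k * η)) - (T + τ) * (ww W p i - yy G W p z i) - ε * d := by
        linarith
      have c8 := mul_le_mul_of_nonneg_left c7 hP0.le
      linarith

end Setup

end Pool.Agent.Lib.MP_1b6faf_co
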