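import Pool.Agent.Lib.MP_1b6faf_co.CaseE

/-!
One extra vertex for triangles, four parts and remainder one.
-/

namespace Pool.Agent.Lib.MP_1b6faf_co

open Finset
open scoped Classical

set_option linter.unusedSectionVars false

variable {V : Type*}

lemma tri_num (p q r α β γ : ℝ) (hp0 : 0 ≤ p) (hp1 : p ≤ 1) (hq0 : 0 ≤ q) (hq1 : q ≤ 1)
    (hr0 : 0 ≤ r) (hr1 : r ≤ 1) (hα : α ≤ 2 / 3) (hβ : β ≤ 2 / 3) (hγ : γ ≤ 2 / 3)
    (hαβ : α + β ≤ 1) (hαγ : α + γ ≤ 1) (hβγ : β + γ ≤ 1) (hall : α + β + γ ≤ 51 / 50)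
    (hσ : 3 / 5 ≤ p + q + r) :
    (p * q + p * r + q * r) / 2 - (p + q + r) / 6 + (α * (1 - p) + β * (1 - q) + γ * (1 - r))
      ≤ 1 - 13 / 500 * (3 - (p + q + r)) := by
  have a1 := sub_nonneg.2 hp1
  have a2 := sub_nonneg.2 hq1
  have a3 := sub_nonneg.2 hr1
  have m000 : 0 ≤ (1 - p) * (1 - q) * (1 - r) := by positivity
  have m100 : 0 ≤ p * (1 - q) * (1 - r) := by positivity
  have m010 : 0 ≤ (1 - p) * q * (1 - r) := by positivity
  have m001 : 0 ≤ (1 - p) * (1 - q) * r := by positivity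
  have m110 : 0 ≤ p * q * (1 - r) := by positivity
  have m101 : 0 ≤ p * (1 - q) * r := by positivity
  have m011 : 0 ≤ (1 - p) * q * r := by positivity
  have t0 := mul_le_mul_of_nonneg_left hall m000
  have t1 := mul_le_mul_of_nonneg_left hβγ m100
  have t2 := mul_le_mul_of_nonneg_left hαγ m010
  have t3 := mul_le_mul_of_nonneg_left hαβ m001
  have t4 := mul_le_mul_of_nonneg_left hγ m110
  have t5 := mul_le_mul_of_nonneg_left hβ m101
  have t6 := mul_le_mul_of_nonneg_left hα m011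
  have h1 : (p * q + p * r + q * r) / 2 - (p + q + r) / 6 + (α * (1 - p) + β * (1 - q) + γ * (1 - r))
      ≤ 1 + 1 / 50 * ((1 - p) * (1 - q) * (1 - r)) - 1 / 6 * ((p + q + r) - (p * q + p * r + q * r)) := by
    linarith
  have h2 : (1 - p) * (1 - q) * (1 - r) ≤ (3 - (p + q + r)) / 3 := by
    have b1 : (1 - q) * (1 - r) ≤ 1 := mul_le_one₀ (by linarith) a3 (by linarith)
    have b2 : (1 - p) * (1 - r) ≤ 1 := mul_le_one₀ (by linarith) a3 (by linarith)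
    have b3 : (1 - p) * (1 - q) ≤ 1 := mul_le_one₀ (by linarith) a2 (by linarith)
    have c1 := mul_le_mul_of_nonneg_left b1 a1
    have c2 := mul_le_mul_of_nonneg_left b2 a2
    have c3 := mul_le_mul_of_nonneg_left b3 a3
    linarith
  have h3 : p * q + p * r + q * r ≤ (p + q + r) ^ 2 / 3 := by
    nlinarith [sq_nonneg (p - q), sq_nonneg (p - r), sq_nonneg (q - r)]
  have h4 : 3 / 5 * (3 - (p + q + r)) ≤ (p + q + r) * (3 - (p + q + r)) :=
    mul_le_mul_of_nonneg_right hσ (by linarith)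
  nlinarith

lemma es_two_triple {x y z : ℕ} (hxy : x ≠ y) (hxz : x ≠ z) (hyz : y ≠ z) (w : ℕ → ℝ) :
    es 2 {x, y, z} w = w x * w y + w x * w z + w y * w z ∧ es 1 {x, y, z} w = w x + w y + w z := by
  have n1 : x ∉ ({y, z} : Finset ℕ) := by simp [hxy, hxz]
  have n2 : y ∉ ({z} : Finset ℕ) := by simp [hyz]
  have e1 : ∀ k, es (k + 1) {z} w = es (k + 1) ∅ w + w z * es k ∅ w := fun k =>
    es_insert k (notMem_empty z) w
  constructor
  · rw [es_insert 1 n1, es_insert 1 n2, es_insert 0 n2, e1 1, e1 0]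
    simp only [es_empty_succ, es_zero]; ring
  · rw [es_insert 0 n1, es_insert 0 n2, e1 0]
    simp only [es_empty_succ, es_zero]; ring

lemma tri_num2 (a η ξ1 ε K y0 yp yq yr wp wq wr α β γ : ℝ) (ha : 0 < a) (hη : 0 < η)
    (hηξ : 6 * η ≤ ξ1) (hξ : 900 * ξ1 ≤ 1) (hε0 : 0 < ε) (hε : 100 * ε ≤ 1) (hK : 2700 ≤ K)
    (h0 : 0 ≤ y0) (hp0 : 0 ≤ yp) (hq0 : 0 ≤ yq) (hr0 : 0 ≤ yr)
    (hp : yp ≤ wp) (hq : yq ≤ wq) (hr : yr ≤ wr) (hp1 : wp ≤ a * (1 + 6 * η))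
    (hq1 : wq ≤ a * (1 + 6 * η)) (hr1 : wr ≤ a * (1 + 6 * η))
    (hα0 : 0 ≤ α) (hβ0 : 0 ≤ β) (hγ0 : 0 ≤ γ) (hα : α ≤ 2 / 3) (hβ : β ≤ 2 / 3) (hγ : γ ≤ 2 / 3)
    (hαβ : α + β ≤ 1) (hαγ : α + γ ≤ 1) (hβγ : β + γ ≤ 1) (hall : α + β + γ ≤ 51 / 50)
    (hσ : 3 / 10 * (3 * a) ≤ y0 + (yp + yq + yr))
    (hy0 : y0 = 0 ∨ (y0 ≤ 5 * (ξ1 * a) ∧ yp + yq + yr ≤ 5 * (ξ1 * a) + 2 * (a * (1 + 6 * η)))) :
    yp * yq + yp * yr + yq * yr + y0 * (yp + yq + yr) - (1 - η) * (2 * a) / 6 * (y0 + (yp + yq + yr))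
      ≤ 2 * a * (a * (1 + 2 * (K * η)) - (α * (wp - yp) + β * (wq - yq) + γ * (wr - yr))
        - ε * (3 * a - (y0 + (yp + yq + yr)))) := by
  set B := a * (1 + 6 * η) with hB
  have hB0 : 0 < B := by positivity
  have haB : a ≤ B := by nlinarith
  have hB2 : B ≤ 101 / 100 * a := by nlinarith
  have hξa : ξ1 * a ≤ a / 900 := by nlinarith
  have hy5 : y0 ≤ 5 * (ξ1 * a) := by
    rcases hy0 with h | h
    · rw [h]; nlinarith
    · exact h.1
  obtain ⟨p, rfl⟩ : ∃ p, yp = B * p := ⟨yp / B, by field_simp⟩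
  obtain ⟨q, rfl⟩ : ∃ q, yq = B * q := ⟨yq / B, by field_simp⟩
  obtain ⟨r, rfl⟩ : ∃ r, yr = B * r := ⟨yr / B, by field_simp⟩
  have p0 : 0 ≤ p := nonneg_of_mul_nonneg_right hp0 hB0
  have q0 : 0 ≤ q := nonneg_of_mul_nonneg_right hq0 hB0
  have r0 : 0 ≤ r := nonneg_of_mul_nonneg_right hr0 hB0
  have p1 : p ≤ 1 := le_of_mul_le_mul_left (by linarith) hB0
  have q1 : q ≤ 1 := le_of_mul_le_mul_left (by linarith) hB0
  have r1 : r ≤ 1 := le_of_mul_le_mul_left (by linarith) hB0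
  have hs : 3 / 5 ≤ p + q + r := le_of_mul_le_mul_left (a := B) (by linarith) hB0
  have h1 := tri_num p q r α β γ p0 p1 q0 q1 r0 r1 hα hβ hγ hαβ hαγ hβγ hall hs
  set e2 := p * q + p * r + q * r with he2
  set σ := p + q + r with hσ'
  set S := α * (1 - p) + β * (1 - q) + γ * (1 - r) with hS
  have he3 : e2 ≤ 3 := by
    have := mul_le_one₀ p1 q0 q1
    have := mul_le_one₀ p1 r0 r1
    have := mul_le_one₀ q1 r0 r1
    linarith
  have hσ3 : σ ≤ 3 := by linarith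
  have c1 : α * (wp - B * p) + β * (wq - B * q) + γ * (wr - B * r) ≤ B * S := by
    have d1 := mul_le_mul_of_nonneg_left hp1 hα0
    have d2 := mul_le_mul_of_nonneg_left hq1 hβ0
    have d3 := mul_le_mul_of_nonneg_left hr1 hγ0
    rw [hS]; linarith
  have c2 : 0 ≤ y0 * ((1 - η) * (2 * a) / 6) := by
    have : 0 ≤ 1 - η := by linarith
    positivity
  have c3 : B * (e2 / 2 - σ / 6 + S) ≤ B * (1 - 13 / 500 * (3 - σ)) :=
    mul_le_mul_of_nonneg_left h1 hB0.le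
  have c4 : B * (η * (3 * e2 + σ / 6)) ≤ B * (η * 10) := by gcongr; linarith
  have c5 : y0 * (B * σ) ≤ 2 * a * (2 * y0) := by
    have : B * σ ≤ 4 * a := by nlinarith
    nlinarith
  have c6 : ε * (3 * a - (y0 + B * σ)) ≤ 1 / 100 * (B * (3 - σ)) := by
    have d1 : 0 ≤ B * (3 - σ) := mul_nonneg hB0.le (by linarith)
    have d2 : ε * (3 * a - (y0 + B * σ)) ≤ ε * (B * (3 - σ)) := by gcongr; linarith
    nlinarith
  have c7 : 2 * y0 ≤ 8 / 500 * (B * (3 - σ)) := by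
    rcases hy0 with h | h
    · rw [h]; have : 0 ≤ B * (3 - σ) := mul_nonneg hB0.le (by linarith)
      linarith
    · have := h.2; linarith
  have c8 : B * (1 + 10 * η) ≤ a * (1 + 2 * (K * η)) := by
    rw [hB, mul_assoc]
    gcongr
    nlinarith
  have c9 : B * (e2 / 2 - σ / 6 + S) + B * (η * (3 * e2 + σ / 6)) + 2 * y0
      + ε * (3 * a - (y0 + B * σ)) ≤ a * (1 + 2 * (K * η)) := by linarith
  have c10 := mul_le_mul_of_nonneg_left c9 (show 0 ≤ 2 * a by positivity)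
  have c11 := mul_le_mul_of_nonneg_left c1 (show 0 ≤ 2 * a by positivity)
  have e1 : B * p * (B * q) + B * p * (B * r) + B * q * (B * r) = a * (B * e2) + 6 * (a * (B * (η * e2))) := by
    rw [he2]; nth_rewrite 2 [hB]; nth_rewrite 3 [hB]; nth_rewrite 4 [hB]; ring
  have e3 : B * p + B * q + B * r = B * σ := by rw [hσ']; ring
  rw [e1, e3]
  linarith

namespace Setup

variable [Fintype V] {G : SimpleGraph V} {a : ℕ} {η ξ ξ1 : ℝ}
  {W Z Cs : Finset V} {p : V → ℕ} (h : Setup G 3 a 1 η ξ ξ1 W Z Cs p)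
  {ε : ℝ} (hp : Par 3 0 (3 / 10) ε η ξ ξ1) (hε : 100 * ε ≤ 1)
include h hp hε

lemma perz (hj : jj 3 a 1 W ≤ 0) (θ : ℕ → ℝ) (hθ0 : ∀ i, 0 ≤ θ i) (hθ1 : ∀ i, θ i ≤ 2 / 3)
    (hθ2 : ∀ i j, i ≠ j → θ i + θ j ≤ 1)
    (hθ3 : ∀ i j l, i ≠ j → i ≠ l → j ≠ l → θ i + θ j + θ l ≤ 51 / 50)
    {z : V} (hz : z ∈ Hv G 3 a (3 / 10) W Z) :
    Fz G 3 0 a η W z ≤ P0 3 0 a * (a * (((3 : ℕ) : ℝ) / ((0 : ℕ) + 3) + 2 * (KK 3 0 * η))
      - ∑ i ∈ (range (3 + 1)).erase (h.low z), θ i * (ww W p i - yy G W p z i)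
      - ε * (((3 : ℕ) : ℝ) * a - (nb G z W).card)) := by
  have ha := h.apos
  have hlow := h.low_lt z
  have hc : ((range (3 + 1)).erase (h.low z)).card = 3 := by
    rw [card_erase_of_mem (mem_range.2 hlow), card_range]
  obtain ⟨x, y, u, hxy, hxu, hyu, hI⟩ := card_eq_three.1 hc
  have hmem : ∀ i, i ∈ ({x, y, u} : Finset ℕ) → i < 3 + 1 := fun i hi => by
    rw [← hI] at hi; exact mem_range.1 (mem_of_mem_erase hi)
  have hx := hmem x (by simp)
  have hy := hmem y (by simp)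
  have hu := hmem u (by simp)
  have h1 := h.kappa_es 2 z
  have h2 := h.sum_yy z
  rw [es_erase 1 (mem_range.2 hlow), hI, (es_two_triple hxy hxu hyu _).1,
    (es_two_triple hxy hxu hyu _).2] at h1
  have n1 : x ∉ ({y, u} : Finset ℕ) := by simp [hxy, hxu]
  rw [← add_sum_erase _ _ (mem_range.2 hlow), hI, sum_insert n1, sum_pair hyu] at h2
  rw [hI, sum_insert n1, sum_pair hyu]
  have hw : ∀ i < 3 + 1, ww W p i ≤ a * (1 + 6 * η) := fun i hi => by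
    have := h.wmax hj hi; push_cast at this; linarith
  have hσ := (mem_filter.1 hz).2
  have h3 := tri_num2 a η ξ1 ε (KK 3 0) (yy G W p z (h.low z)) (yy G W p z x) (yy G W p z y)
    (yy G W p z u) (ww W p x) (ww W p y) (ww W p u) (θ x) (θ y) (θ u) ha h.hη
    (by linarith [h.η6, h.hξ]) h.ξ1small hp.ε0 hε h.K1 (yy_nonneg _ _ _ _ _) (yy_nonneg _ _ _ _ _)
    (yy_nonneg _ _ _ _ _) (yy_nonneg _ _ _ _ _) (yy_le _ _ _ _ _) (yy_le _ _ _ _ _)
    (yy_le _ _ _ _ _) (hw x hx) (hw y hy) (hw u hu) (hθ0 _) (hθ0 _) (hθ0 _) (hθ1 _) (hθ1 _)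
    (hθ1 _) (hθ2 _ _ hxy) (hθ2 _ _ hxu) (hθ2 _ _ hyu) (hθ3 _ _ _ hxy hxu hyu)
    (by push_cast at hσ; linarith) (by
      rcases h.low_spec z with h0 | ⟨h0, i1, hi1, hne, h4⟩
      · exact Or.inl h0
      · right
        push_cast at h0 h4
        refine ⟨by linarith, ?_⟩
        have : i1 ∈ ({x, y, u} : Finset ℕ) := by
          rw [← hI]; exact mem_erase.2 ⟨hne, mem_range.2 hi1⟩
        have b1 := (yy_le G W p z x).trans (hw x hx)
        have b2 := (yy_le G W p z y).trans (hw y hy)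
        have b3 := (yy_le G W p z u).trans (hw u hu)
        simp only [mem_insert, mem_singleton] at this
        rcases this with rfl | rfl | rfl <;> linarith)
  have hP : P0 3 0 a = 2 * a := by unfold P0; norm_num
  unfold Fz
  rw [lam_eq (by norm_num) 0 ha, hP, ← h2]
  push_cast
  norm_num at h1 h3 ⊢
  linarith

end Setup

end Pool.Agent.Lib.MP_1b6faf_co
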