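import Pool.Agent.Lib.MP_1b6faf_co.Cases

/-!
The case of exactly one extra vertex, with prices depending on the part.
-/

namespace Pool.Agent.Lib.MP_1b6faf_co

open Finset
open scoped Classical

set_option linter.unusedSectionVars false

variable {V : Type*}

noncomputable def DD (a : ℕ) (W : Finset V) (p : V → ℕ) (H : Finset V) (i0 : V → ℕ) (i : ℕ) : ℝ :=
  ww W p i - a + (H.filter (fun z => i0 z = i)).card

noncomputable def EE (G : SimpleGraph V) (W : Finset V) (p : V → ℕ) (H : Finset V) (i0 : V → ℕ)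
    (i : ℕ) : ℝ := ∑ z ∈ H.filter (fun z => ¬ i0 z = i), (ww W p i - yy G W p z i)

lemma sum_EE (G : SimpleGraph V) (W : Finset V) (p : V → ℕ) (H : Finset V) (i0 : V → ℕ)
    (I : Finset ℕ) (θ : ℕ → ℝ) :
    ∑ z ∈ H, ∑ i ∈ I.erase (i0 z), θ i * (ww W p i - yy G W p z i)
      = ∑ i ∈ I, θ i * EE G W p H i0 i := by
  unfold EE
  simp_rw [mul_sum, sum_filter, ← filter_ne', sum_filter]
  rw [sum_comm]
  refine sum_congr rfl fun i _ => sum_congr rfl fun z _ => ?_
  by_cases h : i0 z = i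
  · simp [h]
  · simp [h, Ne.symm h]

lemma EE_nonneg (G : SimpleGraph V) (W : Finset V) (p : V → ℕ) (H : Finset V) (i0 : V → ℕ)
    (i : ℕ) : 0 ≤ EE G W p H i0 i :=
  sum_nonneg fun z _ => sub_nonneg.2 (yy_le G W p z i)

namespace Setup

variable [Fintype V] {G : SimpleGraph V} {s a r : ℕ} {η ξ ξ1 : ℝ}
  {W Z Cs : Finset V} {p : V → ℕ} (h : Setup G s a r η ξ ξ1 W Z Cs p) {k : ℕ}
include h

lemma sum_DD {H : Finset V} {i0 : V → ℕ} (hi0 : ∀ z ∈ H, i0 z < s + 1) :
    ∑ i ∈ range (s + 1), DD a W p H i0 i = r + (jj s a r W + H.card) := by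
  unfold DD
  rw [sum_add_distrib, sum_sub_distrib, h.sum_ww]
  have h1 : H.card = ∑ i ∈ range (s + 1), (H.filter (fun z => i0 z = i)).card :=
    card_eq_sum_card_fiberwise (fun z hz => mem_range.2 (hi0 z hz))
  have h2 : (H.card : ℝ) = ∑ i ∈ range (s + 1), ((H.filter (fun z => i0 z = i)).card : ℝ) := by
    exact_mod_cast h1
  rw [← h2]
  simp only [sum_const, card_range, nsmul_eq_mul]
  unfold jj
  push_cast
  ring

lemma need {H : Finset V} (hH : H ⊆ Z) (i0 : V → ℕ) (hJ : jj s a r W + H.card = 1) (i : ℕ) :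
    ww W p i * (1 - DD a W p H i0 i) - EE G W p H i0 i
      + ∑ x ∈ part W p i, ((nb G x Cs).card : ℝ) ≤ ∑ x ∈ part W p i, ((mx G p W x).card : ℝ) := by
  have h1 : ∀ x ∈ part W p i, ((nb G x H).card : ℝ) + (nb G x Cs).card
      ≤ cc s a r W p i + (mx G p W x).card := by
    intro x hx
    have b1 := h.out_le (mem_part.1 hx).1
    rw [(mem_part.1 hx).2, h.out_split] at b1
    have b2 : ((nb G x H).card : ℝ) ≤ (nb G x Z).card := Nat.cast_le.2 (card_le_card (nb_mono _ hH))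
    linarith
  have h2 := sum_le_sum h1
  rw [sum_add_distrib, sum_add_distrib, sum_const, nsmul_eq_mul, sum_card_nb_comm] at h2
  change ∑ z ∈ H, yy G W p z i + _ ≤ ww W p i * _ + _ at h2
  have h3 : ∑ z ∈ H.filter (fun z => ¬ i0 z = i), yy G W p z i ≤ ∑ z ∈ H, yy G W p z i :=
    sum_le_sum_of_subset_of_nonneg (filter_subset _ _) fun z _ _ => yy_nonneg _ _ _ _ _
  have h4 : ((H.filter (fun z => i0 z = i)).card : ℝ) + (H.filter (fun z => ¬ i0 z = i)).card
      = H.card := by exact_mod_cast card_filter_add_card_filter_not _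
  unfold EE DD
  rw [sum_sub_distrib, sum_const, nsmul_eq_mul]
  unfold cc at h2
  have h5 : ((H.filter (fun z => ¬ i0 z = i)).card : ℝ)
      = 1 - jj s a r W - (H.filter (fun z => i0 z = i)).card := by linarith
  rw [h5]
  linarith

lemma weighted_mis (θ : ℕ → ℝ) :
    ∑ i ∈ range (s + 1), θ i * ∑ x ∈ part W p i, ((mx G p W x).card : ℝ)
      = ∑ e ∈ mis G p W, (θ (p e.1) + θ (p e.2)) := by
  rw [← sum_mx p W (fun x _ => θ (p x)),
    sum_parts (I := range (s + 1)) (p := p) (fun x hx => h.mem_range_p hx)]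
  refine sum_congr rfl fun i _ => ?_
  rw [mul_sum]
  refine sum_congr rfl fun x hx => ?_
  rw [(mem_part.1 hx).2, sum_const, nsmul_eq_mul, mul_comm]

variable {u1 ε : ℝ} (hp : Par s k u1 ε η ξ ξ1) (hk : k + 2 ≤ s)
include hp hk

lemma caseG (i0 : V → ℕ) (θ : ℕ → ℝ) (hθ0 : ∀ i, 0 ≤ θ i)
    (hpair : ∀ i j, i ≠ j → θ i + θ j ≤ 1 - ε)
    (hJ : jj s a r W + (Hv G s a u1 W Z).card = 1)
    (hj0 : (Hv G s a u1 W Z).card * max (jj s a r W) 0 = 0)
    (hD : ∀ i < s + 1, θ i = 0 ∨ DD a W p (Hv G s a u1 W Z) i0 i ≤ 0)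
    (hsum : s / (k + 3) + ε ≤ ∑ i ∈ range (s + 1), θ i * (1 - DD a W p (Hv G s a u1 W Z) i0 i))
    (hz : ∀ z ∈ Hv G s a u1 W Z, Fz G s k a η W z ≤ P0 s k a * (a * (s / (k + 3) + 2 * (KK s k * η))
      - ∑ i ∈ (range (s + 1)).erase (i0 z), θ i * (ww W p i - yy G W p z i)
      - ε * (s * a - (nb G z W).card))) :
    valW G s k a η ξ1 W Z Cs < rho s k a r * W.card := by
  have h1 := h.star0 hp hk
  have h2 := h.Ds_ge u1
  have hP := P0_pos hk h.apos
  have ha := h.apos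
  have hs := h.s2
  have h3 := sum_le_sum hz
  rw [← mul_sum, sum_sub_distrib, sum_sub_distrib, sum_EE, sum_const, nsmul_eq_mul, ← mul_sum] at h3
  change _ ≤ _ * (_ - _ - ε * Ds G s a u1 W Z) at h3
  have h4 : ∑ i ∈ range (s + 1), θ i * (ww W p i * (1 - DD a W p (Hv G s a u1 W Z) i0 i)
      - EE G W p (Hv G s a u1 W Z) i0 i)
      ≤ ∑ i ∈ range (s + 1), θ i * ∑ x ∈ part W p i, ((mx G p W x).card : ℝ) := by
    refine sum_le_sum fun i _ => mul_le_mul_of_nonneg_left ?_ (hθ0 i)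
    have b1 := h.need (H := Hv G s a u1 W Z) (filter_subset _ _) i0 hJ i
    have b2 : 0 ≤ ∑ x ∈ part W p i, ((nb G x Cs).card : ℝ) :=
      sum_nonneg fun _ _ => Nat.cast_nonneg _
    linarith
  rw [h.weighted_mis] at h4
  have h5 := sum_le_card_nsmul (mis G p W) (fun e => θ (p e.1) + θ (p e.2)) (1 - ε)
    (fun e he => hpair _ _ (mem_mis.1 he).2.2.1.ne)
  rw [nsmul_eq_mul] at h5
  have hη1 : η ≤ 1 := by linarith [h.ηξ1, h.ξ1small]
  have h6 : (1 - η) * a * ∑ i ∈ range (s + 1), θ i * (1 - DD a W p (Hv G s a u1 W Z) i0 i)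
      - ∑ i ∈ range (s + 1), θ i * EE G W p (Hv G s a u1 W Z) i0 i
      ≤ ∑ i ∈ range (s + 1), θ i * (ww W p i * (1 - DD a W p (Hv G s a u1 W Z) i0 i)
        - EE G W p (Hv G s a u1 W Z) i0 i) := by
    rw [mul_sum, ← sum_sub_distrib]
    refine sum_le_sum fun i hi => ?_
    rcases hD i (mem_range.1 hi) with b | b
    · rw [b]; simp
    · have b1 := h.wlo (mem_range.1 hi)
      have b2 : 0 ≤ θ i * (1 - DD a W p (Hv G s a u1 W Z) i0 i) := mul_nonneg (hθ0 i) (by linarith)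
      nlinarith
  have h7 := mul_le_mul_of_nonneg_left hsum (mul_nonneg (sub_nonneg.2 hη1) ha.le)
  have hh : (0 : ℝ) ≤ (Hv G s a u1 W Z).card := Nat.cast_nonneg _
  have hμ : (0 : ℝ) ≤ (mis G p W).card := Nat.cast_nonneg _
  have hKξ := h.Kξ hp
  have hε1 := hp.ε1
  have hε0 := hp.ε0
  have hKη := h.sKη hp
  have hKη' := h.Kη hp
  have hεξ := h.εξ hp
  have hK0 : 0 ≤ KK s k * η := mul_nonneg (by linarith [h.K1 (k := k)]) h.hη.le
  have hKξ0 : 0 ≤ KK s k * ξ1 := mul_nonneg (by linarith [h.K1 (k := k)]) h.ξ1pos.le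
  have hst : (s : ℝ) / (k + 3) ≤ s := div_le_self (by linarith) (by linarith [Nat.cast_nonneg (α := ℝ) k])
  have hηs : η * (s / (k + 3) + ε) ≤ KK s k * η := by
    have := Ks (s := s) (k := k)
    rw [mul_comm]
    exact mul_le_mul_of_nonneg_right (by nlinarith) h.hη.le
  set H : ℝ := ((Hv G s a u1 W Z).card : ℝ)
  set j := jj s a r W
  set A := KK s k * η
  set B := KK s k * ξ1
  set μ : ℝ := ((mis G p W).card : ℝ)
  set D := Ds G s a u1 W Z
  set T := (s : ℝ) / (k + 3) with hT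
  have hjp : max j 0 ≤ 1 := max_le (by linarith) (by norm_num)
  have hjm : max (-j) 0 ≤ H := max_le (by linarith) hh
  have c1 : μ * (1 - ε) ≤ μ * (1 - 3 * B) := by gcongr; linarith
  have c2 : ε * (H * (ξ * a / 2)) ≤ ε * D := by
    refine mul_le_mul_of_nonneg_left ?_ hε0.le
    linarith
  have c3 : B * max j 0 + 2 * A * max (-j) 0 + 2 * s * A * H + A + H * (2 * A) + η * (T + ε) - ε
      - ε * ξ / 2 * H < 0 := by
    have f1 : (2 * s + 4) * A ≤ ε * ξ / 2 := by nlinarith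
    have f2 : (2 * s + 4) * A * H ≤ ε * ξ / 2 * H := by gcongr
    have f3 : A * max (-j) 0 ≤ A * H := by gcongr
    have f4 : B * max j 0 ≤ B * 1 := by gcongr
    linarith
  have c4 := mul_neg_of_pos_of_neg ha c3
  have e1 : j * s / (k + 3) = j * T := by rw [hT]; ring
  have e2 : a * (j * T) + H * (a * T) = a * T := by
    have : j = 1 - H := by linarith
    rw [this]; ring
  rw [e1] at h1
  have b7 : a * (j * T + B * max j 0 + 2 * A * max (-j) 0 + 2 * s * A * H + A) - μ * (1 - 3 * B)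
      + (H * (a * (T + 2 * A)) - ∑ i ∈ range (s + 1), θ i * EE G W p (Hv G s a u1 W Z) i0 i - ε * D)
      < 0 := by linarith
  have := mul_neg_of_pos_of_neg hP b7
  linarith

end Setup

end Pool.Agent.Lib.MP_1b6faf_co
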