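import Pool.Agent.Lib.MP_1b6faf_co.CaseF

/-!
The tie between the Turan graph and the graph with one more vertex (triangles, four parts).
-/

namespace Pool.Agent.Lib.MP_1b6faf_co

open Finset
open scoped Classical

set_option linter.unusedSectionVars false

variable {V : Type*}

lemma ebal_341 (a : ℕ) : ebal 3 4 a 1 = 4 * (a : ℝ) ^ 3 + 3 * (a : ℝ) ^ 2 := by
  unfold ebal
  have : range 4 = insert 0 (insert 1 (insert 2 (insert 3 ∅))) := by decide
  rw [this]
  simp only [es_insert, mem_insert, notMem_empty, OfNat.ofNat_ne_zero, OfNat.ofNat_ne_one,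
    zero_ne_one, OfNat.zero_ne_ofNat, OfNat.one_ne_ofNat, or_self, not_false_eq_true,
    es_empty_succ, es_zero, Nat.reduceEqDiff, balw]
  norm_num
  ring

lemma ebal_342 (a : ℕ) : ebal 3 4 a 2 = 4 * (a : ℝ) ^ 3 + 6 * (a : ℝ) ^ 2 + 2 * a := by
  unfold ebal
  have : range 4 = insert 0 (insert 1 (insert 2 (insert 3 ∅))) := by decide
  rw [this]
  simp only [es_insert, mem_insert, notMem_empty, OfNat.ofNat_ne_zero, OfNat.ofNat_ne_one,
    zero_ne_one, OfNat.zero_ne_ofNat, OfNat.one_ne_ofNat, or_self, not_false_eq_true,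
    es_empty_succ, es_zero, Nat.reduceEqDiff, balw]
  norm_num
  ring

noncomputable def misIn (G : SimpleGraph V) (p : V → ℕ) (W : Finset V) (A B : ℕ) : Finset (V × V) :=
  (mis G p W).filter (fun e => (p e.1 = A ∨ p e.1 = B) ∧ (p e.2 = A ∨ p e.2 = B))

noncomputable def misOut (G : SimpleGraph V) (p : V → ℕ) (W : Finset V) (A B : ℕ) : Finset (V × V) :=
  (mis G p W).filter (fun e => ¬ ((p e.1 = A ∨ p e.1 = B) ∧ (p e.2 = A ∨ p e.2 = B)))

noncomputable def rest (p : V → ℕ) (W : Finset V) (A B : ℕ) : Finset V :=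
  W.filter (fun x => ¬ (p x = A ∨ p x = B))

lemma sum_mis_split (G : SimpleGraph V) (p : V → ℕ) (W : Finset V) (A B : ℕ) (f : V × V → ℝ) :
    ∑ e ∈ mis G p W, f e = ∑ e ∈ misIn G p W A B, f e + ∑ e ∈ misOut G p W A B, f e :=
  (sum_filter_add_sum_filter_not _ _ _).symm

lemma nn_rest_sum (G : SimpleGraph V) (p : V → ℕ) (W : Finset V) (A B : ℕ) :
    ∑ x ∈ W, (if p x = A ∨ p x = B then ((nn G x (rest p W A B)).card : ℝ) else 0)
      ≤ (misOut G p W A B).card := by
  have h1 := sum_mx (G := G) p W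
    (fun x y => if (p x = A ∨ p x = B) ∧ ¬ (p y = A ∨ p y = B) then (1 : ℝ) else 0)
  have h2 : ∀ x ∈ W, (if p x = A ∨ p x = B then ((nn G x (rest p W A B)).card : ℝ) else 0)
      = ∑ y ∈ mx G p W x, (if (p x = A ∨ p x = B) ∧ ¬ (p y = A ∨ p y = B) then (1 : ℝ) else 0) := by
    intro x _
    by_cases hx : p x = A ∨ p x = B
    · rw [if_pos hx, ← sum_filter, sum_const, nsmul_eq_mul, mul_one]
      congr 2
      ext y
      simp only [mem_nn, rest, mem_filter, mem_mx]
      constructor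
      · rintro ⟨⟨a1, a2⟩, a3⟩
        exact ⟨⟨a1, fun h => a2 (h ▸ hx), a3⟩, hx, a2⟩
      · rintro ⟨⟨a1, _, a3⟩, _, a5⟩
        exact ⟨⟨a1, a5⟩, a3⟩
    · simp [hx]
  rw [sum_congr rfl h2, h1, sum_mis_split G p W A B]
  have h3 : ∑ e ∈ misIn G p W A B,
      ((if (p e.1 = A ∨ p e.1 = B) ∧ ¬ (p e.2 = A ∨ p e.2 = B) then (1 : ℝ) else 0)
        + (if (p e.2 = A ∨ p e.2 = B) ∧ ¬ (p e.1 = A ∨ p e.1 = B) then (1 : ℝ) else 0)) = 0 := by
    refine sum_eq_zero fun e he => ?_
    have := (mem_filter.1 he).2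
    rw [if_neg (fun h => h.2 this.2), if_neg (fun h => h.2 this.1), add_zero]
  rw [h3, zero_add]
  have h4 := sum_le_card_nsmul (misOut G p W A B) (fun e =>
    ((if (p e.1 = A ∨ p e.1 = B) ∧ ¬ (p e.2 = A ∨ p e.2 = B) then (1 : ℝ) else 0)
        + (if (p e.2 = A ∨ p e.2 = B) ∧ ¬ (p e.1 = A ∨ p e.1 = B) then (1 : ℝ) else 0))) 1
    (fun e _ => by
      by_cases a1 : p e.1 = A ∨ p e.1 = B <;> by_cases a2 : p e.2 = A ∨ p e.2 = B <;>
        simp only [a1, a2, not_true, not_false_iff, and_true, and_false, if_true, if_false] <;>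
        norm_num)
  simpa using h4

namespace Setup

variable [Fintype V] {G : SimpleGraph V} {s a r : ℕ} {η ξ ξ1 : ℝ}
  {W Z Cs : Finset V} {p : V → ℕ} (h : Setup G s a r η ξ ξ1 W Z Cs p)
include h

lemma T0 (hk : 0 + 2 ≤ s) (A B : ℕ) : kc G 3 W ≤ es 3 (range (s + 1)) (ww W p)
    - (rest p W A B).card * (misIn G p W A B).card
    - (misOut G p W A B).card * (P0 s 0 a * (1 - KK s 0 * ξ1) - ξ1 * a) := by
  have h1 := h.kc_W_le 1
  rw [sum_mis_split G p W A B] at h1
  have h2 := card_nsmul_le_sum (misOut G p W A B) _ _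
    (fun e he => h.destroyed hk (e := e) (mem_filter.1 he).1)
  rw [nsmul_eq_mul] at h2
  have h3 : ∀ e ∈ misIn G p W A B, ((rest p W A B).card : ℝ)
      - ((nn G e.1 (rest p W A B)).card + (nn G e.2 (rest p W A B)).card)
      ≤ kc G 1 (nb G e.1 (nb G e.2 W)) := by
    intro e _
    rw [kc_one]
    have b1 : rest p W A B ⊆ nb G e.1 (nb G e.2 W) ∪ nn G e.1 (rest p W A B)
        ∪ nn G e.2 (rest p W A B) := by
      intro u hu
      have := (mem_filter.1 hu).1
      simp only [mem_union, mem_nb, mem_nn]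
      tauto
    have b2 : ((rest p W A B).card : ℝ) ≤ (nb G e.1 (nb G e.2 W)).card
        + (nn G e.1 (rest p W A B)).card + (nn G e.2 (rest p W A B)).card := by
      exact_mod_cast (card_le_card b1).trans ((card_union_le _ _).trans
        (Nat.add_le_add_right (card_union_le _ _) _))
    linarith
  have h4 := sum_le_sum h3
  rw [sum_sub_distrib, sum_const, nsmul_eq_mul] at h4
  have h5 := sum_mx (G := G) p W (fun x y => if (p x = A ∨ p x = B) ∧ (p y = A ∨ p y = B)
    then ((nn G x (rest p W A B)).card : ℝ) else 0)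
  have h6 : ∑ e ∈ misIn G p W A B,
      (((nn G e.1 (rest p W A B)).card : ℝ) + (nn G e.2 (rest p W A B)).card)
      = ∑ e ∈ mis G p W, ((if (p e.1 = A ∨ p e.1 = B) ∧ (p e.2 = A ∨ p e.2 = B)
        then ((nn G e.1 (rest p W A B)).card : ℝ) else 0)
        + (if (p e.2 = A ∨ p e.2 = B) ∧ (p e.1 = A ∨ p e.1 = B)
        then ((nn G e.2 (rest p W A B)).card : ℝ) else 0)) := by
    unfold misIn
    rw [sum_filter]
    refine sum_congr rfl fun e _ => ?_
    by_cases a1 : p e.1 = A ∨ p e.1 = B <;> by_cases a2 : p e.2 = A ∨ p e.2 = B <;>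
      simp only [a1, a2, and_true, and_false, if_true, if_false, add_zero]
  have h7 : ∀ x ∈ W, ∑ y ∈ mx G p W x, (if (p x = A ∨ p x = B) ∧ (p y = A ∨ p y = B)
      then ((nn G x (rest p W A B)).card : ℝ) else 0)
      ≤ ξ1 * a * (if p x = A ∨ p x = B then ((nn G x (rest p W A B)).card : ℝ) else 0) := by
    intro x hx
    have b1 := sum_le_card_nsmul (mx G p W x) (fun y => if (p x = A ∨ p x = B) ∧ (p y = A ∨ p y = B)
      then ((nn G x (rest p W A B)).card : ℝ) else 0)
      (if p x = A ∨ p x = B then ((nn G x (rest p W A B)).card : ℝ) else 0) (fun y _ => by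
        by_cases a1 : p x = A ∨ p x = B <;> by_cases a2 : p y = A ∨ p y = B <;>
          simp only [a1, a2, and_true, and_false, if_true, if_false, le_refl, Nat.cast_nonneg])
    rw [nsmul_eq_mul] at b1
    refine b1.trans (mul_le_mul_of_nonneg_right (h.clu.miss x hx) ?_)
    split_ifs
    · exact Nat.cast_nonneg _
    · exact le_rfl
  have h8 := sum_le_sum h7
  rw [← mul_sum, h5, ← h6] at h8
  have h9 := mul_le_mul_of_nonneg_left (nn_rest_sum G p W A B) (mul_pos h.ξ1pos h.apos).le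
  linarith

lemma Er_ref {H : Finset V} (hH : H ⊆ Z) : Er1 G s 0 a W Z + Er2 G 0 a ξ1 W Cs
    ≤ 4 * (ξ1 * a) * ∑ z ∈ Z \ H, ((nb G z W).card : ℝ) + (H.card : ℝ) ^ 2 * W.card
      + (H.card + 2 * (ξ1 * a)) * ∑ x ∈ W, ((nb G x Cs).card : ℝ) := by
  unfold Er1 Er2
  have e : (H.card : ℝ) ^ 2 * W.card = ∑ _x ∈ W, (H.card : ℝ) ^ 2 := by simp [mul_comm]
  rw [← sum_add_distrib, ← sum_card_nb_comm, mul_sum, mul_sum, e, ← sum_add_distrib,
    ← sum_add_distrib]
  refine sum_le_sum fun x hx => ?_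
  have b1 := h.out_split x
  have b2 := h.out_le' hx
  have b3 : ((nb G x Z).card : ℝ) = (nb G x (Z \ H)).card + (nb G x H).card := by
    have : nb G x Z = nb G x (Z \ H) ∪ nb G x H := by
      unfold nb; rw [← filter_union, sdiff_union_of_subset hH]
    rw [this, card_union_of_disjoint (sdiff_disjoint.mono (nb_subset _ _) (nb_subset _ _))]
    push_cast; rfl
  have b4 : ((nb G x H).card : ℝ) ≤ H.card := Nat.cast_le.2 (card_le_card (nb_subset _ _))
  have c1 : (0 : ℝ) ≤ (nb G x (Z \ H)).card := Nat.cast_nonneg _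
  have c2 : (0 : ℝ) ≤ (nb G x H).card := Nat.cast_nonneg _
  have c3 : (0 : ℝ) ≤ (nb G x Cs).card := Nat.cast_nonneg _
  rw [b1, b3] at b2 ⊢
  simp only [pow_zero, mul_one]
  have d1 := mul_le_mul_of_nonneg_left b2 c1
  have d2 := mul_le_mul_of_nonneg_left (show ((nb G x H).card : ℝ) ≤ 2 * (ξ1 * a) by linarith) c1
  have d3 := mul_le_mul b4 b4 c2 (Nat.cast_nonneg _)
  have d4 := mul_le_mul_of_nonneg_right b4 c3
  have d5 := mul_le_mul_of_nonneg_left (show ((nb G x Cs).card : ℝ) - 1 ≤ 2 * (ξ1 * a) by linarith) c3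
  nlinarith

lemma sum_EE_le (hj : jj s a r W ≤ 0) (u1 : ℝ) :
    ∑ i ∈ range (s + 1), EE G W p (Hv G s a u1 W Z) h.low i ≤ 3 * Ds G s a u1 W Z := by
  have h1 := sum_EE G W p (Hv G s a u1 W Z) h.low (range (s + 1)) (fun _ => 1)
  simp only [one_mul] at h1
  rw [← h1]
  unfold Ds
  rw [mul_sum]
  refine sum_le_sum fun z hz => ?_
  have b1 := h.dpos hj (mem_filter.1 hz).1
  have b2 := h.cc_eq (h.low_lt z)
  have b3 := h.sum_yy z
  rw [← add_sum_erase _ _ (mem_range.2 (h.low_lt z))] at b3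
  rw [sum_sub_distrib]
  have b4 := h.wlo (h.low_lt z)
  have b5 := mul_le_mul_of_nonneg_right h.hηξ h.apos.le
  have b6 : yy G W p z (h.low z) ≤ s * a - ((nb G z W).card : ℝ) := by
    rcases h.low_spec z with c | ⟨c, i1, c1, c2, c3⟩
    · rw [c]; have := mul_pos h.ξpos h.apos; linarith
    · have := h.two_small (h.low_lt z) c1 c2 c c3
      have := mul_le_mul_of_nonneg_right h.sξ1 h.apos.le
      have := mul_pos h.ξ1pos h.apos
      nlinarith [h.s2]
  unfold cc at b2
  nlinarith [h.rs, h.ha, h.s2]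

end Setup

namespace Setup

variable [Fintype V] {G : SimpleGraph V} {a : ℕ} {η ξ ξ1 : ℝ}
  {W Z Cs : Finset V} {p : V → ℕ} (h : Setup G 3 a 1 η ξ ξ1 W Z Cs p)
  {ε : ℝ} (hp : Par 3 0 (3 / 10) ε η ξ ξ1) (hε : 100 * ε ≤ 1)
include h hp hε

lemma caseT (hJ : jj 3 a 1 W + (Hv G 3 a (3 / 10) W Z).card = 1)
    (hj : Hv G 3 a (3 / 10) W Z = ∅ ∨ (jj 3 a 1 W ≤ 0))
    {A B : ℕ} (hA : A < 4) (hB : B < 4) (hAB : B ≠ A)
    (hDA : DD a W p (Hv G 3 a (3 / 10) W Z) h.low A = 0)
    (hDB : DD a W p (Hv G 3 a (3 / 10) W Z) h.low B = 0)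
    (hD : ∀ i < 4, i ≠ A → i ≠ B → DD a W p (Hv G 3 a (3 / 10) W Z) h.low i = 1) :
    valW G 3 0 a η ξ1 W Z Cs < rho 3 0 a 1 * W.card := by
  have ha := h.apos
  have hP : P0 3 0 a = 2 * a := by unfold P0; norm_num
  set H := Hv G 3 a (3 / 10) W Z with hHdef
  have hHZ : H ⊆ Z := filter_subset _ _
  set I := ((range (3 + 1)).erase A).erase B with hI
  have eB : B ∈ (range (3 + 1)).erase A := mem_erase.2 ⟨hAB, mem_range.2 hB⟩
  have split : ∀ f : ℕ → ℝ, ∑ i ∈ range (3 + 1), f i = f A + (f B + ∑ i ∈ I, f i) := fun f => by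
    rw [hI, add_sum_erase _ f eB, add_sum_erase _ f (mem_range.2 hA)]
  have hImem : ∀ i ∈ I, i < 4 ∧ i ≠ A ∧ i ≠ B := fun i hi =>
    ⟨mem_range.1 (mem_of_mem_erase (mem_of_mem_erase hi)), ne_of_mem_erase (mem_of_mem_erase hi),
      ne_of_mem_erase hi⟩
  have hIcard : I.card = 2 := by
    rw [hI, card_erase_of_mem eB, card_erase_of_mem (mem_range.2 hA), card_range]
  have hT0 := h.T0 (by norm_num) A B
  have hEr := h.Er_ref hHZ
  have hl := h.light hp (by norm_num)
  rw [hP] at hT0 hl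
  rw [← hHdef] at hl
  set M : ℕ → ℝ := fun i => ∑ x ∈ part W p i, ((mx G p W x).card : ℝ) with hM
  set OC : ℕ → ℝ := fun i => ∑ x ∈ part W p i, ((nb G x Cs).card : ℝ) with hOC
  have hOC0 : ∀ i, 0 ≤ OC i := fun i => sum_nonneg fun _ _ => Nat.cast_nonneg _
  have hOCt : ∑ x ∈ W, ((nb G x Cs).card : ℝ) = OC A + (OC B + ∑ i ∈ I, OC i) := by
    rw [← split, sum_parts (I := range (3 + 1)) (p := p) (fun x hx => h.mem_range_p hx)]
  have nA : ww W p A - EE G W p H h.low A + OC A ≤ M A := by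
    have := h.need hHZ h.low hJ A
    rwa [hDA, sub_zero, mul_one] at this
  have nB : ww W p B - EE G W p H h.low B + OC B ≤ M B := by
    have := h.need hHZ h.low hJ B
    rwa [hDB, sub_zero, mul_one] at this
  have nI : ∑ i ∈ I, OC i ≤ ∑ i ∈ I, M i + ∑ i ∈ I, EE G W p H h.low i := by
    rw [← sum_add_distrib]
    refine sum_le_sum fun i hi => ?_
    have := h.need hHZ h.low hJ i
    rw [hD i (hImem i hi).1 (hImem i hi).2.1 (hImem i hi).2.2, sub_self, mul_zero] at this
    simp only [hM, hOC]; linarith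
  have w1 : M A + M B ≤ 2 * (misIn G p W A B).card + (misOut G p W A B).card := by
    have b1 := h.weighted_mis (fun i => if i = A ∨ i = B then 1 else 0)
    rw [split, sum_mis_split G p W A B, sum_eq_zero (s := I) (fun i hi => by
      simp [(hImem i hi).2.1, (hImem i hi).2.2])] at b1
    have b2 := sum_le_card_nsmul (misIn G p W A B) (fun e =>
      (if p e.1 = A ∨ p e.1 = B then (1 : ℝ) else 0) + (if p e.2 = A ∨ p e.2 = B then 1 else 0)) 2
      (fun e _ => by split_ifs <;> norm_num)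
    have b3 := sum_le_card_nsmul (misOut G p W A B) (fun e =>
      (if p e.1 = A ∨ p e.1 = B then (1 : ℝ) else 0) + (if p e.2 = A ∨ p e.2 = B then 1 else 0)) 1
      (fun e he => by
        have := (mem_filter.1 he).2
        split_ifs with c1 c2 c2
        · exact absurd ⟨c1, c2⟩ this
        all_goals norm_num)
    rw [nsmul_eq_mul] at b2 b3
    simp only [true_or, or_true, if_true, one_mul] at b1
    simp only [hM]; linarith
  have w2 : ∑ i ∈ I, M i ≤ 2 * (misOut G p W A B).card := by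
    have b1 := h.weighted_mis (fun i => if i = A ∨ i = B then 0 else 1)
    rw [split, sum_mis_split G p W A B, sum_eq_zero (s := misIn G p W A B) (fun e he => by
      have := (mem_filter.1 he).2
      rw [if_pos this.1, if_pos this.2, add_zero]),
      sum_congr rfl (g := M) (s₁ := I) (fun i hi => by
        simp [(hImem i hi).2.1, (hImem i hi).2.2, hM])] at b1
    have b3 := sum_le_card_nsmul (misOut G p W A B) (fun e =>
      (if p e.1 = A ∨ p e.1 = B then (0 : ℝ) else 1) + (if p e.2 = A ∨ p e.2 = B then 0 else 1)) 2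
      (fun e _ => by split_ifs <;> norm_num)
    rw [nsmul_eq_mul] at b3
    simp only [true_or, or_true, if_true, zero_mul] at b1
    linarith
  have hR : ((rest p W A B).card : ℝ) = ∑ i ∈ I, ww W p i := by
    rw [card_eq_sum_parts (I := I) (p := p) (fun x hx => by
      obtain ⟨b1, b2⟩ := mem_filter.1 hx
      push Not at b2
      exact mem_erase.2 ⟨b2.2, mem_erase.2 ⟨b2.1, h.mem_range_p b1⟩⟩)]
    push_cast
    refine sum_congr rfl fun i hi => ?_
    unfold ww
    congr 2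
    ext x
    simp only [mem_part, rest, mem_filter]
    constructor
    · exact fun c => ⟨c.1.1, c.2⟩
    · rintro ⟨c1, c2⟩
      exact ⟨⟨c1, by rw [c2]; push Not; exact (hImem i hi).2⟩, c2⟩
  have hL : 0 ≤ ∑ z ∈ Z \ H, ((nb G z W).card : ℝ) := sum_nonneg fun _ _ => Nat.cast_nonneg _
  have hKξ := h.Kξ hp
  have hKη := h.Kη hp
  have hK := h.K1 (k := 0)
  have hξ1 := h.ξ1pos
  have hη := h.hη
  have hε0 := hp.ε0
  have hξK : 2700 * ξ1 ≤ KK 3 0 * ξ1 := by gcongr
  have hηK : 2700 * η ≤ KK 3 0 * η := by gcongr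
  have hL' : 4 * (ξ1 * a) * ∑ z ∈ Z \ H, ((nb G z W).card : ℝ)
      ≤ ε * (2 * a * ∑ z ∈ Z \ H, ((nb G z W).card : ℝ)) := by
    have : 2 * ξ1 ≤ ε := by linarith
    have := mul_le_mul_of_nonneg_right this (mul_nonneg (show (0 : ℝ) ≤ 2 * a by positivity) hL)
    linarith
  have hμ1 : (0 : ℝ) ≤ (misIn G p W A B).card := Nat.cast_nonneg _
  have hμ2 : (0 : ℝ) ≤ (misOut G p W A B).card := Nat.cast_nonneg _
  set μ1 : ℝ := ((misIn G p W A B).card : ℝ)
  set μ2 : ℝ := ((misOut G p W A B).card : ℝ)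
  have hOA := hOC0 A
  have hOB := hOC0 B
  rw [hOCt] at hEr
  unfold valW
  by_cases hH : H = ∅
  · have hE : ∀ i, EE G W p H h.low i = 0 := fun i => by unfold EE; rw [hH]; simp
    have hDw : ∀ i, DD a W p H h.low i = ww W p i - a := fun i => by unfold DD; rw [hH]; simp
    rw [hDw] at hDA hDB
    have hR2 : ((rest p W A B).card : ℝ) = 2 * a + 2 := by
      rw [hR, sum_congr rfl (g := fun _ => (a : ℝ) + 1) (fun i hi => by
        have := hD i (hImem i hi).1 (hImem i hi).2.1 (hImem i hi).2.2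
        rw [hDw] at this; linarith), sum_const, hIcard]
      simp
      try ring
    have hW : (W.card : ℝ) = 4 * a + 2 := by
      rw [hH] at hJ; unfold jj at hJ; simp at hJ; linarith
    have hWn : W.card = 4 * a + 2 := by exact_mod_cast hW
    have hes := es_le_ebal 1 4 a 2 (by norm_num) (fun i => (part W p i).card)
      (by rw [← hWn]; exact (card_eq_sum_parts (fun x hx => h.mem_range_p hx)).symm)
    rw [ebal_342] at hes
    change es 3 (range (3 + 1)) (ww W p) ≤ _ at hes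
    have hρ : 4 * (a : ℝ) ^ 3 + 4 * (a : ℝ) ^ 2 < rho 3 0 a 1 * W.card := by
      unfold rho
      rw [hW, show (0 + 3 : ℕ) = 3 from rfl, show (3 + 1 : ℕ) = 4 from rfl, ebal_341, div_mul_eq_mul_div,
        lt_div_iff₀ (by positivity)]
      push_cast
      nlinarith [pow_pos ha 2]
    rw [hE] at nA nB
    rw [sum_eq_zero (fun i _ => hE i)] at nI
    rw [hH] at hl hEr hL'
    simp only [sum_empty, card_empty, Nat.cast_zero] at hl hEr
    rw [hR2] at hT0
    have c1 : (2 * a + 2) * (a + (OC A + OC B) / 2 - μ2 / 2) ≤ (2 * a + 2) * μ1 :=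
      mul_le_mul_of_nonneg_left (by linarith) (by positivity)
    have c2 : 2 * (ξ1 * a) * ∑ i ∈ I, OC i ≤ 2 * (ξ1 * a) * (2 * μ2) :=
      mul_le_mul_of_nonneg_left (by linarith) (by positivity)
    have c3 : 2 * (ξ1 * a) * (OC A + OC B) ≤ (a + 1) * (OC A + OC B) :=
      mul_le_mul_of_nonneg_right (by nlinarith [h.ξ1small]) (by linarith)
    have c4 : (a + 1 + 5 * (ξ1 * a) + 2 * a * (KK 3 0 * ξ1)) * μ2 ≤ 2 * a * μ2 := by
      refine mul_le_mul_of_nonneg_right ?_ hμ2
      have := h.abig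
      have d1 : a * (KK 3 0 * ξ1) ≤ a * (1 / 100) := by gcongr; linarith
      have d2 : a * ξ1 ≤ a * (1 / 100) := by gcongr; linarith
      push_cast at this
      linarith
    linarith
  · have hj' : jj 3 a 1 W ≤ 0 := hj.resolve_left hH
    have hh1 : (1 : ℝ) ≤ H.card := by
      have := card_pos.2 (nonempty_iff_ne_empty.2 hH)
      exact_mod_cast this
    have hB2 := h.B2 (k := 0) (by norm_num)
    rw [hP, max_eq_right hj', max_eq_left (by linarith)] at hB2
    have hF := sum_le_sum (fun z (hz : z ∈ H) => h.perz hp hε hj'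
      (fun i => if i = A ∨ i = B then 1 / 2 else 0) (fun i => by split_ifs <;> norm_num)
      (fun i => by split_ifs <;> norm_num) (fun i j _ => by split_ifs <;> norm_num)
      (fun i j l h1 h2 h3 => by
        split_ifs with c1 c2 c3 <;> first | (exfalso; omega) | norm_num) hz)
    rw [← mul_sum, sum_sub_distrib, sum_sub_distrib, sum_EE, sum_const, nsmul_eq_mul, ← mul_sum,
      split, sum_eq_zero (s := I) (fun i hi => by
        simp [(hImem i hi).2.1, (hImem i hi).2.2]), hP] at hF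
    change _ ≤ _ * (_ - _ - ε * Ds G 3 a (3 / 10) W Z) at hF
    simp only [true_or, or_true, if_true] at hF
    have hEs := h.sum_EE_le hj' (3 / 10)
    rw [split] at hEs
    have hDs := h.Ds_ge (3 / 10)
    rw [max_eq_right hj', sub_zero] at hDs
    have hEA := EE_nonneg G W p H h.low A
    have hEB := EE_nonneg G W p H h.low B
    have hwA := h.wlo hA
    have hwB := h.wlo hB
    have hRlo : 2 * ((1 - η) * a) ≤ ((rest p W A B).card : ℝ) := by
      rw [hR]
      have := card_nsmul_le_sum I (ww W p) ((1 - η) * a) (fun i hi => h.wlo (hImem i hi).1)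
      rw [hIcard, nsmul_eq_mul] at this
      exact_mod_cast this
    have hjge := h.jj_ge
    have hηa := h.ha
    have hη1 : η ≤ 1 / 900 := by linarith [h.ηξ1, h.ξ1small]
    have hW8 : (W.card : ℝ) ≤ 8 * a := by unfold jj at hj'; push_cast at hj'; linarith [h.a1]
    push_cast at hjge hB2 hF
    set hh : ℝ := (H.card : ℝ)
    set j := jj 3 a 1 W
    set D := Ds G 3 a (3 / 10) W Z
    set EA := EE G W p H h.low A
    set EB := EE G W p H h.low B
    have hh9 : hh ≤ 9 * (η * a) := by linarith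
    have hD0 : 0 ≤ D := le_trans (by have := h.ξpos; positivity) hDs
    have c0 : 2 * ((1 - η) * a) * μ1 ≤ (rest p W A B).card * μ1 := by gcongr
    have c1 : 2 * ((1 - η) * a) * ((1 - η) * a - (EA + EB) / 2 + (OC A + OC B) / 2 - μ2 / 2)
        ≤ 2 * ((1 - η) * a) * μ1 :=
      mul_le_mul_of_nonneg_left (by linarith) (by have : 0 ≤ 1 - η := by linarith
                                                  positivity)
    have c2 : hh ^ 2 * W.card ≤ hh * (9 * (η * a)) * (8 * a) := by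
      rw [pow_two]; gcongr
    have hO4 : hh + 2 * (ξ1 * a) ≤ 4 * (ξ1 * a) := by
      have := mul_le_mul_of_nonneg_right (h.η6.trans h.hξ) ha.le
      linarith
    have hI0 : 0 ≤ ∑ i ∈ I, OC i := sum_nonneg fun i _ => hOC0 i
    have c3 : (hh + 2 * (ξ1 * a)) * (OC A + (OC B + ∑ i ∈ I, OC i))
        ≤ 4 * (ξ1 * a) * (OC A + OC B + 2 * μ2 + 3 * D) :=
      mul_le_mul hO4 (by linarith) (by linarith) (by positivity)
    have c4 : a * ((4 * ξ1 - (1 - η)) * (OC A + OC B)) ≤ 0 :=
      mul_nonpos_of_nonneg_of_nonpos ha.le (mul_nonpos_of_nonpos_of_nonneg (by linarith) (by linarith))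
    have c5 : a * ((9 * ξ1 + 2 * (KK 3 0 * ξ1) + (1 - η) - 2) * μ2) ≤ 0 :=
      mul_nonpos_of_nonneg_of_nonpos ha.le (mul_nonpos_of_nonpos_of_nonneg (by linarith) hμ2)
    have c6 : 0 ≤ a * (η * (EA + EB)) := by positivity
    have c7 : a * ((12 * ξ1 - ε) * D) ≤ 0 :=
      mul_nonpos_of_nonneg_of_nonpos ha.le (mul_nonpos_of_nonpos_of_nonneg (by linarith) hD0)
    have c8 := mul_le_mul_of_nonneg_left hDs (mul_pos ha hε0).le
    have c9 : 2 * (KK 3 0 * η) * (hh - 1) + 4 * (KK 3 0 * η) * hh + 72 * η * hh + 4 * η - 2 * η ^ 2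
        < ε * ξ / 2 * hh := by
      have d1 : 7 * (KK 3 0 * η) * hh ≤ ε * ξ / 2 * hh := by gcongr; linarith
      have d2 : 76 * η * hh ≤ KK 3 0 * η * hh := by gcongr; linarith
      nlinarith [sq_nonneg η]
    have c10 := mul_lt_mul_of_pos_left c9 (mul_pos ha ha)
    have ej : j = 1 - hh := by linarith
    rw [ej] at hB2
    norm_num at hB2 hF ⊢
    nlinarith

end Setup

end Pool.Agent.Lib.MP_1b6faf_co
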