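import Pool.Agent.Lib.MP_1b6faf_co.Errors

/-!
The case analysis for a single cluster.
-/

namespace Pool.Agent.Lib.MP_1b6faf_co

open Finset
open scoped Classical

set_option linter.unusedSectionVars false

variable {V : Type*}

noncomputable def Ds (G : SimpleGraph V) (s : ℕ) (a u1 : ℝ) (W Z : Finset V) : ℝ :=
  ∑ z ∈ Hv G s a u1 W Z, (s * a - ((nb G z W).card : ℝ))

def Clean (G : SimpleGraph V) (s a r : ℕ) (W Cs : Finset V) : Prop :=
  W.card = (s + 1) * a + r ∧ ∀ x ∈ W, (nb G x Cs).card ≤ 1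

namespace Setup

variable [Fintype V] {G : SimpleGraph V} {s a r : ℕ} {η ξ ξ1 : ℝ}
  {W Z Cs : Finset V} {p : V → ℕ} (h : Setup G s a r η ξ ξ1 W Z Cs p) {k : ℕ}
include h

lemma Ds_ge (u1 : ℝ) : (Hv G s a u1 W Z).card * (ξ * a / 2 - max (jj s a r W) 0) ≤ Ds G s a u1 W Z := by
  have := card_nsmul_le_sum (Hv G s a u1 W Z) (fun z => s * a - ((nb G z W).card : ℝ))
    (ξ * a / 2 - max (jj s a r W) 0) (fun z hz => by
      have := h.far_le (h.notMem_of_Z (mem_filter.1 hz).1); linarith)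
  rwa [nsmul_eq_mul] at this

lemma abig : 1800 * ((s : ℝ) + 1) ≤ a := by
  have h1 := mul_le_mul_of_nonneg_right h.hηξ h.apos.le
  have h2 := mul_le_mul_of_nonneg_right (h.hξ) h.apos.le
  have h3 := mul_le_mul_of_nonneg_right (h.ξ1small) h.apos.le
  nlinarith [h.ha, h.s2]

variable {u1 ε : ℝ} (hp : Par s k u1 ε η ξ ξ1) (hk : k + 2 ≤ s)
include hp

lemma sKη : 300 * ((s + 1) * (KK s k * η)) ≤ ε * ξ := by
  have h1 := hp.hη
  have h2 : 0 ≤ KK s k * η := mul_nonneg (by linarith [h.K1 (k := k)]) h.hη.le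
  have h3 : 0 ≤ ((s : ℝ) + 1) * (KK s k * η) := mul_nonneg (by linarith [h.s2]) h2
  nlinarith [h.s2]

lemma ssKη : 100 * ((s + 1) * ((s + 1) * (KK s k * η))) ≤ ε * ξ := by
  have h1 := hp.hη
  linarith

lemma sKξ : 100 * ((s + 1) * (KK s k * ξ1)) ≤ ε := by
  have h1 := hp.hξ1
  linarith

include hk

lemma θ1_ge : 1 / ((s : ℝ) + 1) ≤ 1 / ((k + 3) * (1 - u1)) := by
  have h1 := kR hk
  have h2 := hp.u0
  have h3 := hp.uhalf
  exact one_div_le_one_div_of_le (mul_pos (by positivity) (by linarith))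
    (by nlinarith [Nat.cast_nonneg (α := ℝ) k])

lemma star1 : valW G s k a η ξ1 W Z Cs - rho s k a r * W.card
    ≤ P0 s k a * (a * ((jj s a r W + (Hv G s a u1 W Z).card) * s / (k + 3)
      + KK s k * ξ1 * max (jj s a r W) 0 + 2 * (KK s k * η) * max (-jj s a r W) 0
      + (2 * s + 1) * (KK s k * η) * (Hv G s a u1 W Z).card + KK s k * η)
      - (mis G p W).card * (1 - 3 * (KK s k * ξ1))
      - 1 / ((k + 3) * (1 - u1)) * Ds G s a u1 W Z) := by
  have h1 := h.star0 hp hk
  have h2 := sum_le_sum (fun z (hz : z ∈ Hv G s a u1 W Z) =>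
    h.B4 hk hp.u0 (by linarith [hp.uhalf]) hp.hu' (mem_filter.1 hz).2)
  change ∑ z ∈ Hv G s a u1 W Z, Fz G s k a η W z ≤ _ at h2
  rw [sum_sub_distrib, sum_const, nsmul_eq_mul, ← mul_sum, ← mul_sum] at h2
  change _ ≤ _ - _ * (_ * Ds G s a u1 W Z) at h2
  have e : (jj s a r W + (Hv G s a u1 W Z).card) * s / (k + 3)
    = jj s a r W * s / (k + 3) + (Hv G s a u1 W Z).card * (s / (k + 3)) := by ring
  rw [e]
  linarith

lemma caseA (hj : jj s a r W ≤ -1) (hJ : jj s a r W + (Hv G s a u1 W Z).card ≤ 0) :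
    valW G s k a η ξ1 W Z Cs < rho s k a r * W.card := by
  have h1 := h.star1 hp hk
  have h2 := h.Ds_ge u1
  have hP := P0_pos hk h.apos
  have ha := h.apos
  have hs := h.s2
  rw [max_eq_right (by linarith)] at h1 h2
  rw [max_eq_left (by linarith)] at h1
  have hθ := h.θ1_ge hp hk
  have hh : (0 : ℝ) ≤ (Hv G s a u1 W Z).card := Nat.cast_nonneg _
  have hμ : (0 : ℝ) ≤ (mis G p W).card := Nat.cast_nonneg _
  have hKξ := h.Kξ hp
  have hε1 := hp.ε1
  have hKη := h.ssKη hp
  have hK0 : 0 ≤ KK s k * η := mul_nonneg (by linarith [h.K1 (k := k)]) h.hη.le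
  have hξ := h.ξpos
  have hξ1 : ξ ≤ 1 := by linarith [h.hξ, h.ξ1small]
  set H : ℝ := ((Hv G s a u1 W Z).card : ℝ)
  set j := jj s a r W
  set A := KK s k * η
  have hst : 2 / 3 ≤ (s : ℝ) / (k + 3) := by
    rw [le_div_iff₀ (by positivity)]; linarith [kR hk]
  set c := ξ / (2 * (s + 1)) with hc
  have hc0 : 0 < c := by positivity
  have hc1 : c ≤ 2 / 3 := by rw [hc, div_le_iff₀ (by positivity)]; linarith
  have hcA : (2 * s + 4) * A < c := by
    rw [hc, lt_div_iff₀ (by positivity)]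
    have : ε * ξ ≤ ξ / 12 := by nlinarith
    nlinarith
  have b1 : (j + H) * s / (k + 3) ≤ (j + H) * c := by
    rw [mul_div_assoc]; exact mul_le_mul_of_nonpos_left (by linarith) hJ
  have b2 : a * (H * c) ≤ 1 / ((k + 3) * (1 - u1)) * Ds G s a u1 W Z := by
    have hD : 0 ≤ H * (ξ * a / 2 - 0) := by rw [sub_zero]; positivity
    calc a * (H * c) = 1 / ((s : ℝ) + 1) * (H * (ξ * a / 2 - 0)) := by rw [hc]; field_simp; ring
      _ ≤ _ := mul_le_mul hθ h2 hD (le_trans (by positivity) hθ)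
  have b3 : (j + H) * c + KK s k * ξ1 * 0 + 2 * A * -j + (2 * s + 1) * A * H + A - H * c < 0 := by
    have c1 : (2 * s + 1) * A * H ≤ (2 * s + 1) * A * -j := by gcongr; linarith
    have c2 : A ≤ A * -j := by nlinarith
    have c3 := mul_lt_mul_of_pos_right hcA (show 0 < -j by linarith)
    linarith
  have b4 := mul_neg_of_pos_of_neg ha b3
  have b5 := mul_le_mul_of_nonneg_left b1 ha.le
  have b6 : 0 ≤ (mis G p W).card * (1 - 3 * (KK s k * ξ1)) := mul_nonneg hμ (by linarith)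
  have b7 : a * ((j + H) * s / (k + 3) + KK s k * ξ1 * 0 + 2 * A * -j + (2 * s + 1) * A * H + A)
      - (mis G p W).card * (1 - 3 * (KK s k * ξ1))
      - 1 / ((k + 3) * (1 - u1)) * Ds G s a u1 W Z < 0 := by linarith
  have := mul_neg_of_pos_of_neg hP b7
  linarith

lemma caseB {θ : ℝ} (hθ0 : 0 ≤ θ) (hθ1 : 2 * θ + ε ≤ 1) (hθ2 : θ + ε ≤ 1 / ((k + 3) * (1 - u1)))
    (hJ : 1 ≤ jj s a r W + (Hv G s a u1 W Z).card)
    (hθ3 : (jj s a r W + (Hv G s a u1 W Z).card) * s / (k + 3)
      + ε * (jj s a r W + (Hv G s a u1 W Z).card)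
      ≤ θ * (s * (jj s a r W + (Hv G s a u1 W Z).card) - r)) :
    valW G s k a η ξ1 W Z Cs < rho s k a r * W.card := by
  have h1 := h.star1 hp hk
  have h2 := h.Ds_ge u1
  have h3 := h.B7 (k := k)
  have hP := P0_pos hk h.apos
  have ha := h.apos
  have hs := h.s2
  have hsub : ∑ z ∈ Hv G s a u1 W Z, ((nb G z W).card : ℝ) ≤ ∑ z ∈ Z, ((nb G z W).card : ℝ) :=
    sum_le_sum_of_subset_of_nonneg (filter_subset _ _) fun _ _ _ => Nat.cast_nonneg _
  have hD : Ds G s a u1 W Z = (Hv G s a u1 W Z).card * (s * a)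
      - ∑ z ∈ Hv G s a u1 W Z, ((nb G z W).card : ℝ) := by
    unfold Ds; rw [sum_sub_distrib, sum_const, nsmul_eq_mul]
  have hh : (0 : ℝ) ≤ (Hv G s a u1 W Z).card := Nat.cast_nonneg _
  have hμ : (0 : ℝ) ≤ (mis G p W).card := Nat.cast_nonneg _
  have hKξ := h.Kξ hp
  have hsKξ := h.sKξ hp
  have hε1 := hp.ε1
  have hε0 := hp.ε0
  have hKη := h.sKη hp
  have hKη' := h.Kη hp
  have hεξ := h.εξ hp
  have hK0 : 0 ≤ KK s k * η := mul_nonneg (by linarith [h.K1 (k := k)]) h.hη.le
  have hKξ0 : 0 ≤ KK s k * ξ1 := mul_nonneg (by linarith [h.K1 (k := k)]) h.ξ1pos.le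
  have hjle := h.jj_le
  have hθ1' : 1 / ((k + 3) * (1 - u1)) ≤ 1 := by
    rw [div_le_one (mul_pos (by positivity) (by linarith [hp.uhalf]))]
    nlinarith [hp.uhalf, Nat.cast_nonneg (α := ℝ) k]
  have hsξ : (s + 1) * ξ1 ≤ ε / 100 := by
    have : ξ1 ≤ KK s k * ξ1 := by nlinarith [h.K1 (k := k), h.ξ1pos]
    nlinarith
  set H : ℝ := ((Hv G s a u1 W Z).card : ℝ)
  set j := jj s a r W
  set A := KK s k * η
  set B := KK s k * ξ1
  set μ : ℝ := ((mis G p W).card : ℝ)
  set D := Ds G s a u1 W Z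
  set θ1 := 1 / ((k + 3) * (1 - u1))
  set jp := max j 0
  set jm := max (-j) 0
  have hjp : 0 ≤ jp := le_max_right _ _
  have hjm : 0 ≤ jm := le_max_right _ _
  have c1 : a * (s * (j + H) - r) - D - A * (a * (1 + jp + jm)) ≤ μ * (2 + A) := by linarith
  have c2 : θ * (μ * (2 + A)) ≤ μ * (1 - 3 * B) := by
    have : θ * (2 + A) ≤ 1 - 3 * B := by nlinarith
    nlinarith
  have c3 := mul_le_mul_of_nonneg_left c1 hθ0
  have c4 := mul_le_mul_of_nonneg_left hθ3 ha.le
  have c5 : θ * (A * (a * (1 + jp + jm))) ≤ A * (a * (1 + jp + jm)) := by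
    have : 0 ≤ A * (a * (1 + jp + jm)) := by positivity
    nlinarith
  have key : a * (B * jp + 2 * A * jm + (2 * s + 1) * A * H + A + A * (1 + jp + jm) - ε * (j + H))
      - (θ1 - θ) * D < 0 := by
    rcases le_total 0 j with hj | hj
    · have e1 : jp = j := max_eq_left hj
      have e2 : jm = 0 := max_eq_right (by linarith)
      rw [e1] at h2
      rw [e1, e2]
      have d1 : -(H * ((s + 1) * (ξ1 * a))) ≤ D := by
        have : 0 ≤ H * (ξ * a / 2) := by have := h.ξpos; positivity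
        nlinarith
      have d2 : -(H * ((s + 1) * (ξ1 * a))) ≤ (θ1 - θ) * D := by
        have hx : 0 ≤ H * ((s + 1) * (ξ1 * a)) := by have := h.ξ1pos; positivity
        rcases le_total 0 D with hD0 | hD0
        · have : 0 ≤ (θ1 - θ) * D := mul_nonneg (by linarith) hD0
          linarith
        · nlinarith
      have d3 : B * j + 2 * A * 0 + (2 * s + 1) * A * H + A + A * (1 + j + 0) - ε * (j + H)
          + H * ((s + 1) * ξ1) < 0 := by
        have f1 : (2 * s + 1) * A ≤ ε / 100 := by nlinarith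
        have f2 : (2 * s + 1) * A * H ≤ ε / 100 * H := by gcongr
        have f3 : H * ((s + 1) * ξ1) ≤ H * (ε / 100) := by gcongr
        have f4 : B * j ≤ ε / 100 * j := by gcongr; linarith
        have f5 : A * j ≤ ε / 100 * j := by gcongr; linarith
        nlinarith
      have d4 := mul_neg_of_pos_of_neg ha d3
      linarith
    · have e1 : jp = 0 := max_eq_right hj
      have e2 : jm = -j := max_eq_left (by linarith)
      rw [e1] at h2
      rw [e1, e2]
      have d1 : 0 ≤ H * (ξ * a / 2 - 0) := by rw [sub_zero]; have := h.ξpos; positivity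
      have d2 : ε * (H * (ξ * a / 2 - 0)) ≤ (θ1 - θ) * D :=
        mul_le_mul (by linarith) h2 d1 (by linarith)
      have d3 : B * 0 + 2 * A * -j + (2 * s + 1) * A * H + A + A * (1 + 0 + -j) - ε * (j + H)
          - ε * ξ / 2 * H < 0 := by
        have f1 : (2 * s + 4) * A ≤ ε * ξ / 2 := by nlinarith
        have f2 : (2 * s + 4) * A * H ≤ ε * ξ / 2 * H := by gcongr
        have f3 : A * -j ≤ A * H := by gcongr; linarith
        nlinarith
      have d4 := mul_neg_of_pos_of_neg ha d3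
      linarith
  have b7 : a * ((j + H) * s / (k + 3) + B * jp + 2 * A * jm + (2 * s + 1) * A * H + A)
      - μ * (1 - 3 * B) - θ1 * D < 0 := by linarith
  have := mul_neg_of_pos_of_neg hP b7
  linarith

lemma caseC (hj : jj s a r W = 0) (hH : Hv G s a u1 W Z = ∅) {i : ℕ} (hi : i < s + 1)
    (hc : cc s a r W p i ≤ -1) : valW G s k a η ξ1 W Z Cs < rho s k a r * W.card := by
  have h1 := h.star0 hp hk
  rw [hj, hH] at h1
  simp only [neg_zero, max_self, card_empty, Nat.cast_zero, sum_empty, mul_zero, zero_mul,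
    zero_div, add_zero, zero_add] at h1
  have h2 := h.neg_cc
  have h3 : max (-cc s a r W p i) 0 ≤ ∑ i ∈ range (s + 1), max (-cc s a r W p i) 0 :=
    single_le_sum (f := fun i => max (-cc s a r W p i) 0) (fun _ _ => le_max_right _ _)
      (mem_range.2 hi)
  have h4 := le_max_left (-cc s a r W p i) 0
  have ha := h.apos
  have h5 : (a : ℝ) ≤ 4 * (mis G p W).card := by nlinarith
  have hKξ := h.Kξ hp
  have hε1 := hp.ε1
  have hKη' := h.Kη hp
  have hεξ := h.εξ hp
  have b1 : a * (KK s k * η) - (mis G p W).card * (1 - 3 * (KK s k * ξ1)) < 0 := by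
    have c1 : a * (KK s k * η) ≤ a * (1 / 100) := by gcongr; linarith
    have c2 : (mis G p W).card * (1 / 2) ≤ (mis G p W).card * (1 - 3 * (KK s k * ξ1)) := by
      gcongr; linarith
    linarith
  have := mul_neg_of_pos_of_neg (P0_pos hk ha) b1
  linarith

lemma caseD (hj : jj s a r W = 0) (hH : Hv G s a u1 W Z = ∅)
    (hc : ∀ i < s + 1, 0 ≤ cc s a r W p i) (hr : k = 0 → r ≤ 1 ∨ 4 ≤ s) :
    valW G s k a η ξ1 W Z Cs < rho s k a r * W.card ∨
      (valW G s k a η ξ1 W Z Cs ≤ rho s k a r * W.card ∧ Clean G s a r W Cs) := by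
  have ha := h.apos
  have hP := P0_pos hk ha
  have hPge := P0_ge hk ha.le
  have hW : (W.card : ℝ) = (s + 1) * a + r := by unfold jj at hj; linarith
  have hWn : W.card = (s + 1) * a + r := by exact_mod_cast hW
  have hρ : rho s k a r * W.card = ebal (k + 3) (s + 1) a r := by
    rw [hW]; unfold rho; field_simp
  have hcc : ∀ i, cc s a r W p i = ww W p i - a := fun i => by unfold cc; rw [hj]; ring
  have hsm := smoothing (k + 1) (s + 1) a r a (by have := h.hr; omega) (P0 s k a / 2)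
    (by positivity) (by unfold P0; rw [show s + 1 - 2 = s - 1 by omega]; linarith)
    (fun i => (part W p i).card)
    (by rw [← hWn]; exact (card_eq_sum_parts (fun x hx => h.mem_range_p hx)).symm)
    (fun i hi => by
      have := hc i (mem_range.1 hi)
      rw [hcc] at this
      unfold ww at this
      exact_mod_cast (by linarith : (a : ℝ) ≤ (part W p i).card))
  have hcn : ∀ i ∈ range (s + 1), (cn s a r W p i : ℝ) = ww W p i - a := fun i hi => by
    rw [cn_eq, max_eq_left (hc i (mem_range.1 hi)), hcc]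
  set Q := ∑ i ∈ range (s + 1), (cn s a r W p i : ℝ) * (cn s a r W p i - 1) with hQ
  have hQt : ∀ i, 0 ≤ (cn s a r W p i : ℝ) * (cn s a r W p i - 1) := fun i => by
    have := nat_quad 0 (cn s a r W p i) 0 (Nat.zero_le _)
    simpa using this
  have hQ0 : 0 ≤ Q := sum_nonneg fun i _ => hQt i
  have hsm' : es (k + 3) (range (s + 1)) (ww W p) + P0 s k a / 2 * Q ≤ ebal (k + 3) (s + 1) a r := by
    rw [hQ, sum_congr rfl (fun i hi => by rw [hcn i hi])]
    exact hsm
  have hcr : ∀ i ∈ range (s + 1), cc s a r W p i ≤ r := fun i hi => by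
    have h1 := single_le_sum (f := fun i => cc s a r W p i) (fun l hl => hc l (mem_range.1 hl)) hi
    rw [h.sum_cc, hj] at h1
    simpa using h1
  have hE2 := h.E2a (k := k)
  have hξa := mul_pos h.ξ1pos ha
  have h1 : ∑ i ∈ range (s + 1), ww W p i * (cn s a r W p i * (cn s a r W p i - 1))
      ≤ (a + r) * Q := by
    rw [hQ, mul_sum]
    refine sum_le_sum fun i hi => mul_le_mul_of_nonneg_right ?_ (hQt i)
    have := hcr i hi
    rw [hcc] at this
    linarith
  have h7 : (4 * (ξ1 * a)) ^ k ≤ (a : ℝ) ^ k :=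
    pow_le_pow_left₀ (by positivity) (by nlinarith [h.ξ1small]) _
  have hμ : (0 : ℝ) ≤ (mis G p W).card := Nat.cast_nonneg _
  have h2 : (4 * (ξ1 * a)) ^ k * (6 * (ξ1 * a) * (mis G p W).card)
      ≤ P0 s k a * (KK s k * ξ1 * (mis G p W).card) := by
    calc _ ≤ (a : ℝ) ^ k * (6 * (ξ1 * a) * (mis G p W).card) := by gcongr
      _ = (a : ℝ) ^ (k + 1) * (6 * ξ1 * (mis G p W).card) := by ring
      _ ≤ _ := by
        have := h.ξ1pos
        gcongr
        linarith [h.K1 (k := k)]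
  have hB1 := h.B1 hk
  have hl := h.light hp hk
  have hE1 := h.E1 hk
  rw [hH, sdiff_empty, sum_empty] at hl
  have hL : 0 ≤ ∑ z ∈ Z, ((nb G z W).card : ℝ) := sum_nonneg fun _ _ => Nat.cast_nonneg _
  have h8 : KK s k * η ≤ ε := by linarith [h.Kη hp, h.εξ hp, hp.ε0]
  have h9 := mul_le_mul_of_nonneg_right h8 (mul_nonneg hP.le hL)
  have h10 := mul_le_mul_of_nonneg_left h1 (show 0 ≤ (4 * (ξ1 * a)) ^ k by positivity)
  have hmain : valW G s k a η ξ1 W Z Cs - rho s k a r * W.card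
      ≤ -((P0 s k a / 2 - (4 * (ξ1 * a)) ^ k * (a + r)) * Q)
        - P0 s k a * ((mis G p W).card * (1 - 3 * (KK s k * ξ1))) := by
    unfold valW; rw [hρ]; linarith
  have hκ : Q = 0 ∨ (4 * (ξ1 * a)) ^ k * (a + r) < P0 s k a / 2 := by
    have hra : (r : ℝ) ≤ a / 1800 := by linarith [h.abig, h.rs]
    rcases Nat.eq_zero_or_pos k with hk0 | hk0
    · rcases hr hk0 with h1 | h1
      · left
        refine sum_eq_zero fun i hi => ?_
        have b1 := hcr i hi
        have b2 : (cn s a r W p i : ℝ) ≤ 1 := by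
          rw [cn_eq]
          have : (r : ℝ) ≤ 1 := by exact_mod_cast h1
          exact max_le (by linarith) (by norm_num)
        have b3 : cn s a r W p i ≤ 1 := by exact_mod_cast b2
        interval_cases (cn s a r W p i) <;> simp
      · right
        subst hk0
        unfold P0
        simp only [pow_zero, zero_add, Nat.choose_one_right, pow_one, one_mul]
        rw [Nat.cast_sub (by omega)]
        have : (4 : ℝ) ≤ s := by exact_mod_cast h1
        push_cast
        nlinarith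
    · right
      obtain ⟨k', rfl⟩ : ∃ k', k = k' + 1 := ⟨k - 1, by omega⟩
      have b1 : (4 * (ξ1 * a)) ^ k' ≤ (a : ℝ) ^ k' :=
        pow_le_pow_left₀ (by positivity) (by nlinarith [h.ξ1small]) _
      have b2 : 4 * (ξ1 * a) * (a + r) < a * a / 2 := by nlinarith [h.ξ1small]
      have b3 : 0 < (a : ℝ) ^ k' := by positivity
      calc (4 * (ξ1 * a)) ^ (k' + 1) * (a + r) = (4 * (ξ1 * a)) ^ k' * (4 * (ξ1 * a) * (a + r)) := by
            ring
        _ ≤ (a : ℝ) ^ k' * (4 * (ξ1 * a) * (a + r)) := by gcongr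
        _ < (a : ℝ) ^ k' * (a * a / 2) := by gcongr
        _ = (a : ℝ) ^ (k' + 1 + 1) / 2 := by ring
        _ ≤ _ := by linarith
  have hKξ := h.Kξ hp
  have hε1 := hp.ε1
  have h13 : 0 < 1 - 3 * (KK s k * ξ1) := by linarith
  have hμ' : 0 ≤ P0 s k a * ((mis G p W).card * (1 - 3 * (KK s k * ξ1))) := by positivity
  have hQ' : 0 ≤ (P0 s k a / 2 - (4 * (ξ1 * a)) ^ k * (a + r)) * Q := by
    rcases hκ with h0 | h0
    · rw [h0]; simp
    · exact mul_nonneg (by linarith) hQ0
  by_cases hlt : valW G s k a η ξ1 W Z Cs < rho s k a r * W.card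
  · exact Or.inl hlt
  refine Or.inr ⟨by linarith, hWn, fun x hx => ?_⟩
  push Not at hlt
  have hQz : Q = 0 := by
    rcases hκ with h0 | h0
    · exact h0
    · by_contra hne
      have := mul_pos (sub_pos.2 h0) (lt_of_le_of_ne hQ0 (Ne.symm hne))
      linarith
  have hμz : ((mis G p W).card : ℝ) = 0 := by
    by_contra hne
    have := mul_pos hP (mul_pos (lt_of_le_of_ne hμ (Ne.symm hne)) h13)
    linarith
  have hm : ((mx G p W x).card : ℝ) = 0 := by
    have b1 := sum_card_mx G p W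
    rw [hμz, mul_zero] at b1
    exact (sum_eq_zero_iff_of_nonneg (fun _ _ => Nat.cast_nonneg _)).1 b1 x hx
  have b2 := (sum_eq_zero_iff_of_nonneg (fun i _ => hQt i)).1 hQz (p x) (h.mem_range_p hx)
  have b3 : (cn s a r W p (p x) : ℝ) ≤ 1 := by
    rcases mul_eq_zero.1 b2 with b | b <;> linarith
  have b4 := h.out_le hx
  have b5 := h.oC_le x
  have b6 := cn_eq s a r W p (p x)
  have b7 := le_max_left (cc s a r W p (p x)) 0
  exact_mod_cast (by linarith : ((nb G x Cs).card : ℝ) ≤ 1)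

end Setup

end Pool.Agent.Lib.MP_1b6faf_co
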