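import Pool.Agent.Lib.MP_1b6faf_co.Smooth

/-!
Clique counts inside vertex sets: link identity, greedy lower bound, complete multipartite
graphs, cliques destroyed by missing edges.
-/

namespace Pool.Agent.Lib.MP_1b6faf_co

open Finset
open scoped Classical

variable {V : Type*}

noncomputable def cl (G : SimpleGraph V) (S : Finset V) : Finset (Finset V) :=
  S.powerset.filter (fun K => G.IsClique (K : Set V))

noncomputable def nb (G : SimpleGraph V) (x : V) (S : Finset V) : Finset V :=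
  S.filter (fun y => G.Adj x y)

noncomputable def nn (G : SimpleGraph V) (x : V) (S : Finset V) : Finset V :=
  S.filter (fun y => ¬ G.Adj x y)

noncomputable def Phi (G : SimpleGraph V) (lam : ℕ → ℝ) (S : Finset V) : ℝ :=
  ∑ K ∈ cl G S, lam K.card

noncomputable def kc (G : SimpleGraph V) (k : ℕ) (S : Finset V) : ℝ := Phi G (ind k) S

variable {G : SimpleGraph V}

lemma mem_cl {S K : Finset V} : K ∈ cl G S ↔ K ⊆ S ∧ G.IsClique (K : Set V) := by
  simp [cl]

lemma mem_nb {x y : V} {S : Finset V} : y ∈ nb G x S ↔ y ∈ S ∧ G.Adj x y := by simp [nb]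

lemma mem_nn {x y : V} {S : Finset V} : y ∈ nn G x S ↔ y ∈ S ∧ ¬ G.Adj x y := by simp [nn]

lemma nb_subset (x : V) (S : Finset V) : nb G x S ⊆ S := filter_subset _ _

lemma nn_subset (x : V) (S : Finset V) : nn G x S ⊆ S := filter_subset _ _

lemma nb_mono (x : V) {S T : Finset V} (h : S ⊆ T) : nb G x S ⊆ nb G x T :=
  filter_subset_filter _ h

lemma nn_mono (x : V) {S T : Finset V} (h : S ⊆ T) : nn G x S ⊆ nn G x T :=
  filter_subset_filter _ h

lemma card_nb_add_nn (x : V) (S : Finset V) : (nb G x S).card + (nn G x S).card = S.card :=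
  card_filter_add_card_filter_not _

lemma card_nb_add_nn' (x : V) (S : Finset V) :
    ((nb G x S).card : ℝ) + (nn G x S).card = S.card := by
  exact_mod_cast card_nb_add_nn x S

lemma cl_mono {S T : Finset V} (h : S ⊆ T) : cl G S ⊆ cl G T := fun _ hK =>
  mem_cl.2 ⟨(mem_cl.1 hK).1.trans h, (mem_cl.1 hK).2⟩

lemma not_mem_of_mem_cl_nb {x : V} {S K : Finset V} (hK : K ∈ cl G (nb G x S)) : x ∉ K :=
  fun h => G.irrefl (mem_nb.1 ((mem_cl.1 hK).1 h)).2

lemma insert_mem_cl {x : V} {S K : Finset V} (hx : x ∈ S) (hK : K ∈ cl G (nb G x S)) :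
    insert x K ∈ cl G S := by
  obtain ⟨h1, h2⟩ := mem_cl.1 hK
  refine mem_cl.2 ⟨insert_subset hx (h1.trans (nb_subset _ _)), ?_⟩
  rw [coe_insert]
  exact h2.insert fun y hy _ => (mem_nb.1 (h1 hy)).2

lemma erase_mem_cl {x : V} {S K : Finset V} (hK : K ∈ cl G S) (hx : x ∈ K) :
    K.erase x ∈ cl G (nb G x S) := by
  obtain ⟨h1, h2⟩ := mem_cl.1 hK
  refine mem_cl.2 ⟨fun y hy => mem_nb.2 ⟨h1 (mem_of_mem_erase hy), ?_⟩, ?_⟩
  · exact h2 hx (mem_of_mem_erase hy) (ne_of_mem_erase hy).symm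
  · exact h2.subset (by simp)

lemma sum_cl_mem {x : V} {S : Finset V} (hx : x ∈ S) (f : Finset V → ℝ) :
    ∑ K ∈ (cl G S).filter (fun K => x ∈ K), f K = ∑ K ∈ cl G (nb G x S), f (insert x K) := by
  symm
  refine sum_bij' (fun K _ => insert x K) (fun K _ => K.erase x) ?_ ?_ ?_ ?_ ?_
  · intro K hK
    exact mem_filter.2 ⟨insert_mem_cl hx hK, mem_insert_self _ _⟩
  · intro K hK
    exact erase_mem_cl (mem_filter.1 hK).1 (mem_filter.1 hK).2
  · intro K hK
    exact erase_insert (not_mem_of_mem_cl_nb hK)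
  · intro K hK
    exact insert_erase (mem_filter.1 hK).2
  · intro K _; rfl

lemma sum_cl_mem_card {x : V} {S : Finset V} (hx : x ∈ S) (lam : ℕ → ℝ) :
    ∑ K ∈ (cl G S).filter (fun K => x ∈ K), lam K.card
      = Phi G (fun j => lam (j + 1)) (nb G x S) := by
  rw [sum_cl_mem hx (fun K => lam K.card)]
  unfold Phi
  exact sum_congr rfl fun K hK => by rw [card_insert_of_notMem (not_mem_of_mem_cl_nb hK)]

lemma sum_sum_mem (S T : Finset V) (f : Finset V → ℝ) :
    ∑ x ∈ T, ∑ K ∈ (cl G S).filter (fun K => x ∈ K), f K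
      = ∑ K ∈ cl G S, ((K ∩ T).card : ℝ) * f K := by
  simp_rw [sum_filter]
  rw [sum_comm]
  refine sum_congr rfl fun K _ => ?_
  rw [← sum_filter, sum_const, nsmul_eq_mul, filter_mem_eq_inter, inter_comm]

lemma kc_succ (k : ℕ) (S : Finset V) :
    ((k : ℝ) + 1) * kc G (k + 1) S = ∑ x ∈ S, kc G k (nb G x S) := by
  have h1 : ∀ x ∈ S, kc G k (nb G x S)
      = ∑ K ∈ (cl G S).filter (fun K => x ∈ K), ind (k + 1) K.card := by
    intro x hx
    rw [sum_cl_mem_card hx, ind_succ]; rfl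
  rw [sum_congr rfl h1, sum_sum_mem]
  unfold kc Phi
  rw [mul_sum]
  refine sum_congr rfl fun K hK => ?_
  rw [inter_eq_left.2 (mem_cl.1 hK).1]
  unfold ind
  split_ifs with h
  · rw [h]; push_cast; ring
  · simp

lemma kc_eq_card (k : ℕ) (S : Finset V) :
    kc G k S = (((cl G S).filter (fun K => K.card = k)).card : ℝ) := by
  unfold kc Phi
  rw [card_filter]
  push_cast
  rfl

lemma kc_nonneg (k : ℕ) (S : Finset V) : 0 ≤ kc G k S := by
  rw [kc_eq_card]; positivity

lemma kc_mono (k : ℕ) {S T : Finset V} (h : S ⊆ T) : kc G k S ≤ kc G k T := by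
  rw [kc_eq_card, kc_eq_card]
  exact_mod_cast card_le_card (filter_subset_filter _ (cl_mono h))

lemma kc_zero (S : Finset V) : kc G 0 S = 1 := by
  rw [kc_eq_card]
  have : (cl G S).filter (fun K => K.card = 0) = {∅} := by
    ext K
    simp only [mem_filter, mem_cl, card_eq_zero, mem_singleton]
    constructor
    · exact fun h => h.2
    · rintro rfl; simp
  rw [this]; simp

lemma kc_one (S : Finset V) : kc G 1 S = S.card := by
  have := kc_succ (G := G) 0 S
  simpa [kc_zero] using this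

lemma exists_clique_of_kc_pos {k : ℕ} {S : Finset V} (h : 0 < kc G k S) :
    ∃ K, K ⊆ S ∧ G.IsClique (K : Set V) ∧ K.card = k := by
  rw [kc_eq_card] at h
  have : 0 < ((cl G S).filter (fun K => K.card = k)).card := by exact_mod_cast h
  obtain ⟨K, hK⟩ := card_pos.1 this
  exact ⟨K, (mem_cl.1 (mem_filter.1 hK).1).1, (mem_cl.1 (mem_filter.1 hK).1).2,
    (mem_filter.1 hK).2⟩

lemma kc_le_pow (k : ℕ) (S : Finset V) : kc G k S ≤ (S.card : ℝ) ^ k := by
  rw [kc_eq_card]
  have h1 : (cl G S).filter (fun K => K.card = k) ⊆ S.powersetCard k := fun K hK =>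
    mem_powersetCard.2 ⟨(mem_cl.1 (mem_filter.1 hK).1).1, (mem_filter.1 hK).2⟩
  have h2 := card_le_card h1
  rw [card_powersetCard] at h2
  exact_mod_cast h2.trans (Nat.choose_le_pow _ _)

/-- greedy lower bound -/
lemma kc_greedy (P : ℕ → Finset V) (I0 : Finset ℕ) (μ : ℝ) (hμ : 0 ≤ μ)
    (hdisj : ∀ i ∈ I0, ∀ j ∈ I0, i ≠ j → Disjoint (P i) (P j))
    (hmiss : ∀ i ∈ I0, ∀ j ∈ I0, i ≠ j → ∀ x ∈ P i, ((nn G x (P j)).card : ℝ) ≤ μ)
    (k : ℕ) (I : Finset ℕ) (hI : I ⊆ I0) (S : Finset V) (β : ℝ)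
    (hβ : ∀ i ∈ I, β ≤ ((S ∩ P i).card : ℝ)) (hk : k * μ ≤ β) :
    (I.card.choose k : ℝ) * (β - k * μ) ^ k ≤ kc G k S := by
  induction k generalizing I S β with
  | zero => simp [kc_zero]
  | succ k ih =>
    have hk1 : (0 : ℝ) < (k : ℝ) + 1 := by positivity
    push_cast at hk ⊢
    have hb0 : 0 ≤ β - (k + 1) * μ := by linarith
    have hβ0 : β - (k + 1) * μ ≤ β := by nlinarith [Nat.cast_nonneg (α := ℝ) k]
    refine le_of_mul_le_mul_left ?_ hk1
    rw [kc_succ]
    have h1 : ∑ i ∈ I, ∑ x ∈ S ∩ P i, kc G k (nb G x S) ≤ ∑ x ∈ S, kc G k (nb G x S) := by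
      rw [← sum_biUnion]
      · refine sum_le_sum_of_subset_of_nonneg ?_ fun _ _ _ => kc_nonneg _ _
        exact biUnion_subset.2 fun i _ => inter_subset_left
      · intro i hi j hj hij
        exact (hdisj i (hI hi) j (hI hj) hij).mono inter_subset_right inter_subset_right
    refine le_trans ?_ h1
    have h2 : ∀ i ∈ I, (β - (k + 1) * μ) * (((I.card - 1).choose k : ℝ) * (β - (k + 1) * μ) ^ k)
        ≤ ∑ x ∈ S ∩ P i, kc G k (nb G x S) := by
      intro i hi
      have h3 : ∀ x ∈ S ∩ P i, ((I.card - 1).choose k : ℝ) * (β - (k + 1) * μ) ^ k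
          ≤ kc G k (nb G x S) := by
        intro x hx
        have := ih (I.erase i) ((erase_subset _ _).trans hI) (nb G x S) (β - μ) ?_ (by linarith)
        · rw [card_erase_of_mem hi] at this
          convert this using 3
          ring
        · intro j hj
          have hji := (mem_erase.1 hj).1
          have hjI := (mem_erase.1 hj).2
          have h4 := hmiss i (hI hi) j (hI hjI) hji.symm x (mem_inter.1 hx).2
          have h5 := hβ j hjI
          have h6 : S ∩ P j ⊆ (nb G x S ∩ P j) ∪ nn G x (P j) := by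
            intro y hy
            by_cases h : G.Adj x y
            · exact mem_union_left _ (mem_inter.2 ⟨mem_nb.2 ⟨(mem_inter.1 hy).1, h⟩,
                (mem_inter.1 hy).2⟩)
            · exact mem_union_right _ (mem_nn.2 ⟨(mem_inter.1 hy).2, h⟩)
          have h7 : ((S ∩ P j).card : ℝ) ≤ (nb G x S ∩ P j).card + (nn G x (P j)).card := by
            exact_mod_cast (card_le_card h6).trans (card_union_le _ _)
          linarith
      have h4 := card_nsmul_le_sum _ _ _ h3
      rw [nsmul_eq_mul] at h4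
      refine le_trans ?_ h4
      exact mul_le_mul_of_nonneg_right (hβ0.trans (hβ i hi)) (by positivity)
    have h3 := card_nsmul_le_sum _ _ _ h2
    rw [nsmul_eq_mul] at h3
    refine le_trans (le_of_eq ?_) h3
    have h4 : ((k : ℝ) + 1) * (I.card.choose (k + 1) : ℝ) = I.card * ((I.card - 1).choose k : ℝ) := by
      rcases Nat.eq_zero_or_pos I.card with h | h
      · simp [h]
      · obtain ⟨n, hn⟩ : ∃ n, I.card = n + 1 := ⟨I.card - 1, by omega⟩
        rw [hn]
        have := Nat.add_one_mul_choose_eq n k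
        simp only [Nat.add_sub_cancel]
        exact_mod_cast (by rw [this]; ring : (k + 1) * (n + 1).choose (k + 1) = (n + 1) * n.choose k)
    rw [← mul_assoc, h4, pow_succ]
    ring

/-- complete multipartite graph of a colouring -/
def mp (p : V → ℕ) : SimpleGraph V where
  Adj x y := p x ≠ p y
  symm := ⟨fun _ _ h => h.symm⟩
  loopless := ⟨fun _ h => h rfl⟩

noncomputable def part (S : Finset V) (p : V → ℕ) (i : ℕ) : Finset V := S.filter (fun x => p x = i)

lemma mem_part {S : Finset V} {p : V → ℕ} {i : ℕ} {x : V} : x ∈ part S p i ↔ x ∈ S ∧ p x = i := by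
  simp [part]

lemma part_subset (S : Finset V) (p : V → ℕ) (i : ℕ) : part S p i ⊆ S := filter_subset _ _

lemma part_disjoint (S : Finset V) (p : V → ℕ) {i j : ℕ} (h : i ≠ j) :
    Disjoint (part S p i) (part S p j) := by
  rw [disjoint_left]
  intro x h1 h2
  exact h ((mem_part.1 h1).2.symm.trans (mem_part.1 h2).2)

lemma sum_parts {M : Type*} [AddCommMonoid M] {S : Finset V} {p : V → ℕ} {I : Finset ℕ}
    (h : ∀ x ∈ S, p x ∈ I) (f : V → M) : ∑ x ∈ S, f x = ∑ i ∈ I, ∑ x ∈ part S p i, f x :=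
  (sum_fiberwise_of_maps_to h f).symm

lemma card_eq_sum_parts {S : Finset V} {p : V → ℕ} {I : Finset ℕ} (h : ∀ x ∈ S, p x ∈ I) :
    S.card = ∑ i ∈ I, (part S p i).card := by
  rw [card_eq_sum_ones, sum_parts h]
  simp

lemma kc_mp (p : V → ℕ) (k : ℕ) (S : Finset V) (I : Finset ℕ) (h : ∀ x ∈ S, p x ∈ I) :
    kc (mp p) k S = es k I (fun i => ((part S p i).card : ℝ)) := by
  induction k generalizing S I with
  | zero => rw [kc_zero, es_zero]
  | succ k ih =>
    have hk1 : (k : ℝ) + 1 ≠ 0 := by positivity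
    refine mul_left_cancel₀ hk1 ?_
    rw [kc_succ, es_succ_mul, sum_parts h]
    refine sum_congr rfl fun i hi => ?_
    rw [sum_congr rfl (g := fun _ => es k (I.erase i) (fun i => ((part S p i).card : ℝ)))]
    · simp
    · intro x hx
      obtain ⟨hxS, hxi⟩ := mem_part.1 hx
      rw [ih (nb (mp p) x S) (I.erase i)]
      · refine es_congr k fun j hj => ?_
        congr 2
        ext y
        simp only [mem_part, mem_nb]
        constructor
        · exact fun h => ⟨h.1.1, h.2⟩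
        · rintro ⟨h1, h2⟩
          refine ⟨⟨h1, ?_⟩, h2⟩
          show p x ≠ p y
          rw [hxi, h2]; exact (mem_erase.1 hj).1.symm
      · intro y hy
        obtain ⟨h1, h2⟩ := mem_nb.1 hy
        refine mem_erase.2 ⟨?_, h y h1⟩
        rw [← hxi]; exact Ne.symm h2

def Proper (G : SimpleGraph V) (p : V → ℕ) (S : Finset V) : Prop :=
  ∀ x ∈ S, ∀ y ∈ S, G.Adj x y → p x ≠ p y

lemma cl_subset_mp {p : V → ℕ} {S : Finset V} (h : Proper G p S) : cl G S ⊆ cl (mp p) S := by
  intro K hK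
  obtain ⟨h1, h2⟩ := mem_cl.1 hK
  exact mem_cl.2 ⟨h1, fun x hx y hy hxy => h x (h1 hx) y (h1 hy) (h2 hx hy hxy)⟩

lemma kc_le_es {p : V → ℕ} {S : Finset V} (hp : Proper G p S) (k : ℕ) (I : Finset ℕ)
    (h : ∀ x ∈ S, p x ∈ I) : kc G k S ≤ es k I (fun i => ((part S p i).card : ℝ)) := by
  rw [← kc_mp p k S I h, kc_eq_card, kc_eq_card]
  exact_mod_cast card_le_card (filter_subset_filter _ (cl_subset_mp hp))

/-- missing cross pairs -/
noncomputable def mis (G : SimpleGraph V) (p : V → ℕ) (S : Finset V) : Finset (V × V) :=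
  (S ×ˢ S).filter (fun e => p e.1 < p e.2 ∧ ¬ G.Adj e.1 e.2)

lemma mem_mis {p : V → ℕ} {S : Finset V} {e : V × V} :
    e ∈ mis G p S ↔ e.1 ∈ S ∧ e.2 ∈ S ∧ p e.1 < p e.2 ∧ ¬ G.Adj e.1 e.2 := by
  simp [mis, and_assoc]

/-- non-neighbours in other parts -/
noncomputable def mx (G : SimpleGraph V) (p : V → ℕ) (S : Finset V) (x : V) : Finset V :=
  S.filter (fun y => p y ≠ p x ∧ ¬ G.Adj x y)

lemma mem_mx {p : V → ℕ} {S : Finset V} {x y : V} :
    y ∈ mx G p S x ↔ y ∈ S ∧ p y ≠ p x ∧ ¬ G.Adj x y := by simp [mx]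

lemma sum_mx (p : V → ℕ) (S : Finset V) (f : V → V → ℝ) :
    ∑ x ∈ S, ∑ y ∈ mx G p S x, f x y = ∑ e ∈ mis G p S, (f e.1 e.2 + f e.2 e.1) := by
  have h1 : ∑ x ∈ S, ∑ y ∈ mx G p S x, f x y
      = ∑ x ∈ S, ∑ y ∈ S, ((if p x < p y ∧ ¬ G.Adj x y then f x y else 0)
        + (if p y < p x ∧ ¬ G.Adj y x then f x y else 0)) := by
    refine sum_congr rfl fun x _ => ?_
    unfold mx
    rw [sum_filter]
    refine sum_congr rfl fun y _ => ?_
    rw [G.adj_comm y x]
    by_cases hA : G.Adj x y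
    · simp [hA]
    · rcases lt_trichotomy (p x) (p y) with h | h | h
      · simp [hA, h, h.ne', h.not_gt]
      · simp [h]
      · simp [hA, h, h.ne, h.not_gt]
  rw [h1]
  simp_rw [sum_add_distrib]
  congr 1
  · unfold mis; rw [sum_filter, sum_product]
  · unfold mis; rw [sum_filter, sum_product, sum_comm]

lemma kc_destroyed {p : V → ℕ} {S : Finset V} (hp : Proper G p S) (k : ℕ) :
    kc G (k + 2) S + ∑ e ∈ mis G p S, kc G k (nb G e.1 (nb G e.2 S)) ≤ kc (mp p) (k + 2) S := by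
  set T : V × V → Finset (Finset V) := fun e =>
    ((cl G (nb G e.1 (nb G e.2 S))).filter (fun K => K.card = k)).image
      (fun K => insert e.1 (insert e.2 K)) with hT
  have hne : ∀ e ∈ mis G p S, e.1 ≠ e.2 := fun e he h => by
    have := (mem_mis.1 he).2.2.1; rw [h] at this; exact lt_irrefl _ this
  have hnot : ∀ e : V × V, ∀ K ∈ cl G (nb G e.1 (nb G e.2 S)), e.1 ∉ K ∧ e.2 ∉ K := by
    intro e K hK
    refine ⟨not_mem_of_mem_cl_nb hK, fun h => ?_⟩
    exact G.irrefl (mem_nb.1 (mem_nb.1 ((mem_cl.1 hK).1 h)).1).2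
  have hcard : ∀ e ∈ mis G p S, ((T e).card : ℝ) = kc G k (nb G e.1 (nb G e.2 S)) := by
    intro e he
    rw [kc_eq_card, hT]
    congr 1
    apply card_image_of_injOn
    intro K hK K' hK' h
    have h1 := hnot e K (mem_filter.1 hK).1
    have h2 := hnot e K' (mem_filter.1 hK').1
    have h3 := congrArg (fun A => (A.erase e.1).erase e.2) h
    simp only at h3
    have n1 : e.1 ∉ insert e.2 K := by simp [hne e he, h1.1]
    have n2 : e.1 ∉ insert e.2 K' := by simp [hne e he, h2.1]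
    rwa [erase_insert n1, erase_insert n2, erase_insert h1.2, erase_insert h2.2] at h3
  have hmem : ∀ e ∈ mis G p S, ∀ K' ∈ T e, e.1 ∈ K' ∧ e.2 ∈ K' ∧ K' ⊆ S ∧ K'.card = k + 2 ∧
      ∀ u ∈ K', ∀ v ∈ K', u ≠ v → ¬ G.Adj u v → (u = e.1 ∧ v = e.2) ∨ (u = e.2 ∧ v = e.1) := by
    intro e he K' hK'
    obtain ⟨K, hK, rfl⟩ := mem_image.1 hK'
    obtain ⟨hK1, hK2⟩ := mem_filter.1 hK
    have h1 := hnot e K hK1
    obtain ⟨hs, hc⟩ := mem_cl.1 hK1
    have ha1 : ∀ u ∈ K, G.Adj e.1 u := fun u hu => (mem_nb.1 (hs hu)).2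
    have ha2 : ∀ u ∈ K, G.Adj e.2 u := fun u hu => (mem_nb.1 (mem_nb.1 (hs hu)).1).2
    refine ⟨by simp, by simp, ?_, ?_, ?_⟩
    · refine insert_subset (mem_mis.1 he).1 (insert_subset (mem_mis.1 he).2.1 ?_)
      exact hs.trans ((nb_subset _ _).trans (nb_subset _ _))
    · rw [card_insert_of_notMem (by simp [hne e he, h1.1]), card_insert_of_notMem h1.2, hK2]
    · intro u hu v hv huv hA
      simp only [mem_insert] at hu hv
      rcases hu with rfl | rfl | hu <;> rcases hv with rfl | rfl | hv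
      · exact absurd rfl huv
      · exact Or.inl ⟨rfl, rfl⟩
      · exact absurd (ha1 v hv) hA
      · exact Or.inr ⟨rfl, rfl⟩
      · exact absurd rfl huv
      · exact absurd (ha2 v hv) hA
      · exact absurd (ha1 u hu).symm hA
      · exact absurd (ha2 u hu).symm hA
      · exact absurd (hc hu hv huv) hA
  have hdisj : ∀ e ∈ mis G p S, ∀ e' ∈ mis G p S, e ≠ e' → Disjoint (T e) (T e') := by
    intro e he e' he' hee
    rw [disjoint_left]
    intro K h1 h2
    obtain ⟨_, _, _, _, h5⟩ := hmem e he K h1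
    obtain ⟨h6, h7, _, _, _⟩ := hmem e' he' K h2
    rcases h5 _ h6 _ h7 (hne e' he') (mem_mis.1 he').2.2.2 with h | h
    · exact hee (Prod.ext h.1.symm h.2.symm)
    · have a1 := (mem_mis.1 he').2.2.1
      have a2 := (mem_mis.1 he).2.2.1
      rw [h.1, h.2] at a1
      exact lt_asymm a1 a2
  rw [← sum_congr rfl hcard, kc_eq_card, kc_eq_card]
  have h1 : ((mis G p S).biUnion T).card = ∑ e ∈ mis G p S, (T e).card :=
    card_biUnion (fun e he e' he' h => hdisj e he e' he' h)
  have h2 : Disjoint ((cl G S).filter (fun K => K.card = k + 2)) ((mis G p S).biUnion T) := by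
    rw [disjoint_left]
    intro K hK hK'
    obtain ⟨e, he, hKe⟩ := mem_biUnion.1 hK'
    obtain ⟨a1, a2, _⟩ := hmem e he K hKe
    exact (mem_mis.1 he).2.2.2 ((mem_cl.1 (mem_filter.1 hK).1).2 a1 a2 (hne e he))
  have h3 : ((cl G S).filter (fun K => K.card = k + 2)) ∪ ((mis G p S).biUnion T)
      ⊆ (cl (mp p) S).filter (fun K => K.card = k + 2) := by
    refine union_subset (filter_subset_filter _ (cl_subset_mp hp)) ?_
    intro K hK'
    obtain ⟨e, he, hKe⟩ := mem_biUnion.1 hK'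
    obtain ⟨_, _, a3, a4, a5⟩ := hmem e he K hKe
    refine mem_filter.2 ⟨mem_cl.2 ⟨a3, fun u hu v hv huv => ?_⟩, a4⟩
    by_cases hA : G.Adj u v
    · exact hp u (a3 hu) v (a3 hv) hA
    · have a6 := (mem_mis.1 he).2.2.1
      rcases a5 u hu v hv huv hA with h | h
      · show p u ≠ p v
        rw [h.1, h.2]; exact a6.ne
      · show p u ≠ p v
        rw [h.1, h.2]; exact a6.ne'
  have h4 := card_le_card h3
  rw [card_union_of_disjoint h2, h1] at h4
  exact_mod_cast h4

end Pool.Agent.Lib.MP_1b6faf_co
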