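import Pool.Agent.Lib.MP_1b6faf_co.Extend2

/-!
Clusters: the closure of a core, and a maximal family of disjoint clusters.
-/

namespace Pool.Agent.Lib.MP_1b6faf_co

open Finset
open scoped Classical

variable {V : Type*} {G : SimpleGraph V}

structure Cluster (G : SimpleGraph V) (om : ℕ) (a η ξ ξ1 : ℝ) (W : Finset V) (p : V → ℕ) :
    Prop where
  lt : ∀ x ∈ W, p x < om
  proper : Proper G p W
  lo : ∀ i < om, (1 - η) * a ≤ ((part W p i).card : ℝ)
  hi : ∀ i < om, ((part W p i).card : ℝ) ≤ (1 + ξ1) * a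
  miss : ∀ x ∈ W, ((mx G p W x).card : ℝ) ≤ ξ1 * a
  far : ∀ z, z ∉ W → ∀ i < om, ∃ k < om, k ≠ i ∧ ξ * a < ((nn G z (part W p k)).card : ℝ)

lemma Core.nb_ge' {k : ℕ} {a η : ℝ} {U : ℕ → Finset V} (h : Core G k a η U) {T : Finset V}
    (I : Finset ℕ) (hI : ∀ j ∈ I, j < k) (hT : ∀ j ∈ I, U j ⊆ T) {x : V} (μ : ℝ)
    (hx : ∀ j ∈ I, ((nn G x (U j)).card : ℝ) ≤ μ) :
    (I.card : ℝ) * ((1 - η) * a - μ) ≤ ((nb G x T).card : ℝ) := by
  have h1 := h.card_biUnion I hI (fun j => nb G x (U j)) (fun j _ => nb_subset _ _)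
  have h2 : I.biUnion (fun j => nb G x (U j)) ⊆ nb G x T :=
    biUnion_subset.2 fun j hj => nb_mono _ (hT j hj)
  have h3 : ((I.biUnion (fun j => nb G x (U j))).card : ℝ)
      ≤ (nb G x T).card := by exact_mod_cast card_le_card h2
  have h4 := card_nsmul_le_sum I (fun j => ((nb G x (U j)).card : ℝ))
    ((1 - η) * a - μ) (fun j hj => by
      have a2 := hx j hj
      have a3 := h.size j (hI j hj)
      have a4 := card_nb_add_nn' (G := G) x (U j)
      linarith)
  rw [nsmul_eq_mul] at h4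
  linarith

def Good (G : SimpleGraph V) (om : ℕ) (μ : ℝ) (U : ℕ → Finset V) (i : ℕ) (x : V) : Prop :=
  i < om ∧ ∀ k < om, k ≠ i → ((nn G x (U k)).card : ℝ) ≤ μ

noncomputable def clo [Fintype V] (G : SimpleGraph V) (om : ℕ) (μ : ℝ) (U : ℕ → Finset V) :
    Finset V := univ.filter (fun x => ∃ i, Good G om μ U i x)

noncomputable def col (G : SimpleGraph V) (om : ℕ) (μ : ℝ) (U : ℕ → Finset V) (x : V) : ℕ :=
  if h : ∃ i, Good G om μ U i x then h.choose else 0

lemma good_col [Fintype V] {om : ℕ} {μ : ℝ} {U : ℕ → Finset V} {x : V} (hx : x ∈ clo G om μ U) :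
    Good G om μ U (col G om μ U x) x := by
  have h := (mem_filter.1 hx).2
  unfold col
  rw [dif_pos h]
  exact h.choose_spec

lemma clo_nb [Fintype V] {om : ℕ} {a η μ : ℝ} {U : ℕ → Finset V} (h : Core G om a η U) {x : V}
    (hx : x ∈ clo G om μ U) {T : Finset V} (hT : ∀ j < om, U j ⊆ T) :
    ((om : ℝ) - 1) * ((1 - η) * a - μ) ≤ ((nb G x T).card : ℝ) :=
  h.nb_ge hT (good_col hx).1 μ (good_col hx).2

theorem cluster_of_core [Fintype V] {s : ℕ} (hs : 1 ≤ s) {a η ξ : ℝ} {U : ℕ → Finset V}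
    (h : Core G (s + 1) a η U) (hη : 0 < η) (hηξ : η ≤ ξ) (hξ : 8 * (s + 1) * ξ ≤ 1)
    (ha : 1 ≤ η * a) (hdeg : ∀ x S, ((nb G x S).card : ℝ) ≤ s * (a + 1))
    (hCF : CF G (s + 1) univ) :
    Cluster G (s + 1) a η ξ (6 * (s + 1) ^ 2 * ξ) (clo G (s + 1) (ξ * a) U)
      (col G (s + 1) (ξ * a) U) ∧ ∀ i < s + 1, U i ⊆ clo G (s + 1) (ξ * a) U := by
  set W := clo G (s + 1) (ξ * a) U with hW
  set p := col G (s + 1) (ξ * a) U with hp
  have hs1 : (1 : ℝ) ≤ s := by exact_mod_cast hs
  have hξ0 : 0 < ξ := by linarith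
  have ha0 : 0 < a := by
    by_contra h; push Not at h; nlinarith
  have hξa : η * a ≤ ξ * a := by gcongr
  have hsξa : 8 * (s + 1) * (ξ * a) ≤ a := by nlinarith
  have huniq : ∀ x i j, Good G (s + 1) (ξ * a) U i x → Good G (s + 1) (ξ * a) U j x → i = j := by
    intro x i j hi hj
    by_contra hij
    have h1 := h.nb_ge' (T := univ) (range (s + 1)) (fun j hj => mem_range.1 hj)
      (fun _ _ => subset_univ _) (x := x) (ξ * a) (fun k hk => by
        by_cases hki : k = i
        · exact hj.2 k (mem_range.1 hk) (by rw [hki]; exact hij)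
        · exact hi.2 k (mem_range.1 hk) hki)
    have h2 := hdeg x univ
    rw [card_range] at h1
    push_cast at h1
    nlinarith
  have hUgood : ∀ i < s + 1, ∀ x ∈ U i, Good G (s + 1) (ξ * a) U i x := fun i hi x hx =>
    ⟨hi, fun k hk hki => (h.miss i hi k hk hki.symm x hx).trans hξa⟩
  have hUW : ∀ i < s + 1, U i ⊆ W := fun i hi x hx =>
    mem_filter.2 ⟨mem_univ _, i, hUgood i hi x hx⟩
  have hUp : ∀ i < s + 1, U i ⊆ part W p i := fun i hi x hx =>
    mem_part.2 ⟨hUW i hi hx, huniq x _ _ (good_col (hUW i hi hx)) (hUgood i hi x hx)⟩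
  have hgood : ∀ i, ∀ x ∈ part W p i, Good G (s + 1) (ξ * a) U i x := fun i x hx => by
    have := good_col (mem_part.1 hx).1
    rw [← (mem_part.1 hx).2]; exact this
  have hlo : ∀ i < s + 1, (1 - η) * a ≤ ((part W p i).card : ℝ) := fun i hi =>
    (h.size i hi).trans (by exact_mod_cast card_le_card (hUp i hi))
  have hhi : ∀ k < s + 1, ((part W p k).card : ℝ) ≤ (1 + (6 * s + 4) * ξ) * a := by
    intro k hk
    obtain ⟨l, hl, hlk⟩ : ∃ l < s + 1, l ≠ k := by
      by_cases h0 : k = 0
      · exact ⟨1, by omega, by omega⟩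
      · exact ⟨0, by omega, fun h => h0 h.symm⟩
    have h1 : ∀ x ∈ part W p k, ((U l).card : ℝ) * (1 - 2 * ξ) ≤ (nb G x (U l)).card := by
      intro x hx
      have a1 := (hgood k x hx).2 l hl hlk
      have a2 := card_nb_add_nn' (G := G) x (U l)
      have a3 := h.size l hl
      have a4 : a / 2 ≤ ((U l).card : ℝ) := by nlinarith
      nlinarith
    have h2 : ∀ u ∈ U l, ((nb G u (part W p k)).card : ℝ) ≤ a * (1 + 3 * s * η) := by
      intro u hu
      have a1 := h.nb_ge' (T := univ \ part W p k) (((range (s + 1)).erase k).erase l)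
        (fun j hj => mem_range.1 (mem_of_mem_erase (mem_of_mem_erase hj)))
        (fun j hj y hy => by
          have b1 := mem_range.1 (mem_of_mem_erase (mem_of_mem_erase hj))
          have b2 := ne_of_mem_erase (mem_of_mem_erase hj)
          exact mem_sdiff.2 ⟨mem_univ _, fun hy' =>
            disjoint_left.1 (part_disjoint W p b2) (hUp j b1 hy) hy'⟩)
        (x := u) (η * a) (fun j hj => h.miss l hl j
          (mem_range.1 (mem_of_mem_erase (mem_of_mem_erase hj))) (ne_of_mem_erase hj).symm u hu)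
      rw [card_erase_of_mem (mem_erase.2 ⟨hlk, mem_range.2 hl⟩), card_erase_of_mem (mem_range.2 hk),
        card_range, Nat.add_sub_cancel, Nat.cast_sub hs] at a1
      have a2 : Disjoint (nb G u (part W p k)) (nb G u (univ \ part W p k)) :=
        disjoint_sdiff.mono (nb_subset _ _) (nb_subset _ _)
      have a3 := card_le_card (union_subset (nb_mono (G := G) u (subset_univ (part W p k)))
        (nb_mono (G := G) u (subset_univ (univ \ part W p k))))
      rw [card_union_of_disjoint a2] at a3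
      have a4 : ((nb G u (part W p k)).card : ℝ) + (nb G u (univ \ part W p k)).card
          ≤ (nb G u univ).card := by exact_mod_cast a3
      have a5 := hdeg u univ
      push_cast at a1
      nlinarith
    have h3 := card_nsmul_le_sum _ _ _ h1
    have h4 := sum_le_card_nsmul _ _ _ h2
    rw [nsmul_eq_mul] at h3 h4
    rw [sum_card_nb_comm] at h3
    have h5 : (0 : ℝ) < (U l).card := lt_of_lt_of_le (by nlinarith) (h.size l hl)
    have h6 : ((U l).card : ℝ) * ((part W p k).card * (1 - 2 * ξ))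
        ≤ (U l).card * (a * (1 + 3 * s * η)) := by linarith
    have h7 := le_of_mul_le_mul_left h6 h5
    have h8 : a * (1 + 3 * s * η) ≤ (1 + (6 * s + 4) * ξ) * a * (1 - 2 * ξ) := by
      have b1 : 3 * s * η ≤ 3 * s * ξ := by gcongr
      have b2 : (6 * s + 4) * ξ * (2 * ξ) ≤ (3 * s + 2) * ξ := by nlinarith
      have b3 : 1 + 3 * s * η ≤ (1 + (6 * s + 4) * ξ) * (1 - 2 * ξ) := by nlinarith
      nlinarith
    exact le_of_mul_le_mul_right (h7.trans h8) (by nlinarith)
  refine ⟨⟨fun x hx => (good_col hx).1, ?_, hlo, ?_, ?_, ?_⟩, hUW⟩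
  · intro x hx y hy hxy heq
    have gx := good_col hx
    have gy := good_col hy
    rw [← hp] at gx gy
    rw [← heq] at gy
    have hi := gx.1
    have c1 : CF G s (nb G y univ) := hCF.nb (mem_univ _)
    obtain ⟨s', rfl⟩ : ∃ s', s = s' + 1 := ⟨s - 1, by omega⟩
    have c2 : CF G s' (nb G x (nb G y univ)) := c1.nb (mem_nb.2 ⟨mem_univ _, hxy.symm⟩)
    have h1 := kc_greedy (G := G) U (range (s' + 1 + 1)) (η * a) (by linarith)
      (fun i hi j hj hij => h.disj i (mem_range.1 hi) j (mem_range.1 hj) hij)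
      (fun i hi j hj hij x hx => h.miss i (mem_range.1 hi) j (mem_range.1 hj) hij x hx)
      (s' + 1) ((range (s' + 1 + 1)).erase (p x)) (erase_subset _ _) (nb G x (nb G y univ))
      ((1 - η) * a - 2 * (ξ * a)) (fun k hk => by
        have b1 := mem_range.1 (mem_of_mem_erase hk)
        have b2 := ne_of_mem_erase hk
        have b3 : U k ⊆ (nb G x (nb G y univ) ∩ U k) ∪ nn G x (U k) ∪ nn G y (U k) := by
          intro u hu
          simp only [mem_union, mem_inter, mem_nb, mem_nn, mem_univ]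
          tauto
        have b4 : ((U k).card : ℝ) ≤ (nb G x (nb G y univ) ∩ U k).card + (nn G x (U k)).card
            + (nn G y (U k)).card := by
          exact_mod_cast (card_le_card b3).trans ((card_union_le _ _).trans
            (Nat.add_le_add_right (card_union_le _ _) _))
        have b5 := gx.2 k b1 b2
        have b6 := gy.2 k b1 b2
        have b7 := h.size k b1
        linarith) (by nlinarith)
    rw [card_erase_of_mem (mem_range.2 hi), card_range, Nat.add_sub_cancel, Nat.choose_self] at h1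
    have h2 : 0 < kc G (s' + 1) (nb G x (nb G y univ)) := by
      refine lt_of_lt_of_le ?_ h1
      have : 0 < (1 - η) * a - 2 * (ξ * a) - ((s' + 1 : ℕ) : ℝ) * (η * a) := by nlinarith
      positivity
    obtain ⟨K, h3, h4, h5⟩ := exists_clique_of_kc_pos h2
    have := c2 K h3 h4
    omega
  · intro i hi
    refine (hhi i hi).trans ?_
    gcongr
    nlinarith
  · intro x hx
    have gx := good_col hx
    rw [← hp] at gx
    have h1 : mx G p W x ⊆ ((range (s + 1)).erase (p x)).biUnion
        (fun k => nn G x (U k) ∪ (part W p k \ U k)) := by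
      intro y hy
      obtain ⟨a1, a2, a3⟩ := mem_mx.1 hy
      refine mem_biUnion.2 ⟨p y, mem_erase.2 ⟨a2, mem_range.2 (good_col a1).1⟩, ?_⟩
      by_cases hyU : y ∈ U (p y)
      · exact mem_union_left _ (mem_nn.2 ⟨hyU, a3⟩)
      · exact mem_union_right _ (mem_sdiff.2 ⟨mem_part.2 ⟨a1, rfl⟩, hyU⟩)
    have h2 := (card_le_card h1).trans card_biUnion_le
    have h3 : ((mx G p W x).card : ℝ) ≤ ∑ k ∈ (range (s + 1)).erase (p x),
        ((nn G x (U k) ∪ (part W p k \ U k)).card : ℝ) := by exact_mod_cast h2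
    have h4 := sum_le_card_nsmul ((range (s + 1)).erase (p x))
      (fun k => ((nn G x (U k) ∪ (part W p k \ U k)).card : ℝ)) (6 * (s + 1) * (ξ * a))
      (fun k hk => by
        have b1 := mem_range.1 (mem_of_mem_erase hk)
        have b2 := gx.2 k b1 (ne_of_mem_erase hk)
        have b3 : ((nn G x (U k) ∪ (part W p k \ U k)).card : ℝ)
            ≤ (nn G x (U k)).card + (part W p k \ U k).card := by
          exact_mod_cast card_union_le _ _
        have b4 : ((part W p k \ U k).card : ℝ) + (U k).card = (part W p k).card := by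
          exact_mod_cast card_sdiff_add_card_eq_card (hUp k b1)
        have b5 := hhi k b1
        have b6 := h.size k b1
        nlinarith)
    rw [card_erase_of_mem (mem_range.2 gx.1), card_range, Nat.add_sub_cancel, nsmul_eq_mul] at h4
    have : 0 ≤ 6 * (s + 1) * (ξ * a) := by positivity
    nlinarith
  · intro z hz i hi
    by_contra hcon
    push Not at hcon
    refine hz (mem_filter.2 ⟨mem_univ _, i, hi, fun k hk hki => le_trans ?_ (hcon k hk hki)⟩)
    exact_mod_cast card_le_card (nn_mono _ (hUp k hk))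

theorem exists_family [Fintype V] {s : ℕ} (hs : 1 ≤ s) {a η ξ : ℝ}
    (hη : 0 < η) (hηξ : η ≤ ξ) (hξ : 8 * (s + 1) * ξ ≤ 1)
    (ha : 1 ≤ η * a) (hdeg : ∀ x S, ((nb G x S).card : ℝ) ≤ s * (a + 1))
    (hCF : CF G (s + 1) univ) :
    ∃ (F : Finset (ℕ → Finset V)) (W : (ℕ → Finset V) → Finset V) (p : (ℕ → Finset V) → V → ℕ),
      (∀ c ∈ F, Cluster G (s + 1) a η ξ (6 * (s + 1) ^ 2 * ξ) (W c) (p c)) ∧
      (∀ c ∈ F, ∀ c' ∈ F, c ≠ c' → Disjoint (W c) (W c')) ∧
      ∀ U : ℕ → Finset V, Core G (s + 1) a η U → ¬ ∀ i < s + 1, U i ⊆ univ \ F.biUnion W := by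
  set W : (ℕ → Finset V) → Finset V := fun U => clo G (s + 1) (ξ * a) U with hW
  have hs1 : (1 : ℝ) ≤ s := by exact_mod_cast hs
  have hξ0 : 0 < ξ := by linarith
  have ha0 : 0 < a := by
    by_contra h; push Not at h; nlinarith
  have hξa : η * a ≤ ξ * a := by gcongr
  have hsξa : 8 * (s + 1) * (ξ * a) ≤ a := by nlinarith
  let P : ℕ → Prop := fun m => ∃ F : Finset (ℕ → Finset V), F.card = m ∧
    (∀ c ∈ F, Core G (s + 1) a η c) ∧ ∀ c ∈ F, ∀ c' ∈ F, c ≠ c' → Disjoint (W c) (W c')
  have hne : ∀ c, Core G (s + 1) a η c → (c 0).Nonempty := fun c hc => by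
    have := hc.size 0 (by omega)
    have h2 : (0 : ℝ) < (c 0).card := lt_of_lt_of_le (by nlinarith) this
    exact card_pos.1 (by exact_mod_cast h2)
  have hsub : ∀ c, Core G (s + 1) a η c → ∀ i < s + 1, c i ⊆ W c := fun c hc =>
    (cluster_of_core hs hc hη hηξ hξ ha hdeg hCF).2
  have hbound : ∀ m, P m → m ≤ Fintype.card V := by
    rintro m ⟨F, rfl, h1, h2⟩
    have h3 : (F.biUnion W).card = ∑ c ∈ F, (W c).card := card_biUnion (fun c hc c' hc' h =>
      h2 c hc c' hc' h)
    have h4 : F.card ≤ ∑ c ∈ F, (W c).card := by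
      rw [card_eq_sum_ones]
      exact sum_le_sum fun c hc => card_pos.2 ((hne c (h1 c hc)).mono (hsub c (h1 c hc) 0 (by omega)))
    have h5 := card_le_univ (F.biUnion W)
    omega
  have h0 : P 0 := ⟨∅, by simp, by simp, by simp⟩
  obtain ⟨F, hF1, hF2, hF3⟩ : P (Nat.findGreatest P (Fintype.card V)) :=
    Nat.findGreatest_spec (Nat.zero_le _) h0
  refine ⟨F, W, fun U => col G (s + 1) (ξ * a) U,
    fun c hc => (cluster_of_core hs (hF2 c hc) hη hηξ hξ ha hdeg hCF).1, hF3, ?_⟩
  intro U hU hUZ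
  have hdisj : ∀ c ∈ F, Disjoint (W U) (W c) := by
    intro c hc
    rw [disjoint_left]
    intro x h1 h2
    have a1 := clo_nb hU h1 hUZ
    have a2 := clo_nb (hF2 c hc) h2 (T := F.biUnion W)
      (fun j hj => (hsub c (hF2 c hc) j hj).trans (subset_biUnion_of_mem W hc))
    have a3 : Disjoint (nb G x (univ \ F.biUnion W)) (nb G x (F.biUnion W)) :=
      sdiff_disjoint.mono (nb_subset _ _) (nb_subset _ _)
    have a4 := card_le_card (union_subset (nb_mono (G := G) x (subset_univ (univ \ F.biUnion W)))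
      (nb_mono (G := G) x (subset_univ (F.biUnion W))))
    rw [card_union_of_disjoint a3] at a4
    have a5 : ((nb G x (univ \ F.biUnion W)).card : ℝ) + (nb G x (F.biUnion W)).card
        ≤ (nb G x univ).card := by exact_mod_cast a4
    have a6 := hdeg x univ
    push_cast at a1 a2
    have a7 : (s : ℝ) * (a + 1) < s * (2 * ((1 - η) * a - ξ * a)) :=
      mul_lt_mul_of_pos_left (by nlinarith) (by linarith)
    nlinarith
  have hUF : U ∉ F := by
    intro hc
    obtain ⟨x, hx⟩ := hne U hU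
    exact disjoint_left.1 (hdisj U hc) (hsub U hU 0 (by omega) hx) (hsub U hU 0 (by omega) hx)
  have hP : P (F.card + 1) := by
    refine ⟨insert U F, card_insert_of_notMem hUF, ?_, ?_⟩
    · intro c hc
      rcases mem_insert.1 hc with rfl | hc
      · exact hU
      · exact hF2 c hc
    · intro c hc c' hc' hcc
      rcases mem_insert.1 hc with h1 | h1 <;> rcases mem_insert.1 hc' with h2 | h2
      · exact absurd (h1.trans h2.symm) hcc
      · rw [h1]; exact hdisj c' h2
      · rw [h2]; exact (hdisj c h1).symm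
      · exact hF3 c h1 c' h2 hcc
  have := Nat.le_findGreatest (hbound _ hP) hP
  omega

end Pool.Agent.Lib.MP_1b6faf_co
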