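import Pool.Agent.Lib.MP_1b6faf_co.Global

/-!
Constructions: the Turan graph, and graphs with one more vertex and more triangles per vertex.
-/

namespace Pool.Agent.Lib.MP_1b6faf_co

open Finset
open scoped Classical

section
variable {V : Type*} {G : SimpleGraph V} {p : V → ℕ} {S : Finset V}

lemma kc_lower (G : SimpleGraph V) (p : V → ℕ) (S : Finset V) : kc (mp p) 3 S
    ≤ kc G 3 S + ∑ e ∈ mis G p S, ((nb (mp p) e.1 (nb (mp p) e.2 S)).card : ℝ) := by
  rw [kc_eq_card, kc_eq_card]
  have h1 : (cl (mp p) S).filter (fun K => K.card = 3) ⊆ (cl G S).filter (fun K => K.card = 3) ∪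
      (mis G p S).biUnion (fun e => (nb (mp p) e.1 (nb (mp p) e.2 S)).image
        (fun u => insert e.1 (insert e.2 {u}))) := by
    intro K hK
    obtain ⟨hK1, hK3⟩ := mem_filter.1 hK
    obtain ⟨hS, hc⟩ := mem_cl.1 hK1
    by_cases hG : G.IsClique (K : Set V)
    · exact mem_union_left _ (mem_filter.2 ⟨mem_cl.2 ⟨hS, hG⟩, hK3⟩)
    refine mem_union_right _ ?_
    obtain ⟨x, hx, y, hy, hxy, hA⟩ : ∃ x ∈ K, ∃ y ∈ K, p x < p y ∧ ¬ G.Adj x y := by
      by_contra hcon
      push Not at hcon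
      refine hG fun x hx y hy hne => ?_
      have : p x ≠ p y := hc hx hy hne
      rcases lt_or_gt_of_ne this with c | c
      · exact hcon x hx y hy c
      · exact (hcon y hy x hx c).symm
    have hne : y ≠ x := fun c => by rw [c] at hxy; exact lt_irrefl _ hxy
    have hy' : y ∈ K.erase x := mem_erase.2 ⟨hne, hy⟩
    obtain ⟨u, hu⟩ : ∃ u, (K.erase x).erase y = {u} :=
      card_eq_one.1 (by rw [card_erase_of_mem hy', card_erase_of_mem hx, hK3])
    have hu' : u ∈ (K.erase x).erase y := by rw [hu]; exact mem_singleton_self _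
    have u1 := mem_of_mem_erase (mem_of_mem_erase hu')
    refine mem_biUnion.2 ⟨(x, y), mem_mis.2 ⟨hS hx, hS hy, hxy, hA⟩, mem_image.2 ⟨u, ?_, ?_⟩⟩
    · exact mem_nb.2 ⟨mem_nb.2 ⟨hS u1, hc hy u1 (ne_of_mem_erase hu').symm⟩,
        hc hx u1 (ne_of_mem_erase (mem_of_mem_erase hu')).symm⟩
    · simp only
      rw [← hu, insert_erase hy', insert_erase hx]
  have h2 := (card_le_card h1).trans ((card_union_le _ _).trans (Nat.add_le_add_left
    (card_biUnion_le.trans (sum_le_sum fun e _ => card_image_le)) _))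
  exact_mod_cast h2

lemma codeg_le (S : Finset V) {x y : V} (hxy : p x ≠ p y) :
    (nb (mp p) x (nb (mp p) y S)).card + (part S p (p x)).card + (part S p (p y)).card
      ≤ S.card := by
  rw [← card_union_of_disjoint, ← card_union_of_disjoint]
  · exact card_le_card (union_subset (union_subset ((nb_subset _ _).trans (nb_subset _ _))
      (part_subset _ _ _)) (part_subset _ _ _))
  · rw [disjoint_union_left]
    refine ⟨disjoint_left.2 fun u h1 h2 => ?_, part_disjoint _ _ hxy⟩
    exact (mem_nb.1 (mem_nb.1 h1).1).2 (mem_part.1 h2).2.symm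
  · exact disjoint_left.2 fun u h1 h2 => (mem_nb.1 h1).2 (mem_part.1 h2).2.symm

lemma deg_le (hp : Proper G p S) {x : V} (hx : x ∈ S) :
    (nb G x S).card + (part S p (p x)).card + (mx G p S x).card ≤ S.card := by
  rw [← card_union_of_disjoint, ← card_union_of_disjoint]
  · exact card_le_card (union_subset (union_subset (nb_subset _ _)
      (part_subset _ _ _)) (filter_subset _ _))
  · rw [disjoint_union_left]
    exact ⟨disjoint_left.2 fun u h1 h2 => (mem_mx.1 h2).2.2 (mem_nb.1 h1).2,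
      disjoint_left.2 fun u h1 h2 => (mem_mx.1 h2).2.1 (mem_part.1 h1).2⟩
  · exact disjoint_left.2 fun u h1 h2 =>
      hp x hx u (mem_nb.1 h1).1 (mem_nb.1 h1).2 (mem_part.1 h2).2.symm

lemma CF_of_proper (hp : Proper G p S) {m : ℕ} (hm : ∀ x ∈ S, p x < m) : CF G m S := by
  intro K hK hc
  rw [← card_range m]
  refine card_le_card_of_injOn p (fun x hx => mem_coe.2 (mem_range.2 (hm x (hK hx)))) ?_
  intro x hx y hy h
  by_contra hne
  exact hp x (hK hx) y (hK hy) (hc hx hy hne) h

end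

/-- a finite graph, given on a finite set of vertices, in the class -/
def Wit (s a r : ℕ) (G : SimpleGraph ℕ) (S : Finset ℕ) : Prop :=
  S.Nonempty ∧ (∀ x ∈ S, (nb G x S).card ≤ s * a + r) ∧ CF G (s + 1) S

lemma card_mod {q i : ℕ} (hi : i < q) (n : ℕ) :
    ((range n).filter (fun u => u % q = i)).card = n / q + if i < n % q then 1 else 0 := by
  have h := Nat.count_modEq_card n (show 0 < q by omega) i
  rw [Nat.count_eq_card_filter_range, Nat.mod_eq_of_lt hi] at h
  rw [← h]
  congr 1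
  ext u
  simp [Nat.ModEq, Nat.mod_eq_of_lt hi]

theorem exists_turan (s a r : ℕ) (hr : r < s) : ∃ (G : SimpleGraph ℕ) (S : Finset ℕ),
    Wit s a r G S ∧ ∀ k, kc G (k + 3) S = rho s k a r * S.card := by
  by_cases h0 : a = 0 ∧ r = 0
  · obtain ⟨rfl, rfl⟩ := h0
    refine ⟨⊥, {0}, ⟨by simp, fun x _ => by simp [nb], fun K hK _ => ?_⟩, fun k => ?_⟩
    · have := card_le_card hK
      simp at this; omega
    · have h1 : kc (⊥ : SimpleGraph ℕ) (k + 3) {0} = 0 := by
        rw [kc_eq_card, filter_false_of_mem, card_empty, Nat.cast_zero]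
        intro K hK
        have := card_le_card (mem_cl.1 hK).1
        simp at this; omega
      rw [h1]; simp [rho]
  set p : ℕ → ℕ := fun u => u % (s + 1) with hp
  set S := range ((s + 1) * a + r) with hS
  have hlt : ∀ x, p x < s + 1 := fun x => Nat.mod_lt _ (by omega)
  have hpart : ∀ i < s + 1, (part S p i).card = balw a r i := fun i hi => by
    have := card_mod hi ((s + 1) * a + r)
    rw [Nat.mul_add_div (by omega), Nat.mul_add_mod, Nat.div_eq_of_lt (by omega : r < s + 1),
      Nat.mod_eq_of_lt (by omega : r < s + 1)] at this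
    unfold part balw
    convert this using 1
    split_ifs <;> rfl
  have hprop : Proper (mp p) p S := fun x _ y _ h => h
  have hpos : 0 < (s + 1) * a + r := by
    rcases Nat.eq_zero_or_pos a with c | c
    · omega
    · positivity
  refine ⟨mp p, S, ⟨nonempty_range_iff.2 hpos.ne', fun x hx => ?_,
    CF_of_proper hprop (fun x _ => hlt x)⟩, fun k => ?_⟩
  · have h1 := deg_le hprop hx
    have hc : S.card = s * a + a + r := by rw [hS, card_range]; ring
    rw [hpart _ (hlt x), hc] at h1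
    have : a ≤ balw a r (p x) := by unfold balw; split_ifs <;> omega
    omega
  · rw [kc_mp p _ S (range (s + 1)) (fun x _ => mem_range.2 (hlt x)),
      es_congr _ (w' := fun i => (balw a r i : ℝ)) (fun i hi => by rw [hpart i (mem_range.1 hi)]),
      hS, card_range]
    have : (0 : ℝ) < (s + 1) * a + r := by exact_mod_cast hpos
    unfold rho ebal
    push_cast
    field_simp

lemma es_one (I : Finset ℕ) (w : ℕ → ℝ) : es 1 I w = ∑ i ∈ I, w i := by
  have := es_succ_mul 0 I w
  simpa [es_zero] using this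

lemma es_two (I : Finset ℕ) (w : ℕ → ℝ) : 2 * es 2 I w = (∑ i ∈ I, w i) ^ 2 - ∑ i ∈ I, w i ^ 2 := by
  have h := es_succ_mul 1 I w
  rw [show ((1 : ℕ) : ℝ) + 1 = 2 by norm_num] at h
  rw [h, pow_two (∑ i ∈ I, w i), sum_mul, ← sum_sub_distrib]
  refine sum_congr rfl fun i hi => ?_
  rw [es_one, ← add_sum_erase I w hi]
  ring

lemma sum_balw_g (g : ℕ → ℝ) {om a r : ℕ} (hr : r ≤ om) :
    ∑ i ∈ range om, g (balw a r i) = r * g (a + 1) + (om - r) * g a := by
  obtain ⟨d, rfl⟩ := Nat.exists_eq_add_of_le hr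
  rw [sum_range_add, sum_congr rfl (g := fun _ => g (a + 1)) (fun i hi => by
    unfold balw; rw [if_pos (mem_range.1 hi)]), sum_congr rfl (s₁ := range d) (g := fun _ => g a)
    (fun i hi => by unfold balw; rw [if_neg (by omega)])]
  simp

lemma ebal_step {s r : ℕ} (a : ℕ) (hr : r < s + 1) :
    2 * (ebal 3 (s + 1) a (r + 1) - ebal 3 (s + 1) a r)
      = (s * a + r) ^ 2 - (s * a ^ 2 + 2 * r * a + r) := by
  have hm := mem_range.2 hr
  unfold ebal
  rw [es_erase 2 hm, es_erase 2 hm (fun i => (balw a r i : ℝ))]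
  have hc : ∀ k', es k' ((range (s + 1)).erase r) (fun i => (balw a (r + 1) i : ℝ))
      = es k' ((range (s + 1)).erase r) (fun i => (balw a r i : ℝ)) := fun k' =>
    es_congr k' (fun i hi => by
      have := ne_of_mem_erase hi
      unfold balw
      by_cases c : i < r
      · rw [if_pos c, if_pos (by omega)]
      · rw [if_neg c, if_neg (by omega)])
  have e1 : balw a (r + 1) r = a + 1 := by simp [balw]
  have e2 : balw a r r = a := by simp [balw]
  have h1 := es_two ((range (s + 1)).erase r) (fun i => (balw a r i : ℝ))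
  have h2 := add_sum_erase _ (fun i => (balw a r i : ℝ)) hm
  have h3 := add_sum_erase _ (fun i => (balw a r i : ℝ) ^ 2) hm
  rw [sum_balw_g (fun x => (x : ℝ)) hr.le] at h2
  rw [sum_balw_g (fun x => (x : ℝ) ^ 2) hr.le] at h3
  simp only [e2] at h2 h3
  rw [hc, hc, e1, e2]
  push_cast at h2 h3 ⊢
  have h4 : ∑ i ∈ (range (s + 1)).erase r, (balw a r i : ℝ) = s * a + r := by linarith
  rw [h4] at h1
  linarith

lemma rho3_le {s r : ℕ} (a : ℕ) (ha : 1 ≤ a) (hr : r < s + 1) :
    rho s 0 a r ≤ s * (s - 1) / 6 * (a + r / (s + 1)) ^ 2 := by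
  have h1 := maclaurin 3 (range (s + 1)) (fun i => (balw a r i : ℝ)) (fun _ _ => Nat.cast_nonneg _)
  rw [sum_balw_g (fun x => (x : ℝ)) hr.le, card_range] at h1
  have h2 : ((s + 1).choose 3 : ℝ) = (s + 1) * s * (s - 1) / 6 := by
    have b1 := choose_id s 2
    rw [Nat.cast_choose_two] at b1
    push_cast at b1
    linarith
  have ha' : (1 : ℝ) ≤ a := by exact_mod_cast ha
  have hn : (0 : ℝ) < (s + 1) * a + r := by positivity
  unfold rho
  rw [div_le_iff₀ hn]
  refine h1.trans (le_of_eq ?_)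
  rw [h2]
  push_cast
  field_simp
  ring

lemma rho3_mul {s r : ℕ} (a : ℕ) (ha : 1 ≤ a) :
    rho s 0 a r * ((s + 1) * a + r + 1) = ebal 3 (s + 1) a r + rho s 0 a r := by
  have ha' : (1 : ℝ) ≤ a := by exact_mod_cast ha
  have hn : (0 : ℝ) < (s + 1) * a + r := by positivity
  unfold rho
  field_simp

/-- colouring with `q` classes of size `a` followed by `r + 1` classes of size `a + 1` -/
def cfn (q a r u : ℕ) : ℕ := if u < q * a then u % q else q + (u - q * a) % (r + 1)

def gr (q a r : ℕ) (σ : ℕ → ℕ) : SimpleGraph ℕ where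
  Adj u v := cfn q a r u ≠ cfn q a r v ∧ ¬ (u < q * a ∧ v = σ u) ∧ ¬ (v < q * a ∧ u = σ v)
  symm := ⟨fun _ _ h => ⟨h.1.symm, h.2.2, h.2.1⟩⟩
  loopless := ⟨fun _ h => h.1 rfl⟩

lemma cfn_small {q a r u : ℕ} (h : u < q * a) : cfn q a r u < q := by
  unfold cfn; rw [if_pos h]
  exact Nat.mod_lt _ (Nat.pos_of_ne_zero fun c => by simp [c] at h)

lemma cfn_large {q a r u : ℕ} (h : ¬ u < q * a) : q ≤ cfn q a r u ∧ cfn q a r u < q + (r + 1) := by
  unfold cfn; rw [if_neg h]
  have := Nat.mod_lt (u - q * a) (show 0 < r + 1 by omega)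
  omega

lemma cfn_lt (q a r u : ℕ) : cfn q a r u < q + (r + 1) := by
  by_cases h : u < q * a
  · have := cfn_small (r := r) h; omega
  · exact (cfn_large h).2

lemma part_small {q i : ℕ} (a r : ℕ) (hi : i < q) :
    (part (range (q * a + (r + 1) * (a + 1))) (cfn q a r) i).card = a := by
  have h1 := card_mod hi (q * a)
  rw [Nat.mul_div_cancel_left _ (by omega), Nat.mul_mod_right, if_neg (by omega), add_zero] at h1
  refine Eq.trans ?_ h1
  congr 1
  ext u
  simp only [mem_part, mem_range, mem_filter]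
  constructor
  · rintro ⟨_, c⟩
    have : u < q * a := by
      by_contra d
      have := (cfn_large (r := r) d).1; omega
    refine ⟨this, ?_⟩
    unfold cfn at c; rwa [if_pos this] at c
  · rintro ⟨c, d⟩
    exact ⟨by omega, by unfold cfn; rwa [if_pos c]⟩

lemma part_large {q i : ℕ} (a r : ℕ) (hi : q ≤ i) (hi' : i < q + (r + 1)) :
    (part (range (q * a + (r + 1) * (a + 1))) (cfn q a r) i).card = a + 1 := by
  have h1 := card_mod (show i - q < r + 1 by omega) ((r + 1) * (a + 1))
  rw [Nat.mul_div_cancel_left _ (by omega), Nat.mul_mod_right, if_neg (by omega), add_zero] at h1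
  rw [← card_image_of_injective _ (add_right_injective (q * a))] at h1
  refine Eq.trans ?_ h1
  congr 1
  ext u
  simp only [mem_part, mem_range, mem_filter, mem_image]
  constructor
  · rintro ⟨b, c⟩
    have : ¬ u < q * a := fun d => by have := cfn_small (r := r) d; omega
    unfold cfn at c; rw [if_neg this] at c
    exact ⟨u - q * a, ⟨by omega, by omega⟩, by omega⟩
  · rintro ⟨v, ⟨c, d⟩, rfl⟩
    refine ⟨by omega, ?_⟩
    unfold cfn; rw [if_neg (by omega), Nat.add_sub_cancel_left]; omega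

theorem better {q a r : ℕ} (ha : 1 ≤ a) (σ : ℕ → ℕ)
    (hσ : ∀ u < q * a, σ u ≤ q * a ∧ cfn q a r (σ u) ≠ cfn q a r u) (Lo : ℝ)
    (hLo : ∑ e ∈ mis (gr q a r σ) (cfn q a r) (range (q * a + (r + 1) * (a + 1))),
      ((nb (mp (cfn q a r)) e.1 (nb (mp (cfn q a r)) e.2
        (range (q * a + (r + 1) * (a + 1))))).card : ℝ) ≤ Lo)
    (hnum : 2 * rho (q + r) 0 a r + 2 * Lo < ((q + r) * a + r) ^ 2 - ((q + r) * a ^ 2 + 2 * r * a + r)) :
    ∃ (G : SimpleGraph ℕ) (S : Finset ℕ), Wit (q + r) a r G S ∧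
      rho (q + r) 0 a r * S.card < kc G 3 S := by
  set S := range (q * a + (r + 1) * (a + 1)) with hS
  have hprop : Proper (gr q a r σ) (cfn q a r) S := fun x _ y _ h => h.1
  have hcard : S.card = (q + r + 1) * a + (r + 1) := by rw [hS, card_range]; ring
  refine ⟨gr q a r σ, S, ⟨nonempty_range_iff.2 (by positivity), fun x hx => ?_,
    CF_of_proper hprop (fun x _ => cfn_lt q a r x)⟩, ?_⟩
  · have h1 := deg_le hprop hx
    rw [hcard, add_mul] at h1
    by_cases c : x < q * a
    · rw [hS, part_small a r (cfn_small c), ← hS] at h1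
      have : 0 < (mx (gr q a r σ) (cfn q a r) S x).card := card_pos.2 ⟨σ x, mem_mx.2
        ⟨mem_range.2 (by have := (hσ x c).1; nlinarith), (hσ x c).2, fun h => h.2.1 ⟨c, rfl⟩⟩⟩
      omega
    · rw [hS, part_large a r (cfn_large c).1 (cfn_large c).2, ← hS] at h1
      omega
  · have h1 := kc_lower (gr q a r σ) (cfn q a r) S
    have hm : ∀ x ∈ S, cfn q a r x ∈ range (q + r + 1) := fun x _ => mem_range.2 (cfn_lt q a r x)
    rw [kc_mp _ 3 S (range (q + r + 1)) hm, es_two_val 3 (q + r + 1) a (r + 1) (by omega) _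
      (fun i hi => by
        by_cases c : i < q
        · exact Or.inl (part_small a r c)
        · exact Or.inr (part_large a r (by omega) (mem_range.1 hi)))
      (by rw [← hcard]; exact (card_eq_sum_parts hm).symm)] at h1
    have h2 := ebal_step (s := q + r) (r := r) a (by omega)
    have h3 := rho3_mul (s := q + r) (r := r) a ha
    rw [hcard]
    push_cast at h2 h3 ⊢
    linarith

theorem better_star {a r : ℕ} (ha : 1 ≤ a) (hr : 2 ≤ r) :
    ∃ (G : SimpleGraph ℕ) (S : Finset ℕ), Wit (1 + r) a r G S ∧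
      rho (1 + r) 0 a r * S.card < kc G 3 S := by
  have hl : 1 ≤ cfn 1 a r (1 * a) ∧ cfn 1 a r (1 * a) < 1 + (r + 1) := cfn_large (lt_irrefl _)
  refine better ha (fun _ => 1 * a) (fun u hu => ⟨le_rfl, ?_⟩) (a * (r * (a + 1))) ?_ ?_
  · have := cfn_small (r := r) hu; omega
  · set S := range (1 * a + (r + 1) * (a + 1)) with hS
    have h1 : ∀ e ∈ mis (gr 1 a r (fun _ => 1 * a)) (cfn 1 a r) S, e.1 < 1 * a ∧ e.2 = 1 * a := by
      intro e he
      obtain ⟨_, _, c1, c2⟩ := mem_mis.1 he
      by_contra d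
      refine c2 ⟨c1.ne, d, fun d' => ?_⟩
      have := cfn_small (r := r) d'.1; omega
    have h2 : (mis (gr 1 a r (fun _ => 1 * a)) (cfn 1 a r) S).card ≤ a := by
      refine le_of_le_of_eq ?_ (card_range a)
      refine card_le_card_of_injOn Prod.fst (fun e he => ?_) (fun e he e' he' h => ?_)
      · have := (h1 e he).1
        exact mem_coe.2 (mem_range.2 (by omega))
      · exact Prod.ext h ((h1 e he).2.trans (h1 e' he').2.symm)
    have h3 := sum_le_card_nsmul (mis (gr 1 a r (fun _ => 1 * a)) (cfn 1 a r) S) (fun e =>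
      ((nb (mp (cfn 1 a r)) e.1 (nb (mp (cfn 1 a r)) e.2 S)).card : ℝ)) (r * (a + 1)) (fun e he => by
        have b1 := codeg_le S (mem_mis.1 he).2.2.1.ne
        rw [hS, part_small a r (cfn_small (h1 e he).1), (h1 e he).2, part_large a r hl.1 hl.2,
          card_range, ← hS, ← (h1 e he).2] at b1
        have b2 : (nb (mp (cfn 1 a r)) e.1 (nb (mp (cfn 1 a r)) e.2 S)).card ≤ r * (a + 1) := by
          have := (h1 e he).2
          nlinarith
        exact_mod_cast b2)
    rw [nsmul_eq_mul] at h3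
    have h2' : ((mis (gr 1 a r (fun _ => 1 * a)) (cfn 1 a r) S).card : ℝ) ≤ a := by exact_mod_cast h2
    exact h3.trans (mul_le_mul_of_nonneg_right h2' (by positivity))
  · have h1 := rho3_le (s := 1 + r) (r := r) a ha (by omega)
    have hr' : (2 : ℝ) ≤ r := by exact_mod_cast hr
    have h2 : (r : ℝ) / ((1 + r : ℕ) + 1) < 1 := by
      rw [div_lt_one (by positivity)]; push_cast; linarith
    have h3 : ((a : ℝ) + r / ((1 + r : ℕ) + 1)) ^ 2 < (a + 1) ^ 2 := by gcongr
    set x := ((a : ℝ) + r / ((1 + r : ℕ) + 1)) ^ 2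
    push_cast at h1 ⊢
    have h4 : (1 + (r : ℝ)) * r / 3 * x < (1 + r) * r / 3 * (a + 1) ^ 2 := by gcongr
    have h5 : (1 + (r : ℝ)) * r / 3 * (a + 1) ^ 2 ≤ r * (r - 1) * (a + 1) ^ 2 := by
      gcongr; nlinarith
    nlinarith

theorem better_match {q a r : ℕ} (ha : 1 ≤ a) (hq : 2 ≤ q)
    (hnum : 2 * rho (q + r) 0 a r + (q * a + (q * a % 2 : ℕ)) * ((q + r - 1) * a + r + 1)
      < ((q + r) * a + r) ^ 2 - ((q + r) * a ^ 2 + 2 * r * a + r)) :
    ∃ (G : SimpleGraph ℕ) (S : Finset ℕ), Wit (q + r) a r G S ∧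
      rho (q + r) 0 a r * S.card < kc G 3 S := by
  set σ : ℕ → ℕ := fun u => if u % 2 = 0 then u + 1 else u - 1 with hσ
  have hmod : ∀ u, (u + 1) % q ≠ u % q := fun u h => by
    have := (Nat.modEq_iff_dvd' (Nat.le_succ u)).1 h.symm
    rw [Nat.succ_sub (le_refl u), Nat.sub_self] at this
    have := Nat.le_of_dvd (by norm_num) this
    omega
  refine better ha σ (fun u hu => ?_)
    ((q * a + (q * a % 2 : ℕ)) * ((q + r - 1) * a + r + 1) / 2) ?_ (by linarith)
  · simp only [hσ]
    split_ifs with c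
    · refine ⟨by omega, ?_⟩
      by_cases d : u + 1 < q * a
      · unfold cfn; rw [if_pos d, if_pos hu]; exact hmod u
      · have := cfn_small (r := r) hu
        have := (cfn_large (r := r) d).1
        omega
    · refine ⟨by omega, ?_⟩
      unfold cfn; rw [if_pos hu, if_pos (by omega)]
      have := hmod (u - 1)
      rw [Nat.sub_add_cancel (by omega)] at this
      exact this.symm
  · set S := range (q * a + (r + 1) * (a + 1)) with hS
    have h1 : ∀ x ∈ S, ((mx (gr q a r σ) (cfn q a r) S x).card : ℝ)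
        ≤ if x < q * a + q * a % 2 then 1 else 0 := by
      intro x _
      have key : ∀ y ∈ mx (gr q a r σ) (cfn q a r) S x, y = σ x ∧ x < q * a + q * a % 2 := by
        intro y hy
        obtain ⟨_, c1, c2⟩ := mem_mx.1 hy
        have c3 : (x < q * a ∧ y = σ x) ∨ (y < q * a ∧ x = σ y) := by
          by_contra d
          push Not at d
          exact c2 ⟨c1.symm, fun e => d.1 e.1 e.2, fun e => d.2 e.1 e.2⟩
        simp only [hσ] at c3 ⊢
        split_ifs at c3 ⊢ <;> omega
      split_ifs with c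
      · have := card_le_card (show mx (gr q a r σ) (cfn q a r) S x ⊆ {σ x} from
          fun y hy => mem_singleton.2 (key y hy).1)
        exact_mod_cast this
      · rw [eq_empty_of_forall_notMem (fun y hy => c (key y hy).2)]; simp
    have h2 := sum_le_sum h1
    rw [sum_card_mx, ← sum_filter, sum_const, nsmul_eq_mul, mul_one] at h2
    have h3 : (S.filter (fun x => x < q * a + q * a % 2)).card ≤ q * a + q * a % 2 := by
      conv_rhs => rw [← card_range (q * a + q * a % 2)]
      exact card_le_card fun x hx => mem_range.2 (mem_filter.1 hx).2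
    have h3' : ((S.filter (fun x => x < q * a + q * a % 2)).card : ℝ) ≤ q * a + (q * a % 2 : ℕ) := by
      exact_mod_cast h3
    have hpa : ∀ x, a ≤ (part S (cfn q a r) (cfn q a r x)).card := fun x => by
      by_cases c : x < q * a
      · rw [hS, part_small a r (cfn_small c)]
      · rw [hS, part_large a r (cfn_large c).1 (cfn_large c).2]; omega
    have h4 := sum_le_card_nsmul (mis (gr q a r σ) (cfn q a r) S) (fun e =>
      ((nb (mp (cfn q a r)) e.1 (nb (mp (cfn q a r)) e.2 S)).card : ℝ)) ((q + r - 1) * a + r + 1)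
      (fun e he => by
        have b1 := codeg_le S (mem_mis.1 he).2.2.1.ne
        have b2 := hpa e.1
        have b3 := hpa e.2
        have b4 : (nb (mp (cfn q a r)) e.1 (nb (mp (cfn q a r)) e.2 S)).card + a + a
            ≤ q * a + (r + 1) * (a + 1) := by
          rw [hS, card_range, ← hS] at b1; omega
        have b5 : ((nb (mp (cfn q a r)) e.1 (nb (mp (cfn q a r)) e.2 S)).card : ℝ) + a + a
            ≤ q * a + (r + 1) * (a + 1) := by exact_mod_cast b4
        linarith)
    rw [nsmul_eq_mul] at h4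
    have hq' : (2 : ℝ) ≤ q := by exact_mod_cast hq
    have h5 : (0 : ℝ) ≤ (q + r - 1) * a + r + 1 := by
      have : (0 : ℝ) ≤ q + r - 1 := by linarith [Nat.cast_nonneg (α := ℝ) r]
      positivity
    have h6 := mul_le_mul_of_nonneg_right (h2.trans h3') h5
    linarith

theorem exists_better {s a r : ℕ} (hr : r < s) (hr2 : 2 ≤ r) (hs : s ≤ 3 * r) (ha : 20 * s ^ 2 ≤ a) :
    ∃ (G : SimpleGraph ℕ) (S : Finset ℕ), Wit s a r G S ∧ rho s 0 a r * S.card < kc G 3 S := by
  have ha1 : 1 ≤ a := le_trans (by nlinarith) ha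
  obtain ⟨q, rfl⟩ : ∃ q, s = q + r := ⟨s - r, by omega⟩
  rcases (by omega : q = 1 ∨ 2 ≤ q) with rfl | hq
  · exact better_star ha1 hr2
  refine better_match ha1 hq ?_
  have h1 := rho3_le (s := q + r) (r := r) a ha1 (by omega)
  have hr' : (2 : ℝ) ≤ r := by exact_mod_cast hr2
  have hq' : (2 : ℝ) ≤ q := by exact_mod_cast hq
  have ha' : (1 : ℝ) ≤ a := by exact_mod_cast ha1
  rcases (by omega : q = 2 * r ∨ q + 1 ≤ 2 * r) with rfl | hq2
  · have e : 2 * r * a % 2 = 0 := by rw [mul_assoc]; exact Nat.mul_mod_right _ _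
    rw [e]
    have h2 : (r : ℝ) / ((2 * r + r : ℕ) + 1) ≤ 1 / 3 := by
      rw [div_le_div_iff₀ (by positivity) (by norm_num)]; push_cast; linarith
    have h3 : ((a : ℝ) + r / ((2 * r + r : ℕ) + 1)) ^ 2 ≤ (a + 1 / 3) ^ 2 := by gcongr
    set x := ((a : ℝ) + r / ((2 * r + r : ℕ) + 1)) ^ 2
    push_cast at h1 ⊢
    have h4 : (r : ℝ) * (3 * r - 1) * x ≤ r * (3 * r - 1) * (a + 1 / 3) ^ 2 :=
      mul_le_mul_of_nonneg_left h3 (mul_nonneg (by linarith) (by linarith))
    have h5 : (0 : ℝ) ≤ r * (r - 5 / 3) * a := by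
      have : (0 : ℝ) ≤ r - 5 / 3 := by linarith
      positivity
    nlinarith
  · have e : ((q * a % 2 : ℕ) : ℝ) ≤ 1 := by exact_mod_cast (by omega : q * a % 2 ≤ 1)
    have h2 : (r : ℝ) / ((q + r : ℕ) + 1) ≤ 1 := by
      rw [div_le_one (by positivity)]; push_cast; linarith
    have h3 : ((a : ℝ) + r / ((q + r : ℕ) + 1)) ^ 2 ≤ (a + 1) ^ 2 := by gcongr
    set x := ((a : ℝ) + r / ((q + r : ℕ) + 1)) ^ 2
    have hq3 : (q : ℝ) + 1 ≤ 2 * r := by exact_mod_cast hq2
    have ha2 : 20 * ((q : ℝ) + r) ^ 2 ≤ a := by exact_mod_cast ha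
    push_cast at h1
    set σ : ℝ := q + r with hσ
    have hσ4 : 4 ≤ σ := by linarith
    have h4 : σ * (σ - 1) * x ≤ σ * (σ - 1) * (a + 1) ^ 2 :=
      mul_le_mul_of_nonneg_left h3 (mul_nonneg (by linarith) (by linarith))
    have h5 : ((q : ℝ) * a + (q * a % 2 : ℕ)) * ((σ - 1) * a + r + 1)
        ≤ ((2 * σ - 1) / 3 * a + 1) * ((σ - 1) * a + σ) := by
      have : (q : ℝ) ≤ (2 * σ - 1) / 3 := by linarith
      have : (0 : ℝ) ≤ σ - 1 := by linarith
      have : (0 : ℝ) ≤ (2 * σ - 1) / 3 := by linarith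
      refine mul_le_mul (by gcongr) (by linarith) (by positivity) (by positivity)
    have h6 : σ * (σ - 1) * a ^ 2 ≤ (σ * a + r) ^ 2 - (σ * a ^ 2 + 2 * r * a + r) := by
      have b1 : 0 ≤ (r : ℝ) * (σ - 1) * a := by
        have : (0 : ℝ) ≤ σ - 1 := by linarith
        positivity
      nlinarith
    have h7 := mul_le_mul_of_nonneg_right ha2 (show (0 : ℝ) ≤ a by linarith)
    have h8 : σ ^ 2 * 1 ≤ σ ^ 2 * a := by gcongr
    have h9 : (a : ℝ) ^ 2 * 4 ≤ a ^ 2 * σ := by gcongr
    have h10 : 0 ≤ σ * a := by positivity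
    nlinarith

end Pool.Agent.Lib.MP_1b6faf_co
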