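import Pool.Agent.Lib.MP_1b6faf_co.Cluster

/-!
Global decomposition of the cliques along a family of disjoint clusters.
-/

namespace Pool.Agent.Lib.MP_1b6faf_co

open Finset
open scoped Classical

variable {V : Type*} {G : SimpleGraph V}

noncomputable def tri (k : ℕ) (x z u : V) (T : Finset V) : Finset (Finset V) :=
  (T.powersetCard k).image (fun R => insert x (insert z (insert u R)))

lemma card_tri (k : ℕ) (x z u : V) (T : Finset V) {B : ℝ} (hB : (T.card : ℝ) ≤ B) :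
    ((tri k x z u T).card : ℝ) ≤ B ^ k := by
  have h1 : (tri k x z u T).card ≤ T.card ^ k := by
    refine card_image_le.trans ?_
    rw [card_powersetCard]
    exact Nat.choose_le_pow _ _
  have h2 : ((tri k x z u T).card : ℝ) ≤ (T.card : ℝ) ^ k := by exact_mod_cast h1
  exact h2.trans (pow_le_pow_left₀ (Nat.cast_nonneg _) hB _)

lemma mem_tri {k : ℕ} {x z u : V} {T K : Finset V} (hK : K.card = k + 3) (hx : x ∈ K) (hz : z ∈ K)
    (hu : u ∈ K) (hxz : x ≠ z) (hxu : x ≠ u) (hzu : z ≠ u)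
    (hT : ∀ g ∈ K, g ≠ x → g ≠ z → g ≠ u → g ∈ T) : K ∈ tri k x z u T := by
  have h1 : z ∈ K.erase x := mem_erase.2 ⟨hxz.symm, hz⟩
  have h2 : u ∈ (K.erase x).erase z := mem_erase.2 ⟨hzu.symm, mem_erase.2 ⟨hxu.symm, hu⟩⟩
  refine mem_image.2 ⟨((K.erase x).erase z).erase u, mem_powersetCard.2 ⟨?_, ?_⟩, ?_⟩
  · intro g hg
    simp only [mem_erase] at hg
    exact hT g hg.2.2.2 hg.2.2.1 hg.2.1 hg.1
  · rw [card_erase_of_mem h2, card_erase_of_mem h1, card_erase_of_mem hx, hK]; omega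
  · rw [insert_erase h2, insert_erase h1, insert_erase hx]

lemma card_biUnion_le' {α β : Type*} [DecidableEq β] (S : Finset α) (f : α → Finset β) (g : α → ℝ)
    (h : ∀ x ∈ S, ((f x).card : ℝ) ≤ g x) : ((S.biUnion f).card : ℝ) ≤ ∑ x ∈ S, g x := by
  have h1 : ((S.biUnion f).card : ℝ) ≤ ∑ x ∈ S, ((f x).card : ℝ) := by
    exact_mod_cast card_biUnion_le
  exact h1.trans (sum_le_sum h)

lemma card_union_le' {β : Type*} [DecidableEq β] {A B : Finset β} {x y : ℝ} (hA : (A.card : ℝ) ≤ x)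
    (hB : (B.card : ℝ) ≤ y) : ((A ∪ B).card : ℝ) ≤ x + y := by
  have : ((A ∪ B).card : ℝ) ≤ A.card + B.card := by exact_mod_cast card_union_le _ _
  linarith

theorem decomp [Fintype V] {ι : Type*} (F : Finset ι) (W : ι → Finset V)
    (hdisj : ∀ c ∈ F, ∀ c' ∈ F, c ≠ c' → Disjoint (W c) (W c')) (D O : ℝ) (hO0 : 0 ≤ O)
    (hD : ∀ x, ((nb G x univ).card : ℝ) ≤ D)
    (hO : ∀ c ∈ F, ∀ x ∈ W c, ((nb G x (univ \ W c)).card : ℝ) ≤ O) (k : ℕ) :
    kc G (k + 3) univ ≤ kc G (k + 3) (univ \ F.biUnion W) + ∑ c ∈ F, (kc G (k + 3) (W c)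
      + ∑ z ∈ univ \ F.biUnion W, kc G (k + 2) (nb G z (W c))
      + ∑ x ∈ W c, (((nb G x (univ \ F.biUnion W)).card : ℝ) * (nb G x (univ \ W c)).card * D ^ k
        + ((nb G x (F.biUnion W \ W c)).card : ℝ) * ((nb G x (F.biUnion W \ W c)).card - 1)
          * (2 * O) ^ k)) := by
  set Y := F.biUnion W with hY
  set Z := univ \ Y with hZ
  set out : V → Finset V := fun u =>
    if h : ∃ c ∈ F, u ∈ W c then nb G u (univ \ W h.choose) else ∅ with hout
  have hout1 : ∀ u, ((out u).card : ℝ) ≤ O := by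
    intro u
    simp only [hout]
    split_ifs with h
    · exact hO _ h.choose_spec.1 u h.choose_spec.2
    · simpa using hO0
  have hout2 : ∀ c ∈ F, ∀ u ∈ W c, out u = nb G u (univ \ W c) := by
    intro c hc u hu
    have h : ∃ c ∈ F, u ∈ W c := ⟨c, hc, hu⟩
    simp only [hout]
    rw [dif_pos h]
    have : h.choose = c := by
      by_contra hne
      exact disjoint_left.1 (hdisj _ h.choose_spec.1 c hc hne) h.choose_spec.2 hu
    rw [this]
  set A : ℕ → Finset V → Finset (Finset V) := fun j S => (cl G S).filter (fun K => K.card = j)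
    with hA
  have hAc : ∀ j S, ((A j S).card : ℝ) = kc G j S := fun j S => (kc_eq_card j S).symm
  set A3 : ι → Finset (Finset V) := fun c =>
    Z.biUnion (fun z => (A (k + 2) (nb G z (W c))).image (insert z)) with hA3
  set A4 : ι → V → Finset (Finset V) := fun c x => (nb G x Z).biUnion (fun z =>
    (nb G x (univ \ W c)).biUnion (fun u => tri k x z u (nb G x univ))) with hA4
  set A5 : ι → V → Finset (Finset V) := fun c x => (nb G x (Y \ W c)).offDiag.biUnion
    (fun e => tri k x e.1 e.2 (out x ∪ out e.1)) with hA5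
  have hsub : A (k + 3) univ ⊆ A (k + 3) Z ∪ F.biUnion (fun c => A (k + 3) (W c) ∪ A3 c ∪
      (W c).biUnion (fun x => A4 c x ∪ A5 c x)) := by
    intro K hK
    obtain ⟨hK1, hK2⟩ := mem_filter.1 hK
    have hc := (mem_cl.1 hK1).2
    by_cases h1 : K ⊆ Z
    · exact mem_union_left _ (mem_filter.2 ⟨mem_cl.2 ⟨h1, hc⟩, hK2⟩)
    refine mem_union_right _ ?_
    obtain ⟨x, hxK, hxZ⟩ := not_subset.1 h1
    have hxY : x ∈ Y := by
      by_contra h; exact hxZ (mem_sdiff.2 ⟨mem_univ _, h⟩)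
    obtain ⟨c, hcF, hxc⟩ := mem_biUnion.1 hxY
    by_cases h2 : K ⊆ W c
    · exact mem_biUnion.2 ⟨c, hcF, mem_union_left _ (mem_union_left _
        (mem_filter.2 ⟨mem_cl.2 ⟨h2, hc⟩, hK2⟩))⟩
    have hWY : W c ⊆ Y := subset_biUnion_of_mem W hcF
    by_cases h3 : ∃ z ∈ K, z ∈ Z
    · obtain ⟨z, hzK, hzZ⟩ := h3
      have hxz : x ≠ z := fun h => hxZ (h ▸ hzZ)
      by_cases h4 : K.erase z ⊆ W c
      · refine mem_biUnion.2 ⟨c, hcF, mem_union_left _ (mem_union_right _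
          (mem_biUnion.2 ⟨z, hzZ, mem_image.2 ⟨K.erase z, ?_, insert_erase hzK⟩⟩))⟩
        have := mem_cl.1 (erase_mem_cl hK1 hzK)
        refine mem_filter.2 ⟨mem_cl.2 ⟨fun y hy => mem_nb.2 ⟨h4 hy, (mem_nb.1 (this.1 hy)).2⟩,
          this.2⟩, ?_⟩
        rw [card_erase_of_mem hzK, hK2]; rfl
      · obtain ⟨u, huK, huW⟩ := not_subset.1 h4
        have huK' := mem_of_mem_erase huK
        have hxu : x ≠ u := fun h => huW (h ▸ hxc)
        refine mem_biUnion.2 ⟨c, hcF, mem_union_right _ (mem_biUnion.2 ⟨x, hxc,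
          mem_union_left _ (mem_biUnion.2 ⟨z, mem_nb.2 ⟨hzZ, hc hxK hzK hxz⟩, mem_biUnion.2
            ⟨u, mem_nb.2 ⟨mem_sdiff.2 ⟨mem_univ _, huW⟩, hc hxK huK' hxu⟩, ?_⟩⟩)⟩)⟩
        exact mem_tri hK2 hxK hzK huK' hxz hxu (ne_of_mem_erase huK).symm
          (fun g hg h1 _ _ => mem_nb.2 ⟨mem_univ _, hc hxK hg h1.symm⟩)
    · push Not at h3
      have hKY : ∀ g ∈ K, g ∈ Y := fun g hg => by
        by_contra h; exact h3 g hg (mem_sdiff.2 ⟨mem_univ _, h⟩)
      have key : ∀ c ∈ F, ∀ x ∈ K, x ∈ W c → ∀ u ∈ K, u ∉ W c → ∀ u' ∈ K, u' ∉ W c → u ≠ u' →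
          K ∈ F.biUnion (fun c => A (k + 3) (W c) ∪ A3 c ∪
            (W c).biUnion (fun x => A4 c x ∪ A5 c x)) := by
        intro c hcF x hxK hxc u huK huc u' hu'K hu'c huu
        have hxu : x ≠ u := fun h => huc (h ▸ hxc)
        have hxu' : x ≠ u' := fun h => hu'c (h ▸ hxc)
        refine mem_biUnion.2 ⟨c, hcF, mem_union_right _ (mem_biUnion.2 ⟨x, hxc,
          mem_union_right _ (mem_biUnion.2 ⟨(u, u'), mem_offDiag.2
            ⟨mem_nb.2 ⟨mem_sdiff.2 ⟨hKY u huK, huc⟩, hc hxK huK hxu⟩,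
             mem_nb.2 ⟨mem_sdiff.2 ⟨hKY u' hu'K, hu'c⟩, hc hxK hu'K hxu'⟩, huu⟩, ?_⟩)⟩)⟩
        refine mem_tri hK2 hxK huK hu'K hxu hxu' huu (fun g hg h1 h2 _ => ?_)
        by_cases hgc : g ∈ W c
        · obtain ⟨c', hc'F, huc'⟩ := mem_biUnion.1 (hKY u huK)
          refine mem_union_right _ ?_
          rw [hout2 c' hc'F u huc']
          refine mem_nb.2 ⟨mem_sdiff.2 ⟨mem_univ _, fun h => ?_⟩, hc huK hg h2.symm⟩
          exact disjoint_left.1 (hdisj c hcF c' hc'F (fun h' => huc (h' ▸ huc'))) hgc h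
        · refine mem_union_left _ ?_
          rw [hout2 c hcF x hxc]
          exact mem_nb.2 ⟨mem_sdiff.2 ⟨mem_univ _, hgc⟩, hc hxK hg h1.symm⟩
      obtain ⟨y, hyK, hyc⟩ := not_subset.1 h2
      have hxy : x ≠ y := fun h => hyc (h ▸ hxc)
      obtain ⟨w, hw⟩ : ((K.erase x).erase y).Nonempty := by
        rw [← card_pos, card_erase_of_mem (mem_erase.2 ⟨hxy.symm, hyK⟩), card_erase_of_mem hxK, hK2]
        omega
      have hwy := ne_of_mem_erase hw
      have hwx := ne_of_mem_erase (mem_of_mem_erase hw)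
      have hwK := mem_of_mem_erase (mem_of_mem_erase hw)
      by_cases hwc : w ∈ W c
      · obtain ⟨c', hc'F, hyc'⟩ := mem_biUnion.1 (hKY y hyK)
        have hd := hdisj c hcF c' hc'F (fun h' => hyc (h' ▸ hyc'))
        exact key c' hc'F y hyK hyc' x hxK (disjoint_left.1 hd hxc) w hwK
          (disjoint_left.1 hd hwc) hwx.symm
      · exact key c hcF x hxK hxc y hyK hyc w hwK hwc hwy.symm
  rw [← hAc]
  refine le_trans (Nat.cast_le.2 (card_le_card hsub)) ?_
  refine card_union_le' (hAc _ _).le (card_biUnion_le' _ _ _ fun c _ => ?_)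
  refine card_union_le' (card_union_le' (hAc _ _).le (card_biUnion_le' _ _ _ fun z _ => ?_))
    (card_biUnion_le' _ _ _ fun x _ => card_union_le' ?_ ?_)
  · rw [← hAc]; exact_mod_cast card_image_le
  · refine (card_biUnion_le' _ _ (fun _ => ((nb G x (univ \ W c)).card : ℝ) * D ^ k)
      fun z _ => ?_).trans (by simp [mul_assoc])
    exact (card_biUnion_le' _ _ (fun _ => D ^ k) fun u _ => card_tri _ _ _ _ _ (hD x)).trans
      (by simp)
  · refine (card_biUnion_le' _ _ (fun _ => (2 * O) ^ k) fun e _ =>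
      card_tri _ _ _ _ _ ?_).trans ?_
    · rw [two_mul]; exact card_union_le' (hout1 _) (hout1 _)
    · rw [sum_const, nsmul_eq_mul, offDiag_card, Nat.cast_sub (Nat.le_mul_self _)]
      push_cast
      apply le_of_eq; ring

end Pool.Agent.Lib.MP_1b6faf_co
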