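import Pool.Agent.Lib.MP_1b6faf_co.Bounds

/-!
Error terms and the basic inequality for a cluster.
-/

namespace Pool.Agent.Lib.MP_1b6faf_co

open Finset
open scoped Classical

variable {V : Type*}

noncomputable def Er1 [Fintype V] (G : SimpleGraph V) (s k : ℕ) (a : ℝ) (W Z : Finset V) : ℝ :=
  ∑ x ∈ W, ((nb G x Z).card : ℝ) * (nb G x (univ \ W)).card * (s * (a + 1)) ^ k

noncomputable def Er2 (G : SimpleGraph V) (k : ℕ) (a ξ1 : ℝ) (W Cs : Finset V) : ℝ :=
  ∑ x ∈ W, ((nb G x Cs).card : ℝ) * ((nb G x Cs).card - 1) * (2 * (2 * (ξ1 * a))) ^ k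

noncomputable def Fz (G : SimpleGraph V) (s k : ℕ) (a η : ℝ) (W : Finset V) (z : V) : ℝ :=
  kc G (k + 2) (nb G z W) - lam s k a η * (nb G z W).card

noncomputable def valW [Fintype V] (G : SimpleGraph V) (s k : ℕ) (a η ξ1 : ℝ) (W Z Cs : Finset V) :
    ℝ := kc G (k + 3) W + ∑ z ∈ Z, Fz G s k a η W z + Er1 G s k a W Z + Er2 G k a ξ1 W Cs

noncomputable def Hv (G : SimpleGraph V) (s : ℕ) (a u1 : ℝ) (W Z : Finset V) : Finset V :=
  Z.filter (fun z => u1 * (s * a) ≤ ((nb G z W).card : ℝ))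

structure Par (s k : ℕ) (u1 ε η ξ ξ1 : ℝ) : Prop where
  u0 : 0 < u1
  uhalf : u1 ≤ 1 / 2
  hu : (k + 3) * u1 ^ (k + 1) + 2 * ε * ((k + 2) * (k + 3)) ≤ 1
  ε0 : 0 < ε
  hξ1 : 100 * (s + 1) * KK s k * ξ1 ≤ ε
  hη : 100 * (s + 1) ^ 2 * KK s k * η ≤ ε * ξ

lemma Par.ε1 {s k : ℕ} {u1 ε η ξ ξ1 : ℝ} (h : Par s k u1 ε η ξ ξ1) : 12 * ε ≤ 1 := by
  have h1 := h.hu
  have h2 : 0 ≤ ((k : ℝ) + 3) * u1 ^ (k + 1) := by have := h.u0; positivity
  have h3 : (6 : ℝ) ≤ ((k : ℝ) + 2) * (k + 3) := by nlinarith [Nat.cast_nonneg (α := ℝ) k]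
  nlinarith [h.ε0]

lemma Par.hu' {s k : ℕ} {u1 ε η ξ ξ1 : ℝ} (h : Par s k u1 ε η ξ ξ1) :
    (k + 3) * u1 ^ (k + 1) ≤ 1 := by
  have h1 := h.hu
  have h2 : 0 ≤ 2 * ε * (((k : ℝ) + 2) * (k + 3)) := by have := h.ε0; positivity
  linarith

namespace Setup

variable [Fintype V] {G : SimpleGraph V} {s a r : ℕ} {η ξ ξ1 : ℝ}
  {W Z Cs : Finset V} {p : V → ℕ} (h : Setup G s a r η ξ ξ1 W Z Cs p) {k : ℕ}
include h

lemma ηξ1 : η ≤ ξ1 := by linarith [h.η6, h.hξ, h.hη]

lemma K1 : 2700 ≤ KK s k := by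
  have h1 := KK_ge' s k
  have h2 : (3 : ℝ) ^ 3 ≤ ((s : ℝ) + 1) ^ 3 := pow_le_pow_left₀ (by norm_num) (by linarith [h.s2]) _
  linarith

omit [Fintype V] h in
lemma Ks : 100 * ((s : ℝ) + 1) ^ 2 ≤ KK s k := by
  have h1 := KK_ge' s k
  have h2 : ((s : ℝ) + 1) ^ 2 ≤ ((s : ℝ) + 1) ^ 3 :=
    pow_le_pow_right₀ (by linarith [Nat.cast_nonneg (α := ℝ) s]) (by norm_num)
  linarith

lemma oZ_le (x : V) : ((nb G x Z).card : ℝ) ≤ (nb G x (univ \ W)).card := by
  rw [h.out_split]; linarith [Nat.cast_nonneg (α := ℝ) (nb G x Cs).card]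

lemma oC_le (x : V) : ((nb G x Cs).card : ℝ) ≤ (nb G x (univ \ W)).card := by
  rw [h.out_split]; linarith [Nat.cast_nonneg (α := ℝ) (nb G x Z).card]

lemma E1 (hk : k + 2 ≤ s) : Er1 G s k a W Z
    ≤ P0 s k a * (KK s k * (ξ1 * (mis G p W).card + η * ∑ z ∈ Z, ((nb G z W).card : ℝ))) := by
  have ha := h.apos
  have hξa := mul_pos h.ξ1pos ha
  have hηa := mul_pos h.hη ha
  have hs := h.s2
  have h1 : ∀ x ∈ W, ((nb G x Z).card : ℝ) * (nb G x (univ \ W)).card
      ≤ 2 * s * (η * a) * (nb G x Z).card + 2 * (ξ1 * a) * (mx G p W x).card := by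
    intro x hx
    have b1 := h.out_le hx
    have b2 := h.cc_le (h.clu.lt x hx)
    have b3 := (h.oZ_le x).trans (h.out_le' hx)
    have b4 : (0 : ℝ) ≤ (nb G x Z).card := Nat.cast_nonneg _
    have b5 : (0 : ℝ) ≤ (mx G p W x).card := Nat.cast_nonneg _
    nlinarith
  have h2 := sum_le_sum h1
  rw [sum_add_distrib, ← mul_sum, ← mul_sum, sum_card_mx, sum_card_nb_comm] at h2
  unfold Er1
  rw [← sum_mul]
  have h3 : ((s : ℝ) * (a + 1)) ^ k ≤ (2 * (s + 1)) ^ k * a ^ k := by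
    rw [← mul_pow]
    exact pow_le_pow_left₀ (by positivity) (by nlinarith [h.a1]) _
  have hS : 0 ≤ ∑ z ∈ Z, ((nb G z W).card : ℝ) := sum_nonneg fun _ _ => Nat.cast_nonneg _
  have hμ : (0 : ℝ) ≤ (mis G p W).card := Nat.cast_nonneg _
  have h4 := mul_le_mul h2 h3 (by positivity) (by positivity)
  refine h4.trans ?_
  have h5 := P0_ge hk ha.le
  have h6 : (2 * s * (η * a) * ∑ z ∈ Z, ((nb G z W).card : ℝ) + 2 * (ξ1 * a) * (2 * (mis G p W).card))
      * ((2 * (s + 1)) ^ k * a ^ k)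
      = a ^ (k + 1) * ((2 * (s + 1)) ^ k * (4 * (ξ1 * (mis G p W).card)
        + 2 * s * (η * ∑ z ∈ Z, ((nb G z W).card : ℝ)))) := by ring
  rw [h6]
  have hA : 0 ≤ ξ1 * (mis G p W).card := mul_nonneg h.ξ1pos.le hμ
  have hB : 0 ≤ η * ∑ z ∈ Z, ((nb G z W).card : ℝ) := mul_nonneg h.hη.le hS
  refine mul_le_mul h5 ?_ (by positivity) (P0_pos hk ha).le
  unfold KK
  have h7 : (s : ℝ) + 1 ≤ ((s : ℝ) + 1) ^ 3 := le_self_pow₀ (by linarith) (by norm_num)
  have h8 : 4 * (ξ1 * (mis G p W).card) + 2 * s * (η * ∑ z ∈ Z, ((nb G z W).card : ℝ))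
      ≤ 100 * ((s : ℝ) + 1) ^ 3 * (ξ1 * (mis G p W).card + η * ∑ z ∈ Z, ((nb G z W).card : ℝ)) := by
    nlinarith
  calc _ ≤ (2 * ((s : ℝ) + 1)) ^ k * (100 * ((s : ℝ) + 1) ^ 3 *
        (ξ1 * (mis G p W).card + η * ∑ z ∈ Z, ((nb G z W).card : ℝ))) := by gcongr
    _ = _ := by ring

lemma oC_quad {x : V} (hx : x ∈ W) : ((nb G x Cs).card : ℝ) * ((nb G x Cs).card - 1)
    ≤ cn s a r W p (p x) * (cn s a r W p (p x) - 1) + 3 * (ξ1 * a) * (mx G p W x).card := by
  have b1 := h.out_le hx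
  have b2 := h.oC_le x
  have b3 := cn_eq s a r W p (p x)
  have b4 := le_max_left (cc s a r W p (p x)) 0
  have b5 : (nb G x Cs).card ≤ cn s a r W p (p x) + (mx G p W x).card := by
    have : ((nb G x Cs).card : ℝ) ≤ cn s a r W p (p x) + (mx G p W x).card := by linarith
    exact_mod_cast this
  have b6 := nat_quad _ _ _ b5
  have b7 := h.out_le' hx
  have b8 : (cn s a r W p (p x) : ℝ) ≤ ξ1 * a := by
    rw [b3]; exact max_le (h.cc_le' (h.clu.lt x hx)) (mul_pos h.ξ1pos h.apos).le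
  have b9 : (0 : ℝ) ≤ (mx G p W x).card := Nat.cast_nonneg _
  nlinarith

lemma E2a : Er2 G k a ξ1 W Cs ≤ (4 * (ξ1 * a)) ^ k *
    (∑ i ∈ range (s + 1), ww W p i * (cn s a r W p i * (cn s a r W p i - 1))
      + 6 * (ξ1 * a) * (mis G p W).card) := by
  have h1 := sum_le_sum (fun x hx => h.oC_quad (x := x) hx)
  rw [sum_add_distrib, ← mul_sum, sum_card_mx,
    sum_parts (I := range (s + 1)) (p := p) (fun x hx => h.mem_range_p hx)
      (fun x => (cn s a r W p (p x) : ℝ) * (cn s a r W p (p x) - 1))] at h1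
  have h2 : ∀ i ∈ range (s + 1), ∑ x ∈ part W p i,
      (cn s a r W p (p x) : ℝ) * (cn s a r W p (p x) - 1)
      = ww W p i * (cn s a r W p i * (cn s a r W p i - 1)) := by
    intro i _
    rw [sum_congr rfl (g := fun _ => (cn s a r W p i : ℝ) * (cn s a r W p i - 1))
      (fun x hx => by rw [(mem_part.1 hx).2])]
    simp [ww]
  rw [sum_congr rfl h2] at h1
  unfold Er2
  rw [← sum_mul, mul_comm]
  have : 2 * (2 * (ξ1 * a)) = 4 * (ξ1 * a) := by ring
  rw [this]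
  have := mul_pos h.ξ1pos h.apos
  refine mul_le_mul_of_nonneg_left (by linarith) (by positivity)

lemma E2b (hk : k + 2 ≤ s) : Er2 G k a ξ1 W Cs
    ≤ P0 s k a * (KK s k * (η * (a * (1 + max (-jj s a r W) 0)) + ξ1 * (mis G p W).card)) := by
  have ha := h.apos
  have hξa := mul_pos h.ξ1pos ha
  have hηa := mul_pos h.hη ha
  have hs := h.s2
  have hμ : (0 : ℝ) ≤ (mis G p W).card := Nat.cast_nonneg _
  have hq := le_max_right (-jj s a r W) 0
  have h1 : ∀ i ∈ range (s + 1), ww W p i * (cn s a r W p i * (cn s a r W p i - 1))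
      ≤ 4 * s * (η * a) * (a * max (cc s a r W p i) 0) := by
    intro i hi
    have b1 := h.w2 (mem_range.1 hi)
    have b2 := h.whalf (mem_range.1 hi)
    have b3 : max (cc s a r W p i) 0 ≤ 2 * s * (η * a) :=
      max_le (h.cc_le (mem_range.1 hi)) (by positivity)
    have b4 := le_max_right (cc s a r W p i) 0
    rw [cn_eq]
    have b5 : max (cc s a r W p i) 0 * (max (cc s a r W p i) 0 - 1)
        ≤ max (cc s a r W p i) 0 * (2 * s * (η * a)) := by gcongr; linarith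
    calc _ ≤ ww W p i * (max (cc s a r W p i) 0 * (2 * s * (η * a))) := by gcongr; linarith
      _ ≤ 2 * a * (max (cc s a r W p i) 0 * (2 * s * (η * a))) := by gcongr
      _ = _ := by ring
  have h2 := sum_le_sum h1
  rw [← mul_sum, ← mul_sum] at h2
  have h3 := mul_le_mul_of_nonneg_left h.pos_cc ha.le
  have h4 := h.neg_cc
  have h5 : a * ∑ i ∈ range (s + 1), max (cc s a r W p i) 0
      ≤ s * (a * (1 + max (-jj s a r W) 0)) + 4 * (mis G p W).card := by linarith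
  have h6 := mul_le_mul_of_nonneg_left h5 (show 0 ≤ 4 * s * (η * a) by positivity)
  have h7 : (4 * (ξ1 * a)) ^ k ≤ (a : ℝ) ^ k :=
    pow_le_pow_left₀ (by positivity) (by nlinarith [h.ξ1small]) _
  have hK := Ks (s := s) (k := k)
  have hA : 0 ≤ η * (a * (1 + max (-jj s a r W) 0)) := by have := h.hη; positivity
  have hB : 0 ≤ ξ1 * (mis G p W).card := mul_nonneg h.ξ1pos.le hμ
  have hηξ : η * (mis G p W).card ≤ ξ1 * (mis G p W).card := by gcongr; exact h.ηξ1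
  have h8 : ∑ i ∈ range (s + 1), ww W p i * (cn s a r W p i * (cn s a r W p i - 1))
      + 6 * (ξ1 * a) * (mis G p W).card
      ≤ a * (KK s k * (η * (a * (1 + max (-jj s a r W) 0)) + ξ1 * (mis G p W).card)) := by
    have b1 : 4 * s ^ 2 * (η * (a * (1 + max (-jj s a r W) 0)))
        ≤ KK s k * (η * (a * (1 + max (-jj s a r W) 0))) := by gcongr; nlinarith
    have b2 : (16 * s + 6) * (ξ1 * (mis G p W).card) ≤ KK s k * (ξ1 * (mis G p W).card) := by
      gcongr; nlinarith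
    have b3 : 16 * s * (η * (mis G p W).card) ≤ 16 * s * (ξ1 * (mis G p W).card) := by gcongr
    have b4 : 4 * s ^ 2 * (η * (a * (1 + max (-jj s a r W) 0))) + 16 * s * (η * (mis G p W).card)
        + 6 * (ξ1 * (mis G p W).card)
        ≤ KK s k * (η * (a * (1 + max (-jj s a r W) 0)) + ξ1 * (mis G p W).card) := by linarith
    have b5 := mul_le_mul_of_nonneg_left b4 ha.le
    linarith
  have hpos : 0 ≤ KK s k * (η * (a * (1 + max (-jj s a r W) 0)) + ξ1 * (mis G p W).card) := by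
    have := h.K1 (k := k); positivity
  calc _ ≤ _ := h.E2a
    _ ≤ (4 * (ξ1 * a)) ^ k * (a * (KK s k * (η * (a * (1 + max (-jj s a r W) 0))
        + ξ1 * (mis G p W).card))) := by gcongr
    _ ≤ (a : ℝ) ^ k * (a * (KK s k * (η * (a * (1 + max (-jj s a r W) 0))
        + ξ1 * (mis G p W).card))) := by gcongr
    _ = (a : ℝ) ^ (k + 1) * (KK s k * (η * (a * (1 + max (-jj s a r W) 0))
        + ξ1 * (mis G p W).card)) := by ring
    _ ≤ _ := mul_le_mul_of_nonneg_right (P0_ge hk ha.le) hpos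

lemma B7 : ∑ z ∈ Z, ((nb G z W).card : ℝ) ≤ a * (r - s * jj s a r W) + 2 * (mis G p W).card
    + KK s k * η * (a * (1 + max (jj s a r W) 0 + max (-jj s a r W) 0) + (mis G p W).card) := by
  have ha := h.apos
  have hηa := mul_pos h.hη ha
  have hs := h.s2
  have hμ : (0 : ℝ) ≤ (mis G p W).card := Nat.cast_nonneg _
  have hq := le_max_right (-jj s a r W) 0
  have hj := le_max_right (jj s a r W) 0
  have hj' := le_max_left (jj s a r W) 0
  rw [← sum_card_nb_comm]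
  have h1 := sum_le_sum (fun x hx => (h.oZ_le x).trans (h.out_le (x := x) hx))
  rw [sum_add_distrib, sum_card_mx,
    sum_parts (I := range (s + 1)) (p := p) (fun x hx => h.mem_range_p hx)
      (fun x => cc s a r W p (p x))] at h1
  have h2 : ∀ i ∈ range (s + 1), ∑ x ∈ part W p i, cc s a r W p (p x)
      ≤ a * cc s a r W p i + (2 * s * η * (a * max (cc s a r W p i) 0)
        + η * (a * max (-cc s a r W p i) 0) + 2 * s * (η * a) * max (jj s a r W) 0) := by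
    intro i hi
    rw [sum_congr rfl (g := fun _ => cc s a r W p i) (fun x hx => by rw [(mem_part.1 hx).2]),
      sum_const, nsmul_eq_mul]
    change ww W p i * cc s a r W p i ≤ _
    have b1 := h.cc_le (mem_range.1 hi)
    have b2 := h.wlo (mem_range.1 hi)
    have b3 : ww W p i = a + cc s a r W p i + jj s a r W := by unfold cc; ring
    rcases le_total (cc s a r W p i) 0 with hc | hc
    · rw [max_eq_right hc, max_eq_left (by linarith)]
      have : 0 ≤ 2 * s * (η * a) * max (jj s a r W) 0 := by positivity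
      nlinarith
    · rw [max_eq_left hc, max_eq_right (by linarith), b3]
      have c1 := mul_le_mul_of_nonneg_left b1 hc
      have c2 := mul_le_mul_of_nonneg_left b1 hj
      have c3 := mul_le_mul_of_nonneg_left hj' hc
      nlinarith
  have h3 := sum_le_sum h2
  rw [sum_add_distrib, sum_add_distrib, sum_add_distrib, ← mul_sum, ← mul_sum, ← mul_sum,
    ← mul_sum, ← mul_sum, h.sum_cc, sum_const, card_range, nsmul_eq_mul] at h3
  have h4 := mul_le_mul_of_nonneg_left h.pos_cc ha.le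
  have h5 := h.neg_cc
  have h6 : a * ∑ i ∈ range (s + 1), max (cc s a r W p i) 0
      ≤ s * (a * (1 + max (-jj s a r W) 0)) + 4 * (mis G p W).card := by linarith
  have h7 := mul_le_mul_of_nonneg_left h6 (show 0 ≤ 2 * s * η by have := h.hη; positivity)
  have h8 := mul_le_mul_of_nonneg_left h5 h.hη.le
  have hK := Ks (s := s) (k := k)
  have b1 : 2 * s ^ 2 * (η * (a * (1 + max (-jj s a r W) 0)))
      ≤ KK s k * (η * (a * (1 + max (-jj s a r W) 0))) := by
    have := h.hη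
    gcongr; nlinarith
  have b2 : (8 * s + 4) * (η * (mis G p W).card) ≤ KK s k * (η * (mis G p W).card) := by
    have := h.hη
    gcongr; nlinarith
  have b3 : 2 * s * (s + 1) * (η * a * max (jj s a r W) 0) ≤ KK s k * (η * a * max (jj s a r W) 0) := by
    gcongr; nlinarith
  push_cast at h3
  nlinarith

variable {u1 ε : ℝ} (hp : Par s k u1 ε η ξ ξ1)
include hp

lemma Kη : 900 * (KK s k * η) ≤ ε * ξ := by
  have h1 := hp.hη
  have h2 : 0 ≤ KK s k * η := mul_nonneg (by linarith [h.K1 (k := k)]) h.hη.le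
  have h3 : (9 : ℝ) ≤ ((s : ℝ) + 1) ^ 2 := by nlinarith [h.s2]
  nlinarith

lemma Kξ : 300 * (KK s k * ξ1) ≤ ε := by
  have h1 := hp.hξ1
  have h2 : 0 ≤ KK s k * ξ1 := mul_nonneg (by linarith [h.K1 (k := k)]) h.ξ1pos.le
  nlinarith [h.s2]

lemma εξ : ε * ξ ≤ ε / 900 := by nlinarith [hp.ε0, h.hξ, h.ξ1small]

lemma light (hk : k + 2 ≤ s) : ∑ z ∈ Z, Fz G s k a η W z ≤ ∑ z ∈ Hv G s a u1 W Z, Fz G s k a η W z
    - ε * (P0 s k a * ∑ z ∈ Z \ Hv G s a u1 W Z, ((nb G z W).card : ℝ)) := by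
  have hsub : Hv G s a u1 W Z ⊆ Z := filter_subset _ _
  rw [← sum_sdiff hsub, mul_sum, mul_sum]
  have hηε : η ≤ ε := by nlinarith [h.Kη hp, h.εξ hp, h.K1 (k := k), h.hη, hp.ε0]
  have : ∑ z ∈ Z \ Hv G s a u1 W Z, Fz G s k a η W z
      ≤ ∑ z ∈ Z \ Hv G s a u1 W Z, -(ε * (P0 s k a * ((nb G z W).card : ℝ))) := by
    refine sum_le_sum fun z hz => h.B3 hk hp.hu hηε ?_
    by_contra hc
    exact (mem_sdiff.1 hz).2 (mem_filter.2 ⟨(mem_sdiff.1 hz).1, (not_le.1 hc).le⟩)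
  rw [sum_neg_distrib] at this
  linarith

lemma star0 (hk : k + 2 ≤ s) : valW G s k a η ξ1 W Z Cs - rho s k a r * W.card
    ≤ P0 s k a * (a * (jj s a r W * s / (k + 3) + KK s k * ξ1 * max (jj s a r W) 0
      + 2 * (KK s k * η) * max (-jj s a r W) 0 + 2 * s * (KK s k * η) * (Hv G s a u1 W Z).card
      + KK s k * η) - (mis G p W).card * (1 - 3 * (KK s k * ξ1)))
      + ∑ z ∈ Hv G s a u1 W Z, Fz G s k a η W z := by
  have h1 := h.B1 hk
  have h2 := h.B2 hk
  have h3 := h.light hp hk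
  have h4 := h.E1 hk
  have h5 := h.E2b hk
  have hP := P0_pos hk h.apos
  have hsub : Hv G s a u1 W Z ⊆ Z := filter_subset _ _
  rw [← sum_sdiff hsub] at h4
  have h6 := sum_le_card_nsmul (Hv G s a u1 W Z) (fun z => ((nb G z W).card : ℝ)) (2 * s * a)
    (fun z _ => (h.degR' z W).trans (by nlinarith [h.a1, h.s2]))
  rw [nsmul_eq_mul] at h6
  have hL : 0 ≤ ∑ z ∈ Z \ Hv G s a u1 W Z, ((nb G z W).card : ℝ) :=
    sum_nonneg fun _ _ => Nat.cast_nonneg _
  have hKη : 0 ≤ KK s k * η := mul_nonneg (by linarith [h.K1 (k := k)]) h.hη.le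
  have h7 : KK s k * η ≤ ε := by linarith [h.Kη hp, h.εξ hp, hp.ε0]
  have h8 := mul_le_mul_of_nonneg_right h7 (mul_nonneg hP.le hL)
  have h9 := mul_le_mul_of_nonneg_left h6 (mul_nonneg hP.le hKη)
  unfold valW
  linarith

end Setup

end Pool.Agent.Lib.MP_1b6faf_co
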