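import Mathlib

/-!
Elementary symmetric sums over an index set of naturals, with the estimates used for
clique counts in complete multipartite graphs.
-/

namespace Pool.Agent.Lib.MP_1b6faf_co

open Finset

noncomputable def F (lam : ℕ → ℝ) (I : Finset ℕ) (w : ℕ → ℝ) : ℝ :=
  ∑ A ∈ I.powerset, lam A.card * ∏ i ∈ A, w i

noncomputable def ind (k : ℕ) (j : ℕ) : ℝ := if j = k then 1 else 0

noncomputable def es (k : ℕ) (I : Finset ℕ) (w : ℕ → ℝ) : ℝ := F (ind k) I w

lemma ind_nonneg (k j : ℕ) : 0 ≤ ind k j := by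
  unfold ind; split_ifs <;> norm_num

lemma ind_succ (k : ℕ) : (fun j => ind (k + 1) (j + 1)) = ind k := by
  funext j; simp [ind]

lemma F_empty (lam : ℕ → ℝ) (w : ℕ → ℝ) : F lam ∅ w = lam 0 := by
  simp [F]

lemma F_insert (lam : ℕ → ℝ) {I : Finset ℕ} {i : ℕ} (hi : i ∉ I) (w : ℕ → ℝ) :
    F lam (insert i I) w = F lam I w + w i * F (fun j => lam (j + 1)) I w := by
  unfold F
  rw [sum_powerset_insert hi, mul_sum]
  congr 1
  refine sum_congr rfl fun A hA => ?_
  have : i ∉ A := notMem_mono (mem_powerset.1 hA) hi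
  rw [card_insert_of_notMem this, prod_insert this]
  ring

lemma F_add_smul (l1 l2 : ℕ → ℝ) (c : ℝ) (I : Finset ℕ) (w : ℕ → ℝ) :
    F (fun j => l1 j + c * l2 j) I w = F l1 I w + c * F l2 I w := by
  unfold F
  rw [mul_sum, ← sum_add_distrib]
  refine sum_congr rfl fun A _ => ?_
  ring

lemma F_congr (lam : ℕ → ℝ) {I : Finset ℕ} {w w' : ℕ → ℝ} (h : ∀ i ∈ I, w i = w' i) :
    F lam I w = F lam I w' := by
  unfold F
  refine sum_congr rfl fun A hA => ?_
  rw [prod_congr rfl fun i hi => h i (mem_powerset.1 hA hi)]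

lemma F_ge_zero {lam : ℕ → ℝ} (hl : ∀ j, 0 ≤ lam j) (I : Finset ℕ) {w : ℕ → ℝ}
    (hw : ∀ i ∈ I, 0 ≤ w i) : lam 0 ≤ F lam I w := by
  unfold F
  have h0 : (∅ : Finset ℕ) ∈ I.powerset := empty_mem_powerset I
  have := single_le_sum (f := fun A : Finset ℕ => lam A.card * ∏ i ∈ A, w i)
    (fun A hA => mul_nonneg (hl _) (prod_nonneg fun i hi => hw i (mem_powerset.1 hA hi))) h0
  simpa using this

lemma es_congr (k : ℕ) {I : Finset ℕ} {w w' : ℕ → ℝ} (h : ∀ i ∈ I, w i = w' i) :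
    es k I w = es k I w' := F_congr _ h

lemma es_zero (I : Finset ℕ) (w : ℕ → ℝ) : es 0 I w = 1 := by
  induction I using Finset.induction_on with
  | empty => simp [es, F_empty, ind]
  | insert i I hi ih =>
    unfold es at *
    rw [F_insert _ hi, ih]
    have : (fun j => ind 0 (j + 1)) = fun _ => 0 := by funext j; simp [ind]
    rw [this]; simp [F]

lemma es_empty_succ (k : ℕ) (w : ℕ → ℝ) : es (k + 1) ∅ w = 0 := by
  simp [es, F_empty, ind]

lemma es_insert (k : ℕ) {I : Finset ℕ} {i : ℕ} (hi : i ∉ I) (w : ℕ → ℝ) :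
    es (k + 1) (insert i I) w = es (k + 1) I w + w i * es k I w := by
  unfold es
  rw [F_insert _ hi, ind_succ]

lemma es_erase (k : ℕ) {I : Finset ℕ} {i : ℕ} (hi : i ∈ I) (w : ℕ → ℝ) :
    es (k + 1) I w = es (k + 1) (I.erase i) w + w i * es k (I.erase i) w := by
  conv_lhs => rw [← insert_erase hi]
  exact es_insert k (notMem_erase i I) w

lemma es_eq_sum (k : ℕ) (I : Finset ℕ) (w : ℕ → ℝ) :
    es k I w = ∑ A ∈ I.powersetCard k, ∏ i ∈ A, w i := by
  unfold es F
  rw [powersetCard_eq_filter, sum_filter]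
  refine sum_congr rfl fun A _ => ?_
  unfold ind; split_ifs <;> simp

lemma es_nonneg (k : ℕ) {I : Finset ℕ} {w : ℕ → ℝ} (hw : ∀ i ∈ I, 0 ≤ w i) : 0 ≤ es k I w := by
  rw [es_eq_sum]
  exact sum_nonneg fun A hA => prod_nonneg fun i hi => hw i ((mem_powersetCard.1 hA).1 hi)

lemma es_mono (k : ℕ) {I : Finset ℕ} {w w' : ℕ → ℝ} (hw : ∀ i ∈ I, 0 ≤ w i)
    (h : ∀ i ∈ I, w i ≤ w' i) : es k I w ≤ es k I w' := by
  rw [es_eq_sum, es_eq_sum]
  exact sum_le_sum fun A hA => prod_le_prod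
    (fun i hi => hw i ((mem_powersetCard.1 hA).1 hi))
    (fun i hi => h i ((mem_powersetCard.1 hA).1 hi))

lemma es_const (k : ℕ) (I : Finset ℕ) (b : ℝ) :
    es k I (fun _ => b) = (I.card.choose k : ℝ) * b ^ k := by
  rw [es_eq_sum, sum_congr rfl (g := fun _ => b ^ k)]
  · simp [card_powersetCard]
  · intro A hA
    simp [(mem_powersetCard.1 hA).2]

lemma es_le (k : ℕ) {I : Finset ℕ} {w : ℕ → ℝ} {b : ℝ} (hw : ∀ i ∈ I, 0 ≤ w i)
    (h : ∀ i ∈ I, w i ≤ b) : es k I w ≤ (I.card.choose k : ℝ) * b ^ k := by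
  rw [← es_const]; exact es_mono k hw h

lemma es_ge (k : ℕ) {I : Finset ℕ} {w : ℕ → ℝ} {b : ℝ} (hb : 0 ≤ b)
    (h : ∀ i ∈ I, b ≤ w i) : (I.card.choose k : ℝ) * b ^ k ≤ es k I w := by
  rw [← es_const]; exact es_mono k (fun _ _ => hb) h

lemma es_succ_mul (k : ℕ) (I : Finset ℕ) (w : ℕ → ℝ) :
    ((k : ℝ) + 1) * es (k + 1) I w = ∑ i ∈ I, w i * es k (I.erase i) w := by
  induction I using Finset.induction_on generalizing k with
  | empty => simp [es_empty_succ]
  | insert j I hj ih =>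
    rw [es_insert k hj, sum_insert hj, erase_insert hj, mul_add, ih k]
    cases k with
    | zero =>
      simp only [es_zero]
      ring
    | succ k =>
      have h2 : ∀ i ∈ I, w i * es (k + 1) ((insert j I).erase i) w
          = w i * es (k + 1) (I.erase i) w + w j * (w i * es k (I.erase i) w) := by
        intro i hi
        have hij : j ≠ i := fun h => hj (h ▸ hi)
        rw [erase_insert_of_ne hij, es_insert k (fun h => hj (mem_of_mem_erase h))]
        ring
      rw [sum_congr rfl h2, sum_add_distrib, ← mul_sum, ← ih k]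
      push_cast
      ring

lemma pow_tangent (A m : ℝ) (hA : 0 ≤ A) (hm : 0 ≤ m) (q : ℕ) :
    m ^ (q + 1) + ((q : ℝ) + 1) * m ^ q * (A - m) ≤ A ^ (q + 1) ∧
    m ^ (q + 2) + ((q : ℝ) + 2) * m ^ (q + 1) * (A - m) + A ^ q * (m - A) ^ 2 ≤ A ^ (q + 2) := by
  induction q with
  | zero => constructor <;> (simp; try nlinarith)
  | succ q ih =>
    obtain ⟨_, h2⟩ := ih
    have hq : 0 ≤ A ^ q * (m - A) ^ 2 := by positivity
    refine ⟨by push_cast; nlinarith, ?_⟩
    have h3 := mul_le_mul_of_nonneg_left h2 hA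
    have h4 : 0 ≤ ((q : ℝ) + 2) * m ^ (q + 1) * (m - A) ^ 2 := by positivity
    push_cast
    have e1 : A ^ (q + 1 + 2) = A * A ^ (q + 2) := by ring
    have e2 : m ^ (q + 1 + 2) + ((q : ℝ) + 1 + 2) * m ^ (q + 1 + 1) * (A - m)
        + A ^ (q + 1) * (m - A) ^ 2 + ((q : ℝ) + 2) * m ^ (q + 1) * (m - A) ^ 2
        = A * (m ^ (q + 2) + ((q : ℝ) + 2) * m ^ (q + 1) * (A - m) + A ^ q * (m - A) ^ 2) := by
      ring
    rw [e1]; linarith

/-- one step of the Maclaurin induction -/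
lemma maclaurin_step (k n : ℕ) (x m : ℝ) :
    (n.choose (k + 1) : ℝ) * m ^ (k + 1) + x * ((n.choose k : ℝ) * m ^ k)
      = ((n + 1).choose (k + 1) : ℝ) *
        (m ^ (k + 1) + ((k : ℝ) + 1) * m ^ k * ((x + n * m) / (n + 1) - m)) := by
  have h1 : ((n + 1).choose (k + 1) : ℝ) = n.choose k + n.choose (k + 1) := by
    rw [Nat.choose_succ_succ]; push_cast; ring
  have h2 : ((n + 1).choose (k + 1) : ℝ) * ((k : ℝ) + 1) = ((n : ℝ) + 1) * n.choose k := by
    have := Nat.add_one_mul_choose_eq n k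
    exact_mod_cast this.symm
  have hn : (n : ℝ) + 1 ≠ 0 := by positivity
  have h3 : (x + n * m) / (n + 1) - m = (x - m) / (n + 1) := by field_simp; ring
  have h4 : ((n + 1).choose (k + 1) : ℝ) * (((k : ℝ) + 1) * m ^ k * ((x - m) / (n + 1)))
      = n.choose k * m ^ k * (x - m) := by
    have : ((n + 1).choose (k + 1) : ℝ) * (((k : ℝ) + 1) * m ^ k * ((x - m) / (n + 1)))
      = (((n + 1).choose (k + 1) : ℝ) * ((k : ℝ) + 1)) * m ^ k * ((x - m) / (n + 1)) := by ring
    rw [this, h2]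
    field_simp
  rw [h3, mul_add, h4, h1]
  ring

lemma maclaurin (k : ℕ) (I : Finset ℕ) (w : ℕ → ℝ) (hw : ∀ i ∈ I, 0 ≤ w i) :
    es k I w ≤ (I.card.choose k : ℝ) * ((∑ i ∈ I, w i) / I.card) ^ k := by
  induction I using Finset.induction_on generalizing k with
  | empty => cases k <;> simp [es_zero, es_empty_succ]
  | insert j I hj ih =>
    cases k with
    | zero => simp [es_zero]
    | succ k =>
      have hw' : ∀ i ∈ I, 0 ≤ w i := fun i hi => hw i (mem_insert_of_mem hi)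
      have hj0 : 0 ≤ w j := hw j (mem_insert_self _ _)
      rw [es_insert k hj, card_insert_of_notMem hj, sum_insert hj]
      have hsum : ∑ i ∈ I, w i = I.card * ((∑ i ∈ I, w i) / I.card) := by
        rcases I.eq_empty_or_nonempty with h | h
        · rw [h]; simp
        · have : (I.card : ℝ) ≠ 0 := by have := h.card_pos; positivity
          field_simp
      have hs : 0 ≤ ∑ i ∈ I, w i := sum_nonneg hw'
      have h1 := ih (k + 1) hw'
      have h2 := mul_le_mul_of_nonneg_left (ih k hw') hj0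
      have hm0 : 0 ≤ (∑ i ∈ I, w i) / I.card := div_nonneg hs (Nat.cast_nonneg _)
      generalize (∑ i ∈ I, w i) / I.card = m at *
      have h3 := maclaurin_step k I.card (w j) m
      have hA : 0 ≤ (w j + I.card * m) / (I.card + 1) := by positivity
      have h4 := (pow_tangent _ m hA hm0 k).1
      have h5 := mul_le_mul_of_nonneg_left h4
        (show (0 : ℝ) ≤ ((I.card + 1).choose (k + 1) : ℝ) by positivity)
      rw [hsum]
      push_cast
      linarith

lemma maclaurin_stab (k : ℕ) (I : Finset ℕ) (w : ℕ → ℝ) (hw : ∀ i ∈ I, 0 ≤ w i) {j : ℕ}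
    (hj : j ∈ I) (h2 : 2 ≤ I.card) :
    es (k + 2) I w ≤ (I.card.choose (k + 2) : ℝ) * (((∑ i ∈ I, w i) / I.card) ^ (k + 2)
      - ((∑ i ∈ I, w i) / I.card) ^ k * (((∑ i ∈ I, w i) / I.card - w j) / (I.card - 1)) ^ 2) := by
  have hw' : ∀ i ∈ I.erase j, 0 ≤ w i := fun i hi => hw i (mem_of_mem_erase hi)
  have hj0 : 0 ≤ w j := hw j hj
  obtain ⟨n, hn⟩ : ∃ n, I.card = n + 1 := ⟨I.card - 1, by omega⟩
  have hn' : (I.erase j).card = n := by rw [card_erase_of_mem hj]; omega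
  have hn0 : (0 : ℝ) < n := by have : 0 < n := by omega
                               exact_mod_cast this
  rw [es_erase (k + 1) hj, ← add_sum_erase I w hj, hn]
  set m := (∑ i ∈ I.erase j, w i) / n with hm
  have hs : 0 ≤ ∑ i ∈ I.erase j, w i := sum_nonneg hw'
  have hm0 : 0 ≤ m := by positivity
  have hsum : ∑ i ∈ I.erase j, w i = n * m := by rw [hm]; field_simp
  have h1 := maclaurin (k + 2) _ w hw'
  have h1' := mul_le_mul_of_nonneg_left (maclaurin (k + 1) _ w hw') hj0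
  rw [hn', ← hm] at h1 h1'
  have h3 := maclaurin_step (k + 1) n (w j) m
  have hA : 0 ≤ (w j + n * m) / (n + 1) := by positivity
  have h4 := (pow_tangent _ m hA hm0 k).2
  have h5 := mul_le_mul_of_nonneg_left h4
    (show (0 : ℝ) ≤ ((n + 1).choose (k + 1 + 1) : ℝ) by positivity)
  rw [hsum]
  have e : (((w j + n * m) / ((n + 1 : ℕ) : ℝ) - w j) / (((n + 1 : ℕ) : ℝ) - 1)) ^ 2
      = (m - (w j + n * m) / (n + 1)) ^ 2 := by
    push_cast
    congr 1
    rw [add_sub_cancel_right]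
    field_simp
    ring
  rw [e]
  push_cast at *
  nlinarith

lemma one_add_pow_le (x : ℝ) (h0 : 0 ≤ x) (h1 : x ≤ 1) (q : ℕ) :
    (1 + x) ^ q ≤ 1 + (2 ^ q - 1) * x := by
  induction q with
  | zero => simp
  | succ q ih =>
    have h2 : (1 : ℝ) ≤ 2 ^ q := one_le_pow₀ (by norm_num)
    have h3 : (2 ^ q - 1) * x * x ≤ (2 ^ q - 1) * x := by
      have : 0 ≤ (2 ^ q - 1) * x := mul_nonneg (by linarith) h0
      nlinarith
    calc (1 + x) ^ (q + 1) = (1 + x) ^ q * (1 + x) := pow_succ _ _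
      _ ≤ (1 + (2 ^ q - 1) * x) * (1 + x) := by gcongr
      _ ≤ 1 + (2 ^ (q + 1) - 1) * x := by rw [pow_succ]; nlinarith

lemma one_add_pow_le' (x : ℝ) (h0 : 0 ≤ x) (h1 : x ≤ 1) (q : ℕ) :
    (1 + x) ^ q ≤ 1 + 2 ^ q * x := by
  have := one_add_pow_le x h0 h1 q
  nlinarith

lemma one_sub_pow_ge (x : ℝ) (h1 : x ≤ 1) (q : ℕ) : 1 - q * x ≤ (1 - x) ^ q := by
  have := one_add_mul_le_pow (show (-2 : ℝ) ≤ -x by linarith) q
  simpa [sub_eq_add_neg] using this

end Pool.Agent.Lib.MP_1b6faf_co
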