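import Pool.Agent.Lib.MP_1b6faf_co.Stab

/-!
A vertex whose link and whose neighbours' links have cores lies next to a core with one more part.
-/

namespace Pool.Agent.Lib.MP_1b6faf_co

open Finset
open scoped Classical

variable {V : Type*} {G : SimpleGraph V}

lemma Core.card_biUnion {k : ℕ} {a η : ℝ} {U : ℕ → Finset V} (h : Core G k a η U)
    (I : Finset ℕ) (hI : ∀ i ∈ I, i < k) (f : ℕ → Finset V) (hf : ∀ i ∈ I, f i ⊆ U i) :
    ((I.biUnion f).card : ℝ) = ∑ i ∈ I, ((f i).card : ℝ) := by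
  rw [Finset.card_biUnion]
  · push_cast; rfl
  · intro i hi j hj hij
    exact (h.disj i (hI i hi) j (hI j hj) hij).mono (hf i hi) (hf j hj)

lemma Core.union_ge {k : ℕ} {a η : ℝ} {U : ℕ → Finset V} (h : Core G k a η U) :
    k * ((1 - η) * a) ≤ (((range k).biUnion U).card : ℝ) := by
  rw [h.card_biUnion (range k) (fun i hi => mem_range.1 hi) U (fun _ _ => Subset.refl _)]
  have := card_nsmul_le_sum (range k) (fun i => ((U i).card : ℝ)) ((1 - η) * a)
    (fun i hi => h.size i (mem_range.1 hi))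
  rwa [card_range, nsmul_eq_mul] at this

lemma Core.nb_ge {k : ℕ} {a η : ℝ} {U : ℕ → Finset V} (h : Core G k a η U) {T : Finset V}
    (hT : ∀ j < k, U j ⊆ T) {i : ℕ} (hi : i < k) {x : V} (μ : ℝ)
    (hx : ∀ j < k, j ≠ i → ((nn G x (U j)).card : ℝ) ≤ μ) :
    ((k : ℝ) - 1) * ((1 - η) * a - μ) ≤ ((nb G x T).card : ℝ) := by
  have h1 := h.card_biUnion ((range k).erase i) (fun j hj => mem_range.1 (mem_of_mem_erase hj))
    (fun j => nb G x (U j)) (fun j _ => nb_subset _ _)
  have h2 : ((range k).erase i).biUnion (fun j => nb G x (U j)) ⊆ nb G x T :=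
    biUnion_subset.2 fun j hj => nb_mono _ (hT j (mem_range.1 (mem_of_mem_erase hj)))
  have h3 : ((((range k).erase i).biUnion (fun j => nb G x (U j))).card : ℝ)
      ≤ (nb G x T).card := by exact_mod_cast card_le_card h2
  have h4 := card_nsmul_le_sum ((range k).erase i) (fun j => ((nb G x (U j)).card : ℝ))
    ((1 - η) * a - μ) (fun j hj => by
      have a1 := mem_range.1 (mem_of_mem_erase hj)
      have a2 := hx j a1 (ne_of_mem_erase hj)
      have a3 := h.size j a1
      have a4 := card_nb_add_nn' (G := G) x (U j)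
      linarith)
  rw [card_erase_of_mem (mem_range.2 hi), card_range, nsmul_eq_mul, Nat.cast_sub (by omega)] at h4
  push_cast at h4
  linarith

lemma Core.exists_small {k : ℕ} {a η : ℝ} {U : ℕ → Finset V} (h : Core G (k + 1) a η U)
    (hη : 0 < η * a) {B : Finset V} (hB : CF G k B) :
    ∃ i < k + 1, ((B ∩ U i).card : ℝ) < (k + 2) * (η * a) := by
  by_contra hcon
  push Not at hcon
  have := kc_greedy (G := G) U (range (k + 1)) (η * a) hη.le
    (fun i hi j hj hij => h.disj i (mem_range.1 hi) j (mem_range.1 hj) hij)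
    (fun i hi j hj hij x hx => h.miss i (mem_range.1 hi) j (mem_range.1 hj) hij x hx)
    (k + 1) (range (k + 1)) (Subset.refl _) B ((k + 2) * (η * a))
    (fun i hi => hcon i (mem_range.1 hi)) (by push_cast; nlinarith)
  rw [card_range, Nat.choose_self] at this
  have h2 : 0 < kc G (k + 1) B := by
    refine lt_of_lt_of_le ?_ this
    have : (0 : ℝ) < (k + 2) * (η * a) - ((k + 1 : ℕ) : ℝ) * (η * a) := by push_cast; nlinarith
    positivity
  obtain ⟨K, h3, h4, h5⟩ := exists_clique_of_kc_pos h2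
  have := hB K h3 h4
  omega

lemma sum_nb_comm (S T : Finset V) (f : V → V → ℝ) :
    ∑ x ∈ S, ∑ y ∈ nb G x T, f x y = ∑ y ∈ T, ∑ x ∈ nb G y S, f x y := by
  unfold nb
  simp_rw [sum_filter]
  rw [sum_comm]
  refine sum_congr rfl fun y _ => sum_congr rfl fun x _ => ?_
  rw [G.adj_comm]

lemma sum_card_nb_comm (S T : Finset V) :
    ∑ x ∈ S, ((nb G x T).card : ℝ) = ∑ y ∈ T, ((nb G y S).card : ℝ) := by
  have := sum_nb_comm (G := G) S T (fun _ _ => 1)
  simpa using this

lemma sum_card_nn_comm (S T : Finset V) :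
    ∑ x ∈ S, ((nn G x T).card : ℝ) = ∑ y ∈ T, ((nn G y S).card : ℝ) := by
  unfold nn
  simp_rw [card_filter]
  push_cast
  rw [sum_comm]
  refine sum_congr rfl fun y _ => sum_congr rfl fun x _ => ?_
  rw [G.adj_comm]

lemma triple_count (S T : Finset V) :
    ∑ x ∈ S, ∑ y ∈ nb G x S, ((nb G y (nb G x T)).card : ℝ)
      = ∑ w ∈ T, 2 * kc G 2 (nb G w S) := by
  have h1 : ∀ w ∈ T, 2 * kc G 2 (nb G w S)
      = ∑ x ∈ nb G w S, ((nb G w (nb G x S)).card : ℝ) := by
    intro w _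
    have := kc_succ (G := G) 1 (nb G w S)
    simp only [kc_one] at this
    norm_num at this
    rw [this]
    refine sum_congr rfl fun x _ => ?_
    congr 2
    ext y; simp only [mem_nb]; tauto
  rw [sum_congr rfl h1, ← sum_nb_comm S T (fun x w => ((nb G w (nb G x S)).card : ℝ))]
  refine sum_congr rfl fun x _ => ?_
  exact sum_card_nb_comm _ _

def HasCore (G : SimpleGraph V) (Z : Finset V) (s : ℕ) (a η : ℝ) (x : V) : Prop :=
  ∃ U : ℕ → Finset V, Core G s a η U ∧ ∀ i < s, U i ⊆ nb G x Z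

lemma link_triples {s : ℕ} {a ε : ℝ} {Z S : Finset V} {x : V} (hε : 0 < ε) (ha : 1 ≤ ε * a)
    (hsε : 100 * (s + 1) * ε ≤ 1)
    (hdeg : ((nb G x Z).card : ℝ) ≤ (s + 1) * (a + 1)) (hSZ : S ⊆ Z) (hCF : CF G s (nb G x S))
    (hB : (s : ℝ) * ((1 - ε) * a - ε * a) ≤ ((nb G x S).card : ℝ))
    (hx : HasCore G Z (s + 1) a ε x) :
    (s - 5 * (s + 1) * ε) * a * ((1 - (s + 4) * ε) * a)
      ≤ ∑ y ∈ nb G x S, ((nb G y (nb G x (Z \ S))).card : ℝ) := by
  obtain ⟨U, hU, hUZ⟩ := hx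
  have ha0 : 0 < a := by
    by_contra h; push Not at h; nlinarith
  have hs0 : (0 : ℝ) ≤ s := Nat.cast_nonneg _
  obtain ⟨i, hi, hsmall⟩ := hU.exists_small (by linarith) hCF
  set B := nb G x S with hBdef
  set A := U i \ S with hA
  have hAcard : (1 - (s + 3) * ε) * a ≤ (A.card : ℝ) := by
    have h1 : U i ⊆ A ∪ (B ∩ U i) := by
      intro y hy
      by_cases h : y ∈ S
      · exact mem_union_right _ (mem_inter.2 ⟨mem_nb.2 ⟨h, (mem_nb.1 (hUZ i hi hy)).2⟩, hy⟩)
      · exact mem_union_left _ (mem_sdiff.2 ⟨hy, h⟩)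
    have h2 : ((U i).card : ℝ) ≤ A.card + (B ∩ U i).card := by
      exact_mod_cast (card_le_card h1).trans (card_union_le _ _)
    have := hU.size i hi
    linarith
  have hAsub : A ⊆ nb G x (Z \ S) := by
    intro y hy
    obtain ⟨h1, h2⟩ := mem_sdiff.1 hy
    have := mem_nb.1 (hUZ i hi h1)
    exact mem_nb.2 ⟨mem_sdiff.2 ⟨this.1, h2⟩, this.2⟩
  set B' := B.filter (fun y => ∃ j < s + 1, j ≠ i ∧ y ∈ U j) with hB'
  have hB'card : (s - 5 * (s + 1) * ε) * a ≤ (B'.card : ℝ) := by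
    have h1 : B ⊆ B' ∪ (B ∩ U i) ∪ (nb G x Z \ (range (s + 1)).biUnion U) := by
      intro y hy
      by_cases h : y ∈ (range (s + 1)).biUnion U
      · obtain ⟨j, hj, hyj⟩ := mem_biUnion.1 h
        by_cases hji : j = i
        · subst hji
          exact mem_union_left _ (mem_union_right _ (mem_inter.2 ⟨hy, hyj⟩))
        · exact mem_union_left _ (mem_union_left _
            (mem_filter.2 ⟨hy, j, mem_range.1 hj, hji, hyj⟩))
      · exact mem_union_right _ (mem_sdiff.2 ⟨nb_mono _ hSZ hy, h⟩)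
    have h2 : (B.card : ℝ) ≤ B'.card + (B ∩ U i).card
        + (nb G x Z \ (range (s + 1)).biUnion U).card := by
      exact_mod_cast (card_le_card h1).trans ((card_union_le _ _).trans
        (Nat.add_le_add_right (card_union_le _ _) _))
    have h3 : (range (s + 1)).biUnion U ⊆ nb G x Z :=
      biUnion_subset.2 fun j hj => hUZ j (mem_range.1 hj)
    have h4 : ((nb G x Z \ (range (s + 1)).biUnion U).card : ℝ)
        + ((range (s + 1)).biUnion U).card = (nb G x Z).card := by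
      exact_mod_cast card_sdiff_add_card_eq_card h3
    have h5 := hU.union_ge
    push_cast at h5
    nlinarith
  have h1 : ∀ y ∈ B', (1 - (s + 4) * ε) * a ≤ ((nb G y (nb G x (Z \ S))).card : ℝ) := by
    intro y hy
    obtain ⟨_, j, hj, hji, hyj⟩ := mem_filter.1 hy
    have h2 := hU.miss j hj i hi hji y hyj
    have h3 : ((nn G y A).card : ℝ) ≤ (nn G y (U i)).card := by
      exact_mod_cast card_le_card (nn_mono _ sdiff_subset)
    have h4 := card_nb_add_nn' (G := G) y A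
    have h5 : ((nb G y A).card : ℝ) ≤ (nb G y (nb G x (Z \ S))).card := by
      exact_mod_cast card_le_card (nb_mono _ hAsub)
    linarith
  have h2 := card_nsmul_le_sum _ _ _ h1
  rw [nsmul_eq_mul] at h2
  have h3 : ∑ y ∈ B', ((nb G y (nb G x (Z \ S))).card : ℝ)
      ≤ ∑ y ∈ B, ((nb G y (nb G x (Z \ S))).card : ℝ) :=
    sum_le_sum_of_subset_of_nonneg (filter_subset _ _) fun _ _ _ => Nat.cast_nonneg _
  refine le_trans ?_ (h2.trans h3)
  refine mul_le_mul_of_nonneg_right hB'card (mul_nonneg ?_ ha0.le)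
  nlinarith

lemma num1 (s ε : ℝ) (hs : 1 ≤ s) (hε : 0 < ε) (hsε : 100 * (s + 1) * ε ≤ 1) :
    (s + 1) * s * (1 - (s + 16) * ε)
      ≤ ((s + 1) - (s + 2) * ε) * ((s - 5 * (s + 1) * ε) * (1 - (s + 4) * ε)) := by
  have h1 : (s + 1) * (1 - 2 * ε) ≤ (s + 1) - (s + 2) * ε := by nlinarith
  have h2 : s * (1 - 10 * ε) ≤ s - 5 * (s + 1) * ε := by nlinarith
  have e1 : 0 ≤ 1 - 2 * ε := by nlinarith
  have e2 : 0 ≤ 1 - 10 * ε := by nlinarith
  have e3 : 0 ≤ 1 - (s + 4) * ε := by nlinarith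
  have h3 : 1 - (s + 14) * ε ≤ (1 - 10 * ε) * (1 - (s + 4) * ε) := by
    have : 0 ≤ 10 * ε * ((s + 4) * ε) := by positivity
    nlinarith
  have h4 : 1 - (s + 16) * ε ≤ (1 - 2 * ε) * ((1 - 10 * ε) * (1 - (s + 4) * ε)) := by
    have h5 := mul_le_mul_of_nonneg_left h3 e1
    have : 0 ≤ 2 * ε * ((s + 14) * ε) := by positivity
    nlinarith
  calc (s + 1) * s * (1 - (s + 16) * ε)
      ≤ (s + 1) * s * ((1 - 2 * ε) * ((1 - 10 * ε) * (1 - (s + 4) * ε))) := by gcongr
    _ = ((s + 1) * (1 - 2 * ε)) * ((s * (1 - 10 * ε)) * (1 - (s + 4) * ε)) := by ring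
    _ ≤ _ := by
      have : 0 ≤ s * (1 - 10 * ε) := by positivity
      have : 0 ≤ (s + 1) * (1 - 2 * ε) := by positivity
      gcongr
      linarith

end Pool.Agent.Lib.MP_1b6faf_co
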