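import Pool.Agent.Lib.MP_1b6faf_co.Extend

namespace Pool.Agent.Lib.MP_1b6faf_co

open Finset
open scoped Classical

variable {V : Type*} {G : SimpleGraph V}

lemma sq_sum_ge {s : ℕ} (hs : 1 ≤ s) {a ε : ℝ} {Z : Finset V} {v : V} (hε : 0 < ε) (ha : 1 ≤ ε * a)
    (hsε : 100 * (s + 1) * ε ≤ 1)
    (hdeg : ∀ x, ((nb G x Z).card : ℝ) ≤ (s + 1) * (a + 1)) (hCF : CF G (s + 2) Z) (hv : v ∈ Z)
    {U : ℕ → Finset V} (hU : Core G (s + 1) a ε U) (hUS : ∀ i < s + 1, U i ⊆ nb G v Z)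
    (hbad : (((nb G v Z).filter (fun x => ¬ HasCore G Z (s + 1) a ε x)).card : ℝ) ≤ ε * a) :
    (s + 1) ^ 2 * (1 - (s + 16) * ε) * a ^ 3
      ≤ ∑ w ∈ Z \ nb G v Z, ((nb G w (nb G v Z)).card : ℝ) ^ 2 := by
  set S := nb G v Z with hS
  have hs1 : (1 : ℝ) ≤ s := by exact_mod_cast hs
  have ha0 : 0 < a := by
    by_contra h; push Not at h; nlinarith
  have hCFS : CF G (s + 1) S := hCF.nb hv
  set Gd := ((range (s + 1)).biUnion U).filter (fun x => HasCore G Z (s + 1) a ε x) with hGd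
  have hUu : (range (s + 1)).biUnion U ⊆ S := biUnion_subset.2 fun j hj => hUS j (mem_range.1 hj)
  have hGdS : Gd ⊆ S := (filter_subset _ _).trans hUu
  have hGdcard : ((s + 1) - (s + 2) * ε) * a ≤ (Gd.card : ℝ) := by
    have h1 := hU.union_ge
    have h2 : (range (s + 1)).biUnion U ⊆ Gd ∪ S.filter (fun x => ¬ HasCore G Z (s + 1) a ε x) := by
      intro x hx
      by_cases h : HasCore G Z (s + 1) a ε x
      · exact mem_union_left _ (mem_filter.2 ⟨hx, h⟩)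
      · exact mem_union_right _ (mem_filter.2 ⟨hUu hx, h⟩)
    have h3 : (((range (s + 1)).biUnion U).card : ℝ) ≤ Gd.card +
        (S.filter (fun x => ¬ HasCore G Z (s + 1) a ε x)).card := by
      exact_mod_cast (card_le_card h2).trans (card_union_le _ _)
    push_cast at h1
    linarith
  have h1 : ∀ x ∈ Gd, (s - 5 * (s + 1) * ε) * a * ((1 - (s + 4) * ε) * a)
      ≤ ∑ y ∈ nb G x S, ((nb G y (nb G x (Z \ S))).card : ℝ) := by
    intro x hx
    obtain ⟨hx1, hx2⟩ := mem_filter.1 hx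
    obtain ⟨i, hi, hxi⟩ := mem_biUnion.1 hx1
    have hi' := mem_range.1 hi
    refine link_triples hε ha hsε (hdeg x) (nb_subset _ _) (hCFS.nb (hUu hx1)) ?_ hx2
    have := hU.nb_ge hUS hi' (x := x) (ε * a) (fun j hj hji => hU.miss i hi' j hj hji.symm x hxi)
    push_cast at this
    simpa using this
  have h2 := card_nsmul_le_sum _ _ _ h1
  rw [nsmul_eq_mul] at h2
  have h3 : ∑ x ∈ Gd, ∑ y ∈ nb G x S, ((nb G y (nb G x (Z \ S))).card : ℝ)
      ≤ ∑ x ∈ S, ∑ y ∈ nb G x S, ((nb G y (nb G x (Z \ S))).card : ℝ) :=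
    sum_le_sum_of_subset_of_nonneg hGdS fun _ _ _ => sum_nonneg fun _ _ => Nat.cast_nonneg _
  rw [triple_count] at h3
  have h4 : ∀ w ∈ Z \ S, 2 * kc G 2 (nb G w S) ≤ s / (s + 1) * ((nb G w S).card : ℝ) ^ 2 := by
    intro w _
    have := zykov (hCFS.mono (nb_subset (G := G) w S)) 2
    rw [Nat.cast_choose_two] at this
    push_cast at this
    have e : s / (s + 1) * ((nb G w S).card : ℝ) ^ 2
      = 2 * (((s : ℝ) + 1) * (s + 1 - 1) / 2 * (((nb G w S).card : ℝ) / (s + 1)) ^ 2) := by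
      field_simp; ring
    linarith
  have h5 := sum_le_sum h4
  rw [← mul_sum (a := (s : ℝ) / (s + 1))] at h5
  have h6 := num1 s ε hs1 hε hsε
  have hp : 0 ≤ (s - 5 * (s + 1) * ε) * a * ((1 - (s + 4) * ε) * a) := by
    have : 0 ≤ s - 5 * (s + 1) * ε := by nlinarith
    have : 0 ≤ 1 - (s + 4) * ε := by nlinarith
    positivity
  have h7 := mul_le_mul_of_nonneg_right hGdcard hp
  have h8 := mul_le_mul_of_nonneg_right h6 (show 0 ≤ a ^ 3 by positivity)
  have h9 : s / (s + 1) * ((s + 1) ^ 2 * (1 - (s + 16) * ε) * a ^ 3)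
      ≤ s / (s + 1) * ∑ w ∈ Z \ S, ((nb G w S).card : ℝ) ^ 2 := by
    have e : s / (s + 1) * ((s + 1) ^ 2 * (1 - (s + 16) * ε) * a ^ 3)
      = (s + 1) * s * (1 - (s + 16) * ε) * a ^ 3 := by field_simp
    rw [e]
    have e2 : (↑s + 1 - (↑s + 2) * ε) * a * ((↑s - 5 * (↑s + 1) * ε) * a * ((1 - (↑s + 4) * ε) * a))
      = (↑s + 1 - (↑s + 2) * ε) * ((↑s - 5 * (↑s + 1) * ε) * (1 - (↑s + 4) * ε)) * a ^ 3 := by ring
    linarith
  exact le_of_mul_le_mul_left h9 (by positivity)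

lemma out_sum_le {s : ℕ} {a ε : ℝ} {Z : Finset V} {v : V} (hε : 0 < ε) (ha : 1 ≤ ε * a)
    (hsε : 100 * (s + 1) * ε ≤ 1)
    (hdeg : ∀ x, ((nb G x Z).card : ℝ) ≤ (s + 1) * (a + 1))
    {U : ℕ → Finset V} (hU : Core G (s + 1) a ε U) (hUS : ∀ i < s + 1, U i ⊆ nb G v Z) :
    ∑ w ∈ Z \ nb G v Z, ((nb G w (nb G v Z)).card : ℝ)
      ≤ (s + 1) * a ^ 2 * (1 + 11 * (s + 1) * ε) := by
  set S := nb G v Z with hS
  have hs0 : (0 : ℝ) ≤ s := Nat.cast_nonneg _
  have ha0 : 0 < a := by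
    by_contra h; push Not at h; nlinarith
  have hε1 : ε ≤ 1 / 100 := by nlinarith
  have ha1 : 1 ≤ a := by nlinarith
  rw [← sum_card_nb_comm]
  set Vu := (range (s + 1)).biUnion U with hVu
  have hUu : Vu ⊆ S := biUnion_subset.2 fun j hj => hUS j (mem_range.1 hj)
  have hsplit : ∀ x, ((nb G x (Z \ S)).card : ℝ) + (nb G x S).card ≤ (s + 1) * (a + 1) := by
    intro x
    refine le_trans ?_ (hdeg x)
    have h1 : Disjoint (nb G x (Z \ S)) (nb G x S) :=
      sdiff_disjoint.mono (nb_subset _ _) (nb_subset _ _)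
    have h2 : nb G x (Z \ S) ∪ nb G x S ⊆ nb G x Z :=
      union_subset (nb_mono _ sdiff_subset) (nb_mono _ (nb_subset _ _))
    have h3 := card_le_card h2
    rw [card_union_of_disjoint h1] at h3
    exact_mod_cast h3
  rw [← sum_sdiff hUu]
  have h1 : ∀ x ∈ S \ Vu, ((nb G x (Z \ S)).card : ℝ) ≤ 2 * (s + 1) * a := by
    intro x _
    have := hsplit x
    have : (0 : ℝ) ≤ (nb G x S).card := Nat.cast_nonneg _
    nlinarith
  have h2 : ∀ x ∈ Vu, ((nb G x (Z \ S)).card : ℝ) ≤ a * (1 + 3 * (s + 1) * ε) := by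
    intro x hx
    obtain ⟨i, hi, hxi⟩ := mem_biUnion.1 hx
    have hi' := mem_range.1 hi
    have := hU.nb_ge hUS hi' (x := x) (ε * a) (fun j hj hji => hU.miss i hi' j hj hji.symm x hxi)
    push_cast at this
    have := hsplit x
    nlinarith
  have h3 := sum_le_card_nsmul _ _ _ h1
  have h4 := sum_le_card_nsmul _ _ _ h2
  rw [nsmul_eq_mul] at h3 h4
  have h5 : ((S \ Vu).card : ℝ) + Vu.card = S.card := by
    exact_mod_cast card_sdiff_add_card_eq_card hUu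
  have h6 := hU.union_ge
  push_cast at h6
  have h7 := hdeg v
  have h8 : ((S \ Vu).card : ℝ) ≤ 2 * (s + 1) * (ε * a) := by nlinarith
  have h9 : (Vu.card : ℝ) ≤ (s + 1) * a * (1 + ε) := by
    have : (0 : ℝ) ≤ (S \ Vu).card := Nat.cast_nonneg _
    nlinarith
  have h10 := mul_le_mul_of_nonneg_right h8 (show 0 ≤ 2 * (s + 1) * a by positivity)
  have h11 := mul_le_mul_of_nonneg_right h9 (show 0 ≤ a * (1 + 3 * (s + 1) * ε) by positivity)
  have h12 : 2 * (s + 1) * (ε * a) * (2 * (s + 1) * a) + (s + 1) * a * (1 + ε) * (a * (1 + 3 * (s + 1) * ε))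
      ≤ (s + 1) * a ^ 2 * (1 + 11 * (s + 1) * ε) := by
    have e : 2 * (s + 1) * (ε * a) * (2 * (s + 1) * a) + (s + 1) * a * (1 + ε) * (a * (1 + 3 * (s + 1) * ε))
      = (s + 1) * a ^ 2 * (1 + 7 * (s + 1) * ε + ε + 3 * (s + 1) * ε * ε) := by ring
    rw [e]
    refine mul_le_mul_of_nonneg_left ?_ (by positivity)
    have : 0 ≤ (s + 1) * ε := by positivity
    nlinarith
  linarith

lemma num2 (σ a ε γ η R Y Y2 YG YB N : ℝ) (hσ : 2 ≤ σ) (hε : 0 < ε) (ha : 1 ≤ ε * a)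
    (hη : 0 < η) (hη1 : η ≤ 1) (hγ : γ = η ^ 2 / 8) (hεη : 400 * σ ^ 2 * ε = η ^ 3)
    (hR : R = σ * (a + 1)) (hY : Y ≤ σ * a ^ 2 * (1 + 11 * σ * ε))
    (hY2 : σ ^ 2 * (1 - (σ + 15) * ε) * a ^ 3 ≤ Y2) (hsplit : Y = YG + YB)
    (hB : YB * (γ * a) ≤ R * Y - Y2) (hRY : Y2 ≤ R * Y) (hG : YG ≤ N * R) :
    (1 - η) * a ≤ N := by
  have ha0 : 0 < a := by
    by_contra h; push Not at h; nlinarith
  have hη3 : η ^ 3 ≤ 1 := pow_le_one₀ hη.le hη1
  have hσε : 0 < σ * ε := by positivity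
  have hσε1 : σ * ε ≤ 1 / 800 := by nlinarith
  have hε1 : ε ≤ 1 / 1600 := by nlinarith
  have hR0 : 0 < R := by rw [hR]; positivity
  have hR1 : R ≤ σ * a * (1 + ε) := by rw [hR]; nlinarith
  have hγ0 : 0 < γ := by rw [hγ]; positivity
  have hY0 : σ * (1 - (σ + 16) * ε) * a ^ 2 ≤ Y := by
    by_contra hcon
    push Not at hcon
    have h1 : R * Y ≤ R * (σ * (1 - (σ + 16) * ε) * a ^ 2) := by gcongr
    have h0 : 0 ≤ σ * (1 - (σ + 16) * ε) * a ^ 2 := by
      have : 0 ≤ 1 - (σ + 16) * ε := by nlinarith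
      positivity
    have h2 := mul_le_mul_of_nonneg_right hR1 h0
    have h3 : σ * a * (1 + ε) * (σ * (1 - (σ + 16) * ε) * a ^ 2)
        = σ ^ 2 * (1 - (σ + 15) * ε) * a ^ 3 - σ ^ 2 * a ^ 3 * ((σ + 16) * ε * ε) := by ring
    have h4 : 0 < σ ^ 2 * a ^ 3 * ((σ + 16) * ε * ε) := by positivity
    linarith
  have hYpos : 0 ≤ Y := le_trans (by
    have : 0 ≤ 1 - (σ + 16) * ε := by nlinarith
    positivity) hY0
  have h1 : R * Y - Y2 ≤ 31 * σ ^ 3 * ε * a ^ 3 := by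
    have h2 : R * Y ≤ σ * a * (1 + ε) * (σ * a ^ 2 * (1 + 11 * σ * ε)) :=
      mul_le_mul hR1 hY hYpos (by positivity)
    have h3 : σ * a * (1 + ε) * (σ * a ^ 2 * (1 + 11 * σ * ε)) - σ ^ 2 * (1 - (σ + 15) * ε) * a ^ 3
        = σ ^ 2 * a ^ 3 * (16 * ε + 12 * σ * ε + 11 * σ * ε * ε) := by ring
    have h4 : 16 * ε + 12 * σ * ε + 11 * σ * ε * ε ≤ 31 * σ * ε := by nlinarith
    have h5 := mul_le_mul_of_nonneg_left h4 (show 0 ≤ σ ^ 2 * a ^ 3 by positivity)
    nlinarith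
  have h2 : YB ≤ 31 / 50 * η * (σ * a ^ 2) := by
    have h3 : YB * (γ * a) ≤ (31 / 50 * η * (σ * a ^ 2)) * (γ * a) := by
      have e : (31 / 50 * η * (σ * a ^ 2)) * (γ * a) = 31 * σ * a ^ 3 * (η ^ 3 / 400) := by
        rw [hγ]; ring
      rw [e, ← hεη]
      nlinarith
    exact le_of_mul_le_mul_right h3 (by positivity)
  have h3 : (σ + 17) * ε ≤ 19 / 50 * η := by
    have h4 : η ^ 3 ≤ η := by nlinarith [sq_nonneg η, mul_pos hη hη]
    nlinarith
  by_contra hcon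
  push Not at hcon
  have h4 : N * R ≤ (1 - η) * a * (σ * a * (1 + ε)) :=
    mul_le_mul hcon.le hR1 hR0.le (by have : 0 ≤ 1 - η := by linarith
                                      positivity)
  have h5 : (1 - η) * a * (σ * a * (1 + ε)) = σ * a ^ 2 * (1 - η + ε - η * ε) := by ring
  have h6 : σ * a ^ 2 * (1 - η + ε - η * ε) < σ * a ^ 2 * (1 - (σ + 16) * ε - 31 / 50 * η) := by
    refine mul_lt_mul_of_pos_left ?_ (by positivity)
    have := mul_pos hη hε
    nlinarith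
  nlinarith

theorem extend_core (s : ℕ) (hs : 1 ≤ s) (η : ℝ) (hη : 0 < η) (hη1 : η ≤ 1) :
    ∃ ε : ℝ, 0 < ε ∧ ε ≤ η ∧ ∀ (V : Type) (G : SimpleGraph V) (Z : Finset V) (v : V) (a : ℝ),
      1 ≤ ε * a → (∀ x, ((nb G x Z).card : ℝ) ≤ (s + 1) * (a + 1)) → CF G (s + 2) Z → v ∈ Z →
      HasCore G Z (s + 1) a ε v →
      (((nb G v Z).filter (fun x => ¬ HasCore G Z (s + 1) a ε x)).card : ℝ) ≤ ε * a →
      ∃ U : ℕ → Finset V, Core G (s + 2) a η U ∧ ∀ i < s + 2, U i ⊆ Z := by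
  have hs1 : (1 : ℝ) ≤ s := by exact_mod_cast hs
  set ε : ℝ := η ^ 3 / (400 * (s + 1) ^ 2) with hεdef
  have hε : 0 < ε := by positivity
  have hεη : 400 * ((s : ℝ) + 1) ^ 2 * ε = η ^ 3 := by rw [hεdef]; field_simp
  have hη3 : η ^ 3 ≤ η := by nlinarith [sq_nonneg η, mul_pos hη hη]
  have hss : ((s : ℝ) + 1) * ε ≤ ((s : ℝ) + 1) ^ 2 * ε :=
    mul_le_mul_of_nonneg_right (by nlinarith) hε.le
  have hε2 : ε ≤ η / 2 := by nlinarith
  have hsε : 100 * ((s : ℝ) + 1) * ε ≤ 1 := by nlinarith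
  refine ⟨ε, hε, by linarith, ?_⟩
  rintro V G Z v a ha hdeg hCF hv ⟨U, hU, hUS⟩ hbad
  have ha0 : 0 < a := by
    by_contra h; push Not at h; nlinarith
  have hY2 := sq_sum_ge hs hε ha hsε hdeg hCF hv hU hUS hbad
  have hY := out_sum_le hε ha hsε hdeg hU hUS
  set S := nb G v Z with hS
  set γ : ℝ := η ^ 2 / 8 with hγ
  have hγ0 : 0 < γ := by positivity
  have hγη : γ ≤ η / 8 := by rw [hγ]; nlinarith
  set R : ℝ := (s + 1) * (a + 1) with hR
  set y : V → ℝ := fun w => ((nb G w S).card : ℝ) with hy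
  have hy0 : ∀ w, 0 ≤ y w := fun _ => Nat.cast_nonneg _
  have hSR : (S.card : ℝ) ≤ R := hdeg v
  have hyR : ∀ w, y w ≤ R := fun w => le_trans
    (by simp only [hy]; exact_mod_cast card_le_card (nb_subset (G := G) w S)) hSR
  set Vs := (Z \ S).filter (fun w => R - y w ≤ γ * a) with hVs
  have hsplit := sum_filter_add_sum_filter_not (Z \ S) (fun w => R - y w ≤ γ * a) y
  have hB : (∑ w ∈ (Z \ S).filter (fun w => ¬ R - y w ≤ γ * a), y w) * (γ * a)
      ≤ R * ∑ w ∈ Z \ S, y w - ∑ w ∈ Z \ S, y w ^ 2 := by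
    rw [mul_sum, ← sum_sub_distrib, sum_mul]
    refine le_trans (sum_le_sum (g := fun w => R * y w - y w ^ 2) fun w hw => ?_)
      (sum_le_sum_of_subset_of_nonneg (filter_subset _ _) fun w _ _ => ?_)
    · have := not_le.1 (mem_filter.1 hw).2
      have := hy0 w
      nlinarith
    · have := hy0 w; have := hyR w; nlinarith
  have hRY : ∑ w ∈ Z \ S, y w ^ 2 ≤ R * ∑ w ∈ Z \ S, y w := by
    rw [mul_sum]
    exact sum_le_sum fun w _ => by have := hy0 w; have := hyR w; nlinarith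
  have hG : ∑ w ∈ Vs, y w ≤ Vs.card * R := by
    have := sum_le_card_nsmul Vs y R (fun w _ => hyR w)
    rwa [nsmul_eq_mul] at this
  have hVs1 : (1 - η) * a ≤ (Vs.card : ℝ) :=
    num2 (s + 1) a ε γ η R _ _ _ _ _ (by linarith) hε ha hη hη1 hγ hεη hR hY
      (by convert hY2 using 4; ring) hsplit.symm hB hRY hG
  have hVs2 : (Vs.card : ℝ) ≤ 4 * a := by
    have h1 := card_nsmul_le_sum Vs y (R - γ * a) (fun w hw => by
      have := (mem_filter.1 hw).2; linarith)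
    rw [nsmul_eq_mul] at h1
    have h2 : ∑ w ∈ Vs, y w ≤ ∑ w ∈ Z \ S, y w :=
      sum_le_sum_of_subset_of_nonneg (filter_subset _ _) fun w _ _ => hy0 w
    have h3 : (s + 1) * a / 2 ≤ R - γ * a := by rw [hR]; nlinarith
    have h4 := mul_le_mul_of_nonneg_left h3 (Nat.cast_nonneg (α := ℝ) Vs.card)
    have h5 : (s + 1) * a ^ 2 * (1 + 11 * (s + 1) * ε) ≤ (s + 1) * a ^ 2 * 2 :=
      mul_le_mul_of_nonneg_left (by linarith) (by positivity)
    have h6 : (Vs.card : ℝ) * ((s + 1) * a / 2) ≤ 4 * a * ((s + 1) * a / 2) := by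
      change ∑ w ∈ Z \ S, y w ≤ _ at hY
      nlinarith
    exact le_of_mul_le_mul_right h6 (by positivity)
  have hVsnn : ∀ w ∈ Vs, ((nn G w S).card : ℝ) ≤ γ * a := by
    intro w hw
    have h1 := (mem_filter.1 hw).2
    have h2 := card_nb_add_nn' (G := G) w S
    simp only [hy] at h1
    linarith
  set Bad := S.filter (fun x => η * a < ((nn G x Vs).card : ℝ)) with hBad
  have hBadc : (Bad.card : ℝ) ≤ η / 2 * a := by
    have h1 := markov S (fun x => ((nn G x Vs).card : ℝ)) (fun _ _ => Nat.cast_nonneg _) (η * a)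
    rw [sum_card_nn_comm] at h1
    have h2 := sum_le_card_nsmul _ _ _ hVsnn
    rw [nsmul_eq_mul] at h2
    have h3 := mul_le_mul_of_nonneg_right hVs2 (show 0 ≤ γ * a by positivity)
    have h4 : (Bad.card : ℝ) * (η * a) ≤ (η / 2 * a) * (η * a) := by
      have e : (η / 2 * a) * (η * a) = 4 * a * (γ * a) := by rw [hγ]; ring
      linarith
    exact le_of_mul_le_mul_right h4 (by positivity)
  have hVsZ : Vs ⊆ Z \ S := filter_subset _ _
  refine ⟨fun i => if i < s + 1 then U i \ Bad else Vs, ⟨?_, ?_, ?_⟩, ?_⟩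
  · intro i hi j hj hij
    have hd : ∀ i < s + 1, Disjoint (U i \ Bad) Vs := fun i hi =>
      disjoint_sdiff.mono (sdiff_subset.trans (hUS i hi)) hVsZ
    by_cases h1 : i < s + 1 <;> by_cases h2 : j < s + 1 <;> simp only [h1, h2, if_true, if_false]
    · exact (hU.disj i h1 j h2 hij).mono sdiff_subset sdiff_subset
    · exact hd i h1
    · exact (hd j h2).symm
    · omega
  · intro i _
    by_cases h1 : i < s + 1 <;> simp only [h1, if_true, if_false]
    · have h2 : ((U i).card : ℝ) ≤ (U i \ Bad).card + Bad.card := by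
        exact_mod_cast card_le_card_sdiff_add_card
      have := hU.size i h1
      nlinarith
    · exact hVs1
  · intro i hi j hj hij x hx
    by_cases h1 : i < s + 1 <;> by_cases h2 : j < s + 1 <;>
      simp only [h1, h2, if_true, if_false] at hx ⊢
    · have h3 := hU.miss i h1 j h2 hij x (mem_sdiff.1 hx).1
      have h4 : ((nn G x (U j \ Bad)).card : ℝ) ≤ (nn G x (U j)).card := by
        exact_mod_cast card_le_card (nn_mono _ sdiff_subset)
      nlinarith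
    · by_contra h
      exact (mem_sdiff.1 hx).2 (mem_filter.2 ⟨hUS i h1 (mem_sdiff.1 hx).1, not_le.1 h⟩)
    · have h3 := hVsnn x hx
      have h4 : ((nn G x (U j \ Bad)).card : ℝ) ≤ (nn G x S).card := by
        exact_mod_cast card_le_card (nn_mono _ (sdiff_subset.trans (hUS j h2)))
      nlinarith
    · omega
  · intro i _
    by_cases h1 : i < s + 1 <;> simp only [h1, if_true, if_false]
    · exact sdiff_subset.trans ((hUS i h1).trans (nb_subset _ _))
    · exact hVsZ.trans sdiff_subset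

end Pool.Agent.Lib.MP_1b6faf_co
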