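import Pool.Agent.Lib.MP_1b6faf_co.Regime

/-!
The global upper bound and its equality case.
-/

namespace Pool.Agent.Lib.MP_1b6faf_co

open Finset
open scoped Classical

theorem global {s k r : ℕ} (hk : k + 2 ≤ s) (hr : r < s) (hCI : CI s k r) :
    ∃ a0 : ℕ, ∀ a ≥ a0, ∀ (V : Type) [Fintype V] (G : SimpleGraph V),
      (∀ x S, (nb G x S).card ≤ s * a + r) → CF G (s + 1) univ →
      kc G (k + 3) univ ≤ rho s k a r * (univ : Finset V).card ∧
      (kc G (k + 3) univ = rho s k a r * (univ : Finset V).card →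
        kc G 3 univ ≤ rho s 0 a r * (univ : Finset V).card) := by
  obtain ⟨u1, ε, hu0, hu1, hu, hε, hcl⟩ := hCI
  obtain ⟨ξ, ⟨⟨x1, x2⟩, x3⟩, hξ⟩ :=
    (((ev_small (100 * (s + 1) * KK s k * (6 * (s + 1) ^ 2)) _ hε).and
    (ev_small (100 * (s + 1) ^ 2 * (6 * (s + 1) ^ 2)) _ one_pos)).and
    (ev_small (8 * (s + 1)) _ one_pos)).and self_mem_nhdsWithin |>.exists
  have hξ0 : 0 < ξ := hξ
  obtain ⟨η, ⟨⟨y1, y2⟩, y3⟩, hη⟩ :=
    (((ev_small (100 * (s + 1) ^ 2 * KK s k) _ (mul_pos hε hξ0)).and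
    (ev_small (2 * (s + 1)) _ hξ0)).and (ev_small 1 _ one_pos)).and self_mem_nhdsWithin |>.exists
  have hη0 : 0 < η := hη
  obtain ⟨a1, hz⟩ := z_ineq s k hk η hη0 (by linarith)
  refine ⟨max ⌈a1⌉₊ ⌈1 / η⌉₊, fun a ha V _ G hdeg hCF => ?_⟩
  have ha1 : a1 ≤ a := Nat.ceil_le.1 (le_trans (le_max_left _ _) ha)
  have ha2 : 1 / η ≤ a := Nat.ceil_le.1 (le_trans (le_max_right _ _) ha)
  have hηa : 1 ≤ η * a := by rw [div_le_iff₀ hη0] at ha2; linarith
  have hs0 : (0 : ℝ) ≤ s := Nat.cast_nonneg _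
  have hr' : (r : ℝ) ≤ s := by exact_mod_cast hr.le
  have hdeg' : ∀ x S, ((nb G x S).card : ℝ) ≤ s * (a + 1) := fun x S => by
    have : ((nb G x S).card : ℝ) ≤ s * a + r := by exact_mod_cast hdeg x S
    linarith
  have ha0 : (0 : ℝ) < a := by
    by_contra hc; push Not at hc; nlinarith
  have haN : 1 ≤ a := by exact_mod_cast ha0
  obtain ⟨F, W, p, hclu, hdisj, hno⟩ := exists_family (G := G) (s := s) (by omega) hη0
    (by nlinarith) x3 hηa hdeg' hCF
  set ξ1 : ℝ := 6 * (s + 1) ^ 2 * ξ with hξ1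
  set Y := F.biUnion W with hY
  set Z := univ \ Y with hZ
  have hS : ∀ c ∈ F, Setup G s a r η ξ ξ1 (W c) Z (Y \ W c) (p c) := fun c hc =>
    { hs := by omega
      hr := hr
      clu := hclu c hc
      deg := hdeg
      cf := hCF
      out := by
        ext x
        have : x ∈ W c → x ∈ Y := fun hx => subset_biUnion_of_mem W hc hx
        simp only [hZ, mem_sdiff, mem_univ, true_and, mem_union]
        tauto
      disj := sdiff_disjoint.mono_right sdiff_subset
      hη := hη0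
      ha := hηa
      hηξ := y2
      hξ := by
        rw [hξ1]
        exact le_mul_of_one_le_left hξ0.le (by nlinarith)
      small := by rw [hξ1]; linarith }
  have hp : Par s k u1 ε η ξ ξ1 := ⟨hu0, hu1, hu, hε, by rw [hξ1]; linarith, y1⟩
  have hO0 : 0 ≤ 2 * (ξ1 * a) := by positivity
  have hdec := fun k' => decomp (G := G) F W hdisj (s * (a + 1)) (2 * (ξ1 * a)) hO0
    (fun x => hdeg' x univ) (fun c hc x hx => (hS c hc).out_le' hx) k'
  rw [← hY, ← hZ] at hdec
  have hcard : ((univ : Finset V).card : ℝ) = Z.card + ∑ c ∈ F, ((W c).card : ℝ) := by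
    have h1 := card_sdiff_add_card_eq_card (subset_univ Y)
    have h2 : Y.card = ∑ c ∈ F, (W c).card := card_biUnion (fun c hc c' hc' h => hdisj c hc c' hc' h)
    rw [← h1, h2]; push_cast; rfl
  have hnb : ∀ z, ((nb G z Y).card : ℝ) = ∑ c ∈ F, ((nb G z (W c)).card : ℝ) := fun z => by
    have h1 : nb G z Y = F.biUnion (fun c => nb G z (W c)) := by
      unfold nb; rw [hY, filter_biUnion]
    rw [h1, card_biUnion (fun c hc c' hc' h =>
      (hdisj c hc c' hc' h).mono (nb_subset _ _) (nb_subset _ _))]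
    push_cast; rfl
  have hmain : kc G (k + 3) univ ≤ rho0 s k a * (1 - 2 / a) * Z.card
      + ∑ c ∈ F, valW G s k a η ξ1 (W c) Z (Y \ W c) := by
    have h1 := hz V G Z Y a ha1 hdeg' (hCF.mono (subset_univ _)) sdiff_disjoint hno
    have h2 := hdec k
    have h3 : ∀ c ∈ F, kc G (k + 3) (W c) + ∑ z ∈ Z, kc G (k + 2) (nb G z (W c))
        + ∑ x ∈ W c, (((nb G x Z).card : ℝ) * (nb G x (univ \ W c)).card * (s * (a + 1)) ^ k
        + ((nb G x (Y \ W c)).card : ℝ) * ((nb G x (Y \ W c)).card - 1) * (2 * (2 * (ξ1 * a))) ^ k)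
        = valW G s k a η ξ1 (W c) Z (Y \ W c)
          + lam s k a η * ∑ z ∈ Z, ((nb G z (W c)).card : ℝ) := fun c _ => by
      unfold valW Er1 Er2 Fz
      rw [sum_add_distrib, sum_sub_distrib, ← mul_sum]
      ring
    rw [sum_congr rfl h3, sum_add_distrib, ← mul_sum, sum_comm, ← sum_congr rfl (fun z _ => hnb z)]
      at h2
    unfold lam at h2
    linarith
  have hρ0 : 0 < rho0 s k a := by
    unfold rho0
    have : (0 : ℝ) < s.choose (k + 2) := by exact_mod_cast Nat.choose_pos hk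
    positivity
  have hlt : rho0 s k a * (1 - 2 / a) < rho s k a r := by
    refine lt_of_lt_of_le ?_ (rho_ge s k a r (by omega) haN)
    have : 1 / (a : ℝ) < 2 / a := by gcongr; norm_num
    gcongr
  have hle : ∀ c ∈ F, valW G s k a η ξ1 (W c) Z (Y \ W c) ≤ rho s k a r * (W c).card :=
    fun c hc => (hcl V G a η ξ ξ1 _ _ _ _ (hS c hc) hp).elim le_of_lt (fun h => h.1)
  have hZ0 : (0 : ℝ) ≤ Z.card := Nat.cast_nonneg _
  have h4 := sum_le_sum hle
  have h5 := mul_le_mul_of_nonneg_right hlt.le hZ0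
  rw [← mul_sum] at h4
  refine ⟨by rw [hcard]; linarith, fun heq => ?_⟩
  rw [hcard] at heq
  have hZe : Z = ∅ := by
    by_contra hc
    have : (0 : ℝ) < Z.card := by exact_mod_cast card_pos.2 (nonempty_iff_ne_empty.2 hc)
    have := mul_lt_mul_of_pos_right hlt this
    linarith
  have hclean : ∀ c ∈ F, Clean G s a r (W c) (Y \ W c) := fun c hc => by
    rcases hcl V G a η ξ ξ1 _ _ _ _ (hS c hc) hp with h | h
    · have := sum_lt_sum hle ⟨c, hc, h⟩
      rw [← mul_sum] at this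
      linarith
    · exact h.2
  have h6 := hdec 0
  have h7 : ∀ c ∈ F, kc G (0 + 3) (W c) + ∑ z ∈ Z, kc G (0 + 2) (nb G z (W c))
      + ∑ x ∈ W c, (((nb G x Z).card : ℝ) * (nb G x (univ \ W c)).card * (s * (a + 1)) ^ 0
      + ((nb G x (Y \ W c)).card : ℝ) * ((nb G x (Y \ W c)).card - 1) * (2 * (2 * (ξ1 * a))) ^ 0)
      ≤ rho s 0 a r * (W c).card := fun c hc => by
    have b1 := kc_le_es (hclu c hc).proper 3 (range (s + 1))
      (fun x hx => (hS c hc).mem_range_p hx)
    have b2 := es_le_ebal 1 (s + 1) a r (by omega) (fun i => (part (W c) (p c) i).card)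
      (by rw [← (hclean c hc).1]
          exact (card_eq_sum_parts (fun x hx => (hS c hc).mem_range_p hx)).symm)
    have b3 : rho s 0 a r * (W c).card = ebal 3 (s + 1) a r := by
      rw [(hclean c hc).1]; unfold rho; push_cast; field_simp
    have b4 : ∑ x ∈ W c, (((nb G x Z).card : ℝ) * (nb G x (univ \ W c)).card * (s * (a + 1)) ^ 0
      + ((nb G x (Y \ W c)).card : ℝ) * ((nb G x (Y \ W c)).card - 1) * (2 * (2 * (ξ1 * a))) ^ 0)
        = 0 := sum_eq_zero fun x hx => by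
      have e1 : nb G x Z = ∅ := by rw [hZe]; rfl
      have e2 := (hclean c hc).2 x hx
      rw [e1]
      rcases (by omega : (nb G x (Y \ W c)).card = 0 ∨ (nb G x (Y \ W c)).card = 1) with e | e <;>
        simp [e]
    rw [b4, hZe, sum_empty, b3]
    linarith
  have h8 := sum_le_sum h7
  have h9 : kc G (0 + 3) Z = 0 := by
    refine le_antisymm ?_ (kc_nonneg _ _)
    simpa [hZe] using kc_le_pow (G := G) (0 + 3) Z
  rw [← mul_sum] at h8
  rw [hcard, hZe, card_empty, Nat.cast_zero, zero_add]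
  linarith

end Pool.Agent.Lib.MP_1b6faf_co
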