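import Pool.Agent.Lib.MP_1b6faf_co.H26Num

/-!
Clique counts and missing pairs inside a finite vertex set.
-/

namespace Pool.Agent.Lib.MP_1b6faf_co.A1

open Finset
open scoped Classical

variable {V : Type*}

/-- neighbours of `u` in `A` -/
noncomputable def nb (G : SimpleGraph V) (u : V) (A : Finset V) : Finset V := A.filter (G.Adj u)

/-- non-neighbours of `u` in `A` -/
noncomputable def nn (G : SimpleGraph V) (u : V) (A : Finset V) : Finset V :=
  A.filter (fun y => y ≠ u ∧ ¬ G.Adj u y)

/-- cliques of size `j` inside `A` -/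
noncomputable def cl (G : SimpleGraph V) (A : Finset V) (j : ℕ) : Finset (Finset V) :=
  (A.powersetCard j).filter (fun Q => G.IsClique (Q : Set V))

/-- number of cliques of size `j` inside `A` -/
noncomputable def K (G : SimpleGraph V) (A : Finset V) (j : ℕ) : ℕ := (cl G A j).card

/-- twice the number of missing edges inside `A` -/
noncomputable def M (G : SimpleGraph V) (A : Finset V) : ℕ := ∑ u ∈ A, (nn G u A).card

/-- every clique inside `A` has at most `s` vertices -/
def CF (G : SimpleGraph V) (A : Finset V) (s : ℕ) : Prop :=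
  ∀ Q ⊆ A, G.IsClique (Q : Set V) → Q.card ≤ s

variable {G : SimpleGraph V}

theorem mem_nb {u y : V} {A : Finset V} : y ∈ nb G u A ↔ y ∈ A ∧ G.Adj u y := by simp [nb]

theorem mem_nn {u y : V} {A : Finset V} : y ∈ nn G u A ↔ y ∈ A ∧ y ≠ u ∧ ¬ G.Adj u y := by
  simp [nn]

theorem mem_cl {A Q : Finset V} {j : ℕ} :
    Q ∈ cl G A j ↔ Q ⊆ A ∧ Q.card = j ∧ G.IsClique (Q : Set V) := by
  simp [cl, mem_powersetCard, and_assoc]

theorem nb_subset (u : V) (A : Finset V) : nb G u A ⊆ A := filter_subset _ _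

theorem nn_subset (u : V) (A : Finset V) : nn G u A ⊆ A := filter_subset _ _

theorem nb_mono (u : V) {A B : Finset V} (h : A ⊆ B) : nb G u A ⊆ nb G u B :=
  filter_subset_filter _ h

theorem nn_mono (u : V) {A B : Finset V} (h : A ⊆ B) : nn G u A ⊆ nn G u B :=
  filter_subset_filter _ h

theorem card_nb_nn {u : V} {A : Finset V} (hu : u ∈ A) :
    (nb G u A).card + (nn G u A).card + 1 = A.card := by
  have h1 : A = insert u (nb G u A ∪ nn G u A) := by
    ext y; simp only [mem_insert, mem_union, mem_nb, mem_nn]; grind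
  have h2 : Disjoint (nb G u A) (nn G u A) :=
    disjoint_left.2 fun y a b => (mem_nn.1 b).2.2 (mem_nb.1 a).2
  have h3 : u ∉ nb G u A ∪ nn G u A := by simp [mem_nb, mem_nn]
  conv_rhs => rw [h1]
  rw [card_insert_of_notMem h3, card_union_of_disjoint h2]

theorem card_nb_nn' {u : V} {A : Finset V} (hu : u ∉ A) :
    (nb G u A).card + (nn G u A).card = A.card := by
  have h1 : A = nb G u A ∪ nn G u A := by
    ext y; simp only [mem_union, mem_nb, mem_nn]; grind
  have h2 : Disjoint (nb G u A) (nn G u A) :=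
    disjoint_left.2 fun y a b => (mem_nn.1 b).2.2 (mem_nb.1 a).2
  conv_rhs => rw [h1]
  rw [card_union_of_disjoint h2]

theorem cl_mono {A B : Finset V} (j : ℕ) (h : A ⊆ B) : cl G A j ⊆ cl G B j := fun _ hQ =>
  mem_cl.2 ⟨(mem_cl.1 hQ).1.trans h, (mem_cl.1 hQ).2⟩

theorem K_mono {A B : Finset V} (j : ℕ) (h : A ⊆ B) : K G A j ≤ K G B j :=
  card_le_card (cl_mono j h)

theorem K_le_choose (A : Finset V) (j : ℕ) : K G A j ≤ A.card.choose j := by
  rw [← card_powersetCard]; exact card_filter_le _ _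

@[simp] theorem K_zero (A : Finset V) : K G A 0 = 1 := by
  have : cl G A 0 = {∅} := by
    ext Q
    simp only [mem_cl, card_eq_zero, mem_singleton]
    exact ⟨fun h => h.2.1, by rintro rfl; simp⟩
  rw [K, this, card_singleton]

theorem not_mem_of_sub_nb {u : V} {A Q : Finset V} (h : Q ⊆ nb G u A) : u ∉ Q :=
  fun hu => G.irrefl (mem_nb.1 (h hu)).2

theorem clique_insert {u : V} {A Q : Finset V} (h : Q ⊆ nb G u A) (hQ : G.IsClique (Q : Set V)) :
    G.IsClique ((insert u Q : Finset V) : Set V) := by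
  rw [coe_insert]
  exact hQ.insert fun y hy _ => (mem_nb.1 (h hy)).2

theorem erase_sub_nb {u : V} {A Q : Finset V} (h : Q ⊆ A) (hQ : G.IsClique (Q : Set V))
    (hu : u ∈ Q) : Q.erase u ⊆ nb G u A := fun _ hy =>
  mem_nb.2 ⟨h (mem_of_mem_erase hy), hQ hu (mem_of_mem_erase hy) (ne_of_mem_erase hy).symm⟩

theorem K_mem {u : V} {A : Finset V} (hu : u ∈ A) (j : ℕ) :
    ((cl G A (j + 1)).filter (fun Q => u ∈ Q)).card = K G (nb G u A) j := by
  symm
  refine card_bij' (fun Q _ => insert u Q) (fun Q _ => Q.erase u) ?_ ?_ ?_ ?_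
  · intro Q hQ
    obtain ⟨h1, h2, h3⟩ := mem_cl.1 hQ
    refine mem_filter.2 ⟨mem_cl.2 ⟨insert_subset hu (h1.trans (nb_subset _ _)), ?_,
      clique_insert h1 h3⟩, mem_insert_self _ _⟩
    rw [card_insert_of_notMem (not_mem_of_sub_nb h1), h2]
  · intro Q hQ
    obtain ⟨h0, h4⟩ := mem_filter.1 hQ
    obtain ⟨h1, h2, h3⟩ := mem_cl.1 h0
    refine mem_cl.2 ⟨erase_sub_nb h1 h3 h4, ?_, h3.subset (by simp)⟩
    rw [card_erase_of_mem h4, h2]; rfl
  · intro Q hQ
    exact erase_insert (not_mem_of_sub_nb (mem_cl.1 hQ).1)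
  · intro Q hQ
    exact insert_erase (mem_filter.1 hQ).2

theorem K_rec {u : V} {A : Finset V} (hu : u ∈ A) (j : ℕ) :
    K G A (j + 1) = K G (A.erase u) (j + 1) + K G (nb G u A) j := by
  rw [← K_mem hu, K, ← card_filter_add_card_filter_not (fun Q => u ∈ Q), add_comm]
  congr 2
  ext Q
  simp only [mem_filter, mem_cl, subset_erase]
  tauto

theorem K_double (A : Finset V) (j : ℕ) :
    (j + 1) * K G A (j + 1) = ∑ u ∈ A, K G (nb G u A) j := by
  rw [← sum_congr rfl (fun u hu => K_mem (G := G) hu j)]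
  simp_rw [card_filter]
  rw [sum_comm, K, card_eq_sum_ones, mul_sum]
  refine sum_congr rfl fun Q hQ => ?_
  rw [← card_filter, filter_mem_eq_inter, inter_eq_right.2 (mem_cl.1 hQ).1, (mem_cl.1 hQ).2.1,
    mul_one]

theorem K_one (A : Finset V) : K G A 1 = A.card := by
  simpa using K_double (G := G) A 0

theorem K_two (A : Finset V) : 2 * K G A 2 + M G A + A.card = A.card * A.card := by
  rw [K_double A 1, M, ← sum_add_distrib, card_eq_sum_ones A, ← sum_add_distrib, ← card_eq_sum_ones,
    ← smul_eq_mul, ← sum_const]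
  exact sum_congr rfl fun u hu => by rw [K_one, card_nb_nn hu]

theorem CF.mono {A B : Finset V} {s : ℕ} (h : CF G B s) (hA : A ⊆ B) : CF G A s :=
  fun Q hQ => h Q (hQ.trans hA)

theorem CF.nb {A : Finset V} {s : ℕ} (h : CF G A (s + 1)) {u : V} (hu : u ∈ A) :
    CF G (nb G u A) s := by
  intro Q h1 h2
  have := h _ (insert_subset hu (h1.trans (nb_subset _ _))) (clique_insert h1 h2)
  rw [card_insert_of_notMem (not_mem_of_sub_nb h1)] at this
  omega

theorem CF.K_eq {A : Finset V} {s j : ℕ} (h : CF G A s) (hj : s < j) : K G A j = 0 := by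
  rw [K, card_eq_zero, eq_empty_iff_forall_notMem]
  intro Q hQ
  obtain ⟨h1, h2, h3⟩ := mem_cl.1 hQ
  have := h Q h1 h3
  omega

theorem CF.exists_nn {A : Finset V} {s : ℕ} (h : CF G A s) (hs : s < A.card) :
    ∃ u ∈ A, 1 ≤ (nn G u A).card := by
  by_contra hc
  push Not at hc
  have := h A Subset.rfl fun u hu y hy hne => by
    by_contra hA
    have := hc u hu
    have h2 : 0 < (nn G u A).card := card_pos.2 ⟨y, mem_nn.2 ⟨hy, hne.symm, hA⟩⟩
    omega
  omega

theorem sum_nn_comm (A B : Finset V) :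
    ∑ u ∈ A, (nn G u B).card = ∑ y ∈ B, (nn G y A).card := by
  simp_rw [nn, card_filter]
  rw [sum_comm]
  refine sum_congr rfl fun y _ => sum_congr rfl fun u _ => ?_
  rw [G.adj_comm]
  simp only [ne_comm]

theorem sum_nb_comm (A B : Finset V) :
    ∑ u ∈ A, (nb G u B).card = ∑ y ∈ B, (nb G y A).card := by
  simp_rw [nb, card_filter]
  rw [sum_comm]
  refine sum_congr rfl fun y _ => sum_congr rfl fun u _ => ?_
  simp only [G.adj_comm]

theorem card_nn_union (u : V) {A B : Finset V} (h : Disjoint A B) :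
    (nn G u (A ∪ B)).card = (nn G u A).card + (nn G u B).card := by
  rw [nn, filter_union, card_union_of_disjoint (disjoint_filter_filter h)]; rfl

theorem card_nb_union (u : V) {A B : Finset V} (h : Disjoint A B) :
    (nb G u (A ∪ B)).card = (nb G u A).card + (nb G u B).card := by
  rw [nb, filter_union, card_union_of_disjoint (disjoint_filter_filter h)]; rfl

theorem M_union {A B : Finset V} (h : Disjoint A B) :
    M G (A ∪ B) = M G A + M G B + 2 * ∑ u ∈ B, (nn G u A).card := by
  rw [M, sum_union h]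
  simp_rw [card_nn_union _ h, sum_add_distrib]
  rw [sum_nn_comm A B, M, M]; ring

theorem M_erase {u : V} {A : Finset V} (hu : u ∈ A) :
    M G A = M G (A.erase u) + 2 * (nn G u A).card := by
  have h1 : A = A.erase u ∪ {u} := by ext y; simp; grind
  have h2 : nn G u (A.erase u) = nn G u A := by ext y; simp [mem_nn]; grind
  have h3 : M G {u} = 0 := by simp [M, nn]
  conv_lhs => rw [h1, M_union (by simp)]
  rw [sum_singleton, h2, h3, add_zero]

theorem M_even (A : Finset V) : 2 ∣ M G A := by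
  induction A using Finset.induction_on with
  | empty => simp [M]
  | insert u A hu ih => rw [M_erase (mem_insert_self u A), erase_insert hu]; omega

theorem CF.M_ge {s : ℕ} (r : ℕ) {A : Finset V} (h : CF G A s) (hr : s + r ≤ A.card) :
    2 * r ≤ M G A := by
  induction r generalizing A with
  | zero => simp
  | succ r ih =>
    obtain ⟨u, hu, h1⟩ := h.exists_nn (by omega)
    have := ih (h.mono (erase_subset u A)) (by rw [card_erase_of_mem hu]; omega)
    rw [M_erase hu]; omega

theorem CF.nn_le {s r : ℕ} {A : Finset V} (h : CF G A s) (hr : s + r ≤ A.card) {u : V}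
    (hu : u ∈ A) : 2 * (nn G u A).card + 2 * r ≤ M G A + 2 := by
  rw [M_erase hu]
  rcases r with _ | r
  · omega
  have := (h.mono (erase_subset u A)).M_ge r (by rw [card_erase_of_mem hu]; omega)
  omega

theorem M_link {u : V} {A : Finset V} (hu : u ∈ A) :
    M G A ≤ M G (nb G u A) + 2 * ∑ x ∈ nn G u A, (nn G x A).card := by
  have h1 : A.erase u = nb G u A ∪ nn G u A := by
    ext y; simp only [mem_erase, mem_union, mem_nb, mem_nn]
    exact ⟨by tauto, fun h => h.elim (fun a => ⟨a.2.ne', a.1⟩) (fun a => ⟨a.2.1, a.1⟩)⟩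
  have h2 : Disjoint (nb G u A) (nn G u A) :=
    disjoint_left.2 fun y a b => (mem_nn.1 b).2.2 (mem_nb.1 a).2
  have h3 : ∀ x ∈ nn G u A, (nn G x A).card
      = (nn G x (nb G u A)).card + (nn G x (nn G u A)).card + 1 := by
    intro x hx
    obtain ⟨a1, a2, a3⟩ := mem_nn.1 hx
    rw [← card_nn_union x h2, ← h1]
    have : nn G x A = insert u (nn G x (A.erase u)) := by
      ext y; simp only [mem_insert, mem_nn, mem_erase]
      have := G.adj_comm x u
      grind
    rw [this, card_insert_of_notMem (by simp [mem_nn])]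
  rw [M_erase hu, h1, M_union h2, sum_congr rfl h3, sum_add_distrib, sum_add_distrib,
    ← card_eq_sum_ones]
  change _ ≤ _ + 2 * (_ + M G (nn G u A) + _)
  omega

/-- vertices of `A` with a non-neighbour in `A` -/
noncomputable def sup (G : SimpleGraph V) (A : Finset V) : Finset V :=
  A.filter (fun x => 1 ≤ (nn G x A).card)

theorem mem_sup {A : Finset V} {x : V} : x ∈ sup G A ↔ x ∈ A ∧ 1 ≤ (nn G x A).card := by
  simp only [sup, mem_filter]

theorem sup_le {u : V} {A : Finset V} (hu : u ∈ A) :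
    (sup G A).card + (nn G u A).card ≤ M G A + 1 := by
  have h1 : ((sup G A).erase u).card ≤ ∑ x ∈ A.erase u, (nn G x A).card := by
    rw [card_eq_sum_ones]
    refine (sum_le_sum fun x hx => (mem_sup.1 (mem_of_mem_erase hx)).2).trans ?_
    exact sum_le_sum_of_subset (erase_subset_erase _ (filter_subset _ _))
  have h2 := pred_card_le_card_erase (s := sup G A) (a := u)
  rw [M, ← add_sum_erase _ _ hu]
  omega

theorem K_three (A : Finset V) : 6 * K G A 3 + (3 * A.card) * M G A + 3 * A.card ^ 2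
    ≤ A.card ^ 3 + 2 * A.card + 3 * M G A + 3 * ∑ u ∈ A, (nn G u A).card ^ 2 := by
  have h1 := K_double (G := G) A 2
  have h2 : ∑ u ∈ A, ∑ x ∈ nn G u A, (nn G x A).card = ∑ u ∈ A, (nn G u A).card ^ 2 := by
    simp_rw [nn, sum_filter]
    rw [sum_comm]
    refine sum_congr rfl fun x _ => ?_
    rw [← sum_filter, sum_const, smul_eq_mul, pow_two]
    congr 2
    ext u
    simp only [mem_filter, G.adj_comm u x, ne_comm]
  have h3 : ∀ u ∈ A, 2 * K G (nb G u A) 2 + M G A + 2 * A.card * (nn G u A).card + 3 * A.card ≤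
      A.card ^ 2 + 2 + 3 * (nn G u A).card + (nn G u A).card ^ 2
        + 2 * ∑ x ∈ nn G u A, (nn G x A).card := by
    intro u hu
    have a1 := K_two (G := G) (nb G u A)
    have a2 := M_link (G := G) hu
    rw [← card_nb_nn (G := G) hu]
    nlinarith
  have h4 := sum_le_sum h3
  simp only [sum_add_distrib, ← mul_sum, sum_const, smul_eq_mul] at h4
  rw [h2, ← h1] at h4
  change _ + _ * M G A + _ ≤ _ + 3 * M G A + _ + _ at h4
  nlinarith

end Pool.Agent.Lib.MP_1b6faf_co.A1
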