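import Pool.Agent.Lib.MP_1b6faf_co.H26Loc

/-!
Graphs with the largest density of maximum cliques, and their triangles.
-/

namespace Pool.Agent.Lib.MP_1b6faf_co.A1

open Finset
open scoped Classical

variable {V : Type*} {G : SimpleGraph V}

theorem hajnal {A : Finset V} {s : ℕ} (h : CF G A s) {F : Finset (Finset V)} (hF : F.Nonempty)
    (hs : F ⊆ cl G A s) : ∃ X Y : Finset V, Y ⊆ A ∧ X ⊆ Y ∧ (∀ Q ∈ F, X ⊆ Q ∧ Q ⊆ Y) ∧
      (∀ x ∈ X, ∀ y ∈ Y, x ≠ y → G.Adj x y) ∧ 2 * s ≤ X.card + Y.card := by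
  induction hF using Finset.Nonempty.cons_induction with
  | singleton Q =>
    obtain ⟨h1, h2, h3⟩ := mem_cl.1 (hs (mem_singleton_self Q))
    exact ⟨Q, Q, h1, Subset.rfl, by simp, fun x hx y hy => h3 hx hy, by omega⟩
  | cons Q F hQ hF ih =>
    obtain ⟨X, Y, a1, a2, a3, a4, a5⟩ := ih ((subset_cons _).trans hs)
    obtain ⟨h1, h2, h3⟩ := mem_cl.1 (hs (mem_cons_self Q F))
    refine ⟨X ∩ Q, Y ∪ Q, union_subset a1 h1, inter_subset_right.trans subset_union_right,
      fun R hR => ?_, fun x hx y hy hne => ?_, ?_⟩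
    · rcases mem_cons.1 hR with rfl | hR
      · exact ⟨inter_subset_right, subset_union_right⟩
      · exact ⟨inter_subset_left.trans (a3 R hR).1, (a3 R hR).2.trans subset_union_left⟩
    · rcases mem_union.1 hy with hy | hy
      · exact a4 x (mem_inter.1 hx).1 y hy hne
      · exact h3 (mem_inter.1 hx).2 hy hne
    · have b1 := h ((Q ∩ Y) ∪ (X \ Q)) (union_subset (inter_subset_left.trans h1)
        (sdiff_subset.trans (a2.trans a1))) (by
          intro a ha b hb hab
          rcases mem_union.1 ha with ha | ha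
          · rcases mem_union.1 hb with hb | hb
            · exact h3 (mem_inter.1 ha).1 (mem_inter.1 hb).1 hab
            · exact (a4 b (mem_sdiff.1 hb).1 a (mem_inter.1 ha).2 hab.symm).symm
          · exact a4 a (mem_sdiff.1 ha).1 b
              ((union_subset inter_subset_right (sdiff_subset.trans a2)) hb) hab)
      rw [card_union_of_disjoint (disjoint_sdiff.mono_left inter_subset_left)] at b1
      have b2 := card_sdiff_add_card_inter X Q
      have b3 := card_union_add_card_inter Y Q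
      rw [inter_comm] at b3
      omega

theorem branch {s k : ℕ} (hk : 1 ≤ k) (P : Finset V) : ∀ (A : Finset V) (ρ : ℕ), P ⊆ A →
    G.IsClique (P : Set V) → (∀ u ∈ P, k ≤ (nn G u A).card) → CF G A (s + 1) →
    A.card ≤ s + 1 + ρ → ρ ≤ s → K G A (s + 1) + 1 ≤ 2 ^ (ρ + 1 - k) + 2 ^ (ρ - P.card) := by
  induction P using Finset.induction_on with
  | empty =>
    intro A ρ _ _ _ h hA hρ
    have := top_le h hA (by omega)
    have := Nat.one_le_two_pow (n := ρ + 1 - k)
    simp only [card_empty, Nat.sub_zero]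
    omega
  | insert u P hu ih =>
    intro A ρ h1 h2 h3 h hA hρ
    have huA := h1 (mem_insert_self u P)
    have h4 := card_nb_nn (G := G) huA
    have h5 := h3 u (mem_insert_self u P)
    have h6 := K_le_choose (G := G) (nb G u A) s
    rw [K_rec huA, card_insert_of_notMem hu]
    rcases ρ with _ | ρ
    · have h7 := K_le_choose (G := G) (A.erase u) (s + 1)
      rw [Nat.choose_eq_zero_of_lt (by omega)] at h6
      rw [card_erase_of_mem huA, Nat.choose_eq_zero_of_lt (by omega)] at h7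
      have := Nat.one_le_two_pow (n := 0 + 1 - k)
      have := Nat.one_le_two_pow (n := 0 - (P.card + 1))
      omega
    have h7 := ih (A.erase u) ρ (subset_erase.2 ⟨(subset_insert _ _).trans h1, hu⟩)
      (h2.subset (by simp)) (fun w hw => (h3 w (mem_insert_of_mem hw)).trans (card_le_card
        fun y hy => by
          obtain ⟨a1, a2, a3⟩ := mem_nn.1 hy
          refine mem_nn.2 ⟨mem_erase.2 ⟨?_, a1⟩, a2, a3⟩
          rintro rfl
          exact a3 (h2 (mem_insert_of_mem hw) (mem_insert_self _ _) a2.symm)))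
      (h.mono (erase_subset _ _)) (by rw [card_erase_of_mem huA]; omega) (by omega)
    rw [show ρ + 1 - (P.card + 1) = ρ - P.card by omega]
    by_cases hc : k ≤ ρ + 1
    · have := top_le (p := ρ + 1 - k) (h.nb huA) (by omega) (by omega)
      rw [show ρ + 1 + 1 - k = ρ + 1 - k + 1 by omega, pow_succ]
      omega
    · rw [Nat.choose_eq_zero_of_lt (by omega)] at h6
      have := Nat.pow_le_pow_right (n := 2) (by omega) (show ρ + 1 - k ≤ ρ + 1 + 1 - k by omega)
      omega

variable [Fintype V] {s r : ℕ}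

theorem heavy_cover (hr : r + 2 ≤ s) (hcf : CF G univ (s + 1)) {C : Finset V}
    (hC : C.card = s + (r + 2) + 1) (hK : 2 ^ (r + 1) < K G C (s + 1)) {x : V} (hx : x ∈ C) :
    ∃ Q ∈ cl G C (s + 1), x ∈ Q := by
  have h1 := top_le (p := r + 1) (hcf.mono (subset_univ (C.erase x)))
    (by rw [card_erase_of_mem hx]; omega) (by omega)
  have h2 := K_rec (G := G) hx s
  rw [← K_mem hx] at h2
  obtain ⟨Q, hQ⟩ := card_pos.1 (show 0 < ((cl G C (s + 1)).filter (fun Q => x ∈ Q)).card by omega)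
  exact ⟨Q, (mem_filter.1 hQ).1, (mem_filter.1 hQ).2⟩

theorem heavy_core (hr : r + 2 < s) (hcf : CF G univ (s + 1)) {C : Finset V}
    (hC : C.card = s + (r + 2) + 1) (hK : 2 ^ (r + 1) < K G C (s + 1)) :
    ∃ X ⊆ C, 2 ≤ X.card ∧ (∀ Q ∈ cl G C (s + 1), X ⊆ Q) ∧ ∀ x ∈ X, ∀ y ∈ C, x ≠ y → G.Adj x y := by
  obtain ⟨X, Y, a1, a2, a3, a4, a5⟩ := hajnal (hcf.mono (subset_univ C))
    (card_pos.1 (show 0 < (cl G C (s + 1)).card from lt_of_le_of_lt (Nat.zero_le _) hK)) Subset.rfl
  have := card_le_card a1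
  refine ⟨X, a2.trans a1, by omega, fun Q hQ => (a3 Q hQ).1, fun x hx y hy => a4 x hx y ?_⟩
  obtain ⟨Q, hQ, h⟩ := heavy_cover hr.le hcf hC hK hy
  exact (a3 Q hQ).2 h

theorem heavy_closed (hr : r + 2 < s) (hdeg : ∀ v, (nb G v univ).card ≤ s + (r + 2))
    (hcf : CF G univ (s + 1)) {C : Finset V} (hC : C.card = s + (r + 2) + 1)
    (hK : 2 ^ (r + 1) < K G C (s + 1)) {Q : Finset V} (hQ : Q ∈ cl G univ (s + 1)) {u : V}
    (hu : u ∈ Q) (huC : u ∈ C) : Q ⊆ C := by
  by_contra hn
  obtain ⟨-, h2, h3⟩ := mem_cl.1 hQ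
  have h4 := (sdiff_nonempty.2 hn).card_pos
  have h5 : ∀ w ∈ Q ∩ C, (Q \ C).card ≤ (nn G w C).card := fun w hw =>
    le_trans (card_le_card fun y hy => mem_out.2 ⟨(mem_sdiff.1 hy).2, h3 (mem_inter.1 hw).1
      (mem_sdiff.1 hy).1 (fun e => (mem_sdiff.1 hy).2 (e ▸ (mem_inter.1 hw).2))⟩)
      (out_le hdeg hC (mem_inter.1 hw).2)
  have h6 := card_sdiff_add_card_inter Q C
  have h7 : G.IsClique ((Q ∩ C : Finset V) : Set V) := h3.subset (by simp)
  have h8 := branch h4 (Q ∩ C) C (r + 2) inter_subset_right h7 h5 (hcf.mono (subset_univ C))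
    (by omega) (by omega)
  obtain ⟨X, a1, a2, -, a4⟩ := heavy_core hr hcf hC hK
  have h9 := hcf ((Q ∩ C) ∪ X) (subset_univ _) (by
    intro a ha b hb hab
    rcases mem_union.1 ha with ha | ha
    · rcases mem_union.1 hb with hb | hb
      · exact h7 ha hb hab
      · exact (a4 b hb a (mem_inter.1 ha).2 hab.symm).symm
    · exact a4 a ha b ((union_subset inter_subset_right a1) hb) hab)
  rw [card_union_of_disjoint (disjoint_left.2 fun w hw hw' => by
    obtain ⟨y, hy⟩ := card_pos.1 (h4.trans_le (h5 w hw))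
    obtain ⟨b1, b2, b3⟩ := mem_nn.1 hy
    exact b3 (a4 w hw' y b1 b2.symm))] at h9
  obtain ⟨R, hR, huR⟩ := heavy_cover hr.le hcf hC hK huC
  obtain ⟨c1, c2, c3⟩ := mem_cl.1 hR
  have h10 : Q ∪ R ⊆ cn G u := fun y hy => mem_cn.2 (by
    by_cases e : y = u
    · exact Or.inl e
    · exact Or.inr ((mem_union.1 hy).elim (fun a => h3 hu a (Ne.symm e))
        (fun a => c3 huR a (Ne.symm e))))
  have h11 := card_le_card h10
  have h12 := card_union_add_card_inter Q R
  have h13 := card_le_card (inter_subset_inter (Subset.refl Q) c1)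
  have h14 := hdeg u
  rw [card_cn] at h11
  by_cases hc : (Q \ C).card = 2
  · rw [hc, show r + 2 - (Q ∩ C).card = 0 by omega, show r + 2 + 1 - 2 = r + 1 by omega] at h8
    omega
  · have b1 := Nat.pow_le_pow_right (n := 2) (by omega) (show r + 2 + 1 - (Q \ C).card ≤ r by omega)
    have b2 := Nat.pow_le_pow_right (n := 2) (by omega) (show r + 2 - (Q ∩ C).card ≤ r by omega)
    rw [pow_succ] at hK
    omega

theorem neg_main (hr : r + 2 < s) (hdeg : ∀ v, (nb G v univ).card ≤ s + (r + 2))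
    (hcf : CF G univ (s + 1))
    (hext : 2 ^ (r + 2) * (univ : Finset V).card ≤ (s + (r + 2) + 1) * K G univ (s + 1)) :
    (s + (r + 2) + 1) * K G univ 3 ≤ z (s + 1) (s + (r + 2) + 1) 3 * (univ : Finset V).card := by
  obtain ⟨F, hmem⟩ : ∃ F : Finset (Finset V), ∀ C, C ∈ F ↔
      C.card = s + (r + 2) + 1 ∧ 2 ^ (r + 1) < K G C (s + 1) :=
    ⟨univ.filter (fun C => C.card = s + (r + 2) + 1 ∧ 2 ^ (r + 1) < K G C (s + 1)),
      fun C => by rw [mem_filter, and_iff_right (mem_univ _)]⟩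
  have hF : ∀ C ∈ F, ∀ C' ∈ F, C ≠ C' → Disjoint C C' := by
    intro C hC C' hC' hne
    obtain ⟨a1, a2⟩ := (hmem C).1 hC
    obtain ⟨b1, b2⟩ := (hmem C').1 hC'
    refine disjoint_left.2 fun x hx hx' => hne (eq_of_subset_of_card_le (fun y hy => ?_) (by omega))
    obtain ⟨X, -, c2, c3, -⟩ := heavy_core hr hcf a1 a2
    obtain ⟨w, hw⟩ := card_pos.1 (show 0 < X.card by omega)
    obtain ⟨Q, hQ, hxQ⟩ := heavy_cover hr.le hcf a1 a2 hx
    obtain ⟨R, hR, hyR⟩ := heavy_cover hr.le hcf a1 a2 hy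
    have d1 := heavy_closed hr hdeg hcf b1 b2 (cl_mono _ (subset_univ _) hQ) hxQ hx'
    exact heavy_closed hr hdeg hcf b1 b2 (cl_mono _ (subset_univ _) hR) (c3 R hR hw)
      (d1 (c3 Q hQ hw)) hyR
  have h1 := split_nat (G := G) hF (k := s) (by omega)
  have h2 := card_split hF
  rw [sum_congr rfl (g := fun C => s * K G C (s + 1)) (fun C hC => by
    obtain ⟨a1, a2⟩ := (hmem C).1 hC
    rw [sum_eq_zero, add_zero]
    refine fun u hu => sum_eq_zero fun y hy => card_eq_zero.2 (filter_false_of_mem fun Q hQ h => ?_)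
    exact (mem_out.1 hy).1 (heavy_closed hr hdeg hcf a1 a2 hQ h.1 hu h.2.1)), ← mul_sum,
    ← mul_add] at h1
  replace h1 := Nat.le_of_mul_le_mul_left h1 (by omega)
  rw [sum_congr rfl (fun C hC => ((hmem C).1 hC).1), sum_const, smul_eq_mul] at h2
  have h3 : ∀ C ∈ F, K G C (s + 1) ≤ 2 ^ (r + 2) := fun C hC =>
    top_le (hcf.mono (subset_univ _)) (by have := ((hmem C).1 hC).1; omega) (by omega)
  have h4 := sum_le_card_nsmul _ _ _ h3
  have h5 := sum_le_card_nsmul (rest F) (fun y => K G (nb G y (rest F)) s) (2 ^ (r + 1))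
    (fun y hy => by
      by_contra hc
      have a1 := K_rec (G := G) (mem_cn.2 (Or.inl rfl) : y ∈ cn G y) s
      have a2 := K_mono (G := G) s (show nb G y (rest F) ⊆ nb G y (cn G y) from fun w hw =>
        mem_nb.2 ⟨mem_cn.2 (Or.inr (mem_nb.1 hw).2), (mem_nb.1 hw).2⟩)
      refine mem_rest.1 hy (cn G y) ((hmem _).2 ⟨?_, by omega⟩) (mem_cn.2 (Or.inl rfl))
      by_contra hd
      have a3 := hdeg y
      have a4 := card_cn (G := G) y
      have := top_le (p := r + 1) (hcf.mono (subset_univ (cn G y))) (by omega) (by omega)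
      omega)
  rw [← K_double] at h5
  rw [smul_eq_mul] at h4 h5
  have hpos : 0 < 2 ^ (r + 1) := by positivity
  have h6 : (rest F).card = 0 := by
    by_contra hc
    have a1 : 2 ^ (r + 2) * (rest F).card ≤ (s + (r + 2) + 1) * K G (rest F) (s + 1) := by
      rw [h2] at hext
      nlinarith [Nat.mul_le_mul_left (s + (r + 2) + 1) h1, Nat.mul_le_mul_left (s + (r + 2) + 1) h4]
    have a2 := Nat.mul_le_mul_left (s + 1) a1
    have a3 := Nat.mul_le_mul_left (s + (r + 2) + 1) h5
    have a4 : 0 < (rest F).card * 2 ^ (r + 1) := Nat.mul_pos (by omega) hpos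
    rw [pow_succ] at a2
    nlinarith
  have h7 : K G (rest F) (s + 1) = 0 := by
    rw [h6] at h5
    simpa using h5
  have h8 : ∀ C ∈ F, K G C (s + 1) = 2 ^ (r + 2) := by
    refine (sum_eq_sum_iff_of_le h3).1 (le_antisymm (sum_le_sum h3) ?_)
    rw [sum_const, smul_eq_mul]
    refine Nat.le_of_mul_le_mul_left ?_ (show 0 < s + (r + 2) + 1 by omega)
    rw [h2, h6] at hext
    nlinarith [Nat.mul_le_mul_left (s + (r + 2) + 1) h1]
  have h9 : ∀ C ∈ F, ∀ u ∈ C, (nn G u C).card ≤ 1 := by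
    intro C hC u hu
    have a1 := ((hmem C).1 hC).1
    have a2 := (hcf.mono (subset_univ C)).nn_le (r := r + 2) (by omega) hu
    have a3 := M_even (G := G) C
    by_contra hc
    have a4 := claimA (r + 1) C s 1 s (by omega) (by omega) (hcf.mono (subset_univ C)) (by omega)
    rw [show s + (r + 1) + 1 = s + 1 + (r + 1) by ring, z_top (by omega),
      show s + (r + 1) - 1 = s + r by omega, z_top (by omega), h8 C hC] at a4
    simp only [pow_succ] at a4 hpos
    omega
  have h10 := split_nat (G := G) hF (k := 2) le_rfl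
  have h11 := K_le_choose (G := G) (rest F) (2 + 1)
  rw [h6] at h11
  have h12 := sum_le_card_nsmul F (fun C => 2 * K G C (2 + 1) + ∑ u ∈ C, ∑ y ∈ nb G u (univ \ C),
      cc G (rest F) C (2 + 1) u y) (2 * z (s + 1) (s + (r + 2) + 1) 3) (fun C hC => by
    have a1 := ((hmem C).1 hC).1
    rw [sum_eq_zero, add_zero]
    · exact Nat.mul_le_mul_left _ (zykov 3 (hcf.mono (subset_univ C)) a1.le (by omega))
    · refine fun u hu => sum_eq_zero fun y hy => ?_
      have a2 : cc G (rest F) C (2 + 1) u y ≤ _ :=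
        cc_le' (mem_out.1 hy).2 hu (by rw [card_eq_zero.1 h6]; simp) 0
      have a3 := com_out hdeg a1 hu hy
      have a4 := h9 C hC u hu
      rw [Nat.choose_zero_right] at a2
      omega)
  rw [smul_eq_mul] at h12
  rw [h2, h6]
  have h13 : K G univ 3 ≤ F.card * z (s + 1) (s + (r + 2) + 1) 3 := by
    simp only [Nat.choose_zero_succ, Nat.le_zero] at h11
    rw [h11] at h10
    nlinarith
  nlinarith [Nat.mul_le_mul_left (s + (r + 2) + 1) h13]

end Pool.Agent.Lib.MP_1b6faf_co.A1
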