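import Pool.Agent.Lib.MP_1b6faf_co.H26Pos
import Pool.Agent.Lib.MP_1b6faf_co.H26Neg

/-!
Constructions, and the translation to set-theoretic counts.
-/

namespace Pool.Agent.Lib.MP_1b6faf_co.A1

open Finset
open scoped Classical

/-- the complete graph minus a matching of size `p` and minus the pairs joining `w` to vertices
outside the matching -/
def gr (p w : ℕ) : SimpleGraph ℕ where
  Adj x y := x ≠ y ∧ ¬ (x / 2 = y / 2 ∧ x < 2 * p) ∧ ¬ (x = w ∧ 2 * p ≤ y) ∧ ¬ (y = w ∧ 2 * p ≤ x)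
  symm := ⟨fun _ _ h => by omega⟩
  loopless := ⟨fun _ h => h.1 rfl⟩

theorem gr_adj {p w x y : ℕ} : (gr p w).Adj x y ↔
    x ≠ y ∧ ¬ (x / 2 = y / 2 ∧ x < 2 * p) ∧ ¬ (x = w ∧ 2 * p ≤ y) ∧ ¬ (y = w ∧ 2 * p ≤ x) := Iff.rfl

theorem K_step {G : SimpleGraph ℕ} {k l : ℕ} (h : ∀ y < k + 1, G.Adj k y ↔ y < l) (hl : l ≤ k)
    (j : ℕ) : K G (range (k + 1)) (j + 1) = K G (range k) (j + 1) + K G (range l) j := by
  have h1 : nb G k (range (k + 1)) = range l := by
    ext y
    simp only [mem_nb, mem_range]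
    exact ⟨fun a => (h y a.1).1 a.2, fun a => ⟨by omega, (h y (by omega)).2 a⟩⟩
  rw [K_rec (self_mem_range_succ k), h1]
  congr 2
  ext y
  simp only [mem_erase, mem_range]
  omega

theorem K_match {p w : ℕ} (hw : 2 * p ≤ w) (i : ℕ) (hi : i ≤ p) (j : ℕ) :
    K (gr p w) (range (2 * i)) j = U i 0 j := by
  induction i generalizing j with
  | zero =>
    rcases j with _ | j
    · simp
    · simp [U_nil, K, cl]
  | succ i ih =>
    rcases j with _ | j
    · simp
    rw [show 2 * (i + 1) = 2 * i + 1 + 1 by ring,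
      K_step (l := 2 * i) (fun y hy => by rw [gr_adj]; omega) (by omega),
      K_step (l := 2 * i) (fun y hy => by rw [gr_adj]; omega) le_rfl, ih (by omega), ih (by omega),
      U_p]
    ring

theorem K_gr {p w : ℕ} (q : ℕ) (hw : 2 * p + q ≤ w) (j : ℕ) :
    K (gr p w) (range (2 * p + q)) j = U p q j := by
  induction q generalizing j with
  | zero => exact K_match hw p le_rfl j
  | succ q ih =>
    rcases j with _ | j
    · simp
    rw [← add_assoc, K_step (l := 2 * p + q) (fun y hy => by rw [gr_adj]; omega) le_rfl,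
      ih (by omega), ih (by omega), U_q]

theorem K_odd (p j : ℕ) :
    K (gr p (2 * p + 2)) (range (2 * p + 2 + 1)) (j + 1) = U p 2 (j + 1) + U p 0 j := by
  rw [K_step (l := 2 * p) (fun y hy => by rw [gr_adj]; omega) (by omega), K_gr 2 le_rfl,
    K_match (by omega) p le_rfl]

/-- a graph of the class, given on a finite set of natural numbers -/
def Wit (D om : ℕ) (G : SimpleGraph ℕ) (S : Finset ℕ) : Prop :=
  S.Nonempty ∧ (∀ x ∈ S, (nb G x S).card ≤ D) ∧ K G S (om + 1) = 0

theorem wit_L (p q : ℕ) : Wit (2 * p + q) (p + q + 1) (gr p (2 * p + (q + 1)))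
    (range (2 * p + (q + 1))) := by
  refine ⟨nonempty_range_iff.2 (by omega), fun x hx => ?_, ?_⟩
  · have := card_nb_nn (G := gr p (2 * p + (q + 1))) hx
    rw [card_range] at this
    omega
  · rw [K_gr _ le_rfl, U_big _ _ _ (by omega)]

theorem exists_rival {s r : ℕ} (hr : r < s) (h : s + 4 ≤ 5 * r) : ∃ G S, Wit (s + r) (s + 1) G S ∧
    z (s + 1) (s + r + 1) 3 * S.card < (s + r + 1) * K G S 3 := by
  have h0 := U_three r (s + 1 - r)
  rw [← z_eq' (s := s + 1) (k := s + r + 1) 3 (by omega) (by omega),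
    show 2 * r + (s + 1 - r) = s + r + 1 by omega] at h0
  rcases Nat.even_or_odd' (s + r) with ⟨p, hp | hp⟩
  · refine ⟨gr (p + 1) (2 * (p + 1)), range (2 * (p + 1)), ⟨nonempty_range_iff.2 (by omega),
      fun x hx => ?_, ?_⟩, ?_⟩
    · have h1 := card_nb_nn (G := gr (p + 1) (2 * (p + 1))) hx
      have h2 : 0 < (nn (gr (p + 1) (2 * (p + 1))) x (range (2 * (p + 1)))).card :=
        card_pos.2 ⟨if x % 2 = 0 then x + 1 else x - 1, by
          rw [mem_range] at hx
          rw [mem_nn, mem_range, gr_adj]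
          split_ifs <;> omega⟩
      rw [card_range] at h1
      omega
    · rw [K_match le_rfl _ le_rfl, U_big _ _ _ (by omega)]
    · have h1 := U_three (p + 1) 0
      rw [K_match le_rfl _ le_rfl, card_range]
      rw [hp] at h0 ⊢
      have h2 : p + 2 ≤ 3 * r := by omega
      have h3 : 2 ≤ p := by omega
      obtain ⟨p, rfl⟩ := Nat.exists_eq_add_of_le h3
      have a1 := congrArg (fun x => (2 * (2 + p + 1)) * x) h0
      have a2 := congrArg (fun x => (2 * (2 + p) + 1) * x) h1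
      have a3 := Nat.mul_le_mul_left ((2 * (2 + p + 1)) * (2 * (2 + p) - 1)) h2
      rw [show 2 * (2 + p) - 1 = 2 * p + 3 by omega] at a3
      nlinarith [Nat.zero_le (p * p), Nat.zero_le p]
  · refine ⟨gr p (2 * p + 2), range (2 * p + 2 + 1), ⟨nonempty_range_iff.2 (by omega),
      fun x hx => ?_, ?_⟩, ?_⟩
    · have h1 := card_nb_nn (G := gr p (2 * p + 2)) hx
      have h2 : 0 < (nn (gr p (2 * p + 2)) x (range (2 * p + 2 + 1))).card :=
        card_pos.2 ⟨if x = 2 * p + 2 then 2 * p else if 2 * p ≤ x then 2 * p + 2 else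
          if x % 2 = 0 then x + 1 else x - 1, by
          rw [mem_range] at hx
          rw [mem_nn, mem_range, gr_adj]
          split_ifs <;> omega⟩
      rw [card_range] at h1
      omega
    · rw [K_odd, U_big _ _ _ (by omega), U_big _ _ _ (by omega)]
    · have h1 := U_three p 2
      have h1' := U_two p 0
      rw [K_odd, card_range]
      rw [hp] at h0 ⊢
      have h2 : p + 3 ≤ 3 * r := by omega
      have h3 : 2 ≤ p := by omega
      obtain ⟨p, rfl⟩ := Nat.exists_eq_add_of_le h3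
      have a1 := congrArg (fun x => (2 * (2 + p) + 3) * x) h0
      have a2 := congrArg (fun x => (2 * (2 + p) + 2) * x) h1
      have a2' := congrArg (fun x => 3 * (2 * (2 + p) + 2) * x) h1'
      have a3 := Nat.mul_le_mul_left ((2 * (2 + p) + 3) * (2 * (2 + p))) h2
      nlinarith [Nat.zero_le (p * p), Nat.zero_le p]

section
variable {V : Type} [Fintype V] (G : SimpleGraph V)

theorem ncard_nbr (v : V) : (G.neighborSet v).ncard = (nb G v univ).card := by
  rw [← Set.ncard_coe_finset]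
  congr 1
  ext y
  simp [mem_nb]

theorem ncard_clique (t : ℕ) : (G.cliqueSet t).ncard = K G univ t := by
  rw [K, ← Set.ncard_coe_finset]
  congr 1
  ext Q
  simp [mem_cl, SimpleGraph.isNClique_iff, and_comm]

theorem CF_of_free {om : ℕ} (h : G.CliqueFree (om + 1)) : CF G univ om := by
  intro Q _ hQ
  by_contra hc
  obtain ⟨R, h1, h2⟩ := exists_subset_card_eq (show om + 1 ≤ Q.card by omega)
  exact h R ⟨hQ.subset (coe_subset.2 h1), h2⟩

theorem free_of_K {om : ℕ} (h : K G univ om = 0) : G.CliqueFree om := by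
  intro Q hQ
  have : Q ∈ cl G univ om := mem_cl.2 ⟨subset_univ _, hQ.2, hQ.1⟩
  rw [card_eq_zero.1 h] at this
  exact notMem_empty _ this

end

theorem K_restrict (G : SimpleGraph ℕ) (S : Finset ℕ) (t : ℕ) :
    K (G.comap (Subtype.val : S → ℕ)) univ t = K G S t := by
  refine card_bij (fun Q _ => Q.map (Function.Embedding.subtype _)) ?_ ?_ ?_
  · intro Q hQ
    obtain ⟨-, h2, h3⟩ := mem_cl.1 hQ
    refine mem_cl.2 ⟨fun x hx => ?_, by rw [card_map, h2], fun x hx y hy hxy => ?_⟩
    · obtain ⟨u, _, rfl⟩ := mem_map.1 hx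
      exact u.2
    · obtain ⟨u, hu, rfl⟩ := mem_map.1 hx
      obtain ⟨v, hv, rfl⟩ := mem_map.1 hy
      exact h3 hu hv (fun c => hxy (by rw [c]))
  · intro Q _ Q' _ h
    exact map_injective _ h
  · intro Q hQ
    obtain ⟨h1, h2, h3⟩ := mem_cl.1 hQ
    have e : (Q.subtype (· ∈ S)).map (Function.Embedding.subtype _) = Q :=
      subtype_map_of_mem h1
    refine ⟨Q.subtype (· ∈ S), mem_cl.2 ⟨subset_univ _, ?_, fun x hx y hy hxy => ?_⟩, e⟩
    · rw [← h2, ← card_map (Function.Embedding.subtype _), e]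
    · exact h3 (mem_subtype.1 hx) (mem_subtype.1 hy) (fun c => hxy (Subtype.ext c))

theorem Wit.restrict {D om : ℕ} {G : SimpleGraph ℕ} {S : Finset ℕ} (h : Wit D om G S) :
    Nonempty S ∧ (∀ v, ((G.comap (Subtype.val : S → ℕ)).neighborSet v).ncard ≤ D) ∧
      (G.comap (Subtype.val : S → ℕ)).CliqueFree (om + 1) := by
  refine ⟨h.1.to_subtype, fun v => ?_, free_of_K _ (by rw [K_restrict, h.2.2])⟩
  rw [ncard_nbr]
  refine le_trans (card_le_card_of_injOn Subtype.val (fun u hu => ?_)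
    (fun _ _ _ _ c => Subtype.ext c)) (h.2.1 v v.2)
  exact mem_coe.2 (mem_nb.2 ⟨u.2, (mem_nb.1 hu).2⟩)

theorem dens_restrict (G : SimpleGraph ℕ) (S : Finset ℕ) (t : ℕ) :
    (((G.comap (Subtype.val : S → ℕ)).cliqueSet t).ncard : ℝ) / (Nat.card S : ℝ)
      = K G S t / S.card := by
  rw [ncard_clique, K_restrict]
  simp

theorem dens_le {V : Type} [Finite V] [Nonempty V] (G : SimpleGraph V) {t : ℕ} {ρ : ℝ}
    (h : ∀ _ : Fintype V, (K G univ t : ℝ) ≤ ρ * (univ : Finset V).card) :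
    ((G.cliqueSet t).ncard : ℝ) / (Nat.card V : ℝ) ≤ ρ := by
  let _ := Fintype.ofFinite V
  have hn : (0 : ℝ) < (univ : Finset V).card := by exact_mod_cast card_pos.2 univ_nonempty
  rw [ncard_clique, Nat.card_eq_fintype_card, ← card_univ, div_le_iff₀ hn]
  exact h _

end Pool.Agent.Lib.MP_1b6faf_co.A1
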