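import Pool.Agent.Lib.MP_1b6faf_co.H26Zyk

/-!
Splitting the cliques along a family of disjoint clusters.
-/

namespace Pool.Agent.Lib.MP_1b6faf_co.A1

open Finset
open scoped Classical

variable {V : Type*} [Fintype V] {G : SimpleGraph V}

/-- vertices outside all clusters -/
noncomputable def rest (F : Finset (Finset V)) : Finset V := univ \ F.biUnion id

theorem mem_rest {F : Finset (Finset V)} {y : V} : y ∈ rest F ↔ ∀ C ∈ F, y ∉ C := by
  simp [rest]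

/-- cliques charged to the edge `u y` leaving the cluster `C` -/
noncomputable def cc (G : SimpleGraph V) (W C : Finset V) (t : ℕ) (u y : V) : ℕ :=
  ((cl G univ t).filter (fun Q => u ∈ Q ∧ y ∈ Q ∧ (y ∈ W ∨ 2 ≤ (Q \ C).card))).card

theorem K_sub (A : Finset V) (t : ℕ) : K G A t = ∑ Q ∈ cl G univ t, if Q ⊆ A then 1 else 0 := by
  rw [← card_filter, K]
  congr 1
  ext Q
  simp only [mem_cl, mem_filter, subset_univ, true_and]
  tauto

theorem split_nat {F : Finset (Finset V)} (hF : ∀ C ∈ F, ∀ C' ∈ F, C ≠ C' → Disjoint C C')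
    {k : ℕ} (hk : 2 ≤ k) :
    k * K G univ (k + 1) ≤ k * K G (rest F) (k + 1) + ∑ C ∈ F, (k * K G C (k + 1) +
      ∑ u ∈ C, ∑ y ∈ nb G u (univ \ C), cc G (rest F) C (k + 1) u y) := by
  have e1 : ∀ C : Finset V, ∑ u ∈ C, ∑ y ∈ nb G u (univ \ C), cc G (rest F) C (k + 1) u y
      = ∑ Q ∈ cl G univ (k + 1), ∑ u ∈ C, ∑ y ∈ nb G u (univ \ C),
        if u ∈ Q ∧ y ∈ Q ∧ (y ∈ rest F ∨ 2 ≤ (Q \ C).card) then 1 else 0 := by
    intro C
    simp_rw [cc, card_filter]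
    rw [sum_comm (s := cl G univ (k + 1))]
    exact sum_congr rfl fun u _ => sum_comm
  have e2 : ∀ A : Finset V, k * K G A (k + 1) = ∑ Q ∈ cl G univ (k + 1), if Q ⊆ A then k else 0 := by
    intro A
    rw [K_sub, mul_sum]
    exact sum_congr rfl fun Q _ => by split_ifs <;> simp
  simp_rw [e1, e2, ← sum_add_distrib]
  rw [sum_comm (s := F), ← sum_add_distrib]
  refine sum_le_sum fun Q hQ => ?_
  obtain ⟨-, h2, h3⟩ := mem_cl.1 hQ
  rw [if_pos (subset_univ _)]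
  by_cases c1 : Q ⊆ rest F
  · rw [if_pos c1]; omega
  by_cases c2 : ∃ C ∈ F, Q ⊆ C
  · obtain ⟨C, hC, h⟩ := c2
    refine le_trans ?_ (le_add_left (single_le_sum (fun _ _ => Nat.zero_le _) hC))
    simp only [if_pos h]; omega
  push Not at c2
  obtain ⟨C, hC, h4, h5⟩ : ∃ C ∈ F, (Q ∩ C).Nonempty ∧
      ∀ y ∈ Q \ C, y ∈ rest F ∨ 2 ≤ (Q \ C).card := by
    obtain ⟨u, hu, hu'⟩ := not_subset.1 c1
    rw [mem_rest] at hu'
    push Not at hu'
    obtain ⟨C, hC, huC⟩ := hu'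
    by_cases c3 : ∀ y ∈ Q \ C, y ∈ rest F ∨ 2 ≤ (Q \ C).card
    · exact ⟨C, hC, ⟨u, mem_inter.2 ⟨hu, huC⟩⟩, c3⟩
    push Not at c3
    obtain ⟨y, hy, h6, h7⟩ := c3
    rw [mem_rest] at h6
    push Not at h6
    obtain ⟨C', hC', hy'⟩ := h6
    refine ⟨C', hC', ⟨y, mem_inter.2 ⟨(mem_sdiff.1 hy).1, hy'⟩⟩, fun _ _ => Or.inr ?_⟩
    have h8 := hF C hC C' hC' (fun e => (mem_sdiff.1 hy).2 (e ▸ hy'))
    have h9 : Q ∩ C ⊆ Q \ C' := fun x hx =>
      mem_sdiff.2 ⟨(mem_inter.1 hx).1, disjoint_left.1 h8 (mem_inter.1 hx).2⟩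
    have := card_le_card h9
    have := card_sdiff_add_card_inter Q C
    omega
  refine le_trans ?_ (le_add_left (single_le_sum (fun _ _ => Nat.zero_le _) hC))
  refine le_trans ?_ (Nat.le_add_left _ _)
  have h6 : ∀ u ∈ Q ∩ C, (Q \ C).card ≤ ∑ y ∈ nb G u (univ \ C),
      if u ∈ Q ∧ y ∈ Q ∧ (y ∈ rest F ∨ 2 ≤ (Q \ C).card) then 1 else 0 := by
    intro u hu
    rw [← card_filter]
    refine card_le_card fun y hy => mem_filter.2 ⟨mem_nb.2 ⟨mem_sdiff.2 ⟨mem_univ _,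
      (mem_sdiff.1 hy).2⟩, h3 (mem_inter.1 hu).1 (mem_sdiff.1 hy).1 ?_⟩, (mem_inter.1 hu).1,
      (mem_sdiff.1 hy).1, h5 y hy⟩
    rintro rfl
    exact (mem_sdiff.1 hy).2 (mem_inter.1 hu).2
  refine le_trans ?_ (sum_le_sum_of_subset (inter_subset_right (s₁ := Q)))
  refine le_trans ?_ (card_nsmul_le_sum _ _ _ h6)
  have a1 := card_sdiff_add_card_inter Q C
  have a2 := h4.card_pos
  have a3 : 0 < (Q \ C).card := (sdiff_nonempty.2 (c2 C hC)).card_pos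
  rw [smul_eq_mul]
  obtain ⟨a, ha⟩ : ∃ a, (Q ∩ C).card = a + 1 := ⟨_, (Nat.succ_pred_eq_of_pos a2).symm⟩
  obtain ⟨b, hb⟩ : ∃ b, (Q \ C).card = b + 1 := ⟨_, (Nat.succ_pred_eq_of_pos a3).symm⟩
  rw [ha, hb]
  have : k = a + b + 1 := by omega
  nlinarith [Nat.zero_le (a * b)]

theorem card_split {F : Finset (Finset V)} (hF : ∀ C ∈ F, ∀ C' ∈ F, C ≠ C' → Disjoint C C') :
    (univ : Finset V).card = (rest F).card + ∑ C ∈ F, C.card := by
  have := card_sdiff_add_card_eq_card (subset_univ (F.biUnion id))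
  rw [card_biUnion (t := id) (fun C hC C' hC' h => hF C hC C' hC' h)] at this
  exact this.symm

theorem edge_split {F : Finset (Finset V)} (hF : ∀ C ∈ F, ∀ C' ∈ F, C ≠ C' → Disjoint C C') :
    ∑ y ∈ rest F, (nb G y (univ \ rest F)).card = ∑ C ∈ F, ∑ u ∈ C, (nb G u (rest F)).card := by
  rw [sum_nb_comm, rest, Finset.sdiff_sdiff_eq_self (subset_univ _),
    sum_biUnion (t := id) (fun C hC C' hC' h => hF C hC C' hC' h)]
  rfl

theorem discharge {F : Finset (Finset V)} (hF : ∀ C ∈ F, ∀ C' ∈ F, C ≠ C' → Disjoint C C')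
    {k : ℕ} (hk : 2 ≤ k) (ρ κ : ℝ)
    (hC : ∀ C ∈ F, (k * K G C (k + 1) : ℝ) + ∑ u ∈ C, ∑ y ∈ nb G u (univ \ C),
      ((cc G (rest F) C (k + 1) u y : ℝ) - if y ∈ rest F then k * κ else 0) ≤ k * (ρ * C.card))
    (hW : ∀ y ∈ rest F, (k + 1) * κ * (nb G y (univ \ rest F)).card + K G (nb G y (rest F)) k
      ≤ (k + 1) * ρ) :
    (K G univ (k + 1) : ℝ) ≤ ρ * (univ : Finset V).card := by
  have h1 : ((k * K G univ (k + 1) : ℕ) : ℝ) ≤ _ := Nat.cast_le.2 (split_nat (G := G) hF hk)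
  have h2 := sum_le_sum hC
  have h3 := sum_le_sum hW
  have h4 := congrArg (Nat.cast : ℕ → ℝ) (edge_split (G := G) hF)
  have h5 := congrArg (Nat.cast : ℕ → ℝ) (card_split hF)
  have h6 := congrArg (Nat.cast : ℕ → ℝ) (K_double (G := G) (rest F) k)
  have h7 : ∀ C ∈ F, ∀ u ∈ C, ∑ y ∈ nb G u (univ \ C), (if y ∈ rest F then k * κ else 0)
      = k * κ * (nb G u (rest F)).card := by
    intro C hC u _
    rw [← sum_filter, sum_const, nsmul_eq_mul, mul_comm]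
    congr 3
    ext y
    simp only [mem_filter, mem_nb, mem_sdiff, mem_univ, true_and]
    exact ⟨fun h => ⟨h.2, h.1.2⟩, fun h => ⟨⟨mem_rest.1 h.1 C hC, h.2⟩, h.1⟩⟩
  have h8 : ∑ C ∈ F, ∑ u ∈ C, ∑ y ∈ nb G u (univ \ C), (if y ∈ rest F then k * κ else 0)
      = k * κ * ∑ C ∈ F, ∑ u ∈ C, ((nb G u (rest F)).card : ℝ) := by
    rw [mul_sum]
    refine sum_congr rfl fun C hC => ?_
    rw [mul_sum]
    exact sum_congr rfl (h7 C hC)
  push_cast at h1 h4 h5 h6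
  simp only [sum_sub_distrib, sum_add_distrib, ← mul_sum, sum_const, nsmul_eq_mul] at h1 h2 h3
  rw [h8, ← h4] at h2
  rw [← h6] at h3
  have hk' : (0 : ℝ) < k := by exact_mod_cast (by omega : 0 < k)
  have h9 : κ * ∑ y ∈ rest F, ((nb G y (univ \ rest F)).card : ℝ) + K G (rest F) (k + 1)
      ≤ ρ * (rest F).card := by
    refine le_of_mul_le_mul_left ?_ (show (0 : ℝ) < k + 1 by linarith)
    linarith
  refine le_of_mul_le_mul_left ?_ hk'
  rw [h5]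
  nlinarith

end Pool.Agent.Lib.MP_1b6faf_co.A1
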