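import Pool.Agent.Lib.MP_1b6faf_co.H26Num

/-!
Numerical inequalities.
-/

namespace Pool.Agent.Lib.MP_1b6faf_co.A1

theorem z_one {s k : ℕ} (h : k ≤ 2 * s) : z s k 1 = k := by
  rw [z, U_one]; omega

theorem T_eq (p q j : ℕ) : (j + 2) * U (p + 1) (q + 1) (j + 2) =
    (2 * p + q + 3) * U p (q + 1) (j + 1) + (q + 1) * U p q j := by
  rw [U_der, Nat.add_sub_cancel, Nat.add_sub_cancel, U_s]; ring

theorem A_ge {p q : ℕ} (j : ℕ) (hq : 1 ≤ q) :
    (2 * p + q + 2) * U p q j ≤ (j + 1) * (U p (q + 1) (j + 1) + U p q j) := by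
  obtain ⟨q, rfl⟩ : ∃ i, q = i + 1 := ⟨q - 1, by omega⟩
  rw [← U_s, U_der, Nat.add_sub_cancel, Nat.add_sub_cancel]
  have := U_s_le p q j
  nlinarith

theorem two_lo {s c : ℕ} (j : ℕ) (hc : c ≤ 2 * s) (k : ℕ) (hk : k ≤ c + 1) :
    2 * c * z (s + 1) k (j + 2) + k * z s c (j + 1) ≤ k * k * z s c (j + 1) := by
  induction k with
  | zero => simp [z_small]
  | succ k ih =>
    have h1 := ih (by omega)
    have h2 : z s (if k ≤ s then k else k - 1) (j + 1) ≤ z s k (j + 1) :=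
      z_mono _ (by split_ifs <;> omega) (by omega)
    have h3 := z_chord (s := s) j (show k ≤ c by omega) hc
    rw [z_step s k (j + 1) (by omega)]
    nlinarith

theorem two_hi {s c : ℕ} (j e : ℕ) (hc : c + e ≤ 2 * s) :
    2 * c * z (s + 1) (c + 1) (j + 2) + 2 * c * e * z s c (j + 1)
      ≤ 2 * c * z (s + 1) (c + 1 + e) (j + 2) := by
  have := z_gap (s := s) (k := c) (j + 1) e (by omega)
  nlinarith

theorem poly1 {p q e : ℕ} (hq : 4 * p + 1 ≤ q) (he : q ≤ 3 * e) :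
    (p + 1) * (2 * p + q) ≤ e * (p + q + 2) := by
  rcases p with _ | _ | p
  · nlinarith
  · nlinarith [show 2 ≤ e by omega]
  · obtain ⟨d, rfl⟩ := Nat.exists_eq_add_of_le hq
    nlinarith [Nat.zero_le (p * d), Nat.zero_le (d * d), Nat.zero_le (p * p)]

theorem N1 {p q e : ℕ} (j : ℕ) (hq : 4 * p + 1 ≤ q) (he : q ≤ 3 * e) :
    (2 * p + q + 3) * z (p + q) (2 * p + q - e) (j + 2) ≤ (q + 1) * U p q (j + 2) := by
  by_cases h0 : 2 * p + q - e ≤ 1
  · rw [z_small _ (by omega), Nat.choose_eq_zero_of_lt (by omega)]; simp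
  obtain ⟨c, hc⟩ : ∃ c, 2 * p + q = c + 1 + e := ⟨2 * p + q - e - 1, by omega⟩
  obtain ⟨s, hs⟩ : ∃ s, p + q = s + 1 := ⟨p + q - 1, by omega⟩
  have h1 := two_lo (s := s) (c := c) j (by omega) (c + 1) le_rfl
  have h2 := two_hi (s := s) (c := c) j e (by omega)
  have h3 := poly1 hq he
  rw [← z_eq, hs, show 2 * p + q - e = c + 1 by omega]
  rw [← hc] at h2
  have h4 : (p + 1) * (c + 1) ≤ (q + 1) * e := by nlinarith
  refine Nat.le_of_mul_le_mul_left ?_ (show 0 < 2 * c by omega)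
  generalize z (s + 1) (c + 1) (j + 2) = X at *
  generalize z (s + 1) (2 * p + q) (j + 2) = Y at *
  generalize z s c (j + 1) = w at *
  have h5 : 2 * c * X ≤ c * (c + 1) * w := by nlinarith
  have h6 := Nat.mul_le_mul_left (2 * p + 2) h5
  have h7 := Nat.mul_le_mul_left (q + 1) h2
  have h8 := Nat.mul_le_mul_left (2 * c * w) h4
  nlinarith

theorem N1' {p q e : ℕ} (hq : 4 * p + 1 ≤ q) (he : q ≤ 2 * e) :
    (2 * p + q + 3) * z (p + q) (2 * p + q - e) 1 ≤ (q + 1) * U p q 1 := by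
  rw [z_one (by omega), U_one]
  by_cases h0 : 2 * p + q ≤ e
  · rw [Nat.sub_eq_zero_of_le h0]; simp
  obtain ⟨c, hc⟩ : ∃ c, 2 * p + q = c + e := ⟨2 * p + q - e, by omega⟩
  rw [show 2 * p + q - e = c by omega]
  have : (2 * p + 2) * (2 * p + q) ≤ e * (2 * p + q + 3) := by
    by_cases h : e = 2 * p + 1
    · subst h; nlinarith
    · nlinarith [show 2 * p + 2 ≤ e by omega]
  nlinarith

theorem base2 {p q e b : ℕ} (hq : 4 * p + 1 ≤ q) (he : 3 * e + 1 ≤ q) (hb : b + e = 2 * p + q) :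
    6 * (e + p + 1) * (2 * p + 2 * e).choose 2 ≤ (10 * e + p + 1) * b.choose 2 := by
  have key : ∀ b0 ≤ b, (6 * (e + p + 1) * ((2 * p + 2 * e) * (2 * p + 2 * e - 1)) : ℝ)
      ≤ (10 * e + p + 1) * (b0 * (b0 - 1)) →
      6 * (e + p + 1) * (2 * p + 2 * e).choose 2 ≤ (10 * e + p + 1) * b.choose 2 := by
    intro b0 h0 h
    refine le_trans ?_ (Nat.mul_le_mul_left _ (Nat.choose_le_choose 2 h0))
    rw [← Nat.cast_le (α := ℝ)]
    push_cast
    rw [Nat.cast_choose_two, Nat.cast_choose_two]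
    push_cast
    linarith
  have hp : (0 : ℝ) ≤ p := Nat.cast_nonneg _
  have he' : (0 : ℝ) ≤ e := Nat.cast_nonneg _
  by_cases h : 4 * p ≤ 3 * e
  · refine key (2 * p + 2 * e + 1) (by omega) ?_
    have h' : (4 * p : ℝ) ≤ 3 * e := by exact_mod_cast h
    push_cast
    have h1 : (0 : ℝ) ≤ 2 * p + 2 * e := by positivity
    have h2 : (6 * (e + p + 1) * (2 * p + 2 * e - 1) : ℝ) ≤ (10 * e + p + 1) * (2 * p + 2 * e + 1) := by
      nlinarith [mul_nonneg h1 (sub_nonneg.2 h')]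
    nlinarith [mul_le_mul_of_nonneg_left h2 h1]
  · refine key (6 * p + 1 - e) (by omega) ?_
    have h' : (3 * e : ℝ) ≤ 4 * p := by exact_mod_cast (by omega : 3 * e ≤ 4 * p)
    rw [Nat.cast_sub (by omega)]
    push_cast
    have h0 := sub_nonneg.2 h'
    nlinarith [mul_nonneg h0 (mul_nonneg he' he'), mul_nonneg h0 (mul_nonneg he' hp),
      mul_nonneg h0 (mul_nonneg hp hp), mul_nonneg h0 he', mul_nonneg h0 hp,
      mul_nonneg hp (mul_nonneg hp hp), mul_nonneg hp hp, mul_nonneg hp he']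

theorem ratio2 {a b : ℕ} (h : 5 * a ≤ 4 * b) (j : ℕ) :
    (j + 4) * a.choose (j + 2) * b.choose 2 ≤ 4 * a.choose 2 * b.choose (j + 2) := by
  induction j with
  | zero => simp
  | succ j ih =>
    have h1 := Nat.choose_succ_right_eq a (j + 2)
    have h2 := Nat.choose_succ_right_eq b (j + 2)
    have h3 : (j + 5) * (a - (j + 2)) ≤ (j + 4) * (b - (j + 2)) := by
      have : 5 * (a - (j + 2)) ≤ 4 * (b - (j + 2)) := by omega
      nlinarith [Nat.zero_le (j * (b - (j + 2)))]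
    refine Nat.le_of_mul_le_mul_left ?_ (show 0 < (j + 3) * (j + 4) by positivity)
    calc (j + 3) * (j + 4) * ((j + 1 + 4) * a.choose (j + 1 + 2) * b.choose 2)
        = (j + 4) * (j + 5) * (a.choose (j + 2 + 1) * (j + 2 + 1)) * b.choose 2 := by ring
      _ = ((j + 4) * a.choose (j + 2) * b.choose 2) * ((j + 5) * (a - (j + 2))) := by rw [h1]; ring
      _ ≤ (4 * a.choose 2 * b.choose (j + 2)) * ((j + 4) * (b - (j + 2))) := Nat.mul_le_mul ih h3
      _ = 4 * a.choose 2 * (j + 4) * (b.choose (j + 2) * (b - (j + 2))) := by ring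
      _ = _ := by rw [← h2]; ring

theorem N2c {p q e b : ℕ} (j : ℕ) (hq : 4 * p + 1 ≤ q) (he : 3 * e + 1 ≤ q)
    (hb : b + e = 2 * p + q) : 6 * (e + p + 1) * (j + 4) * (2 * p + 2 * e).choose (j + 2)
      ≤ b.choose (j + 2) * (4 * (e + p + 1) + 3 * (j + 3) * (j + 4) * e) := by
  have h1 := base2 hq he hb
  by_cases h2 : j = 0
  · subst h2; nlinarith
  by_cases h3 : p + 1 ≤ e
  · have h4 := Nat.choose_le_choose (j + 2) (show 2 * p + 2 * e ≤ b by omega)
    rw [mul_comm]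
    refine Nat.mul_le_mul h4 ?_
    have h5 : 2 * (e + p + 1) ≤ (j + 3) * e := by nlinarith [show 1 ≤ j by omega]
    nlinarith [Nat.mul_le_mul_left (3 * (j + 4)) h5]
  by_cases h4 : 2 * p + 2 * e = 0
  · rw [h4]; simp
  have h5 := ratio2 (show 5 * (2 * p + 2 * e) ≤ 4 * b by omega) j
  refine Nat.le_of_mul_le_mul_left ?_ (Nat.choose_pos (show 2 ≤ b by omega))
  have h6 := Nat.mul_le_mul_left (6 * (e + p + 1)) h5
  have h7 := Nat.mul_le_mul_left (4 * b.choose (j + 2)) h1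
  have h8 : 4 * (10 * e + p + 1) ≤ 4 * (e + p + 1) + 3 * (j + 3) * (j + 4) * e := by
    nlinarith [Nat.zero_le (j * e), Nat.zero_le (j * j * e)]
  have h9 := Nat.mul_le_mul_left (b.choose 2 * b.choose (j + 2)) h8
  nlinarith

theorem N2 {p q e : ℕ} (j : ℕ) (hq : 4 * p + 1 ≤ q) (he : 3 * e + 1 ≤ q) :
    6 * (e + p + 1) * (j + 4) * U p (2 * e) (j + 2) ≤
      z (p + q) (2 * p + q - e) (j + 2) * (4 * (e + p + 1) + 3 * (j + 3) * (j + 4) * e) := by
  by_cases h0 : p + 2 * e < j + 2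
  · rw [U_big _ _ _ h0]; simp
  obtain ⟨i, hi⟩ : ∃ i, q = 3 * e + i := ⟨q - 3 * e, by omega⟩
  have h1 := N2c j hq he (b := 2 * p + 2 * e + i) (by omega)
  have h2 := U_ratio p (2 * e) (j + 2) i
  have h3 := U_le_z (s := p + q) (p := p) (q := 2 * e + i) (j + 2) (by omega)
  rw [show 2 * p + (2 * e + i) = 2 * p + q - e by omega] at h3
  refine Nat.le_of_mul_le_mul_left ?_ (Nat.choose_pos (show j + 2 ≤ 2 * p + 2 * e + i by omega))
  have h4 := Nat.mul_le_mul_left (6 * (e + p + 1) * (j + 4))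
    (h2.trans (Nat.mul_le_mul_right _ h3))
  have h5 := Nat.mul_le_mul_left (z (p + q) (2 * p + q - e) (j + 2)) h1
  nlinarith

theorem N3 {p q e : ℕ} (j : ℕ) (hq : 4 * p + 1 ≤ q) (he : 3 * e + 1 ≤ q) :
    2 * (e + p + 1) * (2 * p + 2 * e - 2).choose j ≤ (j + 2) * z (p + q) (2 * p + q - e) (j + 1) := by
  by_cases h0 : 2 * p + 2 * e < j
  · rw [Nat.choose_eq_zero_of_lt (by omega)]; simp
  have h1 := z_mono (s := p + q) (j + 1) (show 2 * p + 2 * e + 1 ≤ 2 * p + q - e by omega) (by omega)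
  rw [z_small _ (by omega)] at h1
  refine le_trans ?_ (Nat.mul_le_mul_left _ h1)
  have h2 := Nat.add_one_mul_choose_eq (2 * p + 2 * e) j
  have h3 := Nat.choose_le_choose j (show 2 * p + 2 * e - 2 ≤ 2 * p + 2 * e by omega)
  refine Nat.le_of_mul_le_mul_left ?_ (Nat.succ_pos j)
  have h4 : (j + 1) * (2 * (e + p + 1)) ≤ (j + 2) * (2 * p + 2 * e + 1) := by nlinarith
  have h5 := Nat.mul_le_mul h4 h3
  rw [Nat.succ_eq_add_one]
  nlinarith

end Pool.Agent.Lib.MP_1b6faf_co.A1
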