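import Pool.Agent.Lib.MP_1b6faf_co.H26Dis

/-!
Local structure around a set of `D + 1` vertices in a graph of maximum degree at most `D`.
-/

namespace Pool.Agent.Lib.MP_1b6faf_co.A1

open Finset
open scoped Classical

variable {V : Type*} [Fintype V] {G : SimpleGraph V} {D : ℕ}

theorem out_le (hdeg : ∀ v, (nb G v univ).card ≤ D) {C : Finset V} (hC : C.card = D + 1) {u : V}
    (hu : u ∈ C) : (nb G u (univ \ C)).card ≤ (nn G u C).card := by
  have h1 := card_nb_union (G := G) u (disjoint_sdiff (s := C) (t := univ))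
  rw [union_sdiff_of_subset (subset_univ _)] at h1
  have := hdeg u
  have := card_nb_nn (G := G) hu
  omega

theorem two_clusters (hdeg : ∀ v, (nb G v univ).card ≤ D) {C C' : Finset V} (hC : C.card = D + 1)
    (hC' : C'.card = D + 1) (hne : C ≠ C') (hd : ¬ Disjoint C C') : 2 * D ≤ M G C + M G C' := by
  have e1 : ∀ A B : Finset V, M G (A ∩ B) + 2 * ∑ x ∈ A ∩ B, (nn G x (A \ B)).card ≤ M G A := by
    intro A B
    have := M_union (G := G) (disjoint_sdiff_inter A B)
    rw [sdiff_union_inter] at this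
    omega
  have h1 := e1 C C'
  have h2 := e1 C' C
  rw [inter_comm] at h2
  have h3 := card_sdiff_add_card_inter C C'
  have h4 := card_sdiff_add_card_inter C' C
  rw [inter_comm] at h4
  have h5 : ∀ x ∈ C ∩ C', (C \ C').card ≤
      (nn G x (C ∩ C')).card + (nn G x (C \ C')).card + (nn G x (C' \ C)).card := by
    intro x hx
    have a1 := out_le hdeg hC (mem_inter.1 hx).1
    have a2 := card_nn_union (G := G) x (disjoint_sdiff_inter C C')
    rw [sdiff_union_inter] at a2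
    have a3 := card_nb_nn' (G := G) (u := x) (A := C' \ C) (by simp [(mem_inter.1 hx).1])
    have a4 := card_le_card (nb_mono (G := G) x (sdiff_subset_sdiff (subset_univ C') (Subset.refl C)))
    omega
  have h6 := card_nsmul_le_sum _ _ _ h5
  rw [sum_add_distrib, sum_add_distrib, smul_eq_mul] at h6
  change _ ≤ M G (C ∩ C') + _ + _ at h6
  have a2 : 0 < (C ∩ C').card := (not_disjoint_iff_nonempty_inter.1 hd).card_pos
  have a3 : 0 < (C \ C').card := by
    refine (sdiff_nonempty.2 fun h => hne (eq_of_subset_of_card_le h (by omega))).card_pos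
  obtain ⟨a, ha⟩ : ∃ a, (C ∩ C').card = a + 1 := ⟨_, (Nat.succ_pred_eq_of_pos a2).symm⟩
  obtain ⟨b, hb⟩ : ∃ b, (C \ C').card = b + 1 := ⟨_, (Nat.succ_pred_eq_of_pos a3).symm⟩
  rw [ha, hb] at h6
  have : D = a + b + 1 := by omega
  nlinarith [Nat.zero_le (a * b)]

/-- common neighbours -/
noncomputable def com (G : SimpleGraph V) (u y : V) : Finset V := nb G y (nb G u univ)

theorem mem_com {u y x : V} : x ∈ com G u y ↔ G.Adj u x ∧ G.Adj y x := by simp [com, mem_nb]

theorem mem_out {C : Finset V} {u y : V} : y ∈ nb G u (univ \ C) ↔ y ∉ C ∧ G.Adj u y := by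
  simp [mem_nb]

theorem com_out (hdeg : ∀ v, (nb G v univ).card ≤ D) {C : Finset V} (hC : C.card = D + 1) {u y : V}
    (hu : u ∈ C) (hy : y ∈ nb G u (univ \ C)) : (com G u y \ C).card + 1 ≤ (nn G u C).card := by
  have h1 : com G u y \ C ⊆ (nb G u (univ \ C)).erase y := fun x hx => by
    obtain ⟨a1, a2⟩ := mem_sdiff.1 hx
    exact mem_erase.2 ⟨(mem_com.1 a1).2.ne', mem_out.2 ⟨a2, (mem_com.1 a1).1⟩⟩
  have h2 := card_le_card h1
  have h3 := card_erase_add_one hy
  have := out_le hdeg hC hu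
  omega

theorem sup_of_out (hdeg : ∀ v, (nb G v univ).card ≤ D) {C : Finset V} (hC : C.card = D + 1)
    {u y : V} (hu : u ∈ C) (hy : y ∉ C) (h : G.Adj u y) : u ∈ sup G C :=
  mem_sup.2 ⟨hu, le_trans (card_pos.2 ⟨y, mem_out.2 ⟨hy, h⟩⟩) (out_le hdeg hC hu)⟩

theorem com_card (hdeg : ∀ v, (nb G v univ).card ≤ D) {C : Finset V} (hC : C.card = D + 1)
    {u y : V} (hu : u ∈ C) (hy : y ∈ nb G u (univ \ C)) :
    (com G u y).card + 2 ≤ (sup G C).card := by
  obtain ⟨b1, b2⟩ := mem_out.1 hy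
  have h1 : insert u ((com G u y ∩ C) ∪ nn G u C) ⊆ sup G C := by
    refine insert_subset (sup_of_out hdeg hC hu b1 b2) (union_subset (fun x hx => ?_) fun x hx => ?_)
    · exact sup_of_out hdeg hC (mem_inter.1 hx).2 b1 (mem_com.1 (mem_inter.1 hx).1).2.symm
    · obtain ⟨a1, a2, a3⟩ := mem_nn.1 hx
      exact mem_sup.2 ⟨a1, card_pos.2 ⟨u, mem_nn.2 ⟨hu, a2.symm, fun h => a3 h.symm⟩⟩⟩
  have h2 := card_le_card h1
  rw [card_insert_of_notMem (by simp [mem_com, mem_nn]), card_union_of_disjoint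
    (disjoint_left.2 fun x a b => (mem_nn.1 b).2.2 (mem_com.1 (mem_inter.1 a).1).1)] at h2
  have := com_out hdeg hC hu hy
  have := card_sdiff_add_card_inter (com G u y) C
  omega

theorem com_clique (hdeg : ∀ v, (nb G v univ).card ≤ D) {C : Finset V} (hC : C.card = D + 1)
    {s : ℕ} (hs : CF G C s) {u y : V} (hu : u ∈ C) (hy : y ∈ nb G u (univ \ C))
    {Q : Finset V} (hQ : Q ⊆ com G u y) (hc : G.IsClique (Q : Set V)) :
    Q.card + D + 3 ≤ s + (sup G C).card + (nn G u C).card := by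
  obtain ⟨b1, b2⟩ := mem_out.1 hy
  have h0 : ∀ x ∈ C \ sup G C, ∀ w ∈ C, x ≠ w → G.Adj x w := by
    intro x hx w hw hne
    by_contra h
    exact (mem_sdiff.1 hx).2 (mem_sup.2 ⟨(mem_sdiff.1 hx).1,
      card_pos.2 ⟨w, mem_nn.2 ⟨hw, hne.symm, h⟩⟩⟩)
  have h1 : insert u (Q ∩ C) ⊆ sup G C :=
    insert_subset (sup_of_out hdeg hC hu b1 b2) fun x hx =>
      sup_of_out hdeg hC (mem_inter.1 hx).2 b1 (mem_com.1 (hQ (mem_inter.1 hx).1)).2.symm
  have h2 : sup G C ⊆ C := filter_subset _ _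
  have h3 : G.IsClique ((insert u (Q ∩ C) : Finset V) : Set V) :=
    clique_insert (A := univ) (fun x hx => mem_nb.2 ⟨mem_univ _,
      (mem_com.1 (hQ (mem_inter.1 hx).1)).1⟩) (hc.subset (by simp))
  have h4 := hs (insert u (Q ∩ C) ∪ (C \ sup G C)) (union_subset (h1.trans h2) sdiff_subset) (by
    intro a ha b hb hab
    rcases mem_union.1 ha with ha | ha
    · rcases mem_union.1 hb with hb | hb
      · exact h3 ha hb hab
      · exact (h0 b hb a (h2 (h1 ha)) hab.symm).symm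
    · exact h0 a ha b ((union_subset (h1.trans h2) sdiff_subset) hb) hab)
  rw [card_union_of_disjoint (disjoint_sdiff.mono_left h1), card_insert_of_notMem
    (fun h => G.irrefl (mem_com.1 (hQ (mem_inter.1 h).1)).1)] at h4
  have h5 := card_sdiff_add_card_eq_card h2
  have h6 := card_sdiff_add_card_inter Q C
  have h7 := card_le_card (sdiff_subset_sdiff hQ (Subset.refl C))
  have := com_out hdeg hC hu hy
  omega

theorem pair_inj {u y : V} (h : G.Adj u y) (j : ℕ) (p : Finset V → Prop) [DecidablePred p] :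
    ((cl G univ (j + 2)).filter (fun Q => u ∈ Q ∧ y ∈ Q ∧ p ((Q.erase u).erase y))).card
      ≤ ((cl G (com G u y) j).filter p).card := by
  refine card_le_card_of_injOn (fun Q => (Q.erase u).erase y) (fun Q hQ => ?_) ?_
  · obtain ⟨h0, h4, h5, h6⟩ := mem_filter.1 (mem_coe.1 hQ)
    obtain ⟨h1, h2, h3⟩ := mem_cl.1 h0
    have h7 : y ∈ Q.erase u := mem_erase.2 ⟨h.ne', h5⟩
    refine mem_coe.2 (mem_filter.2 ⟨mem_cl.2 ⟨erase_sub_nb (erase_sub_nb h1 h3 h4)
      (h3.subset (by simp)) h7, ?_, h3.subset (coe_subset.2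
      ((erase_subset _ _).trans (erase_subset _ _)))⟩, h6⟩)
    rw [card_erase_of_mem h7, card_erase_of_mem h4, h2]; rfl
  · intro Q hQ Q' hQ' e
    obtain ⟨-, h4, h5, -⟩ := mem_filter.1 (mem_coe.1 hQ)
    obtain ⟨-, h4', h5', -⟩ := mem_filter.1 (mem_coe.1 hQ')
    have := congrArg (fun A => insert u (insert y A)) e
    simp only at this
    rwa [insert_erase (mem_erase.2 ⟨h.ne', h5⟩), insert_erase (mem_erase.2 ⟨h.ne', h5'⟩),
      insert_erase h4, insert_erase h4'] at this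

theorem cc_le (W C : Finset V) {u y : V} (h : G.Adj u y) (j : ℕ) :
    cc G W C (j + 2) u y ≤ K G (com G u y) j := by
  refine le_trans (card_le_card fun Q hQ => ?_)
    ((pair_inj h j (fun _ => True)).trans (card_filter_le _ _))
  obtain ⟨h0, h4, h5, -⟩ := mem_filter.1 hQ
  exact mem_filter.2 ⟨h0, h4, h5, trivial⟩

theorem cc_le' {W C : Finset V} {u y : V} (h : G.Adj u y) (hu : u ∈ C) (hy : y ∉ W) (j : ℕ) :
    cc G W C (j + 3) u y ≤ (com G u y \ C).card * ((com G u y).card - 1).choose j := by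
  refine le_trans (card_le_card fun Q hQ => ?_)
    ((pair_inj h (j + 1) (fun R => (R \ C).Nonempty)).trans ?_)
  · obtain ⟨h0, h4, h5, h6⟩ := mem_filter.1 hQ
    refine mem_filter.2 ⟨h0, h4, h5, ?_⟩
    obtain ⟨x, hx, hxy⟩ := exists_mem_ne (h6.resolve_left hy) y
    obtain ⟨a1, a2⟩ := mem_sdiff.1 hx
    exact ⟨x, mem_sdiff.2 ⟨mem_erase.2 ⟨hxy, mem_erase.2 ⟨fun e => a2 (e ▸ hu), a1⟩⟩, a2⟩⟩
  · have h1 : (cl G (com G u y) (j + 1)).filter (fun R => (R \ C).Nonempty) ⊆
        (com G u y \ C).biUnion (fun x => (cl G (com G u y) (j + 1)).filter (fun R => x ∈ R)) := by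
      intro R hR
      obtain ⟨a1, x, hx⟩ := mem_filter.1 hR
      exact mem_biUnion.2 ⟨x, mem_sdiff.2 ⟨(mem_cl.1 a1).1 (mem_sdiff.1 hx).1, (mem_sdiff.1 hx).2⟩,
        mem_filter.2 ⟨a1, (mem_sdiff.1 hx).1⟩⟩
    refine (card_le_card h1).trans (card_biUnion_le.trans (sum_le_card_nsmul _ _ _ fun x hx => ?_))
    have a1 := (mem_sdiff.1 hx).1
    rw [K_mem a1]
    have := card_nb_nn (G := G) a1
    exact (K_le_choose _ _).trans (Nat.choose_le_choose _ (by omega))

/-- closed neighbourhood -/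
noncomputable def cn (G : SimpleGraph V) (v : V) : Finset V := insert v (nb G v univ)

theorem mem_cn {v x : V} : x ∈ cn G v ↔ x = v ∨ G.Adj v x := by simp [cn, mem_nb]

theorem card_cn (v : V) : (cn G v).card = (nb G v univ).card + 1 :=
  card_insert_of_notMem (not_mem_of_sub_nb Subset.rfl)

theorem M_cn (v : V) : M G (cn G v) = M G (nb G v univ) := by
  have h1 : nn G v (cn G v) = ∅ := by
    ext x; simp only [mem_nn, mem_cn]; grind
  rw [M_erase (mem_cn.2 (Or.inl rfl)), h1, cn, erase_insert (not_mem_of_sub_nb Subset.rfl)]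
  simp

end Pool.Agent.Lib.MP_1b6faf_co.A1
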