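import Mathlib

/-!
Clique numbers of complete graphs with a matching removed.
-/

namespace Pool.Agent.Lib.MP_1b6faf_co.A1

/-- The coefficient of `x ^ j` in `(1 + 2 x) ^ p * (1 + x) ^ q`. -/
def U : ℕ → ℕ → ℕ → ℕ
  | 0, q, j => q.choose j
  | _ + 1, _, 0 => 1
  | p + 1, q, j + 1 => U p q (j + 1) + 2 * U p q j

@[simp] theorem U_zero (p q : ℕ) : U p q 0 = 1 := by cases p <;> simp [U]

theorem U_nil (q j : ℕ) : U 0 q j = q.choose j := rfl

theorem U_p (p q j : ℕ) : U (p + 1) q (j + 1) = U p q (j + 1) + 2 * U p q j := rfl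

theorem U_q (p q j : ℕ) : U p (q + 1) (j + 1) = U p q (j + 1) + U p q j := by
  induction p generalizing j with
  | zero => simp [U_nil, Nat.choose_succ_succ', add_comm]
  | succ p ih =>
    cases j with
    | zero => simp [U_p, ih]
    | succ j => rw [U_p, ih, ih, U_p, U_p]; ring

theorem U_s (p q j : ℕ) : U (p + 1) q (j + 1) = U p (q + 1) (j + 1) + U p q j := by
  rw [U_p, U_q]; ring

theorem U_q_le (p q j : ℕ) : U p q j ≤ U p (q + 1) j := by
  cases j with
  | zero => simp
  | succ j => rw [U_q]; omega

theorem U_q_mono (p j : ℕ) {q q' : ℕ} (h : q ≤ q') : U p q j ≤ U p q' j :=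
  monotone_nat_of_le_succ (f := fun q => U p q j) (fun q => U_q_le p q j) h

theorem U_s_le (p q j : ℕ) : U p (q + 1) j ≤ U (p + 1) q j := by
  cases j with
  | zero => simp
  | succ j => rw [U_s]; omega

theorem U_p_le (p q j : ℕ) : U (p + 1) q j ≤ U p (q + 2) j := by
  cases j with
  | zero => simp
  | succ j =>
    have := U_q_le p q j
    rw [U_s, U_q p (q + 1)]; omega

theorem U_one (p q : ℕ) : U p q 1 = 2 * p + q := by
  induction p with
  | zero => simp [U_nil]
  | succ p ih => rw [U_p, ih, U_zero]; ring

theorem U_two (p q : ℕ) : 2 * U p q 2 + 2 * p + (2 * p + q) = (2 * p + q) ^ 2 := by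
  induction p with
  | zero =>
    induction q with
    | zero => rfl
    | succ q ih => rw [U_q, U_one]; nlinarith
  | succ p ih => rw [U_p, U_one]; nlinarith

theorem U_three (p q : ℕ) : 6 * U p q 3 + 6 * p * (2 * p + q) + 3 * (2 * p + q) ^ 2 =
    (2 * p + q) ^ 3 + 2 * (2 * p + q) + 12 * p := by
  induction p with
  | zero =>
    induction q with
    | zero => rfl
    | succ q ih => have := U_two 0 q; rw [U_q]; nlinarith
  | succ p ih => have := U_two p q; rw [U_p]; nlinarith

theorem U_big (p q j : ℕ) (h : p + q < j) : U p q j = 0 := by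
  induction p generalizing j with
  | zero => exact Nat.choose_eq_zero_of_lt (by omega)
  | succ p ih =>
    obtain ⟨j, rfl⟩ : ∃ i, j = i + 1 := ⟨j - 1, by omega⟩
    rw [U_p, ih _ (by omega), ih _ (by omega)]

theorem U_top (p q : ℕ) : U p q (p + q) = 2 ^ p := by
  induction p with
  | zero => simp [U_nil]
  | succ p ih => rw [show p + 1 + q = p + q + 1 by ring, U_p, U_big _ _ _ (by omega), ih]; ring

theorem U_der (p q j : ℕ) :
    (j + 1) * U p q (j + 1) = 2 * p * U (p - 1) q j + q * U p (q - 1) j := by
  induction p generalizing j with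
  | zero =>
    cases q with
    | zero => simp [U_nil]
    | succ q =>
      simp only [U_nil, mul_zero, zero_mul, zero_add, Nat.add_sub_cancel]
      rw [Nat.add_one_mul_choose_eq, mul_comm]
  | succ p ih =>
    cases j with
    | zero => simp [U_one]
    | succ j =>
      have h1 := ih j
      have h2 := ih (j + 1)
      have h3 : p * U p q (j + 1) = p * (U (p - 1) q (j + 1) + 2 * U (p - 1) q j) := by
        cases p with
        | zero => simp
        | succ p => rw [U_p]; rfl
      rw [U_p, U_p, Nat.add_sub_cancel]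
      nlinarith

theorem U_ext (p q j : ℕ) :
    (j + 1) * U p q (j + 1) + j * U p q j ≤ (2 * p + q) * U p q j := by
  cases j with
  | zero => simp [U_one]
  | succ j =>
    have h1 := U_der p q j
    have h2 := U_der p q (j + 1)
    have h3 : p * U p q (j + 1) = p * (U (p - 1) q (j + 1) + 2 * U (p - 1) q j) := by
      cases p with
      | zero => simp
      | succ p => rw [U_p]; rfl
    have h4 : q * U p q (j + 1) = q * (U p (q - 1) (j + 1) + U p (q - 1) j) := by
      cases q with
      | zero => simp
      | succ q => rw [U_q]; rfl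
    nlinarith [Nat.zero_le (p * U (p - 1) q j)]

theorem U_ratio_step (p q j : ℕ) :
    U p q j * (2 * p + q + 1).choose j ≤ U p (q + 1) j * (2 * p + q).choose j := by
  cases j with
  | zero => simp
  | succ j =>
    have h1 := U_ext p q j
    have h2 := Nat.choose_succ_right_eq (2 * p + q) j
    rw [U_q, Nat.choose_succ_succ']
    have h3 : U p q (j + 1) * (2 * p + q).choose j ≤ U p q j * (2 * p + q).choose (j + 1) := by
      refine Nat.le_of_mul_le_mul_left ?_ (Nat.succ_pos j)
      have h4 : (j + 1) * U p q (j + 1) ≤ (2 * p + q - j) * U p q j := by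
        rw [Nat.sub_mul]; omega
      calc (j + 1) * (U p q (j + 1) * (2 * p + q).choose j)
          = ((j + 1) * U p q (j + 1)) * (2 * p + q).choose j := by ring
        _ ≤ ((2 * p + q - j) * U p q j) * (2 * p + q).choose j := Nat.mul_le_mul_right _ h4
        _ = U p q j * ((2 * p + q).choose j * (2 * p + q - j)) := by ring
        _ = (j + 1) * (U p q j * (2 * p + q).choose (j + 1)) := by rw [← h2]; ring
    nlinarith

theorem U_ratio (p q j i : ℕ) :
    U p q j * (2 * p + q + i).choose j ≤ U p (q + i) j * (2 * p + q).choose j := by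
  induction i with
  | zero => simp
  | succ i ih =>
    by_cases h : 2 * p + q < j
    · rw [U_big p q j (by omega)]; simp
    have h1 := U_ratio_step p (q + i) j
    have pos : 0 < (2 * p + q + i).choose j := Nat.choose_pos (by omega)
    refine Nat.le_of_mul_le_mul_left ?_ pos
    rw [show 2 * p + (q + i) = 2 * p + q + i by ring] at h1
    calc (2 * p + q + i).choose j * (U p q j * (2 * p + q + (i + 1)).choose j)
        = (U p q j * (2 * p + q + i).choose j) * (2 * p + q + i + 1).choose j := by ring_nf
      _ ≤ (U p (q + i) j * (2 * p + q).choose j) * (2 * p + q + i + 1).choose j :=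
          Nat.mul_le_mul_right _ ih
      _ = (U p (q + i) j * (2 * p + q + i + 1).choose j) * (2 * p + q).choose j := by ring
      _ ≤ (U p (q + i + 1) j * (2 * p + q + i).choose j) * (2 * p + q).choose j :=
          Nat.mul_le_mul_right _ h1
      _ = _ := by ring_nf

/-- The number of `j`-cliques of the Turan graph with `k ≤ 2 s` vertices and `s` parts. -/
def z (s k j : ℕ) : ℕ := U (k - s) (k - 2 * (k - s)) j

@[simp] theorem z_zero (s k : ℕ) : z s k 0 = 1 := U_zero _ _

theorem z_small {s k : ℕ} (j : ℕ) (h : k ≤ s) : z s k j = k.choose j := by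
  rw [z, Nat.sub_eq_zero_of_le h]; rfl

theorem z_eq (p q j : ℕ) : z (p + q) (2 * p + q) j = U p q j := by
  rw [z]; congr 1 <;> omega

theorem z_eq' {s k p q : ℕ} (j : ℕ) (h1 : s = p + q) (h2 : k = 2 * p + q) : z s k j = U p q j := by
  rw [h1, h2, z_eq]

theorem z_hi {s k : ℕ} (j : ℕ) (h1 : s ≤ k) (h2 : k ≤ 2 * s) :
    z (s + 1) (k + 2) (j + 1) = z (s + 1) (k + 1) (j + 1) + z s k j := by
  rw [z_eq' (p := k - s + 1) (q := 2 * s - k) _ (by omega) (by omega),
    z_eq' (p := k - s) (q := 2 * s - k + 1) _ (by omega) (by omega),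
    z_eq' (p := k - s) (q := 2 * s - k) _ (by omega) (by omega), U_s]

theorem z_lo {s k : ℕ} (j : ℕ) (h1 : k ≤ s) :
    z (s + 1) (k + 1) (j + 1) = z (s + 1) k (j + 1) + z s k j := by
  rw [z_small _ (by omega), z_small _ (by omega), z_small _ h1, Nat.choose_succ_succ', add_comm]

theorem z_step (s k j : ℕ) (h : k + 1 ≤ 2 * (s + 1)) : z (s + 1) (k + 1) (j + 1) =
    z (s + 1) k (j + 1) + z s (if k ≤ s then k else k - 1) j := by
  split_ifs with h1
  · exact z_lo j h1
  · obtain ⟨k, rfl⟩ : ∃ i, k = i + 1 := ⟨k - 1, by omega⟩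
    exact z_hi j (by omega) (by omega)

theorem z_mono {s k k' : ℕ} (j : ℕ) (h : k ≤ k') (h' : k' ≤ 2 * s) : z s k j ≤ z s k' j := by
  induction k', h using Nat.le_induction with
  | base => exact le_rfl
  | succ k' _ ih =>
    refine (ih (by omega)).trans ?_
    cases j with
    | zero => simp
    | succ j =>
      obtain ⟨s, rfl⟩ : ∃ i, s = i + 1 := ⟨s - 1, by omega⟩
      rw [z_step s k' j h']; omega

theorem z_conv {s a b : ℕ} (j : ℕ) (h : a ≤ b) (h' : b + 1 ≤ 2 * s) :
    z s (a + 1) j + z s b j ≤ z s (b + 1) j + z s a j := by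
  cases j with
  | zero => simp
  | succ j =>
    obtain ⟨s, rfl⟩ : ∃ i, s = i + 1 := ⟨s - 1, by omega⟩
    rw [z_step s a j (by omega), z_step s b j h']
    have : z s (if a ≤ s then a else a - 1) j ≤ z s (if b ≤ s then b else b - 1) j :=
      z_mono j (by split_ifs <;> omega) (by split_ifs <;> omega)
    omega

theorem z_conv2 {s a : ℕ} (j x y : ℕ) (h : a ≤ 2 * s) :
    z s (a - x) j + z s (a - y) j ≤ z s a j + z s (a - x - y) j := by
  induction y with
  | zero => simp [add_comm]
  | succ y ih =>
    by_cases h1 : a - x - y = 0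
    · have := z_mono (s := s) j (show a - (y + 1) ≤ a - y by omega) (by omega)
      rw [show a - x - (y + 1) = a - x - y by omega]
      omega
    · have := z_conv (s := s) (a := a - x - (y + 1)) (b := a - (y + 1)) j (by omega) (by omega)
      rw [show a - x - (y + 1) + 1 = a - x - y by omega,
        show a - (y + 1) + 1 = a - y by omega] at this
      omega

theorem z_chord {s k k' : ℕ} (j : ℕ) (h : k ≤ k') (h' : k' ≤ 2 * s) :
    k' * z s k (j + 1) ≤ k * z s k' (j + 1) := by
  have step : ∀ k, k + 1 ≤ 2 * s → (k + 1) * z s k (j + 1) ≤ k * z s (k + 1) (j + 1) := by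
    intro k hk
    have : ∀ i ≤ k, z s i (j + 1) + i * z s k (j + 1) ≤ i * z s (k + 1) (j + 1) := by
      intro i hi
      induction i with
      | zero => simp [z_small]
      | succ i ih =>
        have h1 := ih (by omega)
        have h2 := z_conv (s := s) (a := i) (b := k) (j + 1) (by omega) hk
        nlinarith
    have := this k le_rfl
    nlinarith
  induction k', h using Nat.le_induction with
  | base => exact le_rfl
  | succ k' hk ih =>
    have h1 := ih (by omega)
    have h2 := step k' h'
    rcases Nat.eq_zero_or_pos k' with rfl | pos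
    · obtain rfl : k = 0 := by omega
      simp [z_small]
    · refine Nat.le_of_mul_le_mul_left ?_ pos
      calc k' * ((k' + 1) * z s k (j + 1)) = (k' + 1) * (k' * z s k (j + 1)) := by ring
        _ ≤ (k' + 1) * (k * z s k' (j + 1)) := Nat.mul_le_mul_left _ h1
        _ = k * ((k' + 1) * z s k' (j + 1)) := by ring
        _ ≤ k * (k' * z s (k' + 1) (j + 1)) := Nat.mul_le_mul_left _ h2
        _ = _ := by ring

/-- A lower bound for the loss caused by deleting `e` vertices. -/
theorem z_gap {s k : ℕ} (j e : ℕ) (h : k + 1 + e ≤ 2 * (s + 1)) :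
    z (s + 1) (k + 1) (j + 1) + e * z s k j ≤ z (s + 1) (k + 1 + e) (j + 1) := by
  induction e with
  | zero => simp
  | succ e ih =>
    have h1 := ih (by omega)
    have h2 := z_step s (k + 1 + e) j (by omega)
    have h3 : z s k j ≤ z s (if k + 1 + e ≤ s then k + 1 + e else k + 1 + e - 1) j :=
      z_mono j (by split_ifs <;> omega) (by split_ifs <;> omega)
    rw [show k + 1 + (e + 1) = k + 1 + e + 1 by ring, h2]
    nlinarith

theorem U_le_z {s p q : ℕ} (j : ℕ) (h : p + q ≤ s) : U p q j ≤ z s (2 * p + q) j := by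
  induction p generalizing q with
  | zero => rw [z_small _ (by omega), U_nil]; simp
  | succ p ih =>
    rcases h.eq_or_lt with h | h
    · rw [← h, z_eq]
    · have := ih (q := q + 2) (by omega)
      rw [show 2 * p + (q + 2) = 2 * (p + 1) + q by ring] at this
      exact (U_p_le p q j).trans this

end Pool.Agent.Lib.MP_1b6faf_co.A1
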