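import Pool.Agent.Lib.MP_1b6faf_co.H26Loc
import Pool.Agent.Lib.MP_1b6faf_co.H26Ineq

/-!
The upper bound: the complete graph minus a small matching is extremal for every clique size.
-/

namespace Pool.Agent.Lib.MP_1b6faf_co.A1

open Finset
open scoped Classical

variable {V : Type*} [Fintype V] {G : SimpleGraph V} {p q : ℕ}

theorem pos_core (hq : 1 ≤ q) (hdeg : ∀ v, (nb G v univ).card ≤ 2 * p + q + 2)
    (hcf : CF G univ (p + q + 2)) {μ j : ℕ} (hμ : μ < 2 * p + q + 2) (hj : 1 ≤ j) (κ : ℝ)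
    (hN : ∀ e, μ < 2 * (e + p + 1) →
      (2 * p + q + 3) * z (p + q) (2 * p + q - e) j ≤ (q + 1) * U p q j)
    (hκ1 : (j + 2) * κ * (2 * p + q + 3) ≤ (q + 1) * U p q j)
    (hκ2 : κ * (2 * p + q + 2) * (2 * p + q + 3) ≤ U (p + 1) (q + 1) (j + 2))
    (hC : ∀ (C W : Finset V) (e : ℕ), C.card = 2 * p + q + 2 + 1 → M G C = 2 * (e + p + 1) →
      M G C ≤ μ → ((j + 1 : ℕ) * K G C (j + 1 + 1) : ℝ) + ∑ u ∈ C, ∑ y ∈ nb G u (univ \ C),
      ((cc G W C (j + 1 + 1) u y : ℝ) - if y ∈ W then (j + 1 : ℕ) * κ else 0)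
        ≤ (j + 1 : ℕ) * U (p + 1) (q + 1) (j + 2)) :
    (K G univ (j + 2) : ℝ) ≤ U (p + 1) (q + 1) (j + 2) / (2 * p + q + 3) * (univ : Finset V).card := by
  have hn : (0 : ℝ) < 2 * p + q + 3 := by positivity
  have hT : ((j + 2) * U (p + 1) (q + 1) (j + 2) : ℝ) =
    (2 * p + q + 3) * U p (q + 1) (j + 1) + (q + 1) * U p q j := by exact_mod_cast T_eq p q j
  have hB : z (p + q + 1) (2 * p + q + 1) (j + 1) = U p (q + 1) (j + 1) := z_eq' _ (by ring) (by ring)
  have hmem : ∀ C ∈ (univ.filter (fun v => (nb G v univ).card = 2 * p + q + 2 ∧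
      M G (nb G v univ) ≤ μ)).image (cn G), C.card = 2 * p + q + 2 + 1 ∧ M G C ≤ μ := by
    intro C hC
    obtain ⟨v, hv, rfl⟩ := mem_image.1 hC
    rw [card_cn, M_cn, (mem_filter.1 hv).2.1]
    exact ⟨rfl, (mem_filter.1 hv).2.2⟩
  refine discharge (F := (univ.filter (fun v => (nb G v univ).card = 2 * p + q + 2 ∧
      M G (nb G v univ) ≤ μ)).image (cn G)) (k := j + 1) ?_ (by omega) _ κ ?_ ?_
  · intro C h1 C' h2 hne
    by_contra hd
    have := two_clusters hdeg (hmem C h1).1 (hmem C' h2).1 hne hd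
    have := (hmem C h1).2
    have := (hmem C' h2).2
    omega
  · intro C h1
    obtain ⟨h2, h3⟩ := hmem C h1
    have h4 := (hcf.mono (subset_univ C)).M_ge (p + 1) (by omega)
    obtain ⟨m, hm⟩ := M_even (G := G) C
    refine (hC C _ (m - (p + 1)) h2 (by omega) h3).trans (le_of_eq ?_)
    rw [h2]
    push_cast
    field_simp
    ring
  · intro y hy
    have h1 : ¬ ((nb G y univ).card = 2 * p + q + 2 ∧ M G (nb G y univ) ≤ μ) := fun h =>
      mem_rest.1 hy _ (mem_image_of_mem _ (mem_filter.2 ⟨mem_univ _, h⟩)) (mem_cn.2 (Or.inl rfl))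
    generalize rest (V := V) _ = W at hy ⊢
    have h2 := card_nb_union (G := G) y (disjoint_sdiff (s := W) (t := univ))
    rw [union_sdiff_of_subset (subset_univ _)] at h2
    have h3 := hdeg y
    have h4 : CF G (nb G y univ) (p + q + 1) := hcf.nb (mem_univ _)
    rw [← mul_div_assoc, le_div_iff₀ hn]
    push_cast
    rw [show (j + 1 + 1 : ℝ) = j + 2 by ring]
    have hDz : (0 : ℝ) ≤ (q + 1) * U p q j := by positivity
    by_cases hx : (nb G y (univ \ W)).card = 0
    · have h5 : (2 * p + q + 3) * K G (nb G y univ) (j + 1)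
          ≤ (2 * p + q + 3) * U p (q + 1) (j + 1) + (q + 1) * U p q j := by
        by_cases hd : (nb G y univ).card = 2 * p + q + 2
        · have a1 := h4.M_ge (p + 1) (by omega)
          obtain ⟨m, hm⟩ := M_even (G := G) (nb G y univ)
          have a2 := claimA p (nb G y univ) (p + q) (m - (p + 1)) j (by omega) (by omega) h4
            (by omega)
          have a3 := hN (m - (p + 1)) (by omega)
          rw [show p + q + p = 2 * p + q by ring, hB] at a2
          nlinarith
        · have := zykov (j + 1) h4 (show _ ≤ 2 * p + q + 1 by omega) (by omega)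
          rw [hB] at this
          exact le_add_right (Nat.mul_le_mul_left _ this)
      have h6 := Nat.mul_le_mul_left (2 * p + q + 3)
        (K_mono (G := G) (j + 1) (nb_mono (G := G) y (subset_univ W)))
      have h7 : (((2 * p + q + 3) * K G (nb G y W) (j + 1) : ℕ) : ℝ) ≤ _ := Nat.cast_le.2 (h6.trans h5)
      rw [hx]
      push_cast at h7 ⊢
      linarith
    · obtain ⟨x, hx⟩ : ∃ x, (nb G y (univ \ W)).card = x + 1 := ⟨_, (Nat.succ_pred_eq_of_ne_zero hx).symm⟩
      obtain ⟨k, hk⟩ : ∃ k, k + x = 2 * p + q + 1 := ⟨2 * p + q + 1 - x, by omega⟩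
      have h5 := zykov (j + 1) (h4.mono (nb_mono y (subset_univ W))) (show _ ≤ k by omega) (by omega)
      have h6 := z_chord (s := p + q + 1) j (show k ≤ 2 * p + q + 1 by omega) (by omega)
      rw [hB] at h6
      have h7 : (((2 * p + q + 1) * K G (nb G y W) (j + 1) : ℕ) : ℝ) ≤ _ :=
        Nat.cast_le.2 ((Nat.mul_le_mul_left _ h5).trans h6)
      have hk' : (k + x : ℝ) = 2 * p + q + 1 := by exact_mod_cast hk
      rw [hx]
      push_cast at h7 ⊢
      have h8 := mul_le_mul_of_nonneg_left hκ2 (show (0 : ℝ) ≤ (j + 2) * x by positivity)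
      have h9 := mul_le_mul_of_nonneg_left hκ1 (Nat.cast_nonneg (α := ℝ) k)
      have h10 := mul_le_mul_of_nonneg_left h7 hn.le
      refine le_of_mul_le_mul_left ?_ (show (0 : ℝ) < 2 * p + q + 1 by positivity)
      have e1 : (2 * p + q + 2 : ℝ) = k + x + 1 := by linarith
      rw [e1] at h8
      rw [← hk'] at h10 ⊢
      linear_combination h8 + h9 + h10 - k * hT

theorem sum_half {C : Finset V} {D : ℕ} (hdeg : ∀ v, (nb G v univ).card ≤ D) (hC : C.card = D + 1)
    (f : V → V → ℝ) (h : V → ℝ) (h0 : ∀ u ∈ C, 0 ≤ h u)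
    (hf : ∀ u ∈ C, ∀ y ∈ nb G u (univ \ C), f u y ≤ h u) :
    ∑ u ∈ C, ∑ y ∈ nb G u (univ \ C), f u y ≤ ∑ u ∈ C, (nn G u C).card * h u := by
  refine sum_le_sum fun u hu => (sum_le_card_nsmul _ _ _ (hf u hu)).trans ?_
  rw [nsmul_eq_mul]
  exact mul_le_mul_of_nonneg_right (Nat.cast_le.2 (out_le hdeg hC hu)) (h0 u hu)

theorem pos_three (hq : 4 * p + 1 ≤ q) (hdeg : ∀ v, (nb G v univ).card ≤ 2 * p + q + 2)
    (hcf : CF G univ (p + q + 2)) :
    (K G univ 3 : ℝ) ≤ U (p + 1) (q + 1) 3 / (2 * p + q + 3) * (univ : Finset V).card := by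
  have hT := U_three (p + 1) (q + 1)
  refine pos_core (by omega) hdeg hcf (μ := 2 * p + q + 1) (j := 1) (by omega) le_rfl p
    (fun e he => N1' hq (by omega)) ?_ ?_ ?_
  · rw [U_one]
    obtain ⟨d, rfl⟩ := Nat.exists_eq_add_of_le hq
    norm_cast
    nlinarith [Nat.zero_le (p * d), Nat.zero_le (d * d), Nat.zero_le (p * p)]
  · obtain ⟨d, rfl⟩ := Nat.exists_eq_add_of_le hq
    norm_cast
    nlinarith [Nat.zero_le (p * d), Nat.zero_le (d * d), Nat.zero_le (p * p),
      Nat.zero_le (p * p * p), Nat.zero_le (p * p * d), Nat.zero_le (p * d * d),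
      Nat.zero_le (d * d * d)]
  · intro C W e hC hM hμ
    have hcf' := hcf.mono (subset_univ C)
    have h0 : ∀ u ∈ C, (nn G u C).card ≤ e + 1 := fun u hu => by
      have := hcf'.nn_le (r := p + 1) (by omega) hu
      omega
    have h1 := sum_half hdeg hC (fun u y => (cc G W C (1 + 1 + 1) u y : ℝ)
      - if y ∈ W then ((1 + 1 : ℕ) : ℝ) * p else 0) (fun u => 2 * e + 1 - (nn G u C).card)
      (fun u hu => by
        have : (((nn G u C).card : ℕ) : ℝ) ≤ (e + 1 : ℕ) := Nat.cast_le.2 (h0 u hu)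
        push_cast at this
        linarith [Nat.cast_nonneg (α := ℝ) e])
      (fun u hu y hy => by
        have a1 := h0 u hu
        split_ifs with hw
        · have a2 : cc G W C (1 + 1 + 1) u y ≤ _ := cc_le W C (mem_out.1 hy).2 1
          have a3 := com_card hdeg hC hu hy
          have a4 := sup_le (G := G) hu
          rw [K_one] at a2
          have : cc G W C (1 + 1 + 1) u y + (nn G u C).card ≤ 2 * e + 1 + 2 * p := by omega
          have : ((cc G W C (1 + 1 + 1) u y + (nn G u C).card : ℕ) : ℝ) ≤ _ := Nat.cast_le.2 this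
          push_cast at this ⊢
          linarith
        · have a2 : cc G W C (1 + 1 + 1) u y ≤ _ := cc_le' (mem_out.1 hy).2 hu hw 0
          have a3 := com_out hdeg hC hu hy
          rw [Nat.choose_zero_right] at a2
          have : cc G W C (1 + 1 + 1) u y + (nn G u C).card ≤ 2 * e + 1 := by omega
          have : ((cc G W C (1 + 1 + 1) u y + (nn G u C).card : ℕ) : ℝ) ≤ _ := Nat.cast_le.2 this
          push_cast at this ⊢
          linarith)
    refine le_trans (add_le_add_right h1 _) ?_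
    have h2 := K_three (G := G) C
    have h3 : ∑ u ∈ C, ((nn G u C).card : ℝ) * (2 * e + 1 - (nn G u C).card)
        = (2 * e + 1) * M G C - (∑ u ∈ C, (nn G u C).card ^ 2 : ℕ) := by
      rw [M]
      push_cast
      rw [mul_sum, ← sum_sub_distrib]
      exact sum_congr rfl fun u _ => by ring
    rw [h3, sub_eq_add_neg, ← add_assoc, add_neg_le_iff_le_add]
    norm_cast
    rw [hM, hC] at h2
    rw [hM] at hμ ⊢
    nlinarith [Nat.mul_le_mul_left e hμ]

theorem pos_big (hq : 4 * p + 1 ≤ q) (hdeg : ∀ v, (nb G v univ).card ≤ 2 * p + q + 2)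
    (hcf : CF G univ (p + q + 2)) (j : ℕ) :
    (K G univ (j + 4) : ℝ) ≤
      U (p + 1) (q + 1) (j + 4) / (2 * p + q + 3) * (univ : Finset V).card := by
  have hDz : (0 : ℝ) ≤ U p q (j + 2) := Nat.cast_nonneg _
  refine pos_core (by omega) hdeg hcf (μ := min ((2 * q + 6 * p + 4) / 3) (2 * p + q + 1))
    (j := j + 2) (by omega) (by omega) (2 * U p q (j + 2) / (3 * (j + 3) * (j + 4)))
    (fun e he => N1 j hq (by omega)) ?_ ?_ ?_
  · have : 2 * (2 * p + q + 3) ≤ (q + 1) * (3 * (j + 3)) := by nlinarith [Nat.zero_le (j * q)]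
    have : ((2 * (2 * p + q + 3) : ℕ) : ℝ) ≤ _ := Nat.cast_le.2 this
    push_cast at this ⊢
    rw [show (j + 2 + 2 : ℝ) * (2 * U p q (j + 2) / (3 * (j + 3) * (j + 4))) * (2 * p + q + 3)
      = 2 * (2 * p + q + 3) * U p q (j + 2) / (3 * (j + 3)) by field_simp; ring,
      div_le_iff₀ (by positivity)]
    nlinarith
  · rw [div_mul_eq_mul_div, div_mul_eq_mul_div, div_le_iff₀ (by positivity)]
    norm_cast
    by_cases h0 : p + q < j + 2
    · rw [U_big _ _ _ h0]; simp
    have h1 := T_eq p q (j + 2)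
    have h2 := A_ge (p := p) (j + 2) (show 1 ≤ q by omega)
    have h3 : 6 * (p + 1) * (p + q + 1) ≤ (2 * p + q + 2) * (2 * p + q + 3) := by
      obtain ⟨d, rfl⟩ := Nat.exists_eq_add_of_le hq
      nlinarith [Nat.zero_le (p * d), Nat.zero_le (d * d), Nat.zero_le (p * p)]
    have h4 : 6 * (p + 1) * (j + 3) ≤ (2 * p + q + 2) * (2 * p + q + 3) :=
      (Nat.mul_le_mul_left _ (by omega)).trans h3
    have h5 := Nat.mul_le_mul_left (U p q (j + 2)) h4
    have h6 := Nat.mul_le_mul_left (3 * (2 * p + q + 3)) h2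
    have h7 := congrArg (fun x => 3 * (j + 3) * x) h1
    nlinarith
  · intro C W e hC hM hμ
    have he : 3 * e + 1 ≤ q := by omega
    have hcf' := hcf.mono (subset_univ C)
    have h0 : ∀ u ∈ C, (nn G u C).card ≤ e + 1 := fun u hu => by
      have := hcf'.nn_le (r := p + 1) (by omega) hu
      omega
    have hm : (0 : ℝ) < 2 * (e + p + 1) := by positivity
    have h1 := sum_half hdeg hC (fun u y => (cc G W C (j + 2 + 1 + 1) u y : ℝ)
      - if y ∈ W then ((j + 2 + 1 : ℕ) : ℝ) * (2 * U p q (j + 2) / (3 * (j + 3) * (j + 4))) else 0)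
      (fun _ => (j + 3) * e * z (p + q) (2 * p + q - e) (j + 2) / (2 * (e + p + 1)))
      (fun u hu => by positivity)
      (fun u hu y hy => by
        have a1 := h0 u hu
        have a3 := com_card hdeg hC hu hy
        have a4 := sup_le (G := G) hu
        have a5 := com_out hdeg hC hu hy
        rw [le_div_iff₀ hm]
        split_ifs with hw
        · have a2 := cc_le W C (mem_out.1 hy).2 (j + 2)
          have a6 := zykov (G := G) (A := com G u y) (s := p + 2 * e) (k := 2 * p + 2 * e) (j + 2)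
            (fun Q hQ hc => by
              have := com_clique hdeg hC hcf' hu hy hQ hc
              omega) (by omega) (by omega)
          rw [z_eq] at a6
          have a7 := (Nat.mul_le_mul_left (6 * (e + p + 1) * (j + 4)) (a2.trans a6)).trans (N2 j hq he)
          have a8 := z_mono (s := p + q) (j + 2) (show 2 * p + q - e ≤ 2 * p + q by omega) (by omega)
          rw [z_eq] at a8
          have a9 : ((6 * (e + p + 1) * (j + 4) * cc G W C (j + 2 + 2) u y : ℕ) : ℝ) ≤ _ :=
            Nat.cast_le.2 a7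
          have a10 : ((z (p + q) (2 * p + q - e) (j + 2) : ℕ) : ℝ) ≤ _ := Nat.cast_le.2 a8
          push_cast at a9 ⊢
          rw [show (j + 2 + 1 : ℝ) * (2 * U p q (j + 2) / (3 * (j + 3) * (j + 4)))
            = 2 * U p q (j + 2) / (3 * (j + 4)) by field_simp; ring, sub_mul, div_mul_eq_mul_div,
            sub_le_iff_le_add, ← sub_le_iff_le_add', le_div_iff₀ (by positivity)]
          nlinarith [mul_le_mul_of_nonneg_left a10 hm.le]
        · have a2 := cc_le' (mem_out.1 hy).2 hu hw (j + 1)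
          have a6 : cc G W C (j + 1 + 3) u y ≤ e * (2 * p + 2 * e - 2).choose (j + 1) := by
            refine a2.trans ?_
            by_cases c : (com G u y \ C).card = 0
            · simp [c]
            · exact Nat.mul_le_mul (by omega) (Nat.choose_le_choose _ (by omega))
          have a7 := Nat.mul_le_mul_left e (N3 (j + 1) hq he)
          have a8 : cc G W C (j + 1 + 3) u y * (2 * (e + p + 1))
              ≤ (j + 3) * e * z (p + q) (2 * p + q - e) (j + 2) := by
            nlinarith [Nat.mul_le_mul_left (2 * (e + p + 1)) a6]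
          rw [sub_zero]
          exact_mod_cast a8)
    refine le_trans (add_le_add_right h1 _) ?_
    rw [← sum_mul, ← Nat.cast_sum]
    change _ + (M G C : ℝ) * _ ≤ _
    rw [hM]
    push_cast
    rw [mul_div_cancel₀ _ hm.ne']
    have h2 := claimA p C (p + q + 1) e (j + 3) (by omega) (by omega) hcf' hM.ge
    have h3 := z_gap (s := p + q) (k := 2 * p + q - e) (j + 2) e (by omega)
    have h4 := z_hi (s := p + q + 1) (k := 2 * p + q + 1) (j + 3) (by omega) (by omega)
    rw [z_eq' (p := p + 1) (q := q + 1) _ (by ring) (by ring)] at h4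
    rw [show 2 * p + q - e + 1 + e = 2 * p + q + 1 by omega] at h3
    rw [show p + q + 1 + p - e = 2 * p + q - e + 1 by omega,
      show p + q + 1 + p + 1 = 2 * p + q + 1 + 1 by ring] at h2
    have h5 : K G C (j + 3 + 1) + e * z (p + q) (2 * p + q - e) (j + 2)
        ≤ U (p + 1) (q + 1) (j + 3 + 1) := by
      rw [show j + 2 + 1 = j + 3 by ring] at h3
      omega
    have h6 : ((K G C (j + 4) + e * z (p + q) (2 * p + q - e) (j + 2) : ℕ) : ℝ) ≤ _ :=
      Nat.cast_le.2 h5
    push_cast at h6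
    nlinarith [mul_le_mul_of_nonneg_left h6 (show (0 : ℝ) ≤ j + 3 by positivity)]

theorem pos_all (hq : 4 * p + 1 ≤ q) (hdeg : ∀ v, (nb G v univ).card ≤ 2 * p + q + 2)
    (hcf : CF G univ (p + q + 2)) {t : ℕ} (ht : 3 ≤ t) :
    (K G univ t : ℝ) ≤ U (p + 1) (q + 1) t / (2 * p + q + 3) * (univ : Finset V).card := by
  rcases ht.eq_or_lt with rfl | h
  · exact pos_three hq hdeg hcf
  · obtain ⟨j, rfl⟩ : ∃ j, t = j + 4 := ⟨t - 4, by omega⟩
    exact pos_big hq hdeg hcf j

theorem pos_zero {D : ℕ} (hdeg : ∀ v, (nb G v univ).card ≤ D) (j : ℕ) :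
    (K G univ (j + 1) : ℝ) ≤ U 0 (D + 1) (j + 1) / (D + 1) * (univ : Finset V).card := by
  have h1 := K_double (G := G) univ j
  have h2 := sum_le_card_nsmul univ (fun u => K G (nb G u univ) j) (D.choose j) fun u _ =>
    (K_le_choose _ _).trans (Nat.choose_le_choose _ (hdeg u))
  have h3 := Nat.add_one_mul_choose_eq D j
  rw [div_mul_eq_mul_div, le_div_iff₀ (by positivity), U_nil]
  norm_cast
  refine Nat.le_of_mul_le_mul_left ?_ (Nat.succ_pos j)
  rw [← h1, smul_eq_mul] at h2
  rw [Nat.succ_eq_add_one]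
  nlinarith [Nat.mul_le_mul_left (D + 1) h2]

end Pool.Agent.Lib.MP_1b6faf_co.A1
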