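import Pool.Agent.Lib.MP_1b6faf_co.H26Cl

/-!
Zykov's bound and its stability version for graphs with at most twice as many vertices as the
clique bound.
-/

namespace Pool.Agent.Lib.MP_1b6faf_co.A1

open Finset
open scoped Classical

variable {V : Type*} {G : SimpleGraph V}

theorem zykov0 (N : ℕ) : ∀ (A : Finset V) (s j : ℕ), A.card = N → CF G A s → N ≤ 2 * s →
    K G A j ≤ z s N j := by
  induction N using Nat.strong_induction_on with
  | _ N ih =>
    intro A s j hA h hN
    by_cases h1 : N ≤ s
    · rw [z_small j h1, ← hA]; exact K_le_choose A j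
    obtain ⟨u, hu, hd⟩ := h.exists_nn (by omega)
    rcases j with _ | j
    · simp
    obtain ⟨s, rfl⟩ : ∃ i, s = i + 1 := ⟨s - 1, by omega⟩
    obtain ⟨N, rfl⟩ : ∃ i, N = i + 2 := ⟨N - 2, by omega⟩
    have h2 := card_nb_nn (G := G) hu
    have h3 := ih (N + 1) (by omega) (A.erase u) (s + 1) (j + 1)
      (by rw [card_erase_of_mem hu]; omega) (h.mono (erase_subset _ _)) (by omega)
    have h4 := ih _ (by omega) (nb G u A) s j rfl (h.nb hu) (by omega)
    have h5 := z_mono (s := s) j (show (nb G u A).card ≤ N by omega) (by omega)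
    rw [K_rec hu, z_hi j (by omega) (by omega)]
    omega

theorem zykov {A : Finset V} {s k : ℕ} (j : ℕ) (h : CF G A s) (h1 : A.card ≤ k) (h2 : k ≤ 2 * s) :
    K G A j ≤ z s k j :=
  (zykov0 _ A s j rfl h (by omega)).trans (z_mono j h1 h2)

theorem z_top {s p : ℕ} (h : p ≤ s) : z s (s + p) s = 2 ^ p := by
  obtain ⟨q, rfl⟩ := Nat.exists_eq_add_of_le h
  rw [z_eq' (p := p) (q := q) _ rfl (by ring), U_top]

theorem top_le {A : Finset V} {s p : ℕ} (h : CF G A s) (h1 : A.card ≤ s + p) (h2 : p ≤ s) :
    K G A s ≤ 2 ^ p := by
  rw [← z_top h2]; exact zykov s h h1 (by omega)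

theorem claim0 (N : ℕ) : ∀ (A : Finset V) (m j : ℕ), A.card = N + 1 → 2 * m ≤ M G A →
    K G A (j + 1) ≤ N.choose (j + 1) + (N - m).choose j := by
  induction N with
  | zero =>
    intro A m j hA _
    have := K_le_choose (G := G) A (j + 1)
    rw [hA, Nat.choose_succ_succ'] at this
    simpa [add_comm] using this
  | succ N ih =>
    intro A m j hA hm
    rcases m with _ | m
    · have := K_le_choose (G := G) A (j + 1)
      rw [hA, Nat.choose_succ_succ'] at this
      simpa [add_comm] using this
    obtain ⟨u, hu, hd⟩ : ∃ u ∈ A, 1 ≤ (nn G u A).card := by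
      by_contra hc
      push Not at hc
      have : M G A = 0 := sum_eq_zero fun u hu => by have := hc u hu; omega
      omega
    have h2 := card_nb_nn (G := G) hu
    have h3 := K_le_choose (G := G) (nb G u A) j
    have h4 := ih (A.erase u) (m + 1 - (nn G u A).card) j (by rw [card_erase_of_mem hu]; omega)
      (by have := M_erase (G := G) hu; omega)
    rw [K_rec hu, Nat.choose_succ_succ' N j]
    by_cases hc : m + 1 ≤ (nn G u A).card
    · have := Nat.choose_le_choose j (show (nb G u A).card ≤ N + 1 - (m + 1) by omega)
      rw [show m + 1 - (nn G u A).card = 0 by omega, Nat.sub_zero] at h4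
      omega
    · have h5 := z_conv2 (s := N) (a := N) j (m + 1 - (nn G u A).card) ((nn G u A).card - 1)
        (by omega)
      rw [z_small _ (by omega), z_small _ (by omega), z_small _ le_rfl, z_small _ (by omega),
        show N - ((nn G u A).card - 1) = (nb G u A).card by omega,
        show N - (m + 1 - (nn G u A).card) - ((nn G u A).card - 1) = N + 1 - (m + 1) by omega] at h5
      omega

theorem claimA (r : ℕ) : ∀ (A : Finset V) (s e j : ℕ), A.card = s + r + 2 → r ≤ s →
    CF G A (s + 1) → 2 * (e + r + 1) ≤ M G A →
    K G A (j + 1) ≤ z (s + 1) (s + r + 1) (j + 1) + z s (s + r - e) j := by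
  induction r with
  | zero =>
    intro A s e j hA _ _ hm
    have := claim0 (G := G) (s + 1) A (e + 1) j hA (by omega)
    rw [z_small _ (by omega), z_small _ (by omega)]
    simpa using this
  | succ r ih =>
    intro A s e j hA hr h hm
    obtain ⟨u, hu, hmax⟩ := exists_max_image A (fun u => (nn G u A).card)
      (card_pos.1 (by omega))
    have hd : 1 ≤ (nn G u A).card := by
      obtain ⟨w, hw, h1⟩ := h.exists_nn (by omega)
      exact h1.trans (hmax w hw)
    have h2 := card_nb_nn (G := G) hu
    have hA' : (A.erase u).card = s + r + 2 := by rw [card_erase_of_mem hu]; omega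
    have h' := h.mono (erase_subset u A)
    have hM := M_erase (G := G) hu
    rw [K_rec hu]
    by_cases hc : e + 1 ≤ (nn G u A).card
    · exact add_le_add (zykov _ h' (by omega) (by omega))
        (zykov _ (h.nb hu) (by omega) (by omega))
    rw [show s + (r + 1) + 1 = (s + r) + 2 by ring, z_hi j (by omega) (by omega)]
    by_cases hD : 2 ≤ (nn G u A).card
    · have h3 := ih (A.erase u) s (e + 1 - (nn G u A).card) j hA' (by omega) h' (by omega)
      have h4 := zykov j (h.nb hu) (show _ ≤ s + r - ((nn G u A).card - 2) by omega) (by omega)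
      have h5 := z_conv2 (s := s) (a := s + r) j (e + 1 - (nn G u A).card) ((nn G u A).card - 2)
        (by omega)
      rw [show s + r - (e + 1 - (nn G u A).card) - ((nn G u A).card - 2) = s + (r + 1) - e by omega]
        at h5
      omega
    · have h3 := ih (A.erase u) s e j hA' (by omega) h' (by omega)
      rcases j with _ | j
      · have := K_zero (G := G) (nb G u A)
        simp only [z_zero] at h3 ⊢
        omega
      obtain ⟨s, rfl⟩ : ∃ i, s = i + 1 := ⟨s - 1, by omega⟩
      have h4 := M_link (G := G) hu
      have h5 : ∑ x ∈ nn G u A, (nn G x A).card ≤ (nn G u A).card * 1 :=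
        sum_le_card_nsmul _ _ _ fun x hx => by have := hmax x (nn_subset _ _ hx); omega
      have h6 : M G A ≤ A.card * 1 :=
        sum_le_card_nsmul _ _ _ fun x hx => by have := hmax x hx; omega
      have h7 := ih (nb G u A) s e j (by omega) (by omega) (h.nb hu) (by omega)
      have h8 := z_step s (s + 1 + r - e) j (by omega)
      have h9 : z s (s + r - e) j ≤
          z s (if s + 1 + r - e ≤ s then s + 1 + r - e else s + 1 + r - e - 1) j :=
        z_mono j (by split_ifs <;> omega) (by split_ifs <;> omega)
      rw [show s + 1 + (r + 1) - e = s + 1 + r - e + 1 by omega, h8]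
      rw [show s + r + 1 = s + 1 + r by ring] at h7
      omega

end Pool.Agent.Lib.MP_1b6faf_co.A1
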