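import Pool.Agent.Lib.MP_1b6faf_co.H8Big

/-!
Auxiliary facts for cliques of bounded size.
-/

namespace Pool.Agent.Lib.MP_1b6faf_co.H8

open Finset
open scoped Classical

section
variable {V : Type*} {G : SimpleGraph V}

lemma kc_ins (k : ℕ) {w : V} {S : Finset V} (hw : w ∉ S) :
    kc G (k + 1) S + kc G k (nb G w S) ≤ kc G (k + 1) (insert w S) := by
  have h1 : kc G k (nb G w (insert w S))
      = ∑ K ∈ (cl G (insert w S)).filter (fun K => w ∈ K), ind (k + 1) K.card := by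
    rw [sum_cl_mem_card (mem_insert_self w S), ind_succ]; rfl
  have h2 := kc_mono (G := G) k (nb_mono (G := G) w (subset_insert w S))
  have h3 := sum_filter_add_sum_filter_not (cl G (insert w S)) (fun K => w ∈ K)
    (fun K => ind (k + 1) K.card)
  have h4 : kc G (k + 1) S ≤ ∑ K ∈ (cl G (insert w S)).filter (fun K => ¬ w ∈ K),
      ind (k + 1) K.card := sum_le_sum_of_subset_of_nonneg (fun K hK => mem_filter.2
        ⟨cl_mono (subset_insert w S) hK, fun h => hw ((mem_cl.1 hK).1 h)⟩) fun _ _ _ => ind_nonneg _ _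
  change _ = kc G (k + 1) (insert w S) at h3
  linarith

lemma kc_union (k : ℕ) (C B : Finset V) (h : Disjoint B C) :
    kc G (k + 1) C + ∑ w ∈ B, kc G k (nb G w C) ≤ kc G (k + 1) (B ∪ C) := by
  induction B using Finset.induction_on with
  | empty => simp
  | insert w B hw ih =>
    rw [disjoint_insert_left] at h
    have h1 := kc_ins (G := G) k (w := w) (S := B ∪ C) (by simp [hw, h.1])
    have h2 := kc_mono (G := G) k (nb_mono (G := G) w (subset_union_right (s₁ := B) (s₂ := C)))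
    rw [sum_insert hw, insert_union]
    linarith [ih h.2]

lemma cw_miss {q : ℕ} (a : ℕ) {C : Finset V} (h : CF G q C) :
    (2 * a + 1) * (C.card : ℝ) - a * (a + 1) * q ≤ ∑ u ∈ C, ((nn G u C).card : ℝ) := by
  have h1 := mul_le_mul_of_nonneg_left (caro_wei q C h) (show (0 : ℝ) ≤ a * (a + 1) by positivity)
  have h2 := sum_le_sum fun u (hu : u ∈ C) => show (2 * a + 1 : ℝ)
      - a * (a + 1) * (1 / (nn G u C).card) ≤ (nn G u C).card by
    have a1 : (0 : ℝ) < (nn G u C).card := by exact_mod_cast nn_pos hu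
    have a2 : (0 : ℝ) ≤ ((nn G u C).card - a) * ((nn G u C).card - (a + 1)) := by
      rcases le_or_gt (nn G u C).card a with c | c
      · have : ((nn G u C).card : ℝ) ≤ a := by exact_mod_cast c
        exact mul_nonneg_of_nonpos_of_nonpos (by linarith) (by linarith)
      · have : (a : ℝ) + 1 ≤ (nn G u C).card := by exact_mod_cast c
        exact mul_nonneg (by linarith) (by linarith)
    rw [mul_one_div, sub_le_comm, le_div_iff₀ a1]
    linarith
  rw [sum_sub_distrib, sum_const, ← mul_sum, nsmul_eq_mul] at h2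
  linarith

end

lemma gain {k : ℕ} {θ μ y θ' : ℝ} (h1 : ((k : ℝ) + 2) * θ ^ k ≤ 1) (hμ : μ * (1 - θ) = k + 1)
    (hθ : 0 ≤ θ) (hθ1 : θ < 1) (h2 : θ' ≤ θ) (h3 : θ' ≤ y) (hy0 : 0 ≤ y) (hy : y ≤ 1) :
    (k + 2) * y ^ (k + 1) - y ≤ μ * (y - θ') := by
  have hμ0 : 0 ≤ μ := by
    by_contra hc
    nlinarith [Nat.cast_nonneg (α := ℝ) k]
  rcases le_total y θ with c | c
  · have a1 := mul_le_mul_of_nonneg_left (pow_le_pow_left₀ hy0 c k)
      (show (0 : ℝ) ≤ k + 2 by positivity)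
    rw [pow_succ]
    nlinarith [mul_le_mul_of_nonneg_right (a1.trans h1) hy0, mul_nonneg hμ0 (sub_nonneg.2 h3)]
  · obtain ⟨l, hl⟩ : ∃ l, l * (1 - θ) = y - θ := ⟨(y - θ) / (1 - θ), div_mul_cancel₀ _ (by linarith)⟩
    have l0 : 0 ≤ l := by
      by_contra hc
      nlinarith
    have l1 : l ≤ 1 := by
      by_contra hc
      nlinarith
    have a1 := (convexOn_pow (𝕜 := ℝ) (k + 1)).2 (x := θ) (y := 1) hθ (show (0 : ℝ) ≤ 1 by norm_num)
      (sub_nonneg.2 l1) l0 (by ring)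
    simp only [smul_eq_mul, one_pow, mul_one] at a1
    rw [show (1 - l) * θ + l = y by linarith, pow_succ θ] at a1
    have a2 := mul_le_mul_of_nonneg_left a1 (show (0 : ℝ) ≤ k + 2 by positivity)
    have a3 := mul_le_mul_of_nonneg_left h1 (mul_nonneg (sub_nonneg.2 l1) hθ)
    have a4 : μ * (y - θ) = l * (k + 1) := by rw [← hl, ← hμ]; ring
    nlinarith [mul_nonneg hμ0 (sub_nonneg.2 h2)]

variable {V : Type*} [Fintype V] {G : SimpleGraph V}

lemma Y_le (l : ℕ) (C : Finset V) {X : ℝ} (hX : ∀ v, ((nb G v univ).card : ℝ) ≤ X) :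
    ((Yc G (l + 3) C).card : ℝ) ≤
      ∑ u ∈ C, if 2 ≤ (out G C u).card then ((out G C u).card : ℝ) ^ 2 * X ^ l else 0 := by
  have a1 := Yc_cover (G := G) (l + 3) C (fun u w => ((out G C u).erase w).biUnion fun w' =>
    (clq G (l + 3) univ).filter fun Q => {u, w, w'} ⊆ Q) (fun Q hQ => ?_)
    (fun u => (out G C u).card * X ^ l) fun u hu w hw => ?_
  · refine a1.trans (le_of_eq (sum_congr rfl fun u _ => ?_))
    split_ifs
    · ring
    · rfl
  · obtain ⟨b1, ⟨u, hu⟩, b3⟩ := mem_filter.1 hQ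
    obtain ⟨w, hw, w', hw', hne⟩ := one_lt_card.1 b3
    refine ⟨u, hu, w, hw, mem_biUnion.2 ⟨w', mem_erase.2 ⟨hne.symm,
      (Yc_out hQ (mem_inter.1 hu).1 (mem_inter.1 hu).2).1 hw'⟩, mem_filter.2 ⟨b1, ?_⟩⟩⟩
    exact insert_subset (mem_inter.1 hu).1 (insert_subset (mem_sdiff.1 hw).1
      (singleton_subset_iff.2 (mem_sdiff.1 hw').1))
  · have hX0 : 0 ≤ X := (Nat.cast_nonneg _).trans (hX u)
    refine le_trans (Nat.cast_le.2 card_biUnion_le) ?_
    push_cast
    refine (sum_le_card_nsmul _ _ (X ^ l) fun w' hw' => ?_).trans ?_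
    · obtain ⟨c1, c2⟩ := mem_erase.1 hw'
      refine (card_le_kc (G := G) _ {u, w, w'} (nb G u univ) l fun Q hQ => ?_).trans
        ((kc_le_pow _ _).trans (pow_le_pow_left₀ (Nat.cast_nonneg _) (hX u) l))
      obtain ⟨d1, d2⟩ := mem_filter.1 hQ
      obtain ⟨-, d3, d4⟩ := mem_clq.1 d1
      refine ⟨d3, d2, by rw [d4, card_eq_three.2 ⟨u, w, w', (mem_out.1 hw).2.ne,
        (mem_out.1 c2).2.ne, c1.symm, rfl⟩], fun y hy => ?_⟩
      obtain ⟨e1, e2⟩ := mem_sdiff.1 hy
      exact mem_nb.2 ⟨mem_univ _, d3 (d2 (mem_insert_self _ _)) e1 fun e => e2 (by simp [e])⟩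
    · rw [nsmul_eq_mul]
      exact mul_le_mul_of_nonneg_right (Nat.cast_le.2 card_erase_le) (by positivity)

end Pool.Agent.Lib.MP_1b6faf_co.H8
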