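import Pool.Agent.Lib.MP_1b6faf_co.H8Rich

/-!
Large cliques: the Turan graph is extremal below the threshold one third.
-/

namespace Pool.Agent.Lib.MP_1b6faf_co.H8

open Finset
open scoped Classical

namespace Par

variable (x : Par)

lemma kΔ : (x.k : ℝ) + 1 ≤ x.Δ := by rw [x.ΔR]; linarith [x.kN, x.a1]

lemma tiny {γ : ℝ} (hγ : 0 < γ) (h1 : 8 * ((x.a : ℝ) + 1) ≤ γ * x.Δ) {M : ℕ}
    (hM : (M : ℝ) ≤ (1 - γ / 2) * x.Δ) : Z x.q M x.k * (γ * x.k / 16) ^ 2 ≤ x.D := by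
  have a1 : (M : ℝ) + γ * x.Δ / 4 ≤ x.N := by linarith [x.ΔR]
  have a2 : M ≤ x.N := by
    have : (M : ℝ) ≤ x.N := by linarith [mul_pos hγ x.Δpos]
    exact_mod_cast this
  obtain ⟨i, hi⟩ := Nat.exists_eq_add_of_le a2
  have a3 : (x.N : ℝ) = M + i := by rw [hi]; push_cast; ring
  have a4 := decay x.q M x.k i x.Δpos (by rw [← a3, x.ΔR]; linarith [x.a1])
  rw [← hi] at a4
  refine le_trans (mul_le_mul_of_nonneg_left ?_ (Z_nonneg _ _ _)) a4
  have a5 : (i : ℝ) ≤ 2 * (i / 2 : ℕ) + 1 := by exact_mod_cast (by omega)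
  have hy : (0 : ℝ) ≤ x.k / x.Δ := by positivity
  have a6 := one_add_mul_le_pow ((by norm_num : (-2 : ℝ) ≤ 0).trans hy) (i / 2)
  have a7 : γ * x.k / 16 ≤ (i / 2 : ℕ) * (x.k / x.Δ : ℝ) := by
    rw [← mul_div_assoc, le_div_iff₀ x.Δpos]
    have : γ * x.Δ / 16 ≤ (i / 2 : ℕ) := by linarith [x.a1]
    nlinarith [mul_le_mul_of_nonneg_right this (Nat.cast_nonneg (α := ℝ) x.k)]
  calc _ ≤ ((1 + x.k / x.Δ : ℝ) ^ (i / 2)) ^ 2 :=
        pow_le_pow_left₀ (by positivity) (by linarith) 2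
    _ ≤ _ := by
        rw [← pow_mul]
        exact pow_le_pow_right₀ (by linarith) (by omega)

lemma short {M : ℕ} (hM : M < x.n) : (x.n + x.k + 1) * ((x.k + 1 + 1) *
    Z (x.q + 1 + 1) M (x.k + 1 + 1)) ≤ M * (x.n * x.τ) := by
  obtain ⟨m, hm⟩ : ∃ m, x.n = m + 1 := ⟨x.n - 1, by omega⟩
  have h1 := dens_mono (x.q + 1 + 1) (x.k + 1) (show M ≤ m by omega)
  have h2 := ineq1 (x.q + 1 + 1) m (x.k + 1 + 1)
  have h3 : (x.n : ℝ) = m + 1 := by rw [hm]; push_cast; ring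
  have h4 : (0 : ℝ) < m := by linarith [x.nR, x.a1, x.Δpos]
  rw [← hm] at h2
  rw [← x.τ_id, h3]
  push_cast at h2
  have h5 : ((m : ℝ) + 1 + x.k + 1) * Z (x.q + 1 + 1) M (x.k + 1 + 1)
      ≤ M * Z (x.q + 1 + 1) x.n (x.k + 1 + 1) := by
    refine le_of_mul_le_mul_left ?_ h4
    nlinarith [mul_le_mul_of_nonneg_left h2 (Nat.cast_nonneg (α := ℝ) M),
      mul_le_mul_of_nonneg_left h1 (show (0 : ℝ) ≤ m + 1 + x.k + 1 by positivity)]
  nlinarith [mul_le_mul_of_nonneg_left h5 (show (0 : ℝ) ≤ x.k + 1 + 1 by positivity)]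

lemma sl_pay {i : ℕ} (hi : i ≤ 1 ∨ 4 * ((x.a : ℝ) + 2) * (i * x.k) ≤ x.Δ) {η : ℝ}
    (hη : η * (2 * (x.a + 2)) < 1) : (i ≤ 1 ∧ x.sl (x.a + i) = 0) ∨
      (2 ≤ i ∧ i * (η * x.D) < x.sl (x.a + i)) := by
  rcases Nat.lt_or_ge i 2 with c | c
  · refine Or.inl ⟨by omega, ?_⟩
    rcases (by omega : i = 0 ∨ i = 1) with rfl | rfl
    · exact x.sl_a
    · exact x.sl_a1
  · refine Or.inr ⟨c, lt_of_lt_of_le ?_ (x.sl_ge c (hi.resolve_left (by omega)))⟩
    have c' : (2 : ℝ) ≤ i := by exact_mod_cast c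
    rw [lt_div_iff₀ (by positivity)]
    nlinarith [mul_lt_mul_of_pos_left hη (mul_pos (show (0 : ℝ) < i by linarith) x.Dpos)]

end Par

variable {V : Type*} [Fintype V] {G : SimpleGraph V}

lemma InC.far {x : Par} (h : InC G x) {C : Finset V} (hC : C.card = x.n) {u : V} (hu : u ∈ C)
    {i : ℕ} (hi : (nn G u C).card = x.a + i) (h2 : 2 ≤ i)
    (h3 : x.Δ < 4 * ((x.a : ℝ) + 2) * (i * x.k)) : ((x.k : ℝ) + 1 + 1) * kc G (x.k + 1 + 1) C
      ≤ x.n * x.τ - x.Δ * x.D / (2 * (8 * x.a + 17)) := by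
  have a1 := kc_rec (G := G) (x.k + 1) u C
  have a2 := zyk' (x.k + 1 + 1) (h.cf.mono (subset_univ (C.erase u)))
    (show _ ≤ x.n - 1 by rw [card_erase_of_mem hu, hC])
  have a3 := card_nb_add_nn (G := G) u C
  have a4 := zyk (x.k + 1) _ _ (h.cf1 u C)
  obtain ⟨l, rfl⟩ : ∃ l, i = l + 1 := ⟨i - 1, by omega⟩
  have a5 : (nb G u C).card + l = x.N + x.a := by unfold Par.n Par.Δ at hC; omega
  have a6 := decay' (x.q + 1) (nb G u C).card (x.k + 1) l x.Δpos (by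
    rw [← Nat.cast_add, a5, x.ΔR]; push_cast; linarith)
  rw [a5] at a6
  change _ ≤ x.P1 at a6
  have hl : (1 : ℝ) ≤ l := by exact_mod_cast (by omega : 1 ≤ l)
  have a7 : 1 ≤ 8 * (x.a + 2) * (l * ((x.k + 1 : ℕ) / x.Δ : ℝ)) := by
    rw [← mul_div_assoc, ← mul_div_assoc, le_div_iff₀ x.Δpos]
    push_cast at h3 ⊢
    nlinarith [mul_le_mul_of_nonneg_right hl (Nat.cast_nonneg (α := ℝ) x.k), x.a1,
      mul_nonneg (show (0 : ℝ) ≤ x.a + 2 by positivity) (sub_nonneg.2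
        (mul_le_mul_of_nonneg_right hl (Nat.cast_nonneg (α := ℝ) x.k)))]
  have a8 := Z_nonneg (x.q + 1) (nb G u C).card (x.k + 1)
  generalize Z (x.q + 1) (nb G u C).card (x.k + 1) = z at *
  generalize (l * ((x.k + 1 : ℕ) / x.Δ : ℝ)) = y at *
  have a9 : x.P1 ≤ (8 * x.a + 17) * (x.P1 - z) := by
    nlinarith [mul_le_mul_of_nonneg_left a7 a8,
      mul_le_mul_of_nonneg_left a6 (show (0 : ℝ) ≤ 8 * (x.a + 2) by positivity)]
  have a10 : x.Δ * x.D / (2 * (8 * x.a + 17)) ≤ (x.k + 1 + 1) * (x.P1 - z) := by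
    rw [div_le_iff₀ (by positivity)]
    nlinarith [x.jP', x.P_le, x.P1pos, x.k1,
      mul_le_mul_of_nonneg_left a9 (show (0 : ℝ) ≤ x.k + 1 + 1 by positivity),
      mul_le_mul_of_nonneg_left x.P_le (show (0 : ℝ) ≤ x.k + 1 by positivity)]
  rw [← x.τ_id, x.n_rec]
  nlinarith [mul_le_mul_of_nonneg_left (show kc G (x.k + 1 + 1) C
    ≤ Z (x.q + 1 + 1) (x.n - 1) (x.k + 1 + 1) + z by linarith)
    (show (0 : ℝ) ≤ x.k + 1 + 1 by positivity)]

theorem big_good {x : Par} (h : InC G x) {γ ζ c : ℝ} (hγ : 0 < γ) (hγ1 : γ ≤ 1 / 4)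
    (hγ2 : 6 * (x.a + 1) * γ * x.Ca < 1) (hc : c = x.a + 1 + (x.Ca + 2) / (2 / 3)) (hζ : 0 < ζ)
    (hζ1 : 12 * c * ζ * (8 * x.a + 17) < 1) (k1 : 8 * ((x.a : ℝ) + 1) ≤ γ * x.k)
    (k2 : 768 ≤ γ ^ 2 * ζ * x.k) (k3 : 2 * c ≤ x.k)
    (hr : 3 * ((x.r + 1) * (x.a + 1) : ℝ) ≤ x.Δ) (v : V)
    (hv : x.τ ≤ kc G (x.k + 1) (nb G v univ)) :
    ∃ C, Good G x.Δ x.n (x.k + 1) x.τ (x.τ / (x.Δ + 1)) v C := by
  have hφ : 2 / 3 ≤ 1 - x.φ := by
    have : 3 * x.φ ≤ 1 := by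
      refine le_of_mul_le_mul_right ?_ x.npos
      rw [mul_assoc, x.φn, x.nR]
      linarith [x.a1]
    linarith
  have hD := x.Dpos
  have hΔ := x.Δpos
  have ha := x.a1
  have hkΔ := x.kΔ
  have hc2 : 2 ≤ c := by
    have : 0 ≤ (x.Ca + 2) / (2 / 3) := by unfold Par.Ca; positivity
    linarith
  have hcζ : 0 < c * ζ := by positivity
  have hζ2 : 300 * (c * ζ) < 1 := by nlinarith
  have hζ3 : ζ * (2 * (x.a + 2)) < 1 := by nlinarith
  have hζ4 : 600 * ζ < 1 := by nlinarith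
  have hγΔ : 8 * ((x.a : ℝ) + 1) ≤ γ * x.Δ := by nlinarith
  have hτ : 2 * (x.Δ * x.D) ≤ 3 * ((x.k + 1) * x.τ) := by
    have := mul_le_mul hkΔ (show x.φ * x.D ≤ 1 / 3 * x.D from
      mul_le_mul_of_nonneg_right (by linarith) hD.le) (mul_pos x.φpos hD).le hΔ.le
    unfold Par.τ
    nlinarith [x.jP']
  have tiny : ∀ S : Finset V, CF G x.q S → (S.card : ℝ) ≤ (1 - γ / 2) * x.Δ →
      kc G x.k S ≤ ζ * x.D / (x.k + 1 + 1) := fun S h1 h2 => by
    have a1 := x.tiny hγ hγΔ h2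
    have a2 := Z_nonneg x.q S.card x.k
    refine (zyk _ _ _ h1).trans ?_
    rw [le_div_iff₀ (by positivity)]
    have a3 : (x.k : ℝ) + 1 + 1 ≤ ζ * (γ * x.k / 16) ^ 2 := by
      nlinarith [mul_le_mul_of_nonneg_right k2 (Nat.cast_nonneg (α := ℝ) x.k), x.k1]
    nlinarith [mul_le_mul_of_nonneg_left a3 a2, mul_le_mul_of_nonneg_left a1 hζ.le]
  obtain ⟨A, hA⟩ : ∃ A, A = nb G v univ := ⟨_, rfl⟩
  have hAc : A.card = x.Δ := hA ▸ h.rich_card hv
  have hM : ∑ u ∈ A, ((nn G u A).card : ℝ) ≤ c * A.card := by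
    rw [hAc, hA, hc]; exact h.rich_miss hv (by norm_num) hφ
  have hn : ∀ u ∈ A, ((nn G u A).card : ℝ) ≤ γ * x.Δ / 4 := fun u hu => by
    have a1 := h.rich_nn hv (by norm_num) hφ (hA ▸ hu)
    rw [← hA] at a1
    by_contra hlt
    have a2 : γ * x.Δ / 8 * x.k ≤ ((nn G u A).card - (x.a + 1)) * x.k :=
      mul_le_mul_of_nonneg_right (by linarith) (Nat.cast_nonneg _)
    nlinarith [mul_le_mul_of_nonneg_right k1 hΔ.le]
  obtain ⟨C, hC⟩ : ∃ C, C = clus G A γ := ⟨_, rfl⟩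
  have mC : ∀ w, w ∈ C ↔ (1 - γ) * x.Δ ≤ (nb G w A).card := fun w => by rw [hC, mem_clus, hAc]
  have cA : ∀ w, ((nb G w A).card : ℝ) + (nn G w A).card = x.Δ := fun w => by
    rw [card_nb_add_nn', hAc]
  have hAC : A ⊆ C := fun u hu => (mC u).2 (by linarith [cA u, hn u hu, mul_pos hγ hΔ])
  have hW : (C \ A).card ≤ x.a := h.few_full hv hγ2 (by
    have : (2 : ℝ) ≤ x.k := by linarith
    exact_mod_cast this) hr (hA ▸ disjoint_sdiff) fun w hw => hA ▸ (mC w).1 (mem_sdiff.1 hw).1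
  have hW' : ((C \ A).card : ℝ) ≤ x.a := by exact_mod_cast hW
  have hCn : C.card ≤ x.n := by
    have := card_sdiff_add_card_eq_card hAC
    unfold Par.n; omega
  have hCΔ : x.Δ ≤ C.card := hAc ▸ card_le_card hAC
  have hw : ∀ w, w ∉ C → ((nb G w C).card : ℝ) ≤ (1 - γ) * x.Δ + γ * x.Δ / 8 := fun w hw => by
    linarith [nb_le (G := G) w A C, not_le.1 (mt (mC w).2 hw)]
  refine ⟨C, (mC v).2 ?_, fun y hy => ?_, fun O hO => ?_⟩
  · have : nb G v A = A := by rw [hA]; ext y; simp [mem_nb]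
    rw [this, hAc]
    linarith [mul_pos hγ hΔ]
  · rw [← hA, inter_eq_right.2 hAC]
    have : (x.Δ : ℝ) < 2 * (nb G y A).card := by nlinarith [(mC y).1 hy]
    exact_mod_cast this
  have g1 : ∑ w ∈ O, (((x.k + 1 : ℕ) + 1) * kc G (x.k + 1) (nb G w C)
      - (nb G w C).card * (x.τ / (x.Δ + 1))) ≤ 0 := by
    refine sum_nonpos fun w hwO => ?_
    have a1 := hw w (disjoint_left.1 hO hwO)
    have a2 := sum_le_card_nsmul (nb G w C) (fun u => kc G x.k (nb G u (nb G w C))) _ fun u hu =>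
      tiny _ (h.cf2 (mem_nb.1 hu).2 C) (le_trans (Nat.cast_le.2 (card_le_card (nb_subset _ _)))
        (by linarith [mul_pos hγ hΔ]))
    rw [← kc_succ, nsmul_eq_mul, ← mul_div_assoc, le_div_iff₀ (by positivity)] at a2
    rw [sub_nonpos, ← mul_div_assoc, le_div_iff₀ (by positivity)]
    push_cast
    refine le_of_mul_le_mul_left ?_ (show (0 : ℝ) < x.k + 1 by positivity)
    have a3 : ζ * x.D * (x.Δ + 1) ≤ (x.k + 1) * x.τ := by
      nlinarith [mul_pos hΔ hD, mul_le_mul_of_nonneg_right (show (1 : ℝ) ≤ x.Δ by linarith [x.k1])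
        hD.le]
    nlinarith [mul_le_mul_of_nonneg_right a2 (show (0 : ℝ) ≤ x.Δ + 1 by positivity),
      mul_le_mul_of_nonneg_left a3 (Nat.cast_nonneg (α := ℝ) (nb G w C).card)]
  have g2 : (((x.k + 1 : ℕ) : ℝ) + 1) * (Yc G (x.k + 1 + 1) C).card ≤
      ∑ u ∈ C, if 2 ≤ (out G C u).card then (out G C u).card * (ζ * x.D) else 0 := by
    let S : V → V → Finset V := fun u w =>
      if u ∈ A then nb G u (nb G w univ) else nb G u (nb G w univ) \ A
    have a1 := Yc_cover (G := G) (x.k + 1 + 1) C (fun u w => (clq G (x.k + 1 + 1) univ).filter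
      fun Q => {u, w} ⊆ Q ∧ Q \ {u, w} ⊆ S u w) (fun Q hQ => ?_)
      (fun _ => ζ * x.D / (x.k + 1 + 1)) fun u hu w hw' => ?_
    · refine (mul_le_mul_of_nonneg_left a1 (by positivity)).trans (le_of_eq ?_)
      rw [mul_sum]
      refine sum_congr rfl fun u _ => ?_
      split_ifs
      · push_cast; field_simp
      · exact mul_zero _
    · obtain ⟨b1, ⟨u0, hu0⟩, b3⟩ := mem_filter.1 hQ
      obtain ⟨w, hw⟩ := card_pos.1 (show 0 < (Q \ C).card by omega)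
      have hq := (mem_clq.1 b1).2.1
      have b4 : ∀ u ∈ Q, Q \ {u, w} ⊆ nb G u (nb G w univ) := fun u hu y hy => by
        obtain ⟨c1, c2⟩ := mem_sdiff.1 hy
        simp only [mem_insert, mem_singleton, not_or] at c2
        exact mem_nb.2 ⟨mem_nb.2 ⟨mem_univ _, hq (mem_sdiff.1 hw).1 c1 (Ne.symm c2.2)⟩,
          hq hu c1 (Ne.symm c2.1)⟩
      have b5 : ∀ u ∈ Q, {u, w} ⊆ Q := fun u hu =>
        insert_subset hu (singleton_subset_iff.2 (mem_sdiff.1 hw).1)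
      by_cases c0 : ∃ u ∈ Q, u ∈ A
      · obtain ⟨u, c1, c2⟩ := c0
        exact ⟨u, mem_inter.2 ⟨c1, hAC c2⟩, w, hw, mem_filter.2 ⟨b1, b5 u c1, by
          simpa only [S, if_pos c2] using b4 u c1⟩⟩
      · push Not at c0
        have c1 := (mem_inter.1 hu0).1
        refine ⟨u0, hu0, w, hw, mem_filter.2 ⟨b1, b5 _ c1, ?_⟩⟩
        simp only [S, if_neg (c0 _ c1)]
        exact fun y hy => mem_sdiff.2 ⟨b4 _ c1 hy, c0 y (mem_sdiff.1 hy).1⟩
    · obtain ⟨b1, b2⟩ := mem_out.1 hw'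
      have b3 : S u w ⊆ nb G u (nb G w univ) := by
        simp only [S]
        split_ifs
        · exact Subset.rfl
        · exact sdiff_subset
      refine (card_le_kc (G := G) _ {u, w} (S u w) x.k fun Q hQ => ?_).trans
        (tiny _ ((h.cf2 b2.symm univ).mono b3) ?_)
      · obtain ⟨c1, c2, c3⟩ := mem_filter.1 hQ
        exact ⟨(mem_clq.1 c1).2.1, c2, by rw [card_pair b2.ne, (mem_clq.1 c1).2.2], c3⟩
      have b4 : ((nb G u A).card : ℝ) + (nb G u (univ \ A)).card ≤ x.Δ := by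
        exact_mod_cast (nb_two (G := G) u (disjoint_sdiff (s := A) (t := univ))).trans (h.deg u)
      by_cases c0 : u ∈ A
      · have c1 : S u w ⊆ nb G w C ∪ nb G u (univ \ A) := fun y hy => by
          have := b3 hy
          have := @hAC y
          simp only [mem_union, mem_nb, mem_sdiff, mem_univ, true_and] at *
          tauto
        have c2 : ((S u w).card : ℝ) ≤ (nb G w C).card + (nb G u (univ \ A)).card := by
          exact_mod_cast (card_le_card c1).trans (card_union_le _ _)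
        linarith [hw w b1, cA u, hn u c0, mul_pos hγ hΔ]
      · have c1 : S u w ⊆ nb G u (univ \ A) := fun y hy => by
          simp only [S, if_neg c0, mem_nb, mem_sdiff, mem_univ, true_and] at *
          tauto
        have c2 : ((S u w).card : ℝ) ≤ (nb G u (univ \ A)).card := by exact_mod_cast card_le_card c1
        nlinarith [(mC u).1 hu]
  have g3 : ∑ u ∈ C, (if 2 ≤ (out G C u).card then (out G C u).card * (ζ * x.D) else 0)
      ≤ 6 * (c * ζ) * (x.Δ * x.D) := by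
    have a1 := clus_miss (G := G) (fun v => hAc ▸ h.deg v) (by rw [hAc]; exact_mod_cast hΔ) hM hγ
      (by linarith) (by rw [hAc]; linarith)
    rw [← hC, hAc] at a1
    refine (sum_le_sum (g := fun u => ((nn G u C).card : ℝ) * (ζ * x.D)) fun u _ => ?_).trans ?_
    · split_ifs
      · have := h.out_le C u
        exact mul_le_mul_of_nonneg_right (by exact_mod_cast (by omega)) (by positivity)
      · positivity
    · rw [← sum_mul]
      nlinarith [mul_le_mul_of_nonneg_right a1 (mul_pos hζ hD).le]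
  unfold Bal
  rcases hCn.lt_or_eq with c1 | c1
  · left
    have a1 := x.short c1
    have a2 := mul_le_mul_of_nonneg_left (zyk (x.k + 1 + 1) C _ (h.cf.mono (subset_univ C)))
      (show (0 : ℝ) ≤ x.k + 1 + 1 by positivity)
    have a3 : (x.Δ : ℝ) ≤ C.card := by exact_mod_cast hCΔ
    have a4 : (x.n : ℝ) + x.k + 1 ≤ 3 * x.Δ := by
      rw [x.nR]; linarith [x.ΔR, x.aNR]
    have hτ0 : 0 < x.τ := x.P1pos.trans x.P1τ
    have a5 : (x.k + 1 + 1) * Z (x.q + 1 + 1) C.card (x.k + 1 + 1)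
        ≤ C.card * x.τ - (x.k + 1) * x.τ / 3 := by
      refine le_of_mul_le_mul_left ?_ (show (0 : ℝ) < x.n + x.k + 1 by positivity)
      nlinarith [mul_le_mul_of_nonneg_right (a4.trans (mul_le_mul_of_nonneg_left a3 (by norm_num)))
        (show 0 ≤ (x.k + 1) * x.τ by positivity)]
    push_cast at g1 g2 ⊢
    nlinarith [mul_pos hΔ hD]
  have hi : ∀ u, ∃ i, (nn G u C).card = x.a + i ∧ (out G C u).card ≤ i := fun u =>
    ⟨(nn G u C).card - x.a, by have := h.out_le C u; unfold Par.n at c1; omega⟩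
  choose i hi1 hi2 using hi
  by_cases c2 : ∃ u ∈ C, 2 ≤ i u ∧ x.Δ < 4 * ((x.a : ℝ) + 2) * (i u * x.k)
  · left
    obtain ⟨u, u1, u2, u3⟩ := c2
    have a1 := h.far c1 u1 (hi1 u) u2 u3
    have a2 : 6 * (c * ζ) * (x.Δ * x.D) < x.Δ * x.D / (2 * (8 * x.a + 17)) := by
      rw [lt_div_iff₀ (by positivity)]
      nlinarith [mul_lt_mul_of_pos_right hζ1 (mul_pos hΔ hD)]
    rw [c1]
    push_cast at g1 g2 ⊢
    linarith
  push Not at c2
  have a1 := h.cw c1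
  have a2 : ∀ u ∈ C, _ := fun u hu => x.sl_pay (i := i u) (by
    rcases Nat.lt_or_ge (i u) 2 with c | c
    · exact Or.inl (by omega)
    · exact Or.inr (c2 u hu c)) hζ3
  have a3 : ∀ u, (out G C u).card * (ζ * x.D) ≤ i u * (ζ * x.D) := fun u =>
    mul_le_mul_of_nonneg_right (by exact_mod_cast hi2 u) (by positivity)
  have a4 : ∀ u ∈ C, (if 2 ≤ (out G C u).card then (out G C u).card * (ζ * x.D) else 0)
      ≤ x.sl (nn G u C).card := fun u hu => by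
    rw [hi1]
    rcases a2 u hu with b | b
    · rw [if_neg (by have := hi2 u; omega), b.2]
    · split_ifs
      · linarith [a3 u, b.2]
      · exact le_trans (by positivity) b.2.le
  rw [c1]
  push_cast at g1 g2 ⊢
  by_cases c3 : ∀ u ∈ C, (out G C u).card ≤ 1
  · exact Or.inr ⟨by linarith [sum_le_sum a4], le_rfl, c3⟩
  · push Not at c3
    obtain ⟨u, u1, u2⟩ := c3
    have a5 := sum_lt_sum a4 ⟨u, u1, by
      rw [hi1, if_pos (show 2 ≤ (out G C u).card from u2)]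
      rcases a2 u u1 with b | b
      · have := hi2 u; omega
      · linarith [a3 u, b.2]⟩
    left
    linarith

theorem big (a : ℕ) : ∃ K : ℕ, ∀ x : Par, x.a = a → K ≤ x.k →
    3 * ((x.r + 1) * (x.a + 1) : ℝ) ≤ x.Δ → ∀ (V : Type) [Fintype V] (G : SimpleGraph V), InC G x →
      ((x.k + 1 : ℕ) + 1) * kc G (x.k + 1 + 1) univ ≤ (univ : Finset V).card * x.τ := by
  obtain ⟨B, hB⟩ : ∃ B : ℝ, B = (a + 1) * 2 ^ (a + 2) := ⟨_, rfl⟩
  have hB0 : 1 ≤ B := hB ▸ one_le_mul_of_one_le_of_one_le (by linarith [Nat.cast_nonneg (α := ℝ) a])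
    (one_le_pow₀ (by norm_num))
  obtain ⟨γ, hγ⟩ : ∃ γ : ℝ, γ = 1 / (7 * (a + 1) * B) := ⟨_, rfl⟩
  obtain ⟨c, hc⟩ : ∃ c : ℝ, c = a + 1 + (B + 2) / (2 / 3) := ⟨_, rfl⟩
  have hc0 : 0 < c := by rw [hc]; positivity
  obtain ⟨ζ, hζ⟩ : ∃ ζ : ℝ, ζ = 1 / (13 * c * (8 * a + 17)) := ⟨_, rfl⟩
  have hγ0 : 0 < γ := by rw [hγ]; positivity
  have hζ0 : 0 < ζ := by rw [hζ]; positivity
  obtain ⟨K, hK⟩ := exists_nat_ge (8 * ((a : ℝ) + 1) / γ + 768 / (γ ^ 2 * ζ) + 2 * c + 2)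
  refine ⟨K, fun x ha hk hr V _ G h => ?_⟩
  subst ha
  have hk' : (K : ℝ) ≤ x.k := by exact_mod_cast hk
  have p1 : 0 < 8 * ((x.a : ℝ) + 1) / γ := by positivity
  have p2 : 0 < 768 / (γ ^ 2 * ζ) := by positivity
  have hφ : 2 / 3 ≤ 1 - x.φ := by
    have : 3 * x.φ ≤ 1 := by
      refine le_of_mul_le_mul_right ?_ x.npos
      rw [mul_assoc, x.φn, x.nR]
      linarith [x.a1]
    linarith
  have hτ0 : 0 < x.τ := x.P1pos.trans x.P1τ
  have hΔ := x.Δpos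
  refine (glob (by have := x.hk; omega) h.deg h.cf (x.price ?_ ?_) (big_good h (γ := γ) (ζ := ζ)
    (c := c) hγ0 ?_ ?_ (by rw [hc, hB]; rfl) hζ0 ?_ ?_ ?_ (by linarith) hr)).1
  · rw [div_mul_eq_mul_div, div_lt_iff₀ (by positivity)]
    nlinarith
  · nlinarith [x.kΔ, mul_le_mul_of_nonneg_right hφ (show (0 : ℝ) ≤ (x.k + 1) * x.Δ by positivity),
      mul_le_mul_of_nonneg_right (show (2 : ℝ) ≤ x.k by linarith) hΔ.le]
  · rw [hγ, div_le_div_iff₀ (by positivity) (by norm_num)]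
    nlinarith [x.a1]
  · rw [show x.Ca = B from hB.symm, hγ]
    field_simp
    norm_num
  · rw [hζ]
    field_simp
    norm_num
  · rw [mul_comm γ, ← div_le_iff₀ hγ0]; linarith
  · rw [mul_comm _ (x.k : ℝ), ← div_le_iff₀ (by positivity)]; linarith

end Pool.Agent.Lib.MP_1b6faf_co.H8
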