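import Mathlib

/-!
Counting the clique bounds that are excluded, and those below the threshold.
-/

namespace Pool.Agent.Lib.MP_1b6faf_co.H8

open Finset
open scoped Classical

lemma card_diam (S : Finset ℕ) {L : ℝ} (hL : 0 ≤ L) (h : ∀ s ∈ S, ∀ t ∈ S, (s : ℝ) ≤ t + L) :
    S.card ≤ ⌊L⌋₊ + 1 := by
  rcases S.eq_empty_or_nonempty with rfl | hne
  · simp
  have : S ⊆ Icc (S.min' hne) (S.min' hne + ⌊L⌋₊) := fun s hs => mem_Icc.2 ⟨min'_le S s hs, by
    rw [add_comm, ← Nat.floor_add_natCast hL]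
    exact Nat.le_floor (by linarith [h s hs _ (min'_mem S hne)])⟩
  have := card_le_card this
  rw [Nat.card_Icc] at this
  omega

lemma fiber (D : ℕ) {a : ℕ} (ha : 1 ≤ a) : (Icc 1 D).filter
    (fun s => D / s = a ∧ 3 * (D % s) * (D / s + 1) < D) = Ioc (D * (3 * a + 2) / (3 * a * (a + 1))) (D / a) := by
  ext s
  rw [mem_filter, mem_Icc, mem_Ioc, Nat.le_div_iff_mul_le ha, Nat.div_lt_iff_lt_mul (by positivity)]
  constructor
  · rintro ⟨-, h1, h2⟩
    have := Nat.div_add_mod D s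
    rw [h1] at this h2
    generalize D % s = r at *
    constructor <;> nlinarith
  · rintro ⟨h1, h2⟩
    have h3 : D < s * (a + 1) := by
      by_contra hc
      nlinarith [Nat.mul_le_mul_left (3 * a) (not_lt.1 hc)]
    have h4 : D / s = a := Nat.div_eq_of_lt_le (by linarith) (by linarith)
    have := Nat.div_add_mod D s
    rw [h4] at this ⊢
    refine ⟨⟨Nat.pos_of_ne_zero (by rintro rfl; omega), by nlinarith⟩, rfl, by nlinarith⟩

lemma div_near (m n : ℕ) : (m : ℝ) / n - 1 ≤ (m / n : ℕ) := by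
  rw [← Nat.floor_div_eq_div (K := ℝ)]
  exact (Nat.sub_one_lt_floor _).le

lemma third (D A : ℕ) : |(((Icc 1 D).filter fun s => D / s ≤ A ∧ 3 * (D % s) * (D / s + 1) < D).card : ℝ)
    - D / 3 * (1 - 1 / (A + 1))| ≤ A := by
  induction A with
  | zero =>
    rw [filter_false_of_mem fun s hs h => by
      have := Nat.div_pos (mem_Icc.1 hs).2 (mem_Icc.1 hs).1
      omega]
    simp
  | succ A ih =>
    have h1 : (Icc 1 D).filter (fun s => D / s ≤ A + 1 ∧ 3 * (D % s) * (D / s + 1) < D) =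
        (Icc 1 D).filter (fun s => D / s ≤ A ∧ 3 * (D % s) * (D / s + 1) < D) ∪
        (Icc 1 D).filter (fun s => D / s = A + 1 ∧ 3 * (D % s) * (D / s + 1) < D) := by
      rw [← filter_or]
      exact filter_congr fun s _ => by omega
    rw [h1, card_union_of_disjoint (disjoint_filter.2 fun s _ a b => by omega),
      fiber D (Nat.le_add_left 1 A), Nat.card_Ioc]
    have h2 : D * (3 * (A + 1) + 2) / (3 * (A + 1) * (A + 1 + 1)) ≤ D / (A + 1) := by
      rw [← Nat.mul_div_mul_right D (A + 1) (show 0 < 3 * (A + 1 + 1) by omega),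
        show (A + 1) * (3 * (A + 1 + 1)) = 3 * (A + 1) * (A + 1 + 1) by ring]
      exact Nat.div_le_div_right (Nat.mul_le_mul_left _ (by omega))
    have h3 := div_near D (A + 1)
    have h4 := div_near (D * (3 * (A + 1) + 2)) (3 * (A + 1) * (A + 1 + 1))
    have h5 := Nat.cast_div_le (α := ℝ) (m := D) (n := A + 1)
    have h6 := Nat.cast_div_le (α := ℝ) (m := D * (3 * (A + 1) + 2)) (n := 3 * (A + 1) * (A + 1 + 1))
    rw [Nat.cast_add, Nat.cast_sub h2]
    push_cast at h3 h4 h5 h6 ⊢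
    have e : (D : ℝ) / 3 * (1 - 1 / (A + 1 + 1)) = D / 3 * (1 - 1 / (A + 1)) + D / (A + 1)
        - D * (3 * (A + 1) + 2) / (3 * (A + 1) * (A + 1 + 1)) := by field_simp; ring
    rw [e]
    rw [abs_le] at ih ⊢
    constructor <;> linarith [ih.1, ih.2]

theorem count (P : ℕ → ℕ → Prop) (h : ∀ ε : ℝ, 0 < ε → ∃ D0 : ℕ, ∀ D : ℕ, D0 ≤ D → ∀ s : ℕ,
      ε * D ≤ s + 1 → s ≤ D → ε * D ≤ |3 * ((D % s : ℕ) : ℝ) * ((D / s : ℕ) + 1) - D| →
      ((D % s : ℕ) : ℝ) ≤ (1 - ε) * s → (P D s ↔ 3 * (D % s) * (D / s + 1) < D))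
    (ε : ℝ) (hε : 0 < ε) : ∃ D0 : ℕ, ∀ D : ℕ, D0 ≤ D →
      (((Icc 2 D).filter fun s => ¬ (P D s ↔ 3 * (D % s) * (D / s + 1) < D)).card : ℝ) ≤ ε * D ∧
      |(((Icc 2 D).filter fun s => P D s).card : ℝ) - D / 3| ≤ ε * D := by
  obtain ⟨A, hA⟩ := exists_nat_ge (8 / ε)
  rw [div_le_iff₀ hε] at hA
  have hA0 : (0 : ℝ) < A + 1 := by positivity
  obtain ⟨e, he, he1⟩ := exists_pos_mul_lt (lt_min (show 0 < ε / 8 by positivity) zero_lt_one)
    (3 * (A + 1))
  rw [lt_min_iff] at he1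
  obtain ⟨D0, h0⟩ := h e he
  obtain ⟨D1, h1⟩ := exists_nat_ge (8 * (3 * A + 5) / ε)
  rw [div_le_iff₀ hε] at h1
  refine ⟨D0 + D1, fun D hD => ?_⟩
  have hD0 : (0 : ℝ) ≤ D := Nat.cast_nonneg _
  have hD1 : 8 * (3 * (A : ℝ) + 5) ≤ D * ε :=
    h1.trans (mul_le_mul_of_nonneg_right (by exact_mod_cast (by omega)) hε.le)
  have t1 : (((Icc 1 D).filter fun s => A < D / s).card : ℝ) ≤ ε * D / 8 + 1 := by
    refine le_trans (Nat.cast_le.2 (card_diam _ (L := ε * D / 8) (by positivity) fun s hs t _ => ?_)) ?_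
    · obtain ⟨a1, a2⟩ := mem_filter.1 hs
      have : ((A + 1) * s : ℝ) ≤ D := by
        exact_mod_cast (Nat.le_div_iff_mul_le (mem_Icc.1 a1).1).1 a2
      nlinarith [mul_le_mul_of_nonneg_left this hε.le, Nat.cast_nonneg (α := ℝ) t,
        mul_le_mul_of_nonneg_right hA (Nat.cast_nonneg (α := ℝ) s),
        mul_nonneg hε.le (Nat.cast_nonneg (α := ℝ) s)]
    · push_cast
      linarith [Nat.floor_le (show 0 ≤ ε * D / 8 by positivity)]
  have t2 : ∀ (Q : ℕ → Prop) [DecidablePred Q] (L : ℝ), 0 ≤ L → (∀ s t, 1 ≤ D / s → D / s = D / t → Q s → Q t →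
      (s : ℝ) ≤ t + L) → (((Icc 1 D).filter fun s => D / s ≤ A ∧ Q s).card : ℝ) ≤ (L + 1) * (A + 1) :=
    fun Q _ L hL hQ => by
      have := card_le_mul_card_image_of_maps_to (s := (Icc 1 D).filter fun s => D / s ≤ A ∧ Q s)
        (t := range (A + 1)) (f := fun s => D / s)
        (fun s hs => mem_range.2 (Nat.lt_succ_of_le (mem_filter.1 hs).2.1)) _ fun a _ =>
          card_diam _ hL fun s hs t ht => by
            obtain ⟨⟨a1, a2⟩, a3⟩ := (mem_filter.1 hs).imp_left mem_filter.1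
            obtain ⟨⟨-, b2⟩, b3⟩ := (mem_filter.1 ht).imp_left mem_filter.1
            exact hQ s t (Nat.div_pos (mem_Icc.1 a1).2 (mem_Icc.1 a1).1) (a3.trans b3.symm) a2.2 b2.2
      rw [card_range] at this
      refine le_trans (Nat.cast_le.2 this) ?_
      push_cast
      exact mul_le_mul_of_nonneg_right (by linarith [Nat.floor_le hL]) hA0.le
  have hm : ∀ s : ℕ, ((D % s : ℕ) : ℝ) = D - s * (D / s : ℕ) := fun s => by
    rw [eq_sub_iff_add_eq']
    exact_mod_cast Nat.div_add_mod D s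
  have t3 := t2 (fun s => |3 * ((D % s : ℕ) : ℝ) * ((D / s : ℕ) + 1) - D| < e * D) (e * D)
    (by positivity) fun s t a1 a2 a3 a4 => by
      rw [hm, abs_lt] at a3 a4
      rw [← a2] at a4
      have a5 : (1 : ℝ) ≤ (D / s : ℕ) := by exact_mod_cast a1
      generalize ((D / s : ℕ) : ℝ) = a at *
      by_contra hc
      have a6 : 2 ≤ a * (a + 1) := by nlinarith
      nlinarith [mul_le_mul_of_nonneg_left a6 (show 0 ≤ (s : ℝ) - t by nlinarith), mul_nonneg he.le hD0]
  have t4 := t2 (fun s => 1 ≤ s ∧ s ≤ D ∧ (1 - e) * s < ((D % s : ℕ) : ℝ)) (e * D)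
    (by positivity) fun s t a1 a2 a3 a4 => by
      have b1 : ((D % t : ℕ) : ℝ) ≤ t := by exact_mod_cast (Nat.mod_lt D a4.1).le
      have b2 := a3.2.2
      have b3 : (s : ℝ) ≤ D := by exact_mod_cast a3.2.1
      rw [hm] at b1 b2
      rw [← a2] at b1
      have a5 : (1 : ℝ) ≤ (D / s : ℕ) := by exact_mod_cast a1
      generalize ((D / s : ℕ) : ℝ) = a at *
      by_contra hc
      nlinarith [mul_le_mul_of_nonneg_left a5 (show 0 ≤ (s : ℝ) - t by nlinarith),
        mul_nonneg he.le hD0, mul_le_mul_of_nonneg_left b3 he.le]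
  have t5 : (((Icc 2 D).filter fun s => ¬ (P D s ↔ 3 * (D % s) * (D / s + 1) < D)).card : ℝ)
      ≤ ε * D / 2 := by
    have a1 := card_le_card (show ((Icc 2 D).filter fun s => ¬ (P D s ↔ 3 * (D % s) * (D / s + 1) < D))
      ⊆ ((Icc 1 D).filter fun s => A < D / s) ∪ (((Icc 1 D).filter fun s => D / s ≤ A ∧
        |3 * ((D % s : ℕ) : ℝ) * ((D / s : ℕ) + 1) - D| < e * D) ∪ (Icc 1 D).filter fun s =>
        D / s ≤ A ∧ 1 ≤ s ∧ s ≤ D ∧ (1 - e) * s < ((D % s : ℕ) : ℝ)) from fun s hs => by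
      obtain ⟨b1, b2⟩ := mem_filter.1 hs
      obtain ⟨b3, b4⟩ := mem_Icc.1 b1
      by_contra hc
      simp only [mem_union, mem_filter, mem_Icc, not_or, not_and, not_lt] at hc
      have b5 := hc.1 ⟨by omega, b4⟩
      refine b2 (h0 D (by omega) s ?_ b4 (hc.2.1 ⟨by omega, b4⟩ b5)
        (hc.2.2 ⟨by omega, b4⟩ b5 (by omega) b4))
      have b6 : (D : ℝ) ≤ s * (A + 1) := by
        exact_mod_cast ((Nat.div_lt_iff_lt_mul (by omega)).1 (Nat.lt_succ_of_le b5)).le.trans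
          (mul_comm _ _).le
      nlinarith [mul_le_mul_of_nonneg_left b6 he.le, Nat.cast_nonneg (α := ℝ) s,
        mul_le_mul_of_nonneg_right he1.2.le (Nat.cast_nonneg (α := ℝ) s)])
    have a2 := (Nat.cast_le (α := ℝ)).2 (a1.trans ((card_union_le _ _).trans
      (Nat.add_le_add_left (card_union_le _ _) _)))
    push_cast at a2 t3 t4
    nlinarith [mul_le_mul_of_nonneg_right he1.1.le hD0, mul_nonneg (mul_nonneg he.le hA0.le) hD0]
  refine ⟨by nlinarith, ?_⟩
  have t6 := third D A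
  have t7 : (((Icc 2 D).filter fun s => P D s).card : ℝ) ≤ ((Icc 2 D).filter fun s =>
      ¬ (P D s ↔ 3 * (D % s) * (D / s + 1) < D)).card + (((Icc 1 D).filter fun s => A < D / s).card
      + ((Icc 1 D).filter fun s => D / s ≤ A ∧ 3 * (D % s) * (D / s + 1) < D).card) := by
    exact_mod_cast (card_le_card fun s hs => by
      simp only [mem_union, mem_filter, mem_Icc] at *
      by_contra hc
      have : 1 ≤ s := by omega
      have := lt_or_ge A (D / s)
      tauto).trans ((card_union_le _ _).trans (Nat.add_le_add_left (card_union_le _ _) _))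
  have t8 : (((Icc 1 D).filter fun s => D / s ≤ A ∧ 3 * (D % s) * (D / s + 1) < D).card : ℝ) ≤
      ((Icc 2 D).filter fun s => ¬ (P D s ↔ 3 * (D % s) * (D / s + 1) < D)).card
      + (((Icc 2 D).filter fun s => P D s).card + ({1} : Finset ℕ).card) := by
    exact_mod_cast (card_le_card fun s hs => by
      simp only [mem_union, mem_filter, mem_Icc, mem_singleton] at *
      by_contra hc
      have : s = 1 ∨ 2 ≤ s := by omega
      tauto).trans ((card_union_le _ _).trans (Nat.add_le_add_left (card_union_le _ _) _))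
  have t9 : (D : ℝ) / 3 * (1 / (A + 1)) ≤ ε * D / 8 := by
    rw [mul_one_div, div_le_iff₀ hA0]
    nlinarith [mul_le_mul_of_nonneg_right hA hD0, mul_nonneg hε.le hD0]
  have t10 : (0 : ℝ) ≤ D / 3 * (1 / (A + 1)) := by positivity
  rw [card_singleton, Nat.cast_one] at t8
  rw [abs_le] at t6 ⊢
  constructor <;> nlinarith [t6.1, t6.2]

lemma ncard_shift (D : ℕ) (P : ℕ → Prop) : {om | 3 ≤ om ∧ om ≤ D + 1 ∧ P om}.ncard
    = ((Icc 2 D).filter fun s => P (s + 1)).card := by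
  rw [← card_image_of_injective _ (add_left_injective 1), ← Set.ncard_coe_finset]
  congr 1
  ext om
  simp only [Set.mem_ofPred_eq, coe_image, coe_filter, mem_Icc, Set.mem_image]
  constructor
  · rintro ⟨h1, h2, h3⟩
    obtain ⟨s, rfl⟩ : ∃ s, om = s + 1 := ⟨om - 1, by omega⟩
    exact ⟨s, ⟨⟨by omega, by omega⟩, h3⟩, rfl⟩
  · rintro ⟨s, ⟨⟨h1, h2⟩, h3⟩, rfl⟩
    exact ⟨by omega, by omega, h3⟩

end Pool.Agent.Lib.MP_1b6faf_co.H8
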