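import Pool.Agent.Lib.MP_1b6faf_co.H8Graph

/-!
From a local bound for the cluster of every rich vertex to the global bound.
-/

namespace Pool.Agent.Lib.MP_1b6faf_co.H8

open Finset
open scoped Classical

variable {V : Type*} [Fintype V] {G : SimpleGraph V}

/-- neighbours outside `C` -/
noncomputable def out (G : SimpleGraph V) (C : Finset V) (u : V) : Finset V := nb G u (univ \ C)

lemma mem_out {C : Finset V} {u w : V} : w ∈ out G C u ↔ w ∉ C ∧ G.Adj u w := by
  simp [out, mem_nb]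

/-- balance of a cluster -/
noncomputable def Bal (G : SimpleGraph V) (j : ℕ) (τ p : ℝ) (C O : Finset V) : ℝ :=
  (j + 1) * kc G (j + 1) C + ∑ w ∈ O, ((j + 1) * kc G j (nb G w C) - (nb G w C).card * p)
    + (j + 1) * (Yc G (j + 1) C).card - C.card * τ

/-- a cluster around `v` whose balance is not positive -/
def Good (G : SimpleGraph V) (D n0 j : ℕ) (τ p : ℝ) (v : V) (C : Finset V) : Prop :=
  v ∈ C ∧ (∀ y ∈ C, D < 2 * (nb G y (C ∩ nb G v univ)).card) ∧ ∀ O, Disjoint O C →
    Bal G j τ p C O < 0 ∨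
      (Bal G j τ p C O ≤ 0 ∧ C.card ≤ n0 ∧ ∀ u ∈ C, (out G C u).card ≤ 1)

lemma Yc_out {t : ℕ} {C Q : Finset V} (hQ : Q ∈ Yc G t C) {u : V} (hu : u ∈ Q) (huC : u ∈ C) :
    Q \ C ⊆ out G C u ∧ 2 ≤ (out G C u).card := by
  obtain ⟨a1, -, a3⟩ := mem_filter.1 hQ
  have : Q \ C ⊆ out G C u := fun w hw => mem_out.2 ⟨(mem_sdiff.1 hw).2,
    (mem_clq.1 a1).2.1 hu (mem_sdiff.1 hw).1 fun e => (mem_sdiff.1 hw).2 (e ▸ huC)⟩
  exact ⟨this, a3.trans (card_le_card this)⟩

lemma Yc_empty {t : ℕ} {C : Finset V} (h : ∀ u ∈ C, (out G C u).card ≤ 1) : Yc G t C = ∅ :=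
  eq_empty_of_forall_notMem fun Q hQ => by
    obtain ⟨u, hu⟩ := (mem_filter.1 hQ).2.1
    have := (Yc_out hQ (mem_inter.1 hu).1 (mem_inter.1 hu).2).2
    have := h u (mem_inter.1 hu).2
    omega

theorem glob {D n0 s j : ℕ} {τ p : ℝ} (hj : 2 ≤ j) (hdeg : ∀ v, (nb G v univ).card ≤ D)
    (hcf : CF G (s + 1) univ) (hO : ∀ b, 1 ≤ b → b ≤ D → Z s (D - b) j < τ - b * p)
    (hC : ∀ v, τ ≤ kc G j (nb G v univ) → ∃ C, Good G D n0 j τ p v C) :
    (j + 1) * kc G (j + 1) univ ≤ (univ : Finset V).card * τ ∧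
      ((j + 1) * kc G (j + 1) univ = (univ : Finset V).card * τ →
        n0 * kc G 3 univ ≤ (univ : Finset V).card * Z (s + 1) n0 3) := by
  obtain ⟨F, hF, hmax⟩ := exists_max_image ((univ : Finset (Finset (Finset V))).filter fun F =>
    (∀ C ∈ F, ∃ v, Good G D n0 j τ p v C) ∧ ∀ C ∈ F, ∀ C' ∈ F, C ≠ C' → Disjoint C C') card
    ⟨∅, by simp⟩
  obtain ⟨hG, hd⟩ := (mem_filter.1 hF).2
  obtain ⟨O, hOd⟩ : ∃ O : Finset V, ∀ x, x ∈ O ↔ ∀ C ∈ F, x ∉ C :=
    ⟨univ.filter fun x => ∀ C ∈ F, x ∉ C, fun x => by simp⟩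
  have hO1 : ∀ x, x ∉ O → ∃ C ∈ F, x ∈ C := fun x hx => by
    rw [hOd] at hx
    push Not at hx
    exact hx
  have hO2 : ∀ C ∈ F, Disjoint O C := fun C hC => disjoint_left.2 fun x hx => (hOd x).1 hx C hC
  have hsplit : ∀ S : Finset V, S.card = ∑ C ∈ F, (S ∩ C).card + (S ∩ O).card := by
    intro S
    rw [← card_biUnion fun C hC C' hC' hne =>
      (hd C hC C' hC' hne).mono inter_subset_right inter_subset_right, ← card_union_of_disjoint]
    · congr 1
      ext x
      simp only [mem_union, mem_biUnion, mem_inter]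
      constructor
      · intro hx
        by_cases c : x ∈ O
        · exact Or.inr ⟨hx, c⟩
        · obtain ⟨C, h1, h2⟩ := hO1 x c
          exact Or.inl ⟨C, h1, hx, h2⟩
      · rintro (⟨C, -, h, -⟩ | ⟨h, -⟩) <;> exact h
    · rw [disjoint_biUnion_left]
      exact fun C hC => (hO2 C hC).symm.mono inter_subset_right inter_subset_right
  have hnb : ∀ (w : V) (C : Finset V), nb G w univ ∩ C = nb G w C := fun w C => by
    ext x; simp [mem_nb, and_comm]
  have hw : ∀ w ∈ O, kc G j (nb G w O) + ∑ C ∈ F, (nb G w C).card * p < τ := by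
    intro w hw
    have h1 := hsplit (nb G w univ)
    simp only [hnb] at h1
    have h2 := hdeg w
    rw [← sum_mul, ← Nat.cast_sum]
    rcases Nat.eq_zero_or_pos (∑ C ∈ F, (nb G w C).card) with c | c
    · rw [c, Nat.cast_zero, zero_mul, add_zero]
      refine (kc_mono j (nb_mono w (subset_univ O))).trans_lt (not_le.1 fun hr => ?_)
      obtain ⟨C', hC'⟩ := hC w hr
      have hn : C' ∉ F := fun h => (hOd w).1 hw C' h hC'.1
      obtain ⟨C, hCF, hne⟩ : ∃ C ∈ F, ¬ Disjoint C C' := by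
        by_contra hc
        push Not at hc
        have := hmax (insert C' F) (mem_filter.2 ⟨mem_univ _, fun C h => ?_, fun C h C2 h2 hne => ?_⟩)
        · rw [card_insert_of_notMem hn] at this
          omega
        · rcases mem_insert.1 h with rfl | h
          · exact ⟨w, hC'⟩
          · exact hG C h
        · rcases mem_insert.1 h with e1 | e1 <;> rcases mem_insert.1 h2 with e2 | e2
          · exact absurd (e1.trans e2.symm) hne
          · exact e1 ▸ (hc _ e2).symm
          · exact e2 ▸ hc _ e1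
          · exact hd _ e1 _ e2 hne
      obtain ⟨y, y1, y2⟩ := not_disjoint_iff.1 hne
      obtain ⟨v, hv⟩ := hG C hCF
      have a1 := hv.2.1 y y1
      have a2 := hC'.2.1 y y2
      have a3 : Disjoint (nb G y (C ∩ nb G v univ)) (nb G y (C' ∩ nb G w univ)) := by
        refine disjoint_left.2 fun z z1 z2 => ?_
        have b1 : z ∈ nb G w C := mem_nb.2 ⟨(mem_inter.1 (mem_nb.1 z1).1).1,
          (mem_nb.1 (mem_inter.1 (mem_nb.1 z2).1).2).2⟩
        have b2 := (sum_eq_zero_iff.1 c) C hCF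
        rw [card_eq_zero.1 b2] at b1
        exact notMem_empty _ b1
      have a4 := card_le_card (union_subset (nb_mono y (subset_univ (C ∩ nb G v univ)))
        (nb_mono y (subset_univ (C' ∩ nb G w univ))) : _ ⊆ nb G y univ)
      rw [card_union_of_disjoint a3] at a4
      have := hdeg y
      omega
    · have h3 := hO _ c (by omega)
      have h4 := zyk' j ((hcf.nb (mem_univ w)).mono (nb_mono w (subset_univ O)))
        (show (nb G w O).card ≤ D - ∑ C ∈ F, (nb G w C).card by omega)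
      linarith
  have hn : ((univ : Finset V).card : ℝ) = ∑ C ∈ F, (C.card : ℝ) + O.card := by
    have := hsplit univ
    simp only [univ_inter] at this
    exact_mod_cast this
  have key : (j + 1) * kc G (j + 1) univ ≤ (univ : Finset V).card * τ + ∑ C ∈ F, Bal G j τ p C O
      + ∑ w ∈ O, (kc G j (nb G w O) + ∑ C ∈ F, (nb G w C).card * p - τ) := by
    have h1 := mul_le_mul_of_nonneg_left (account (G := G) j hj F O hO1 hd)
      (show (0 : ℝ) ≤ j + 1 by positivity)
    rw [mul_add, kc_succ j O, mul_sum, sum_congr rfl (g := fun C => Bal G j τ p C O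
      + ∑ w ∈ O, (nb G w C).card * p + C.card * τ) (fun C hC => by
        rw [sdiff_eq_self_of_disjoint (hO2 C hC), Bal, sum_sub_distrib, ← mul_sum]; ring),
      sum_add_distrib, sum_add_distrib, sum_comm, ← sum_mul] at h1
    rw [sum_sub_distrib, sum_add_distrib, sum_const, nsmul_eq_mul, hn]
    linarith
  have b1 : ∀ C ∈ F, Bal G j τ p C O ≤ 0 := fun C hC => by
    obtain ⟨v, hv⟩ := hG C hC
    exact (hv.2.2 O (hO2 C hC)).elim le_of_lt And.left
  have b2 : ∀ w ∈ O, kc G j (nb G w O) + ∑ C ∈ F, (nb G w C).card * p - τ ≤ 0 :=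
    fun w h => by linarith [hw w h]
  have b3 := sum_nonpos b1
  have b4 := sum_nonpos b2
  refine ⟨by linarith, fun he => ?_⟩
  have c1 : O = ∅ := eq_empty_of_forall_notMem fun w h => by
    have := (sum_eq_zero_iff_of_nonpos b2).1 (by linarith) w h
    linarith [hw w h]
  have c2 : ∀ C ∈ F, C.card ≤ n0 ∧ ∀ u ∈ C, (out G C u).card ≤ 1 := fun C hC => by
    obtain ⟨v, hv⟩ := hG C hC
    have := (sum_eq_zero_iff_of_nonpos b1).1 (by linarith) C hC
    exact (hv.2.2 O (hO2 C hC)).elim (fun h => absurd this h.ne) And.right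
  have h1 := mul_le_mul_of_nonneg_left (account (G := G) 2 le_rfl F O hO1 hd)
    (show (0 : ℝ) ≤ n0 by positivity)
  rw [hn, c1, card_empty, Nat.cast_zero, add_zero, sum_mul]
  rw [c1, kc_empty, add_zero, mul_sum] at h1
  refine h1.trans (sum_le_sum fun C hC => ?_)
  rw [Yc_empty (c2 C hC).2, empty_sdiff, sum_empty, card_empty, Nat.cast_zero, add_zero, add_zero]
  exact (mul_le_mul_of_nonneg_left (zyk 3 C _ (hcf.mono (subset_univ C))) (Nat.cast_nonneg _)).trans
    (dens_mono (s + 1) 2 (c2 C hC).1)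

end Pool.Agent.Lib.MP_1b6faf_co.H8
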