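import Pool.Agent.Lib.MP_1b6faf_co.H8Z

/-!
Exact Zykov bound, Caro-Wei bound, first order upper bound, and the accounting over clusters.
-/

namespace Pool.Agent.Lib.MP_1b6faf_co.H8

open Finset
open scoped Classical

variable {V : Type*} {G : SimpleGraph V}

/-- cliques of size `k` inside `S` -/
noncomputable def clq (G : SimpleGraph V) (k : ℕ) (S : Finset V) : Finset (Finset V) :=
  (cl G S).filter (fun K => K.card = k)

lemma mem_clq {k : ℕ} {S K : Finset V} :
    K ∈ clq G k S ↔ K ⊆ S ∧ G.IsClique (K : Set V) ∧ K.card = k := by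
  simp [clq, mem_cl, and_assoc]

lemma kc_clq (k : ℕ) (S : Finset V) : kc G k S = (clq G k S).card := kc_eq_card k S

lemma self_mem_nn {x : V} {S : Finset V} (hx : x ∈ S) : x ∈ nn G x S := mem_nn.2 ⟨hx, G.irrefl⟩

lemma nn_pos {x : V} {S : Finset V} (hx : x ∈ S) : 1 ≤ (nn G x S).card :=
  card_pos.2 ⟨x, self_mem_nn hx⟩

/-- cliques containing a fixed set, with the rest inside `T` -/
lemma card_le_kc (F : Finset (Finset V)) (R T : Finset V) (m : ℕ)
    (h : ∀ Q ∈ F, G.IsClique (Q : Set V) ∧ R ⊆ Q ∧ Q.card = m + R.card ∧ Q \ R ⊆ T) :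
    (F.card : ℝ) ≤ kc G m T := by
  rw [kc_clq, Nat.cast_le]
  refine card_le_card_of_injOn (fun Q => Q \ R) (fun Q hQ => ?_) fun Q hQ Q' hQ' e => ?_
  · obtain ⟨h1, h2, h3, h4⟩ := h Q hQ
    refine mem_coe.2 (mem_clq.2 ⟨h4, h1.subset (coe_subset.2 sdiff_subset), ?_⟩)
    rw [card_sdiff_of_subset h2]
    omega
  · have e' : Q \ R = Q' \ R := e
    rw [← sdiff_union_of_subset (h Q hQ).2.1, e', sdiff_union_of_subset (h Q' hQ').2.1]

lemma kc_rec (k : ℕ) (x : V) (S : Finset V) :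
    kc G (k + 1) S ≤ kc G (k + 1) (S.erase x) + kc G k (nb G x S) := by
  have h1 := card_le_kc (G := G) ((clq G (k + 1) S).filter (fun Q => x ∈ Q)) {x} (nb G x S) k
    (fun Q hQ => by
      obtain ⟨a1, a2⟩ := mem_filter.1 hQ
      obtain ⟨b1, b2, b3⟩ := mem_clq.1 a1
      refine ⟨b2, by simpa using a2, by simpa using b3, fun y hy => ?_⟩
      obtain ⟨c1, c2⟩ := mem_sdiff.1 hy
      exact mem_nb.2 ⟨b1 c1, b2 a2 c1 (fun e => c2 (by simp [e]))⟩)
  have h2 : (clq G (k + 1) S).filter (fun Q => ¬ x ∈ Q) ⊆ clq G (k + 1) (S.erase x) := by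
    intro Q hQ
    obtain ⟨a1, a2⟩ := mem_filter.1 hQ
    obtain ⟨b1, b2, b3⟩ := mem_clq.1 a1
    exact mem_clq.2 ⟨subset_erase.2 ⟨b1, a2⟩, b2, b3⟩
  have h3 := card_filter_add_card_filter_not (s := clq G (k + 1) S) (fun Q => x ∈ Q)
  have h4 : (((clq G (k + 1) S).filter (fun Q => ¬ x ∈ Q)).card : ℝ)
      ≤ (clq G (k + 1) (S.erase x)).card := by exact_mod_cast card_le_card h2
  rw [kc_clq (k + 1) S, kc_clq (k + 1), ← h3]
  push_cast
  linarith

lemma caro_wei (q : ℕ) (S : Finset V) (h : CF G q S) :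
    ∑ u ∈ S, (1 : ℝ) / (nn G u S).card ≤ q := by
  induction q generalizing S with
  | zero =>
    rw [eq_empty_of_forall_notMem (s := S) fun x hx => by
      simpa using h {x} (by simpa using hx) (by simp)]
    simp
  | succ q ih =>
    rcases S.eq_empty_or_nonempty with rfl | hne
    · simp only [sum_empty]; positivity
    obtain ⟨u, hu, hmin⟩ := exists_min_image S (fun u => (nn G u S).card) hne
    have h1 := ih _ (h.nb hu)
    have h2 : ∑ y ∈ nb G u S, (1 : ℝ) / (nn G y S).card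
        ≤ ∑ y ∈ nb G u S, (1 : ℝ) / (nn G y (nb G u S)).card :=
      sum_le_sum fun y hy => one_div_le_one_div_of_le (by exact_mod_cast nn_pos hy)
        (by exact_mod_cast card_le_card (nn_mono y (nb_subset _ _)))
    have hp : (0 : ℝ) < (nn G u S).card := by exact_mod_cast nn_pos hu
    have h3 : ∑ y ∈ nn G u S, (1 : ℝ) / (nn G y S).card ≤ ∑ y ∈ nn G u S, (1 : ℝ) / (nn G u S).card :=
      sum_le_sum fun y hy => one_div_le_one_div_of_le hp
        (by exact_mod_cast hmin y (nn_subset _ _ hy))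
    rw [sum_const, nsmul_eq_mul, mul_one_div_cancel hp.ne'] at h3
    have h4 := sum_filter_add_sum_filter_not S (fun y => G.Adj u y)
      (fun y => (1 : ℝ) / (nn G y S).card)
    rw [← h4]
    push_cast
    exact add_le_add (h2.trans h1) h3

lemma kc_empty (k : ℕ) : kc G (k + 1) (∅ : Finset V) = 0 := by
  have := kc_succ (G := G) k ∅
  rw [sum_empty, mul_eq_zero] at this
  exact this.resolve_left (by positivity)

theorem zyk (j : ℕ) (S : Finset V) (q : ℕ) (h : CF G q S) : kc G j S ≤ Z q S.card j := by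
  induction hN : S.card using Nat.strong_induction_on generalizing S q j with
  | _ N ih =>
  rcases j with _ | j
  · simp [kc_zero]
  rcases N with _ | N
  · rw [card_eq_zero.1 hN, kc_empty]; exact Z_nonneg _ _ _
  rcases q with _ | q
  · obtain ⟨x, hx⟩ := card_pos.1 (show 0 < S.card by omega)
    simpa using h {x} (by simpa using hx) (by simp)
  obtain ⟨a, r, hr, rfl⟩ := decomp q N
  obtain ⟨u, hu, hd⟩ : ∃ u ∈ S, a + 1 ≤ (nn G u S).card := by
    by_contra hc
    push Not at hc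
    have h1 := caro_wei _ S h
    have h2 := card_nsmul_le_sum S (fun u => (1 : ℝ) / (nn G u S).card) (1 / a) fun u hu =>
      one_div_le_one_div_of_le (by exact_mod_cast nn_pos hu)
        (by exact_mod_cast Nat.lt_succ_iff.1 (hc u hu))
    obtain ⟨x, hx⟩ := card_pos.1 (show 0 < S.card by omega)
    have ha : (0 : ℝ) < a := by
      have := hc x hx
      have := nn_pos (G := G) hx
      exact_mod_cast (show 0 < a by omega)
    rw [nsmul_eq_mul, hN, mul_one_div, div_le_iff₀ ha] at h2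
    push_cast at h1 h2
    nlinarith [mul_le_mul_of_nonneg_right h1 ha.le, Nat.cast_nonneg (α := ℝ) r]
  have h1 := ih ((q + 1) * a + r) (by omega) (j + 1) (S.erase u) (q + 1) (h.mono (erase_subset _ _))
    (by rw [card_erase_of_mem hu, hN, Nat.add_sub_cancel])
  have h3 := card_nb_add_nn (G := G) u S
  have h2 := ih _ (by omega) j (nb G u S) q (h.nb hu) rfl
  have h4 := Z_mono q j (show (nb G u S).card ≤ q * a + r by rw [hN, add_mul] at h3; omega)
  rw [Z_rec' hr]
  linarith [kc_rec (G := G) j u S]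

lemma zyk' (j : ℕ) {S : Finset V} {q N : ℕ} (h : CF G q S) (hN : S.card ≤ N) :
    kc G j S ≤ Z q N j := (zyk j S q h).trans (Z_mono q j hN)

lemma kc_fact (j : ℕ) (S : Finset V) : (j.factorial : ℝ) * kc G j S ≤ (S.card : ℝ) ^ j :=
  (mul_le_mul_of_nonneg_left (zyk j S S.card fun _ h _ => card_le_card h)
    (Nat.cast_nonneg _)).trans (Z_le_pow _ _ _)

lemma sum_nn_comm (A B : Finset V) :
    ∑ u ∈ A, ((nn G u B).card : ℝ) = ∑ y ∈ B, ((nn G y A).card : ℝ) := by
  simp_rw [nn, card_filter]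
  push_cast
  rw [sum_comm]
  exact sum_congr rfl fun y _ => sum_congr rfl fun u _ => by rw [G.adj_comm]

lemma sum_nb_comm (A B : Finset V) :
    ∑ u ∈ A, ((nb G u B).card : ℝ) = ∑ y ∈ B, ((nb G y A).card : ℝ) := by
  simp_rw [nb, card_filter]
  push_cast
  rw [sum_comm]
  exact sum_congr rfl fun y _ => sum_congr rfl fun u _ => by rw [G.adj_comm]

lemma nn_split (y u : V) (S : Finset V) :
    ((nn G y S).card : ℝ) = (nn G y (nb G u S)).card + (nn G y (nn G u S)).card := by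
  have := card_filter_add_card_filter_not (s := nn G y S) (fun z => G.Adj u z)
  rw [← this]
  push_cast
  congr 3 <;> ext z <;> simp [nn, nb] <;> tauto

lemma miss_nb (u : V) (S : Finset V) {μ : ℝ} (hμ : ∀ y ∈ S, ((nn G y S).card : ℝ) ≤ μ) :
    ∑ y ∈ S, ((nn G y S).card : ℝ) ≤ ∑ y ∈ nb G u S, ((nn G y (nb G u S)).card : ℝ)
      + 2 * μ * (nn G u S).card := by
  have h1 := sum_filter_add_sum_filter_not S (fun y => G.Adj u y)
    (fun y => ((nn G y S).card : ℝ))
  have h2 : ∑ y ∈ nn G u S, ((nn G y S).card : ℝ) ≤ (nn G u S).card * μ := by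
    rw [← nsmul_eq_mul]
    exact sum_le_card_nsmul _ _ _ fun y hy => hμ y (nn_subset _ _ hy)
  have h3 : ∑ y ∈ nb G u S, ((nn G y (nn G u S)).card : ℝ) ≤ (nn G u S).card * μ := by
    rw [sum_nn_comm, ← nsmul_eq_mul]
    exact sum_le_card_nsmul _ _ _ fun y hy => le_trans
      (by exact_mod_cast card_le_card (nn_mono y (nb_subset _ _))) (hμ y (nn_subset _ _ hy))
  have h4 : ∑ y ∈ nb G u S, ((nn G y S).card : ℝ) = ∑ y ∈ nb G u S,
      (((nn G y (nb G u S)).card : ℝ) + (nn G y (nn G u S)).card) :=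
    sum_congr rfl fun y _ => nn_split y u S
  rw [sum_add_distrib] at h4
  change ∑ y ∈ nb G u S, _ + ∑ y ∈ nn G u S, _ = _ at h1
  linarith

/-- first order upper bound -/
theorem first_order (j : ℕ) : ∃ c : ℝ, 0 ≤ c ∧ ∀ (V : Type) (G : SimpleGraph V) (S : Finset V)
    (X ν α β : ℝ), 0 < X → 0 ≤ ν → 0 ≤ α → S.card = (1 - α) * X →
    ∑ u ∈ S, ((nn G u S).card : ℝ) = β * X ^ 2 → (∀ u ∈ S, ((nn G u S).card : ℝ) ≤ ν * X) →
    j.factorial * kc G j S ≤ X ^ j * (1 - j * α - j.choose 2 * β + c * (α ^ 2 + ν * β)) := by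
  induction j with
  | zero => exact ⟨0, le_rfl, fun V G S X ν α β _ _ _ _ _ _ => by simp [kc_zero]⟩
  | succ j ih =>
    obtain ⟨c, hc, ih⟩ := ih
    have hC : (0 : ℝ) ≤ j.choose 2 := Nat.cast_nonneg _
    refine ⟨j + 3 * j.choose 2 + 3 * c, by positivity, fun V G S X ν α β hX hν hα e1 e2 hm => ?_⟩
    have hβ : 0 ≤ β := by
      have : 0 ≤ β * X ^ 2 := by rw [← e2]; positivity
      exact nonneg_of_mul_nonneg_left this (by positivity)
    have hα1 : α ≤ 1 := by
      have : 0 ≤ (1 - α) * X := by rw [← e1]; positivity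
      linarith [nonneg_of_mul_nonneg_left this hX]
    have hβν : β ≤ ν := by
      have h1 := sum_le_card_nsmul S _ _ hm
      rw [e2, nsmul_eq_mul, e1] at h1
      have : 0 < X ^ 2 := by positivity
      nlinarith [mul_nonneg hα (mul_nonneg hν this.le)]
    have key : ∀ u ∈ S, j.factorial * kc G j (nb G u S) ≤
        X ^ j * (1 - j * α - j.choose 2 * β + c * (2 * α ^ 2 + ν * β))
          + X ^ j / X * (2 * j.choose 2 * ν + 2 * c * ν - j) * (nn G u S).card := by
      intro u hu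
      obtain ⟨y, hy⟩ : ∃ y, y = ((nn G u S).card : ℝ) / X := ⟨_, rfl⟩
      have hy' : ((nn G u S).card : ℝ) = y * X := by rw [hy, div_mul_cancel₀ _ hX.ne']
      have hy0 : 0 ≤ y := by rw [hy]; positivity
      have hyν : y ≤ ν := by rw [hy, div_le_iff₀ hX]; exact hm u hu
      obtain ⟨b, hb⟩ : ∃ b, b = (∑ z ∈ nb G u S, ((nn G z (nb G u S)).card : ℝ)) / X ^ 2 :=
        ⟨_, rfl⟩
      have hb' : ∑ z ∈ nb G u S, ((nn G z (nb G u S)).card : ℝ) = b * X ^ 2 := by
        rw [hb, div_mul_cancel₀ _ (pow_pos hX 2).ne']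
      have hsub : ∀ z, ((nn G z (nb G u S)).card : ℝ) ≤ (nn G z S).card := fun z => by
        exact_mod_cast card_le_card (nn_mono z (nb_subset _ _))
      have a1 := ih V G (nb G u S) X ν (α + y) b hX hν (by positivity)
        (by linarith [card_nb_add_nn' (G := G) u S]) hb'
        (fun z hz => (hsub z).trans (hm z (nb_subset _ _ hz)))
      have a2 : b ≤ β := by
        have : b * X ^ 2 ≤ β * X ^ 2 := by
          rw [← hb', ← e2]
          exact (sum_le_sum fun z _ => hsub z).trans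
            (sum_le_sum_of_subset_of_nonneg (nb_subset _ _) fun _ _ _ => Nat.cast_nonneg _)
        exact le_of_mul_le_mul_right this (by positivity)
      have a3 : β ≤ b + 2 * ν * y := by
        have := miss_nb u S hm
        rw [e2, hb', hy'] at this
        exact le_of_mul_le_mul_right (a := X ^ 2) (by linarith) (by positivity)
      have a4 : (α + y) ^ 2 + ν * b ≤ 2 * α ^ 2 + ν * β + 2 * ν * y := by
        nlinarith [sq_nonneg (α - y), mul_le_mul_of_nonneg_left a2 hν,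
          mul_le_mul_of_nonneg_right hyν hy0]
      refine a1.trans ?_
      rw [hy', show X ^ j / X * (2 * j.choose 2 * ν + 2 * c * ν - j) * (y * X)
        = X ^ j * ((2 * j.choose 2 * ν + 2 * c * ν - j) * y) by field_simp, ← mul_add]
      refine mul_le_mul_of_nonneg_left ?_ (by positivity)
      nlinarith [mul_le_mul_of_nonneg_left a3 hC, mul_le_mul_of_nonneg_left a4 hc]
    have h1 := sum_le_sum key
    rw [← mul_sum, ← kc_succ, sum_add_distrib, sum_const, ← mul_sum, nsmul_eq_mul, e1, e2] at h1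
    rw [Nat.factorial_succ, Nat.choose_succ_succ' j 1, Nat.choose_one_right]
    push_cast
    calc _ = j.factorial * ((j + 1 : ℝ) * kc G (j + 1) S) := by ring
      _ ≤ _ := h1
      _ = X ^ (j + 1) * ((1 - α) * (1 - j * α - j.choose 2 * β + c * (2 * α ^ 2 + ν * β))
          + (2 * j.choose 2 * ν + 2 * c * ν - j) * β) := by field_simp; ring
      _ ≤ _ := by
        refine mul_le_mul_of_nonneg_left ?_ (by positivity)
        have b1 : α * β ≤ α ^ 2 + ν * β := by
          nlinarith [sq_nonneg (α - β), mul_le_mul_of_nonneg_right hβν hβ, mul_nonneg hα hβ]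
        have b2 : 0 ≤ α * (c * (2 * α ^ 2 + ν * β)) := by positivity
        have b3 : 0 ≤ ν * β := by positivity
        have b4 : (0 : ℝ) ≤ j := Nat.cast_nonneg _
        nlinarith [mul_le_mul_of_nonneg_left b1 hC, mul_nonneg b4 b3, mul_nonneg hC (sq_nonneg α),
          mul_nonneg hc (sq_nonneg α)]

variable [Fintype V]

/-- cliques that meet `C` and have at least two vertices outside -/
noncomputable def Yc (G : SimpleGraph V) (t : ℕ) (C : Finset V) : Finset (Finset V) :=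
  (clq G t univ).filter (fun Q => (Q ∩ C).Nonempty ∧ 2 ≤ (Q \ C).card)

theorem account (j : ℕ) (hj : 2 ≤ j) (F : Finset (Finset V)) (O : Finset V)
    (hO : ∀ x, x ∉ O → ∃ C ∈ F, x ∈ C) (hd : ∀ C ∈ F, ∀ C' ∈ F, C ≠ C' → Disjoint C C') :
    kc G (j + 1) univ ≤ ∑ C ∈ F, (kc G (j + 1) C + ∑ w ∈ O \ C, kc G j (nb G w C)
      + (Yc G (j + 1) C).card) + kc G (j + 1) O := by
  let T : Finset V → V → Finset (Finset V) := fun C w =>
    (clq G (j + 1) univ).filter (fun Q => w ∈ Q ∧ Q \ {w} ⊆ C)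
  have h1 : clq G (j + 1) univ ⊆ F.biUnion (fun C => clq G (j + 1) C ∪ (O \ C).biUnion (T C)
      ∪ Yc G (j + 1) C) ∪ clq G (j + 1) O := by
    intro Q hQ
    obtain ⟨-, q2, q3⟩ := mem_clq.1 hQ
    by_cases c0 : Q ⊆ O
    · exact mem_union_right _ (mem_clq.2 ⟨c0, q2, q3⟩)
    refine mem_union_left _ (mem_biUnion.2 ?_)
    obtain ⟨x, hx, hxO⟩ := not_subset.1 c0
    obtain ⟨C, hC, hxC⟩ := hO x hxO
    rcases Nat.lt_or_ge (Q \ C).card 2 with c1 | c1
    swap
    · exact ⟨C, hC, mem_union_right _ (mem_filter.2 ⟨hQ, ⟨x, mem_inter.2 ⟨hx, hxC⟩⟩, c1⟩)⟩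
    rcases Nat.eq_zero_or_pos (Q \ C).card with c2 | c2
    · exact ⟨C, hC, mem_union_left _ (mem_union_left _ (mem_clq.2
        ⟨sdiff_eq_empty_iff_subset.1 (card_eq_zero.1 c2), q2, q3⟩))⟩
    obtain ⟨w, hw⟩ := card_eq_one.1 (show (Q \ C).card = 1 by omega)
    have hw' := mem_sdiff.1 (hw ▸ mem_singleton_self w : w ∈ Q \ C)
    have hs : Q \ {w} ⊆ C := fun y hy => by
      by_contra hc
      exact (mem_sdiff.1 hy).2 (hw ▸ mem_sdiff.2 ⟨(mem_sdiff.1 hy).1, hc⟩)
    by_cases c3 : w ∈ O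
    · exact ⟨C, hC, mem_union_left _ (mem_union_right _ (mem_biUnion.2
        ⟨w, mem_sdiff.2 ⟨c3, hw'.2⟩, mem_filter.2 ⟨hQ, hw'.1, hs⟩⟩))⟩
    obtain ⟨C', hC', hwC⟩ := hO w c3
    refine ⟨C', hC', mem_union_right _ (mem_filter.2 ⟨hQ, ⟨w, mem_inter.2 ⟨hw'.1, hwC⟩⟩, ?_⟩)⟩
    have hdis := hd C hC C' hC' (fun e => hw'.2 (e ▸ hwC))
    have : Q \ {w} ⊆ Q \ C' := fun y hy =>
      mem_sdiff.2 ⟨(mem_sdiff.1 hy).1, disjoint_left.1 hdis (hs hy)⟩
    have h2 := card_le_card this
    rw [card_sdiff_of_subset (by simpa using hw'.1), card_singleton] at h2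
    omega
  have h2 : ∀ C w, ((T C w).card : ℝ) ≤ kc G j (nb G w C) := fun C w =>
    card_le_kc _ {w} _ j fun Q hQ => by
      obtain ⟨a1, a2, a3⟩ := mem_filter.1 hQ
      obtain ⟨-, b2, b3⟩ := mem_clq.1 a1
      refine ⟨b2, by simpa using a2, by simpa using b3, fun y hy => mem_nb.2 ⟨a3 hy, ?_⟩⟩
      exact b2 a2 (mem_sdiff.1 hy).1 (fun e => (mem_sdiff.1 hy).2 (by simp [e]))
  have h3 := (card_le_card h1).trans ((card_union_le _ _).trans (Nat.add_le_add_right
    (card_biUnion_le.trans (sum_le_sum fun C _ => (card_union_le _ _).trans (Nat.add_le_add_right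
      ((card_union_le _ _).trans (Nat.add_le_add_left card_biUnion_le _)) _))) _))
  rw [kc_clq (j + 1) univ, kc_clq (j + 1) O]
  refine le_trans (Nat.cast_le.2 h3) ?_
  push_cast
  gcongr with C _ w _
  · rw [kc_clq]
  · exact h2 C w

end Pool.Agent.Lib.MP_1b6faf_co.H8
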