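import Pool.Agent.Lib.MP_1b6faf_co.H8Small
import Pool.Agent.Lib.MP_1b6faf_co.H8Constr

/-!
Upper bounds on the clique densities for a fixed quotient and a large clique bound.
-/

namespace Pool.Agent.Lib.MP_1b6faf_co.H8

open Finset
open scoped Classical

/-- the Turan graph is extremal for cliques of size `k + 3` -/
def UB (s k a r : ℕ) : Prop := ∀ (V : Type) [Finite V] [Nonempty V] (G : SimpleGraph V),
  (∀ v, (G.neighborSet v).ncard ≤ s * a + r) → G.CliqueFree (s + 1 + 1) →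
    ((G.cliqueSet (k + 3)).ncard : ℝ) / Nat.card V ≤ rho s k a r

/-- extremal graphs for cliques of size `k + 3` have no more triangles than the Turan graph -/
def UE (s k a r : ℕ) : Prop := ∀ (V : Type) [Finite V] [Nonempty V] (G : SimpleGraph V),
  (∀ v, (G.neighborSet v).ncard ≤ s * a + r) → G.CliqueFree (s + 1 + 1) →
    ((G.cliqueSet (k + 3)).ncard : ℝ) / Nat.card V = rho s k a r →
    ((G.cliqueSet 3).ncard : ℝ) / Nat.card V ≤ rho s 0 a r

lemma rho_eq {s a r : ℕ} (hr : r ≤ s + 1) (k : ℕ) :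
    rho s k a r = Z (s + 1) ((s + 1) * a + r) (k + 3) / ((s + 1) * a + r) := by
  rw [rho, Z_eq hr]

lemma ub_zero (s k : ℕ) {a : ℕ} (ha : 1 ≤ a) : UB s k a 0 := by
  intro V _ _ G h1 h2
  let _ := Fintype.ofFinite V
  have hn : (0 : ℝ) < (univ : Finset V).card := by exact_mod_cast card_pos.2 univ_nonempty
  have ha' : (1 : ℝ) ≤ a := by exact_mod_cast ha
  have a1 := kc_succ (G := G) (k + 2) univ
  have a2 := sum_le_card_nsmul univ (fun v => kc G (k + 2) (nb G v univ)) _ fun v _ =>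
    zyk' (k + 2) (((cliqueFree_iff_CF G _).1 h2).nb (mem_univ v)) (ncard_nbr G v ▸ h1 v)
  have a3 := Z_double (q := s) (a := a) (r := 0) (Nat.zero_le _) (k + 2)
  rw [ncard_clique, Nat.card_eq_fintype_card, ← card_univ, rho_eq (Nat.zero_le _),
    div_le_div_iff₀ hn (by positivity)]
  rw [nsmul_eq_mul, ← a1] at a2
  refine le_of_mul_le_mul_left ?_ (show (0 : ℝ) < (k + 2 : ℕ) + 1 by positivity)
  rw [← mul_assoc, ← mul_assoc, a3]
  push_cast at a2 ⊢
  nlinarith [mul_le_mul_of_nonneg_left a2 (show (0 : ℝ) ≤ (s + 1) * a by positivity)]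

lemma conv (x : Par) {k : ℕ} (hk : x.k = k + 1) {V : Type} [Fintype V] [Nonempty V]
    (G : SimpleGraph V) :
    (((x.k + 1 : ℕ) + 1) * kc G (x.k + 1 + 1) univ ≤ (univ : Finset V).card * x.τ →
      ((G.cliqueSet (k + 3)).ncard : ℝ) / Nat.card V ≤ rho (x.q + 1) k x.a (x.r + 1)) ∧
    (((G.cliqueSet (k + 3)).ncard : ℝ) / Nat.card V = rho (x.q + 1) k x.a (x.r + 1) →
      ((x.k + 1 : ℕ) + 1) * kc G (x.k + 1 + 1) univ = (univ : Finset V).card * x.τ) ∧
    (x.n * kc G 3 univ ≤ (univ : Finset V).card * Z (x.q + 1 + 1) x.n 3 →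
      ((G.cliqueSet 3).ncard : ℝ) / Nat.card V ≤ rho (x.q + 1) 0 x.a (x.r + 1)) := by
  have hn : (0 : ℝ) < (univ : Finset V).card := by exact_mod_cast card_pos.2 univ_nonempty
  have e : (((x.q + 1 : ℕ) : ℝ) + 1) * x.a + (x.r + 1 : ℕ) = x.n := by rw [x.n_eq]; push_cast; ring
  have hr : x.r + 1 ≤ x.q + 1 + 1 := by have := x.hr; omega
  have a1 := x.τ_id
  have hx := x.npos
  rw [ncard_clique, ncard_clique, Nat.card_eq_fintype_card, ← card_univ, rho_eq hr, rho_eq hr, e,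
    ← x.n_eq, div_le_div_iff₀ hn hx, div_le_div_iff₀ hn hx, div_eq_div_iff hn.ne' hx.ne',
    show k + 3 = x.k + 1 + 1 by omega]
  push_cast
  refine ⟨fun h => le_of_mul_le_mul_left ?_ (show (0 : ℝ) < x.k + 1 + 1 by positivity),
    fun h => mul_right_cancel₀ hx.ne' ?_, fun h => by linarith⟩
  · rw [← mul_assoc, ← mul_assoc, a1]
    linarith [mul_le_mul_of_nonneg_right h hx.le]
  · rw [mul_assoc, h, ← mul_assoc, a1]
    ring

lemma inC (x : Par) {V : Type} [Fintype V] {G : SimpleGraph V}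
    (h1 : ∀ v, (G.neighborSet v).ncard ≤ (x.q + 1) * x.a + (x.r + 1))
    (h2 : G.CliqueFree (x.q + 1 + 1 + 1)) : InC G x :=
  ⟨fun v => by rw [x.Δ_eq, ← ncard_nbr]; exact h1 v, (cliqueFree_iff_CF G _).1 h2⟩

theorem pos (a : ℕ) {ε : ℝ} (hε : 0 < ε) : ∃ Q : ℕ, ∀ s r k : ℕ, 1 ≤ a → Q ≤ s → r < s → k + 2 ≤ s →
    3 * r * (a + 1) ≤ (1 - ε) * (s * a + r) → UB s k a r := by
  obtain ⟨K, hK⟩ := big a
  have h1 := fun k : ℕ => small a (k + 1) (θ := 1 / 3) (ε := ε / 3) (by positivity) (by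
    rw [one_div, inv_pow, mul_inv_le_iff₀ (by positivity), one_mul, pow_succ]
    have := one_add_mul_le_pow (show (-2 : ℝ) ≤ 2 by norm_num) k
    push_cast
    norm_num at this
    linarith [Nat.cast_nonneg (α := ℝ) k]) (by push_cast; linarith [Nat.cast_nonneg (α := ℝ) k])
  choose Q hQ using h1
  refine ⟨(range K).sup Q + 4, fun s r k ha hs hr hk h3 => ?_⟩
  rcases r with _ | r
  · exact ub_zero s k ha
  obtain ⟨q, rfl⟩ : ∃ q, s = q + 1 := ⟨s - 1, by omega⟩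
  obtain ⟨x, rfl, rfl, rfl, h4⟩ : ∃ x : Par, x.q = q ∧ x.a = a ∧ x.r = r ∧ x.k = k + 1 :=
    ⟨⟨q, a, r, k + 1, ha, by omega, by omega, by omega, by omega⟩, rfl, rfl, rfl, rfl⟩
  intro V _ _ G g1 g2
  let _ := Fintype.ofFinite V
  have e : ((x.q + 1 : ℕ) : ℝ) * x.a + (x.r + 1 : ℕ) = x.Δ := by rw [x.Δ_eq]; push_cast; ring
  rw [e] at h3
  push_cast at h3
  refine (conv x h4 G).1 ?_
  rcases le_or_gt K k with c | c
  · exact hK x rfl (by omega) (by nlinarith [mul_pos hε x.Δpos]) V G (inC x g1 g2)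
  · refine (hQ k x rfl h4 ?_ ?_ V G (inC x g1 g2)).1
    · have := le_sup (f := Q) (mem_range.2 c)
      have := x.qN
      unfold Par.Δ
      omega
    · refine le_of_mul_le_mul_right ?_ x.npos
      have : 0 ≤ 1 - ε := by
        by_contra hc
        nlinarith [mul_pos (show (0 : ℝ) < x.r + 1 by positivity) (show (0 : ℝ) < x.a + 1 by positivity),
          mul_neg_of_neg_of_pos (not_le.1 hc) x.Δpos]
      rw [x.φn, x.nR]
      nlinarith [mul_nonneg this (Nat.cast_nonneg (α := ℝ) x.a)]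

theorem neg (a : ℕ) {ε : ℝ} (hε : 0 < ε) (hε1 : ε ≤ 1) : ∃ Q : ℕ, ∀ s r : ℕ, 1 ≤ a → Q ≤ s →
    r ≤ (1 - ε) * s → (1 + ε) * (s * a + r) ≤ 3 * r * (a + 1) →
    (∃ k, k + 2 ≤ s ∧ UB s k a r ∧ UE s k a r) ∧
      ∃ (G : SimpleGraph ℕ) (S : Finset ℕ), Wit s a r G S ∧ rho s 0 a r * S.card < kc G 3 S := by
  obtain ⟨k, k1, k2⟩ : ∃ k : ℕ, (((k + 1 : ℕ) : ℝ) + 2) * (1 - ε / 6) ^ (k + 1) ≤ 1 ∧ 12 / ε ≤ k := by
    have := (tendsto_self_mul_const_pow_of_lt_one (r := 1 - ε / 6) (by linarith)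
      (by linarith)).eventually (ge_mem_nhds (show (0 : ℝ) < 1 / 4 by norm_num))
    obtain ⟨k, b1, b2, b3⟩ := (this.and ((tendsto_natCast_atTop_atTop (R := ℝ)).eventually_ge_atTop
      (12 / ε) |>.and (Filter.eventually_ge_atTop 1))).exists
    refine ⟨k, ?_, b2⟩
    have b4 : (1 : ℝ) ≤ k := by exact_mod_cast b3
    have b5 : (0 : ℝ) ≤ (1 - ε / 6) ^ k := pow_nonneg (by linarith) _
    rw [pow_succ]
    push_cast
    nlinarith [mul_le_mul_of_nonneg_right b4 b5, mul_nonneg b5 hε.le,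
      mul_nonneg (mul_nonneg b5 hε.le) (Nat.cast_nonneg (α := ℝ) k)]
  rw [div_le_iff₀ hε] at k2
  obtain ⟨Q, hQ⟩ := small a (k + 1) (θ := 1 - ε / 6) (ε := ε / 6) (by positivity) k1 (by
    push_cast; linarith)
  obtain ⟨Q', hQ'⟩ := exists_nat_gt ((2 * a + 5) / ε)
  rw [div_lt_iff₀ hε] at hQ'
  refine ⟨Q + Q' + k + 4, fun s r ha hs h1 h2 => ?_⟩
  have ha' : (1 : ℝ) ≤ a := by exact_mod_cast ha
  have hs' : (Q' : ℝ) ≤ s := by exact_mod_cast (by omega)
  have h3 : 2 * (a : ℝ) + 5 < s * ε := hQ'.trans_le (mul_le_mul_of_nonneg_right hs' hε.le)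
  have h4 : r + 2 ≤ s := by
    have : (r : ℝ) + 2 ≤ s := by linarith
    exact_mod_cast this
  have hs0 : (0 : ℝ) < s := by exact_mod_cast (by omega)
  constructor
  · rcases r with _ | r
    · exfalso
      push_cast at h2
      nlinarith [mul_pos hs0 (show (0 : ℝ) < a by linarith)]
    obtain ⟨q, rfl⟩ : ∃ q, s = q + 1 := ⟨s - 1, by omega⟩
    obtain ⟨x, rfl, rfl, rfl, h5⟩ : ∃ x : Par, x.q = q ∧ x.a = a ∧ x.r = r ∧ x.k = k + 1 :=
      ⟨⟨q, a, r, k + 1, ha, by omega, by omega, by omega, by omega⟩, rfl, rfl, rfl, rfl⟩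
    have h6 := hQ x rfl h5 (by have := x.qN; unfold Par.Δ; omega) (by
      refine le_of_mul_le_mul_right ?_ x.npos
      rw [x.φn, x.nR']
      push_cast at h1 h4 hs0
      have b1 := mul_le_mul_of_nonneg_right h1 (Nat.cast_nonneg (α := ℝ) x.a)
      have b2 : (x.q + 2) * x.a + x.r + 1 ≤ 3 * ((x.q + 1 : ℝ) * x.a) := by
        nlinarith [mul_pos hε hs0]
      nlinarith [mul_le_mul_of_nonneg_left b2 hε.le])
    refine ⟨k, by omega, fun V _ _ G g1 g2 => ?_, fun V _ _ G g1 g2 g3 => ?_⟩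
    · let _ := Fintype.ofFinite V
      exact (conv x h5 G).1 (h6 V G (inC x g1 g2)).1
    · let _ := Fintype.ofFinite V
      exact (conv x h5 G).2.2 ((h6 V G (inC x g1 g2)).2 ((conv x h5 G).2.1 g3))
  · obtain ⟨q, rfl⟩ : ∃ q, s = q + r := ⟨s - r, by omega⟩
    refine better_match ha (by omega) ?_
    have b1 := ebal_step (s := q + r) (r := r) a (by omega)
    have b2 := ineq1 (q + r + 1) ((q + r + 1) * a + r) 3
    rw [add_assoc ((q + r + 1) * a) r 1, Z_eq (by omega), Z_eq (by omega)] at b2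
    have b3 : ((q * a % 2 : ℕ) : ℝ) ≤ 1 := by exact_mod_cast (by omega)
    have hn : (0 : ℝ) < (q + r + 1) * a + r := by positivity
    push_cast at b1 b2 h1 h2 h3 hs0
    have b4 : 6 * rho (q + r) 0 a r ≤ ((q + r) * a + r) ^ 2 - ((q + r) * a ^ 2 + 2 * r * a + r) := by
      rw [rho, ← mul_div_assoc]
      push_cast
      rw [div_le_iff₀ hn, ← b1]
      linarith
    obtain ⟨d, hd⟩ : ∃ d : ℝ, d = (q + r) * a + r := ⟨_, rfl⟩
    have d0 : (q : ℝ) + r ≤ d := by nlinarith [Nat.cast_nonneg (α := ℝ) r]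
    have b5 : (q * a + (q * a % 2 : ℕ)) * ((q + r - 1) * a + r + 1) ≤ ((2 - ε) * d / 3 + 1) * d :=
      mul_le_mul (by nlinarith) (by linarith) (by nlinarith [Nat.cast_nonneg (α := ℝ) r]) (by nlinarith)
    have b6 : (q + r) * a ^ 2 + 2 * r * a + r ≤ (a + 1) * d := by
      nlinarith [mul_nonneg (Nat.cast_nonneg (α := ℝ) q) (Nat.cast_nonneg (α := ℝ) a)]
    have b7 : 2 * a + 5 < d * ε := h3.trans_le (mul_le_mul_of_nonneg_right d0 hε.le)
    rw [← hd] at b4 ⊢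
    nlinarith [mul_lt_mul_of_pos_right b7 (show 0 < d by linarith)]

end Pool.Agent.Lib.MP_1b6faf_co.H8
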