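import Pool.Agent.Lib.MP_1b6faf_co.H8Term

/-!
Cliques of bounded size: the Turan graph is extremal below the threshold.
-/

namespace Pool.Agent.Lib.MP_1b6faf_co.H8

open Finset
open scoped Classical

/-- the numerical conditions on the constants -/
structure Num (x : Par) (θ μ ε c c1 δ E ξ X : ℝ) : Prop where
  hθ : ((x.k : ℝ) + 2) * θ ^ x.k ≤ 1
  hθ1 : θ < 1
  hμ : μ * (1 - θ) = x.k + 1
  hμl : μ ≤ x.lam
  hε : 0 < ε
  hφ : x.φ ≤ θ - ε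
  hc : x.a + 1 ≤ c
  hc1 : 0 ≤ c1
  hfo : FO (x.k + 1 + 1) c1
  hδ : 0 < δ
  hξ : 0 < ξ
  hX : X = x.Δ + E
  hE : 6 * c ≤ ε * δ * E
  hk : (x.k : ℝ) + 1 ≤ E
  h1 : (12 * c1 + 24 * (x.F * (x.k + 1 + 1))) * c * δ ≤ ε / 2
  h2 : (5 * x.lam + 4 * c1 + 2 * (x.F * (x.k + 1 + 1))) * E ^ 2 ≤ ξ * X
  h3 : (x.lam + 3) * E * ξ < ε / 2
  h4 : 24 * (x.F * (x.k + 1 + 1)) * (x.a + 2) * δ ≤ 1
  h5 : 12 * ξ < ε * δ

namespace Num

variable {x : Par} {θ μ ε c c1 δ E ξ X : ℝ} (h : Num x θ μ ε c c1 δ E ξ X)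
include h

lemma εθ : ε ≤ θ := by linarith [h.hφ, x.φpos]
lemma ε1 : ε ≤ 1 := by linarith [h.εθ, h.hθ1]
lemma E2 : 2 ≤ E := by linarith [h.hk, x.k1]
lemma c2 : 2 ≤ c := by linarith [h.hc, x.a1]
omit h in
lemma κk : (x.k : ℝ) + 2 ≤ x.F * (x.k + 1 + 1) := by nlinarith [x.Fpos, x.k1]
omit h in
lemma lamk : (x.k : ℝ) + 1 ≤ x.lam := by nlinarith [x.lam_eq, x.k1]
lemma δ4 : δ ≤ 1 / 24 := by
  have : 1 ≤ x.F * (x.k + 1 + 1) * (x.a + 2) := by nlinarith [κk (x := x), x.k1, x.a1]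
  nlinarith [h.h4, h.hδ]
lemma cδ : 6 * c ≤ δ * E := by
  nlinarith [h.hE, h.ε1, mul_pos h.hδ (show 0 < E by linarith [h.E2])]
lemma cE : 6 * c ≤ E := by nlinarith [h.cδ, h.δ4, h.E2]
lemma Xpos : 0 < X := by linarith [h.hX, x.Δpos, h.E2]
lemma ξδ : 12 * ξ ≤ δ := by nlinarith [h.h5, h.ε1, h.hδ]
lemma Eξ : 4 * E * (x.F * (x.k + 1 + 1)) ≤ ξ * X := by
  have h1 := κk (x := x)
  have h2 := lamk (x := x)
  have h3 := h.E2
  nlinarith [h.h2, h.hc1, x.k1, mul_nonneg (show 0 ≤ 5 * x.lam + 4 * c1 by linarith [h.hc1, x.k1])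
    (sq_nonneg E), mul_nonneg (show 0 ≤ x.F * (x.k + 1 + 1) * E by nlinarith [x.k1])
    (sub_nonneg.2 h3)]
lemma Eξ' : 12 * E ≤ ξ * X := by nlinarith [h.Eξ, κk (x := x), x.k1, h.E2]
lemma Eδ : 144 * E ≤ δ * X := by nlinarith [h.Eξ', h.ξδ, h.Xpos]
lemma EX : 144 * E ≤ X := by nlinarith [h.Eδ, h.δ4, h.Xpos]
lemma T1 : x.F * x.P ≤ X ^ (x.k + 1) := x.FP (by linarith [h.hX, h.E2])
lemma T1' : x.F * x.τ ≤ X ^ (x.k + 1) :=
  (mul_le_mul_of_nonneg_left x.τP (by linarith [x.Fpos])).trans h.T1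
lemma T2 : (1 - ξ) * X ^ (x.k + 1) ≤ x.F * (x.P - (x.a + 1) * x.D) := by
  have h1 := κk (x := x)
  have h2 := lamk (x := x)
  have h3 := h.E2
  refine x.FP' (by linarith) h.hX (le_trans ?_ h.h2)
  have h4 : (x.a : ℝ) + 1 ≤ E := by linarith [h.hc, h.cE, h.c2]
  have h5 : 0 ≤ x.lam := by linarith [x.k1]
  nlinarith [mul_le_mul_of_nonneg_left h4 h5, mul_le_mul_of_nonneg_right h2 (show 0 ≤ E by linarith),
    mul_nonneg (show 0 ≤ 4 * c1 + 2 * (x.F * (x.k + 1 + 1)) by linarith [h.hc1, x.k1]) (sq_nonneg E),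
    mul_nonneg (mul_nonneg h5 (show 0 ≤ E by linarith)) (sub_nonneg.2 h3)]
lemma T2' : (1 - ξ) * X ^ (x.k + 1) ≤ x.F * x.τ := by
  refine h.T2.trans (mul_le_mul_of_nonneg_left ?_ (by linarith [x.Fpos]))
  unfold Par.τ
  nlinarith [x.φ1, x.Dpos, x.a1]
lemma T3 : X ^ x.k ≤ x.F * x.D := by
  have h1 := mul_le_mul_of_nonneg_left x.jP_le (show 0 ≤ x.F by linarith [x.Fpos])
  have h2 := h.T2'.trans (mul_le_mul_of_nonneg_left x.τP (by linarith [x.Fpos]))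
  have h3 : 0 < x.F * x.D := mul_pos (by linarith [x.Fpos]) x.Dpos
  have h4 := pow_pos h.Xpos (x.k + 1)
  refine le_of_mul_le_mul_right ?_ h.Xpos
  rw [← pow_succ]
  have h5 : 1 / 2 * X ^ (x.k + 1) ≤ x.F * x.P := by nlinarith [h.ξδ, h.δ4]
  nlinarith [mul_le_mul_of_nonneg_left (show (x.Δ : ℝ) + x.k ≤ X by linarith [h.hX, h.hk]) h3.le,
    mul_le_mul_of_nonneg_right x.k1 (show 0 ≤ x.F * x.P by linarith)]
lemma θ2 : ε / 2 ≤ θ * (1 - ξ) := by nlinarith [h.εθ, h.ξδ, h.δ4, h.hε]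

lemma fin {σ η K g β : ℝ} (hK : K ≤ E) (hK0 : 0 ≤ K) (hη : -(3 * E ^ 2) ≤ η * X)
    (hβ : β * X ≤ (x.φ + η + σ) * X + 2 * E ^ 2) (g1 : g ≤ μ * (β - K * (θ * (1 - ξ))) + K * ξ)
    (g2 : g ≤ (x.k + 1) * K + K * ξ) (hc : σ + 1 ≤ K ∨ K + 1 ≤ σ) :
    -(x.k + 1) * σ - x.lam * η + c1 * (4 * E ^ 2 / X + 2 * δ * (6 * c)) + E * ξ + g
      + x.F * (x.k + 1 + 1) * (24 * c * δ + 2 * E ^ 2 / X) < 0 := by
  have hX := h.Xpos
  obtain ⟨e, he⟩ : ∃ e, E ^ 2 = e * X := ⟨E ^ 2 / X, by field_simp⟩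
  have a1 := h.h2
  rw [he, ← mul_assoc] at a1 hη hβ
  replace a1 := le_of_mul_le_mul_right a1 hX
  rw [he, ← mul_assoc, ← mul_assoc 2 e, mul_div_cancel_right₀ _ hX.ne', mul_div_cancel_right₀ _ hX.ne']
  have a2 : -(3 * e) ≤ η := le_of_mul_le_mul_right (by linarith) hX
  have a3 : β ≤ x.φ + η + σ + 2 * e := le_of_mul_le_mul_right (by linarith) hX
  have a4 : 0 ≤ e := le_of_mul_le_mul_right (by nlinarith) hX
  have a5 := lamk (x := x)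
  have a6 := mul_le_mul_of_nonneg_right hK h.hξ.le
  have a7 := mul_le_mul_of_nonneg_right h.E2 h.hξ.le
  have hθ0 : 0 < θ := h.hε.trans_le h.εθ
  have a8 : x.k + 1 ≤ μ := by
    by_contra hc
    nlinarith [h.hμ, h.hθ1, x.k1]
  have a9 := h.h1
  have a10 := h.h3
  have hl : 0 ≤ x.lam := by linarith [x.k1]
  rcases hc with hc | hc
  · have b1 := mul_le_mul_of_nonneg_left a3 (show 0 ≤ μ by linarith [x.k1])
    have b2 := mul_le_mul_of_nonneg_left a2 (sub_nonneg.2 h.hμl)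
    have b3 : μ * (x.φ - θ * (K - σ)) ≤ -ε := by
      have : x.φ - θ * (K - σ) ≤ -ε := by nlinarith [h.hφ]
      nlinarith [h.hε, x.k1]
    have b4 : μ * (θ * (K * ξ)) ≤ x.lam * (E * ξ) := mul_le_mul h.hμl (by
      nlinarith [h.hθ1, mul_nonneg hK0 h.hξ.le]) (by have := h.hξ; positivity) hl
    have b5 : (x.k + 1) * σ = μ * (1 - θ) * σ := by rw [h.hμ]
    nlinarith [mul_nonneg (show 0 ≤ μ by linarith [x.k1]) a4, mul_nonneg (sub_nonneg.2 h.hμl) a4,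
      h.hξ]
  · have b1 := mul_le_mul_of_nonneg_left a2 hl
    have b2 := mul_le_mul_of_nonneg_left hc (show (0 : ℝ) ≤ x.k + 1 by positivity)
    nlinarith [mul_nonneg hl a4, h.ε1, x.k1, h.hξ, mul_nonneg hl (show 0 ≤ E * ξ by linarith [h.hξ])]

end Num

end Pool.Agent.Lib.MP_1b6faf_co.H8
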