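import Pool.Agent.Lib.MP_1b6faf_co.H8Glob

/-!
Parameters and the numerical facts about the Turan graph.
-/

namespace Pool.Agent.Lib.MP_1b6faf_co.H8

open Finset
open scoped Classical

/-- parameters: clique bound `q + 2`, degree bound `(q + 1) a + r + 1`, clique size `k + 2` -/
structure Par where
  q : ℕ
  a : ℕ
  r : ℕ
  k : ℕ
  ha : 1 ≤ a
  hr : r < q
  hk : 1 ≤ k
  hkq : k ≤ q
  hq : 3 ≤ q

namespace Par

variable (x : Par)

def N : ℕ := x.q * x.a + x.r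
def Δ : ℕ := x.N + x.a + 1
def n : ℕ := x.Δ + x.a
noncomputable def D : ℝ := Z x.q x.N x.k
noncomputable def P : ℝ := Z (x.q + 1) x.Δ (x.k + 1)
noncomputable def P1 : ℝ := Z (x.q + 1) (x.N + x.a) (x.k + 1)
noncomputable def φ : ℝ := (x.r + 1) * (x.a + 1) / x.n
noncomputable def τ : ℝ := x.P - x.φ * x.D
noncomputable def Ca : ℝ := (x.a + 1) * 2 ^ (x.a + 2)
noncomputable def sl (m : ℕ) : ℝ :=
  x.P - Z (x.q + 1) (x.n - m) (x.k + 1) - x.D * (x.a + 1) * (1 - x.a / m)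

lemma Na : x.N + x.a = (x.q + 1) * x.a + x.r := by unfold N; ring
lemma Δ_eq : x.Δ = (x.q + 1) * x.a + (x.r + 1) := by unfold Δ N; ring
lemma n_eq : x.n = (x.q + 1 + 1) * x.a + (x.r + 1) := by unfold n Δ N; ring
lemma qN : x.q ≤ x.N := by have := x.ha; unfold N; nlinarith
lemma aN : 3 * x.a ≤ x.N := by have := x.hq; unfold N; nlinarith
lemma ΔR : (x.Δ : ℝ) = x.N + x.a + 1 := by unfold Δ; push_cast; ring
lemma nR : (x.n : ℝ) = x.Δ + x.a := by unfold n; push_cast; ring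
lemma nR' : (x.n : ℝ) = (x.q + 2) * x.a + x.r + 1 := by rw [x.n_eq]; push_cast; ring
lemma a1 : (1 : ℝ) ≤ x.a := by exact_mod_cast x.ha
lemma k1 : (1 : ℝ) ≤ x.k := by exact_mod_cast x.hk
lemma aNR : 3 * (x.a : ℝ) ≤ x.N := by exact_mod_cast x.aN
lemma kN : (x.k : ℝ) ≤ x.N := by exact_mod_cast x.hkq.trans x.qN
lemma Δpos : (0 : ℝ) < x.Δ := by rw [x.ΔR]; positivity
lemma npos : (0 : ℝ) < x.n := by rw [x.nR']; positivity
lemma Dpos : 0 < x.D := Z_pos x.hkq x.qN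
lemma φpos : 0 < x.φ := div_pos (by positivity) x.npos
lemma φn : x.φ * x.n = (x.r + 1) * (x.a + 1) := div_mul_cancel₀ _ x.npos.ne'

lemma φ1 : x.φ < 1 := by
  have h1 : (x.r : ℝ) + 1 ≤ x.q := by exact_mod_cast x.hr
  rw [φ, div_lt_one x.npos, x.nR']
  nlinarith [x.a1]

lemma P_eq : x.P = x.P1 + x.D := by
  have := Z_rec' (q := x.q) (a := x.a) (r := x.r) (by have := x.hr; omega) x.k
  rwa [← x.Na] at this

lemma P_le : x.P ≤ 2 * x.P1 := ratio2 (by have := x.qN; have := x.ha; omega) _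

lemma P1pos : 0 < x.P1 := by linarith [x.P_eq, x.P_le, x.Dpos]

lemma τ_eq : x.τ = x.P1 + (1 - x.φ) * x.D := by rw [τ, x.P_eq]; ring

lemma P1τ : x.P1 < x.τ := by
  rw [x.τ_eq]; linarith [mul_pos (sub_pos.2 x.φ1) x.Dpos]

lemma τP : x.τ ≤ x.P := by rw [τ]; linarith [mul_pos x.φpos x.Dpos]

lemma τ_id : ((x.k : ℝ) + 1 + 1) * Z (x.q + 1 + 1) x.n (x.k + 1 + 1) = x.n * x.τ := by
  have h := Z_double (q := x.q + 1) (a := x.a) (r := x.r + 1) (by have := x.hr; omega) (x.k + 1)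
  rw [← x.n_eq, ← x.Δ_eq, show x.Δ - 1 = x.N + x.a from rfl] at h
  push_cast at h
  rw [h, τ, mul_sub, ← mul_assoc, mul_comm _ x.φ, x.φn, x.nR']
  change _ * x.P1 + _ * x.P = _
  rw [x.P_eq]
  ring

lemma n_rec : Z (x.q + 1 + 1) x.n (x.k + 1 + 1)
    = Z (x.q + 1 + 1) (x.n - 1) (x.k + 1 + 1) + x.P1 := by
  have := Z_rec' (q := x.q + 1) (a := x.a) (r := x.r) (by have := x.hr; omega) (x.k + 1)
  rw [x.n_eq, P1, x.Na]
  exact this

lemma jP : x.Δ * x.D + (x.Δ - (x.r + 1) * (x.a + 1)) * (x.k / x.Δ * x.D) ≤ (x.k + 1) * x.P := by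
  have h := Z_double (q := x.q) (a := x.a) (r := x.r + 1) (by have := x.hr; omega) x.k
  rw [← x.Δ_eq, ← add_assoc, Nat.add_sub_cancel] at h
  have h2 := decay' x.q x.N x.k 1 x.Δpos (by rw [x.ΔR]; push_cast; linarith [x.a1])
  have h1 : (x.r : ℝ) + 1 ≤ x.q := by exact_mod_cast x.hr
  have h3 : (0 : ℝ) ≤ (x.q - x.r) * x.a := mul_nonneg (by linarith) (Nat.cast_nonneg _)
  have h4 : (x.Δ : ℝ) = (x.r + 1) * (x.a + 1) + (x.q - x.r) * x.a := by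
    rw [x.Δ_eq]; push_cast; ring
  push_cast at h h2
  change _ * x.P = _ * x.D + _ * Z x.q (x.N + 1) x.k at h
  change x.D * _ ≤ _ at h2
  rw [h]
  generalize x.k / (x.Δ : ℝ) = y at h2 ⊢
  rw [h4]
  nlinarith [mul_le_mul_of_nonneg_left h2 h3]

lemma jP' : x.Δ * x.D ≤ (x.k + 1) * x.P := by
  have h1 := x.φ1
  have h2 : (x.r + 1) * (x.a + 1) ≤ (x.Δ : ℝ) := by
    have h1 : (x.r : ℝ) + 1 ≤ x.q := by exact_mod_cast x.hr
    rw [x.Δ_eq]; push_cast; nlinarith [x.a1]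
  have := mul_nonneg (sub_nonneg.2 h2) (show 0 ≤ x.k / x.Δ * x.D by have := x.Dpos; positivity)
  linarith [x.jP]

lemma jP_le : (x.k + 1) * x.P ≤ (x.Δ + x.k) * x.D := by
  have h := ineq1 (x.q + 1) (x.N + x.a) (x.k + 1)
  change _ * x.P1 ≤ _ * x.P at h
  rw [x.ΔR]
  have := x.P_eq
  push_cast at h
  nlinarith

lemma top_le : Z x.q x.Δ x.k ≤ x.D + x.Ca * (x.k / x.Δ * x.D) := by
  have h1 := growth x.q x.N x.k (x.a + 1)
  have h2 := ratio_pow x.qN x.k (x.a + 1)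
  change _ * (Z x.q x.Δ x.k - x.D) ≤ _ * Z x.q x.Δ x.k at h1
  change Z x.q x.Δ x.k ≤ _ * x.D at h2
  have h3 : x.D ≤ Z x.q x.Δ x.k := Z_mono _ _ (by unfold Δ; omega)
  have h4 : (x.Δ : ℝ) ≤ 2 * (x.N + 1) := by rw [x.ΔR]; linarith [x.aNR, x.a1]
  have h5 : (0 : ℝ) ≤ (x.a + 1 : ℕ) * x.k := by positivity
  have h6 : x.Δ * (Z x.q x.Δ x.k - x.D) ≤ x.Ca * x.k * x.D := by
    have := mul_le_mul_of_nonneg_left h2 h5
    unfold Ca
    push_cast at h1 this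
    rw [pow_succ]
    nlinarith [mul_le_mul_of_nonneg_right h4 (sub_nonneg.2 h3)]
  have h7 : x.Ca * (x.k / x.Δ * x.D) = x.Ca * x.k * x.D / x.Δ := by ring
  rw [h7, ← sub_le_iff_le_add', le_div_iff₀ x.Δpos]
  linarith

lemma price {p : ℝ} (hp : p * x.Δ < x.τ) (h : x.Δ + (x.k + 1) ≤ (1 - x.φ) * (x.k + 1) * x.Δ)
    (b : ℕ) (h1 : 1 ≤ b) (h2 : b ≤ x.Δ) : Z (x.q + 1) (x.Δ - b) (x.k + 1) < x.τ - b * p := by
  have a1 := dens_mono (x.q + 1) x.k (show x.Δ - b ≤ x.N + x.a by unfold Δ; omega)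
  change _ ≤ _ * x.P1 at a1
  rw [Nat.cast_sub h2] at a1
  have a2 : ((x.N + x.a : ℕ) : ℝ) = x.Δ - 1 := by rw [x.ΔR]; push_cast; ring
  have a3 : (0 : ℝ) < x.Δ - 1 := by rw [x.ΔR]; linarith [x.aNR, x.a1]
  have hb : (1 : ℝ) ≤ b := by exact_mod_cast h1
  have hb2 : (b : ℝ) ≤ x.Δ := by exact_mod_cast h2
  have a4 : x.τ ≤ (1 - x.φ) * x.D * x.Δ := by
    refine le_of_mul_le_mul_left ?_ (show (0 : ℝ) < x.k + 1 by positivity)
    nlinarith [x.jP_le, x.τP, mul_le_mul_of_nonneg_right h x.Dpos.le, x.Dpos, x.k1]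
  have a5 : x.P1 * x.Δ ≤ x.τ * (x.Δ - 1) := by nlinarith [x.τ_eq]
  rw [a2] at a1
  have a6 : Z (x.q + 1) (x.Δ - b) (x.k + 1) * x.Δ ≤ (x.Δ - b) * x.τ := by
    refine le_of_mul_le_mul_left ?_ a3
    nlinarith [mul_le_mul_of_nonneg_right a1 x.Δpos.le,
      mul_le_mul_of_nonneg_left a5 (sub_nonneg.2 hb2)]
  refine lt_of_mul_lt_mul_right ?_ x.Δpos.le
  nlinarith [mul_lt_mul_of_pos_left hp (zero_lt_one.trans_le hb)]

lemma sl_a : x.sl x.a = 0 := by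
  have := x.a1
  rw [sl, div_self (by linarith), n, Nat.add_sub_cancel, P]
  ring

lemma sl_a1 : x.sl (x.a + 1) = 0 := by
  have := x.a1
  rw [sl, show x.n - (x.a + 1) = x.N + x.a by unfold n Δ; omega, x.P_eq, P1]
  push_cast
  field_simp
  ring

lemma step {M : ℕ} (h : M ≤ x.Δ) : Z (x.q + 1) M (x.k + 1) + Z x.q (M - x.a) x.k
    ≤ Z (x.q + 1) (M + 1) (x.k + 1) := by
  obtain ⟨a, r, hr, rfl⟩ := decomp x.q M
  have h1 : a ≤ x.a := by
    by_contra hc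
    have := Nat.mul_le_mul_left (x.q + 1) (Nat.succ_le_of_lt (not_le.1 hc))
    have := x.hr
    rw [x.Δ_eq] at h
    rw [Nat.mul_succ] at *
    omega
  rw [Z_rec' hr]
  have := Z_mono x.q x.k (show (x.q + 1) * a + r - x.a ≤ x.q * a + r by rw [add_mul]; omega)
  linarith

lemma steps (i : ℕ) (h : i ≤ x.Δ) :
    Z (x.q + 1) (x.Δ - i) (x.k + 1) + i * Z x.q (x.N - i) x.k ≤ x.P := by
  induction i with
  | zero => simp [P]
  | succ i ih =>
    have h1 := ih (by omega)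
    have h2 := x.step (M := x.Δ - (i + 1)) (by omega)
    rw [show x.Δ - (i + 1) + 1 = x.Δ - i by omega] at h2
    have h3 := Z_mono x.q x.k (show x.N - (i + 1) ≤ x.N - i by omega)
    have h4 := Z_mono x.q x.k (show x.N - (i + 1) ≤ x.Δ - (i + 1) - x.a by unfold Δ; omega)
    push_cast
    nlinarith [mul_le_mul_of_nonneg_left h3 (Nat.cast_nonneg (α := ℝ) i)]

lemma sl_ge {i : ℕ} (h2 : 2 ≤ i) (h : 4 * ((x.a : ℝ) + 2) * (i * x.k) ≤ x.Δ) :
    i * x.D / (2 * (x.a + 2)) ≤ x.sl (x.a + i) := by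
  have hi : (2 : ℝ) ≤ i := by exact_mod_cast h2
  have a0 : 12 * (i : ℝ) ≤ x.Δ := by
    nlinarith [x.a1, mul_le_mul_of_nonneg_left x.k1 (Nat.cast_nonneg (α := ℝ) i)]
  have a0' : 2 * (i : ℝ) + x.Δ ≤ 2 * x.N := by
    rw [x.ΔR] at a0 ⊢; linarith [x.aNR, x.a1]
  have a1 : i ≤ x.N := by
    have : (i : ℝ) ≤ x.N := by rw [x.ΔR] at a0'; linarith [x.a1]
    exact_mod_cast this
  have a2 := x.steps i (by unfold Δ; omega)
  have a3 := growth x.q (x.N - i) x.k i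
  rw [Nat.sub_add_cancel a1, Nat.cast_sub a1] at a3
  change _ * (x.D - _) ≤ _ * x.D at a3
  have a4 : Z x.q (x.N - i) x.k ≤ x.D := Z_mono _ _ (Nat.sub_le _ _)
  have a5 : 2 * (x.a + 2) * (x.D - Z x.q (x.N - i) x.k) ≤ x.D := by
    refine le_of_mul_le_mul_left ?_ x.Δpos
    have b1 : x.Δ * (x.D - Z x.q (x.N - i) x.k) ≤ 2 * (i * x.k * x.D) := by
      nlinarith [mul_le_mul_of_nonneg_right a0' (sub_nonneg.2 a4)]
    nlinarith [mul_le_mul_of_nonneg_right h x.Dpos.le,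
      mul_le_mul_of_nonneg_left b1 (show (0 : ℝ) ≤ 2 * (x.a + 2) by positivity)]
  have a6 : ((x.a : ℝ) + 1) * (1 - x.a / (x.a + i : ℕ)) ≤ i * (1 - 1 / (x.a + 2)) := by
    push_cast
    rw [one_sub_div (by positivity), one_sub_div (by positivity), mul_div_assoc', mul_div_assoc',
      div_le_div_iff₀ (by positivity) (by positivity)]
    nlinarith [mul_nonneg (mul_nonneg (show (0 : ℝ) ≤ x.a + 1 by positivity)
      (Nat.cast_nonneg (α := ℝ) i)) (sub_nonneg.2 hi)]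
  have a7 : x.D - Z x.q (x.N - i) x.k ≤ x.D / (2 * (x.a + 2)) := by
    rw [le_div_iff₀ (by positivity)]; linarith
  rw [sl, show x.n - (x.a + i) = x.Δ - i by unfold n; omega, mul_assoc]
  have a8 := mul_le_mul_of_nonneg_left a6 x.Dpos.le
  have a9 := mul_le_mul_of_nonneg_left a7 (Nat.cast_nonneg (α := ℝ) i)
  have e : x.D * (i * (1 - 1 / (x.a + 2))) = i * x.D - 2 * (i * x.D / (2 * (x.a + 2))) := by
    field_simp
  rw [e] at a8
  rw [← mul_div_assoc] at a9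
  linarith

end Par

end Pool.Agent.Lib.MP_1b6faf_co.H8
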