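import Pool.Agent.Lib.MP_1b6faf_co.H8Par

/-!
Rich vertices, their clusters, and the slack given by the Caro-Wei bound.
-/

namespace Pool.Agent.Lib.MP_1b6faf_co.H8

open Finset
open scoped Classical

variable {V : Type*} [Fintype V] {G : SimpleGraph V}

/-- the graph lies in the class -/
structure InC (G : SimpleGraph V) (x : Par) : Prop where
  deg : ∀ v, (nb G v univ).card ≤ x.Δ
  cf : CF G (x.q + 1 + 1) univ

lemma nb_two (u : V) {A B : Finset V} (h : Disjoint A B) :
    (nb G u A).card + (nb G u B).card ≤ (nb G u univ).card := by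
  rw [← card_union_of_disjoint (h.mono (nb_subset _ _) (nb_subset _ _))]
  exact card_le_card (union_subset (nb_mono _ (subset_univ _)) (nb_mono _ (subset_univ _)))

namespace InC

variable {x : Par} (h : InC G x)
include h

lemma cf1 (v : V) (S : Finset V) : CF G (x.q + 1) (nb G v S) :=
  (h.cf.nb (mem_univ v)).mono (nb_mono v (subset_univ S))

lemma cf2 {u v : V} (huv : G.Adj v u) (S : Finset V) : CF G x.q (nb G u (nb G v S)) :=
  ((h.cf1 v univ).nb (mem_nb.2 ⟨mem_univ u, huv⟩)).mono (nb_mono u (nb_mono v (subset_univ S)))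

lemma degS (v : V) (S : Finset V) : (nb G v S).card ≤ x.Δ :=
  (card_le_card (nb_mono v (subset_univ S))).trans (h.deg v)

lemma out_le (C : Finset V) (u : V) : (out G C u).card + C.card ≤ x.Δ + (nn G u C).card := by
  have h1 := nb_two (G := G) u (disjoint_sdiff (s := C) (t := univ))
  have h2 := card_nb_add_nn (G := G) u C
  have h3 := h.deg u
  unfold out
  omega

lemma cw {C : Finset V} (hC : C.card = x.n) :
    ((x.k : ℝ) + 1 + 1) * kc G (x.k + 1 + 1) C ≤ x.n * x.τ - ∑ u ∈ C, x.sl (nn G u C).card := by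
  have h1 := kc_succ (G := G) (x.k + 1) C
  have h2 : ∀ u ∈ C, kc G (x.k + 1) (nb G u C) ≤ x.P - x.D * (x.a + 1)
      + x.D * (x.a + 1) * x.a * (1 / (nn G u C).card) - x.sl (nn G u C).card := fun u _ => by
    have := zyk' (x.k + 1) (h.cf1 u C) (show _ ≤ x.n - (nn G u C).card by
      have := card_nb_add_nn (G := G) u C; omega)
    unfold Par.sl
    linarith [show x.D * (x.a + 1) * (1 - x.a / (nn G u C).card) = x.D * (x.a + 1)
      - x.D * (x.a + 1) * x.a * (1 / (nn G u C).card) by ring]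
  have h3 := sum_le_sum h2
  have h4 := mul_le_mul_of_nonneg_left (caro_wei _ C (h.cf.mono (subset_univ C)))
    (show 0 ≤ x.D * (x.a + 1) * x.a by have := x.Dpos; positivity)
  rw [sum_sub_distrib, sum_add_distrib, sum_const, ← mul_sum, hC, nsmul_eq_mul] at h3
  push_cast at h1 h4
  have h5 : x.n * x.τ = x.n * x.P - (x.r + 1) * (x.a + 1) * x.D := by
    rw [← x.φn, Par.τ]; ring
  have h6 : x.n * (x.D * (x.a + 1)) = ((x.q + 2) * x.a + x.r + 1) * (x.D * (x.a + 1)) := by
    rw [x.nR']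
  linarith

variable {v : V} (hv : x.τ ≤ kc G (x.k + 1) (nb G v univ))
include hv

lemma rich_card : (nb G v univ).card = x.Δ := by
  by_contra hc
  have h1 := zyk' (x.k + 1) (h.cf1 v univ) (show _ ≤ x.N + x.a by
    have := h.deg v; unfold Par.Δ at *; omega)
  linarith [x.P1τ, show x.P1 = Z (x.q + 1) (x.N + x.a) (x.k + 1) from rfl]

lemma rich_link {u : V} (hu : u ∈ nb G v univ) :
    (1 - x.φ) * x.D ≤ Z x.q (nb G u (nb G v univ)).card x.k := by
  have h1 := kc_rec (G := G) x.k u (nb G v univ)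
  have h2 := zyk' (x.k + 1) ((h.cf1 v univ).mono (erase_subset u _)) (show _ ≤ x.N + x.a by
    rw [card_erase_of_mem hu, h.rich_card hv]; rfl)
  have h3 := zyk x.k _ _ (h.cf2 (mem_nb.1 hu).2 univ)
  linarith [x.τ_eq, show x.P1 = Z (x.q + 1) (x.N + x.a) (x.k + 1) from rfl]

lemma rich_decay {u : V} (hn : x.a + 1 ≤ (nn G u (nb G v univ)).card) :
    Z x.q (nb G u (nb G v univ)).card x.k *
      (1 + ((nn G u (nb G v univ)).card - (x.a + 1)) * (x.k / x.Δ)) ≤ x.D := by
  have h1 := card_nb_add_nn (G := G) u (nb G v univ)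
  rw [h.rich_card hv] at h1
  obtain ⟨i, hi⟩ := Nat.exists_eq_add_of_le hn
  have h2 : (nb G u (nb G v univ)).card + i = x.N := by unfold Par.Δ at h1; omega
  have h3 := decay' x.q (nb G u (nb G v univ)).card x.k i x.Δpos (by
    rw [← Nat.cast_add, h2, x.ΔR]; linarith [x.a1])
  rw [h2] at h3
  rw [hi]
  push_cast
  rw [add_sub_cancel_left]
  exact h3

lemma rich_nn {ε : ℝ} (hε : 0 < ε) (hφ : ε ≤ 1 - x.φ) {u : V} (hu : u ∈ nb G v univ) :
    ε * (((nn G u (nb G v univ)).card - (x.a + 1)) * x.k) ≤ x.Δ := by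
  rcases le_or_gt (x.a + 1) (nn G u (nb G v univ)).card with c | c
  · have h1 := h.rich_decay hv c
    have h2 := h.rich_link hv hu
    have c' : (0 : ℝ) ≤ (nn G u (nb G v univ)).card - (x.a + 1) := by
      rw [sub_nonneg]; exact_mod_cast c
    generalize ((nn G u (nb G v univ)).card - (x.a + 1) : ℝ) = m at *
    have h3 : 0 ≤ m * (x.k / x.Δ) := by positivity
    have h4 : ε * x.D * (1 + m * (x.k / x.Δ)) ≤ x.D := le_trans (mul_le_mul_of_nonneg_right
      ((mul_le_mul_of_nonneg_right hφ x.Dpos.le).trans h2) (by linarith)) h1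
    have h5 : ε * (m * (x.k / x.Δ)) ≤ 1 :=
      le_of_mul_le_mul_right (a := x.D) (by nlinarith [mul_pos hε x.Dpos]) x.Dpos
    rw [← div_le_one x.Δpos]
    exact le_of_eq_of_le (by ring) h5
  · have c' : ((nn G u (nb G v univ)).card : ℝ) ≤ x.a + 1 := by exact_mod_cast c.le
    exact (mul_nonpos_of_nonneg_of_nonpos hε.le (mul_nonpos_of_nonpos_of_nonneg (by linarith)
      (Nat.cast_nonneg _))).trans x.Δpos.le

omit hv in
lemma link_top {u : V} (hu : u ∈ nb G v univ) :
    kc G x.k (nb G u (nb G v univ)) ≤ x.D + x.Ca * (x.k / x.Δ * x.D) :=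
  (zyk' x.k (h.cf2 (mem_nb.1 hu).2 univ) (h.degS _ _)).trans x.top_le

lemma rich_miss {ε : ℝ} (hε : 0 < ε) (hφ : ε ≤ 1 - x.φ) :
    ∑ u ∈ nb G v univ, ((nn G u (nb G v univ)).card : ℝ) ≤ (x.a + 1 + (x.Ca + 2) / ε) * x.Δ := by
  have hy : 0 < x.k / x.Δ * x.D := by
    have := x.Dpos; have := x.Δpos; have := x.k1; positivity
  have hCa : 0 ≤ x.Ca := by unfold Par.Ca; positivity
  have key : ∀ u ∈ nb G v univ, kc G x.k (nb G u (nb G v univ)) ≤
      x.D + (x.Ca + ε * (x.a + 1)) * (x.k / x.Δ * x.D)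
        - ε * (x.k / x.Δ * x.D) * (nn G u (nb G v univ)).card := by
    intro u hu
    rcases le_or_gt (x.a + 1) (nn G u (nb G v univ)).card with c | c
    · have h1 := h.rich_decay hv c
      have h2 := (mul_le_mul_of_nonneg_right hφ x.Dpos.le).trans (h.rich_link hv hu)
      have h3 := zyk x.k _ _ (h.cf2 (mem_nb.1 hu).2 univ)
      have c' : (0 : ℝ) ≤ (nn G u (nb G v univ)).card - (x.a + 1) := by
        rw [sub_nonneg]; exact_mod_cast c
      have h4 := mul_le_mul_of_nonneg_right h2 (mul_nonneg c'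
        (show (0 : ℝ) ≤ x.k / x.Δ by positivity))
      nlinarith [mul_nonneg hCa hy.le]
    · have c' : ((nn G u (nb G v univ)).card : ℝ) ≤ x.a + 1 := by exact_mod_cast c.le
      nlinarith [h.link_top hu, mul_le_mul_of_nonneg_left c' (mul_pos hε hy).le]
  have h1 := sum_le_sum key
  rw [← kc_succ, sum_sub_distrib, ← mul_sum, sum_const, nsmul_eq_mul, h.rich_card hv] at h1
  have h2 := mul_le_mul_of_nonneg_left hv (show (0 : ℝ) ≤ x.k + 1 by positivity)
  have h3 : x.Δ * (x.k / x.Δ * x.D) = x.k * x.D := by have := x.Δpos; field_simp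
  have h4 : x.Δ * x.D - 2 * (x.k * x.D) ≤ (x.k + 1) * x.τ := by
    have := mul_le_mul_of_nonneg_right x.φ1.le x.Dpos.le
    unfold Par.τ
    nlinarith [x.jP', x.k1, x.Dpos]
  generalize x.k / x.Δ * x.D = y at *
  refine le_of_mul_le_mul_left ?_ (mul_pos hε hy)
  have e : ε * y * ((x.a + 1 + (x.Ca + 2) / ε) * x.Δ) = (ε * (x.a + 1) + x.Ca + 2) * (x.Δ * y) := by
    field_simp
    ring
  rw [e]
  nlinarith

lemma few_full {γ : ℝ} (hγ2 : 6 * (x.a + 1) * γ * x.Ca < 1) (hk : 2 ≤ x.k)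
    (hr : 3 * ((x.r + 1) * (x.a + 1) : ℝ) ≤ x.Δ) {W : Finset V} (hW : Disjoint (nb G v univ) W)
    (hf : ∀ w ∈ W, (1 - γ) * x.Δ ≤ (nb G w (nb G v univ)).card) : W.card ≤ x.a := by
  by_contra hc
  obtain ⟨U, hU, hUc⟩ := exists_subset_card_eq (show x.a + 1 ≤ W.card by omega)
  have hy : 0 < x.k / x.Δ * x.D := by
    have := x.Dpos; have := x.Δpos; have := x.k1; positivity
  have hCa : 0 ≤ x.Ca := by unfold Par.Ca; positivity
  have key : ∀ u ∈ nb G v univ, kc G x.k (nb G u (nb G v univ)) ≤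
      x.D + x.Ca * (x.k / x.Δ * x.D) * (nn G u U).card := by
    intro u hu
    rcases Nat.eq_zero_or_pos (nn G u U).card with c | c
    · have a1 := nb_two (G := G) u (hW.mono_right hU)
      have a2 := card_nb_add_nn (G := G) u U
      have a3 := h.deg u
      rw [c, Nat.cast_zero, mul_zero, add_zero]
      exact zyk' x.k (h.cf2 (mem_nb.1 hu).2 univ) (by unfold Par.Δ at a3; omega)
    · have c' : (1 : ℝ) ≤ (nn G u U).card := by exact_mod_cast c
      nlinarith [h.link_top hu, mul_nonneg hCa hy.le]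
  have h1 := sum_le_sum key
  rw [← kc_succ, sum_add_distrib, ← mul_sum, sum_const, nsmul_eq_mul, h.rich_card hv,
    sum_nn_comm] at h1
  have h2 := sum_le_card_nsmul U (fun w => ((nn G w (nb G v univ)).card : ℝ)) (γ * x.Δ)
    fun w hw => by
      have := card_nb_add_nn' (G := G) w (nb G v univ)
      rw [h.rich_card hv] at this
      linarith [hf w (hU hw)]
  rw [hUc, nsmul_eq_mul] at h2
  push_cast at h2
  have h3 : x.Δ * (x.k / x.Δ * x.D) = x.k * x.D := by have := x.Δpos; field_simp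
  have h4 := mul_le_mul_of_nonneg_left hv (show (0 : ℝ) ≤ x.k + 1 by positivity)
  have h5 := x.jP
  have h6 : 3 * x.φ ≤ 1 := by
    refine le_of_mul_le_mul_right ?_ x.npos
    rw [mul_assoc, x.φn, x.nR]
    linarith [x.a1]
  have h7 := mul_le_mul_of_nonneg_left h2 (mul_nonneg hCa hy.le)
  have hk' : (2 : ℝ) ≤ x.k := by exact_mod_cast hk
  have h8 := mul_le_mul_of_nonneg_right hr hy.le
  have h9 := mul_le_mul_of_nonneg_right h6 (mul_pos x.Dpos (show (0 : ℝ) < x.k + 1 by positivity)).le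
  have h10 := mul_lt_mul_of_pos_right hγ2 (mul_pos x.Dpos (show (0 : ℝ) < x.k by positivity))
  have h11 := mul_le_mul_of_nonneg_right hk' x.Dpos.le
  unfold Par.τ at h4
  generalize x.k / x.Δ * x.D = y at *
  have h12 : x.Ca * y * ((x.a + 1) * (γ * x.Δ)) = (x.a + 1) * γ * x.Ca * (x.k * x.D) := by
    rw [← h3]; ring
  nlinarith

end InC

/-- vertices joined to almost all of `A` -/
noncomputable def clus (G : SimpleGraph V) (A : Finset V) (δ : ℝ) : Finset V :=
  univ.filter (fun w => (1 - δ) * A.card ≤ (nb G w A).card)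

lemma mem_clus {A : Finset V} {δ : ℝ} {w : V} :
    w ∈ clus G A δ ↔ (1 - δ) * A.card ≤ (nb G w A).card := by simp [clus]

section
variable {A : Finset V} {δ c : ℝ} (hdeg : ∀ v, (nb G v univ).card ≤ A.card) (hA : 0 < A.card)
  (hM : ∑ u ∈ A, ((nn G u A).card : ℝ) ≤ c * A.card) (hδ : 0 < δ) (hδ2 : δ ≤ 1 / 2)

include hdeg hA hM hδ2 in
lemma clus_new : ((clus G A δ \ A).card : ℝ) ≤ 2 * c := by
  have hA' : (0 : ℝ) < A.card := by exact_mod_cast hA
  have h1 := card_nsmul_le_sum (clus G A δ \ A) (fun w => ((nb G w A).card : ℝ)) (A.card / 2)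
    fun w hw => by nlinarith [mem_clus.1 (mem_sdiff.1 hw).1]
  rw [nsmul_eq_mul, sum_nb_comm] at h1
  have h2 : ∑ u ∈ A, ((nb G u (clus G A δ \ A)).card : ℝ) ≤ ∑ u ∈ A, ((nn G u A).card : ℝ) :=
    sum_le_sum fun u _ => by
      have a1 := nb_two (G := G) u (disjoint_sdiff (s := A) (t := clus G A δ))
      have a2 := card_nb_add_nn (G := G) u A
      have a3 := hdeg u
      exact_mod_cast (by omega)
  exact le_of_mul_le_mul_right (by linarith) hA'

include hA hM in
lemma clus_lost : δ * ((A \ clus G A δ).card : ℝ) ≤ c := by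
  have hA' : (0 : ℝ) < A.card := by exact_mod_cast hA
  have h1 := card_nsmul_le_sum (A \ clus G A δ) (fun w => ((nn G w A).card : ℝ)) (δ * A.card)
    fun w hw => by
      have := not_le.1 (mt mem_clus.2 (mem_sdiff.1 hw).2)
      linarith [card_nb_add_nn' (G := G) w A]
  rw [nsmul_eq_mul] at h1
  have h2 := sum_le_sum_of_subset_of_nonneg (f := fun w => ((nn G w A).card : ℝ))
    (sdiff_subset (s := A) (t := clus G A δ)) fun _ _ _ => Nat.cast_nonneg _
  exact le_of_mul_le_mul_right (by linarith) hA'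

omit [Fintype V] in
lemma nn_le (u : V) (A C : Finset V) :
    ((nn G u C).card : ℝ) ≤ (nn G u A).card + (C \ A).card := by
  have : nn G u C ⊆ nn G u A ∪ (C \ A) := fun y hy => by
    simp only [mem_union, mem_nn, mem_sdiff] at *; tauto
  exact_mod_cast (card_le_card this).trans (card_union_le _ _)

omit [Fintype V] in
lemma nb_le (u : V) (A C : Finset V) :
    ((nb G u C).card : ℝ) ≤ (nb G u A).card + (C \ A).card := by
  have : nb G u C ⊆ nb G u A ∪ (C \ A) := fun y hy => by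
    simp only [mem_union, mem_nb, mem_sdiff] at *; tauto
  exact_mod_cast (card_le_card this).trans (card_union_le _ _)

lemma clus_nn {u : V} (hu : u ∈ clus G A δ) : ((nn G u A).card : ℝ) ≤ δ * A.card := by
  linarith [mem_clus.1 hu, card_nb_add_nn' (G := G) u A]

include hdeg hA hM hδ hδ2 in
lemma clus_miss (hc : 2 * c ≤ A.card) :
    ∑ u ∈ clus G A δ, ((nn G u (clus G A δ)).card : ℝ) ≤ 6 * c * A.card := by
  have h0 := clus_new hdeg hA hM hδ2
  have hc0 : 0 ≤ c := by linarith [Nat.cast_nonneg (α := ℝ) (clus G A δ \ A).card]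
  have hA' : (0 : ℝ) < A.card := by exact_mod_cast hA
  have h1 := sum_le_sum fun u (_ : u ∈ clus G A δ) => nn_le (G := G) u A (clus G A δ)
  rw [sum_add_distrib, sum_const, nsmul_eq_mul,
    ← sum_inter_add_sum_sdiff (clus G A δ) A (fun w => ((nn G w A).card : ℝ))] at h1
  have h2 := sum_le_sum_of_subset_of_nonneg (f := fun w => ((nn G w A).card : ℝ))
    (inter_subset_right (s₁ := clus G A δ) (s₂ := A)) fun _ _ _ => Nat.cast_nonneg _
  have h3 := sum_le_card_nsmul (clus G A δ \ A) (fun w => ((nn G w A).card : ℝ)) (δ * A.card)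
    fun w hw => clus_nn (mem_sdiff.1 hw).1
  rw [nsmul_eq_mul] at h3
  have h4 : ((clus G A δ).card : ℝ) ≤ (clus G A δ \ A).card + A.card := by
    exact_mod_cast card_le_card_sdiff_add_card
  have h5 := mul_le_mul h0 (mul_le_mul_of_nonneg_right hδ2 hA'.le) (by positivity) (by positivity)
  have h6 := mul_le_mul (show ((clus G A δ).card : ℝ) ≤ 2 * A.card by linarith) h0
    (Nat.cast_nonneg _) (by positivity)
  linarith

end

lemma Yc_cover (t : ℕ) (C : Finset V) (T : V → V → Finset (Finset V))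
    (h : ∀ Q ∈ Yc G t C, ∃ u ∈ Q ∩ C, ∃ w ∈ Q \ C, Q ∈ T u w) (b : V → ℝ)
    (hb : ∀ u ∈ C, ∀ w ∈ out G C u, ((T u w).card : ℝ) ≤ b u) :
    ((Yc G t C).card : ℝ) ≤
      ∑ u ∈ C, if 2 ≤ (out G C u).card then (out G C u).card * b u else 0 := by
  have h1 : Yc G t C ⊆ (C.filter fun u => 2 ≤ (out G C u).card).biUnion
      fun u => (out G C u).biUnion (T u) := fun Q hQ => by
    obtain ⟨u, hu, w, hw, hT⟩ := h Q hQ
    have := Yc_out hQ (mem_inter.1 hu).1 (mem_inter.1 hu).2
    exact mem_biUnion.2 ⟨u, mem_filter.2 ⟨(mem_inter.1 hu).2, this.2⟩,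
      mem_biUnion.2 ⟨w, this.1 hw, hT⟩⟩
  have h2 := (card_le_card h1).trans (card_biUnion_le.trans (sum_le_sum fun u _ => card_biUnion_le))
  rw [← sum_filter]
  refine le_trans (Nat.cast_le.2 h2) ?_
  push_cast
  refine sum_le_sum fun u hu => ?_
  rw [← nsmul_eq_mul]
  exact sum_le_card_nsmul _ _ _ (hb u (mem_filter.1 hu).1)

end Pool.Agent.Lib.MP_1b6faf_co.H8
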