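import Pool.Agent.Lib.MP_1b6faf_co.H8Num

/-!
Cliques of bounded size: the Turan graph is extremal below the threshold.
-/

namespace Pool.Agent.Lib.MP_1b6faf_co.H8

open Finset
open scoped Classical

variable {V : Type} [Fintype V] {G : SimpleGraph V}

/-- properties of the cluster of a rich vertex -/
structure Cl (G : SimpleGraph V) (x : Par) (c δ : ℝ) (C : Finset V) : Prop where
  up : (C.card : ℝ) ≤ x.Δ + 2 * c
  lo : δ * (x.Δ - C.card) ≤ c
  nn1 : ∀ u ∈ C, ((nn G u C).card : ℝ) ≤ δ * x.Δ + 2 * c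
  miss : ∑ u ∈ C, ((nn G u C).card : ℝ) ≤ 6 * c * x.Δ
  far : ∀ w, w ∉ C → ((nb G w C).card : ℝ) ≤ (1 - δ) * x.Δ + 2 * c

variable {x : Par} {θ μ ε c c1 δ E ξ X : ℝ} (h : InC G x) (hn : Num x θ μ ε c c1 δ E ξ X)
include h hn

lemma exists_cl (hc : c = x.a + 1 + (x.Ca + 2) / (1 - θ)) {v : V}
    (hv : x.τ ≤ kc G (x.k + 1) (nb G v univ)) : ∃ C, Cl G x c δ C ∧ v ∈ C ∧
      ∀ y ∈ C, x.Δ < 2 * (nb G y (C ∩ nb G v univ)).card := by
  obtain ⟨A, hA⟩ : ∃ A, A = nb G v univ := ⟨_, rfl⟩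
  have hAc : A.card = x.Δ := hA ▸ h.rich_card hv
  have hM : ∑ u ∈ A, ((nn G u A).card : ℝ) ≤ c * A.card := by
    rw [hAc, hA, hc]
    exact h.rich_miss hv (by linarith [hn.hθ1]) (by linarith [hn.hφ, hn.hε])
  have hd : ∀ v, (nb G v univ).card ≤ A.card := fun v => hAc ▸ h.deg v
  have h0 : 0 < A.card := by rw [hAc]; exact_mod_cast x.Δpos
  have hδ := hn.δ4
  have h1 := clus_new hd h0 hM (δ := δ) (by linarith)
  have h2 := clus_lost (δ := δ) h0 hM
  have h3 := clus_miss hd h0 hM hn.hδ (by linarith) (by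
    rw [hAc]; linarith [hn.cE, hn.EX, hn.hX, hn.c2])
  have h4 := fun u => clus_nn (G := G) (A := A) (δ := δ) (u := u)
  have h5 := fun w => mem_clus (G := G) (A := A) (δ := δ) (w := w)
  generalize clus G A δ = C at *
  rw [hAc] at h3 h4 h5
  have h6 : (C.card : ℝ) ≤ (C \ A).card + x.Δ := by
    rw [← hAc]; exact_mod_cast card_le_card_sdiff_add_card
  have h7 : (x.Δ : ℝ) ≤ (A \ C).card + C.card := by
    rw [← hAc]; exact_mod_cast card_le_card_sdiff_add_card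
  refine ⟨C, ⟨by linarith, by nlinarith [hn.hδ], fun u hu => by linarith [nn_le (G := G) u A C, h4 u hu],
    h3, fun w hw => by linarith [nb_le (G := G) w A C, not_le.1 (mt (h5 w).2 hw)]⟩, (h5 v).2 ?_,
    fun y hy => ?_⟩
  · have : nb G v A = A := by rw [hA]; ext y; simp [mem_nb]
    rw [this, hAc]
    linarith [mul_pos hn.hδ x.Δpos]
  · rw [← hA]
    have a1 := nb_le (G := G) y (C ∩ A) A
    rw [sdiff_inter_self_right] at a1
    have a2 : ((A \ C).card : ℝ) ≤ E := le_of_mul_le_mul_left (by linarith [hn.cδ, hn.c2]) hn.hδ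
    have : (x.Δ : ℝ) < 2 * (nb G y (C ∩ A)).card := by
      nlinarith [(h5 y).1 hy, hn.EX, hn.hX, hn.E2]
    exact_mod_cast this

omit [Fintype V] h in
lemma gw (C : Finset V) (w : V) : x.F * ((((x.k + 1 : ℕ) : ℝ) + 1) * kc G (x.k + 1) (nb G w C)
    - (nb G w C).card * (x.τ / X)) ≤ X ^ (x.k + 1) * ((x.k + 2) * ((nb G w C).card / X) ^ (x.k + 1)
      - (1 - ξ) * ((nb G w C).card / X)) := by
  have hX := hn.Xpos
  have a1 := mul_le_mul_of_nonneg_left (kc_fact (G := G) (x.k + 1) (nb G w C))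
    (show (0 : ℝ) ≤ x.k + 2 by positivity)
  have a2 := mul_le_mul_of_nonneg_left hn.T2' (show (0 : ℝ) ≤ (nb G w C).card / X by positivity)
  have a3 : X ^ (x.k + 1) * ((nb G w C).card / X) ^ (x.k + 1) = (nb G w C).card ^ (x.k + 1) := by
    rw [← mul_pow, mul_div_cancel₀ _ hX.ne']
  change _ * (x.F * _) ≤ _ at a1
  rw [← a3] at a1
  push_cast
  rw [show (nb G w C).card * (x.τ / X) = (nb G w C).card / X * x.τ by ring]
  linarith

omit h in
lemma to_big (C O : Finset V) : Bal G (x.k + 1) x.τ (x.τ / X) C O ≤ Bal G (x.k + 1) x.τ (x.τ / X) C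
    (O.filter fun w => θ * (1 - ξ) * X ≤ (nb G w C).card) := by
  unfold Bal
  rw [← sum_filter_add_sum_filter_not O (fun w => θ * (1 - ξ) * X ≤ (nb G w C).card)]
  have hX := hn.Xpos
  suffices ∑ w ∈ O.filter (fun w => ¬ θ * (1 - ξ) * X ≤ (nb G w C).card),
    ((((x.k + 1 : ℕ) : ℝ) + 1) * kc G (x.k + 1) (nb G w C) - (nb G w C).card * (x.τ / X)) ≤ 0 by
    linarith
  refine sum_nonpos fun w hw => ?_
  have a1 := (div_le_iff₀ hX).2 (not_le.1 (mem_filter.1 hw).2).le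
  have a2 := gw (G := G) hn C w
  have a0 : (0 : ℝ) ≤ (nb G w C).card / X := by positivity
  generalize (nb G w C).card / X = y at *
  have hξ : 0 ≤ 1 - ξ := by linarith [hn.ξδ, hn.δ4]
  have a3 := pow_le_pow_left₀ a0 a1 x.k
  rw [mul_pow] at a3
  have a4 := pow_le_of_le_one hξ (by linarith [hn.hξ]) (show x.k ≠ 0 by have := x.hk; omega)
  have a5 : (x.k + 2) * y ^ x.k ≤ 1 - ξ := by
    have b1 := mul_le_mul hn.hθ a4 (pow_nonneg hξ _) zero_le_one
    nlinarith [mul_le_mul_of_nonneg_left a3 (show (0 : ℝ) ≤ x.k + 2 by positivity)]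
  rw [pow_succ y] at a2
  refine nonpos_of_mul_nonpos_right (a2.trans (mul_nonpos_of_nonneg_of_nonpos (by positivity) ?_))
    (by linarith [x.Fpos])
  nlinarith [mul_le_mul_of_nonneg_right a5 a0]

omit hn in
lemma bdry {C B : Finset V} (hB : Disjoint B C) : ∑ w ∈ B, ((nb G w C).card : ℝ)
    ≤ ∑ u ∈ C, ((nn G u C).card : ℝ) + C.card * (x.Δ - C.card) := by
  rw [sum_nb_comm, ← nsmul_eq_mul, ← sum_const, ← sum_add_distrib]
  refine sum_le_sum fun u _ => ?_
  have a1 : ((out G C u).card : ℝ) + C.card ≤ x.Δ + (nn G u C).card := by exact_mod_cast h.out_le C u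
  have a2 : ((nb G u B).card : ℝ) ≤ (out G C u).card := by
    exact_mod_cast card_le_card (nb_mono u fun y hy =>
      mem_sdiff.2 ⟨mem_univ y, disjoint_left.1 hB hy⟩)
  linarith

variable {C B : Finset V} (hC : Cl G x c δ C) (hB : Disjoint B C)
  (hb : ∀ w ∈ B, θ * (1 - ξ) * X ≤ (nb G w C).card)
include hC

omit [Fintype V] h in
lemma cl_size : (C.card : ℝ) ≤ X ∧ x.Δ - C.card + x.a ≤ E := by
  refine ⟨by linarith [hC.up, hn.hX, hn.cE, hn.c2], ?_⟩
  have : 6 * (x.Δ - C.card : ℝ) ≤ E := le_of_mul_le_mul_left (by linarith [hn.cδ, hC.lo]) hn.hδ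
  linarith [hn.hc, hn.cE, hn.c2]

include hB hb

lemma card_big : (B.card : ℝ) ≤ E := by
  have a1 := card_nsmul_le_sum B (fun w => ((nb G w C).card : ℝ)) _ hb
  rw [nsmul_eq_mul] at a1
  have a2 := bdry h hB
  have hX := hn.Xpos
  have a3 : δ * (C.card * (x.Δ - C.card)) ≤ c * X := by
    nlinarith [mul_le_mul_of_nonneg_left hC.lo (Nat.cast_nonneg (α := ℝ) C.card),
      mul_le_mul_of_nonneg_left (cl_size hn hC).1 (show 0 ≤ c by linarith [hn.c2])]
  have a4 : B.card * (ε / 2 * X) ≤ B.card * (θ * (1 - ξ) * X) := mul_le_mul_of_nonneg_left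
    (mul_le_mul_of_nonneg_right hn.θ2 hX.le) (Nat.cast_nonneg _)
  have a5 : δ * (6 * c * x.Δ) ≤ c * X := by
    have : c * x.Δ ≤ c * X := mul_le_mul_of_nonneg_left (by linarith [hn.hX, hn.E2])
      (by linarith [hn.c2])
    nlinarith [hn.δ4, mul_pos (show 0 < c by linarith [hn.c2]) x.Δpos]
  have a6 := mul_le_mul_of_nonneg_left (a4.trans (a1.trans (a2.trans
    (add_le_add hC.miss le_rfl)))) hn.hδ.le
  refine le_of_mul_le_mul_left ?_ (mul_pos (mul_pos hn.hε hn.hδ) hX)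
  nlinarith [mul_le_mul_of_nonneg_right hn.hE hX.le, mul_pos (show 0 < c by linarith [hn.c2]) hX]

lemma caseA (hne : B.card + C.card ≠ x.n) : Bal G (x.k + 1) x.τ (x.τ / X) C B < 0 := by
  have hX := hn.Xpos
  have hE := hn.E2
  have hF : 0 < x.F := by linarith [x.Fpos]
  obtain ⟨s1, s2⟩ := cl_size hn hC
  have s3 := hn.hX
  have s4 := x.nR
  have s5 := hC.up
  have s6 : (x.a : ℝ) + 1 ≤ E := by linarith [hn.hc, hn.cE, hn.c2]
  have s7 := hn.cE
  have s8 := hn.c2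
  obtain ⟨σ, hσ⟩ : ∃ σ : ℝ, σ = x.n - C.card := ⟨_, rfl⟩
  have hσE : |σ| ≤ E := abs_le.2 ⟨by linarith [x.a1], by linarith⟩
  obtain ⟨η, hη⟩ : ∃ η, ∑ u ∈ C, ((nn G u C).card : ℝ) = x.M0 + η * X :=
    ⟨(∑ u ∈ C, ((nn G u C).card : ℝ) - x.M0) / X, by field_simp; ring⟩
  have hnn : ∀ u ∈ C, ((nn G u C).card : ℝ) ≤ 2 * δ * X := fun u hu => by
    nlinarith [hC.nn1 u hu, hn.Eδ, hn.hδ]
  have hm : ∑ u ∈ C, ((nn G u C).card : ℝ) ≤ 6 * c * X := by nlinarith [hC.miss]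
  have t1 := x.term1 hn.hc1 hn.hfo G C (by linarith) s1 (by linarith [x.a1])
    (by linarith [hn.hδ]) hnn hm hσ hσE hη hn.hξ.le hn.T1' hn.T2'
  obtain ⟨β, hβ⟩ : ∃ β, ∑ w ∈ B, ((nb G w C).card / X : ℝ) = β := ⟨_, rfl⟩
  have hβ' : β * X = ∑ w ∈ B, ((nb G w C).card : ℝ) := by
    rw [← hβ, ← sum_div, div_mul_cancel₀ _ hX.ne']
  have hy : ∀ w, ((nb G w C).card / X : ℝ) ≤ 1 := fun w => (div_le_one hX).2
    (le_trans (Nat.cast_le.2 (card_le_card (nb_subset _ _))) s1)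
  have hy0 : ∀ w, (0 : ℝ) ≤ (nb G w C).card / X := fun w => by positivity
  obtain ⟨g, hg⟩ : ∃ g, ∑ w ∈ B, ((x.k + 2) * ((nb G w C).card / X) ^ (x.k + 1)
      - (1 - ξ) * ((nb G w C).card / X) : ℝ) = g := ⟨_, rfl⟩
  have t2 := sum_le_sum fun w (_ : w ∈ B) => gw (G := G) hn C w
  rw [← mul_sum, ← mul_sum, hg] at t2
  have g1 : g ≤ μ * (β - B.card * (θ * (1 - ξ))) + B.card * ξ := by
    rw [← hg, ← hβ, ← nsmul_eq_mul, ← nsmul_eq_mul, ← sum_const, ← sum_const, ← sum_sub_distrib,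
      mul_sum, ← sum_add_distrib]
    refine sum_le_sum fun w hw => ?_
    have := gain hn.hθ hn.hμ (hn.hε.le.trans hn.εθ) hn.hθ1 (θ' := θ * (1 - ξ))
      (by nlinarith [hn.hε, hn.εθ, hn.hξ]) ((le_div_iff₀ hX).2 (hb w hw)) (hy0 w) (hy w)
    nlinarith [mul_le_mul_of_nonneg_left (hy w) hn.hξ.le]
  have g2 : g ≤ (x.k + 1) * B.card + B.card * ξ := by
    rw [← hg, mul_comm _ (B.card : ℝ), ← mul_add, ← nsmul_eq_mul]
    refine sum_le_card_nsmul _ _ _ fun w _ => ?_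
    have := mul_le_mul_of_nonneg_left (pow_le_of_le_one (hy0 w) (hy w) (n := x.k + 1) (by omega))
      (show (0 : ℝ) ≤ x.k + 2 by positivity)
    nlinarith [mul_le_mul_of_nonneg_left (hy w) hn.hξ.le,
      mul_le_mul_of_nonneg_left (hy w) (show (0 : ℝ) ≤ x.k + 1 by positivity)]
  obtain ⟨l, hl⟩ : ∃ l, x.k = l + 1 := ⟨x.k - 1, by have := x.hk; omega⟩
  have t3 := Y_le (G := G) l C (X := X) fun v => le_trans (Nat.cast_le.2 (h.deg v)) (by linarith)
  rw [show l + 3 = x.k + 1 + 1 by omega] at t3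
  have t4 : ((Yc G (x.k + 1 + 1) C).card : ℝ) ≤ X ^ (x.k + 1) * (24 * c * δ + 2 * E ^ 2 / X) := by
    refine t3.trans ((sum_le_sum (g := fun u => (4 * δ * X * (nn G u C).card + 2 * E ^ 2) * X ^ l)
      fun u hu => ?_).trans ?_)
    · have a0 := hn.hδ
      split_ifs
      · have a1 : ((out G C u).card : ℝ) + C.card ≤ x.Δ + (nn G u C).card := by
          exact_mod_cast h.out_le C u
        have a2 := pow_le_pow_left₀ (Nat.cast_nonneg (out G C u).card)
          (show _ ≤ (nn G u C).card + E by linarith [x.a1]) 2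
        refine mul_le_mul_of_nonneg_right ?_ (by positivity)
        nlinarith [sq_nonneg ((nn G u C).card - E),
          mul_le_mul_of_nonneg_right (hnn u hu) (Nat.cast_nonneg (α := ℝ) (nn G u C).card)]
      · positivity
    · rw [← sum_mul, sum_add_distrib, ← mul_sum, sum_const, nsmul_eq_mul, hl,
        show X ^ (l + 1 + 1) * (24 * c * δ + 2 * E ^ 2 / X)
          = (4 * δ * X * (6 * c * X) + X * (2 * E ^ 2)) * X ^ l by field_simp; ring]
      have a0 := hn.hδ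
      exact mul_le_mul_of_nonneg_right (add_le_add (mul_le_mul_of_nonneg_left hm (by positivity))
        (mul_le_mul_of_nonneg_right s1 (by positivity))) (by positivity)
  have f := hn.fin (σ := σ) (η := η) (β := β) (card_big h hn hC hB hb) (Nat.cast_nonneg _) ?_ ?_
    g1 g2 ?_
  · have t5 := mul_le_mul_of_nonneg_left t4 (show 0 ≤ x.F * (x.k + 1 + 1) by positivity)
    have := mul_neg_of_pos_of_neg (pow_pos hX (x.k + 1)) f
    refine neg_of_mul_neg_right (a := x.F) ?_ hF.le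
    unfold Bal
    push_cast at t2 ⊢
    linarith
  · have a1 := cw_miss x.a (h.cf.mono (subset_univ C))
    have a2 := x.nR'
    rw [hη, show (C.card : ℝ) = x.n - σ by linarith, Par.M0] at a1
    push_cast at a1
    have a3 := mul_le_mul_of_nonneg_left (le_of_abs_le hσE) (show (0 : ℝ) ≤ 2 * x.a + 1 by positivity)
    have a4 := mul_le_mul_of_nonneg_right (show (2 * x.a + 1 : ℝ) ≤ 3 * E by linarith)
      (show 0 ≤ E by linarith)
    rw [a2] at a1
    linarith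
  · have a1 := bdry h hB
    rw [hη, ← hβ', show (C.card : ℝ) = x.n - σ by linarith, Par.M0, ← x.φn] at a1
    have a2 := mul_le_mul_of_nonneg_left (show (x.n : ℝ) ≤ X by linarith) x.φpos.le
    have a3 := mul_le_mul_of_nonneg_left (le_of_abs_le hσE) (Nat.cast_nonneg (α := ℝ) x.a)
    have a4 := mul_le_mul_of_nonneg_left (neg_le_of_abs_le hσE) (show 0 ≤ E - x.a by linarith)
    rw [show (x.Δ : ℝ) = x.n - x.a by linarith] at a1
    rw [show X = x.n + (E - x.a) by linarith] at a1 a2 ⊢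
    nlinarith [sq_nonneg σ]
  · rw [hσ]
    rcases lt_or_gt_of_ne hne with c | c
    · right
      have : (B.card : ℝ) + C.card + 1 ≤ x.n := by exact_mod_cast c
      linarith
    · left
      have : (x.n : ℝ) + 1 ≤ B.card + C.card := by exact_mod_cast c
      linarith

lemma caseB (he : B.card + C.card = x.n) : Bal G (x.k + 1) x.τ (x.τ / X) C B < 0 ∨
    (Bal G (x.k + 1) x.τ (x.τ / X) C B ≤ 0 ∧ C.card ≤ x.n ∧ ∀ u ∈ C, (out G C u).card ≤ 1) := by
  have hX := hn.Xpos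
  have hE := hn.E2
  have hF : 0 < x.F := by linarith [x.Fpos]
  have hK := card_big h hn hC hB hb
  have s1 := (cl_size hn hC).1
  have s3 := hn.hX
  have s7 := hn.cE
  have s8 := hn.Eδ
  have s9 := hn.Eξ'
  have hδ := hn.hδ
  have hW := pow_pos hX (x.k + 1)
  have hc : (B ∪ C).card = x.n := by rw [card_union_of_disjoint hB, he]
  have a1 := h.cw hc
  rw [sum_union hB] at a1
  have a2 := mul_le_mul_of_nonneg_left (kc_union (G := G) (x.k + 1) C B hB)
    (show (0 : ℝ) ≤ x.k + 1 + 1 by positivity)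
  have t1 : ∀ w ∈ B, x.F * (x.τ - (nb G w C).card * (x.τ / X) - x.sl (nn G w (B ∪ C)).card)
      ≤ X ^ (x.k + 1) * (2 * ξ - ε * δ / 4) := fun w hw => by
    have b1 : x.n - (nn G w (B ∪ C)).card = (nb G w (B ∪ C)).card := by
      have := card_nb_add_nn (G := G) w (B ∪ C); omega
    have b2 := Z_le_pow (x.q + 1) (nb G w (B ∪ C)).card (x.k + 1)
    change x.F * _ ≤ _ at b2
    have b3 := nb_le (G := G) w C (B ∪ C)
    rw [union_sdiff_right, sdiff_eq_self_of_disjoint hB] at b3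
    have b4 := hC.far w (disjoint_left.1 hB hw)
    obtain ⟨y, hy⟩ : ∃ y, ((nb G w C).card : ℝ) = y * X := ⟨_, (div_mul_cancel₀ _ hX.ne').symm⟩
    obtain ⟨z, hz⟩ : ∃ z, ((nb G w (B ∪ C)).card : ℝ) = z * X :=
      ⟨_, (div_mul_cancel₀ _ hX.ne').symm⟩
    have z0 : 0 ≤ z := le_of_mul_le_mul_right (by rw [← hz, zero_mul]; positivity) hX
    have z1 : z ≤ 1 - δ / 2 := le_of_mul_le_mul_right (by nlinarith [hn.δ4]) hX
    have z2 : z ≤ y + ξ := le_of_mul_le_mul_right (by nlinarith) hX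
    have y1 : ε / 2 ≤ y := hn.θ2.trans (le_of_mul_le_mul_right (hy ▸ hb w hw) hX)
    have y2 : y ≤ 1 := le_of_mul_le_mul_right (by nlinarith [hn.δ4]) hX
    have b5 : z ^ (x.k + 1) ≤ y + ξ - ε * δ / 4 := by
      have := pow_le_pow_of_le_one z0 (by linarith) (show 2 ≤ x.k + 1 by have := x.hk; omega)
      nlinarith [mul_le_mul_of_nonneg_left z1 z0, mul_le_mul_of_nonneg_right z2
        (show 0 ≤ 1 - δ / 2 by linarith), mul_le_mul_of_nonneg_left y1 hδ.le, mul_pos hδ hn.hξ]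
    have b6 : x.D * (x.a + 1) * (1 - x.a / (nn G w (B ∪ C)).card) ≤ x.D * (x.a + 1) :=
      mul_le_of_le_one_right (by have := x.Dpos; positivity) (sub_le_self _ (by positivity))
    rw [hz, mul_pow] at b2
    rw [Par.sl, b1, hy, show y * X * (x.τ / X) = y * x.τ by field_simp]
    nlinarith [hn.T2, mul_le_mul_of_nonneg_left hn.T1' (sub_nonneg.2 y2),
      mul_le_mul_of_nonneg_left b6 hF.le, mul_le_mul_of_nonneg_left b5 hW.le]
  obtain ⟨l, hl⟩ : ∃ l, x.k = l + 1 := ⟨x.k - 1, by have := x.hk; omega⟩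
  have t3 := Y_le (G := G) l C (X := X) fun v => le_trans (Nat.cast_le.2 (h.deg v)) (by linarith)
  rw [show l + 3 = x.k + 1 + 1 by omega] at t3
  obtain ⟨κ, hκ⟩ : ∃ κ, κ = x.F * (x.k + 1 + 1) := ⟨_, rfl⟩
  have hκ0 : x.k + 2 ≤ κ := hκ ▸ Num.κk
  have hU := pow_pos hX l
  have t2 : ∀ u ∈ C, (κ * (if 2 ≤ (out G C u).card then ((out G C u).card : ℝ) ^ 2 * X ^ l else 0)
      ≤ x.F * x.sl (nn G u (B ∪ C)).card + 4 * B.card ^ 2 * κ * X ^ l) ∧ (B.card = 0 →
      2 ≤ (out G C u).card → κ * (if 2 ≤ (out G C u).card then ((out G C u).card : ℝ) ^ 2 * X ^ l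
        else 0) < x.F * x.sl (nn G u (B ∪ C)).card + 4 * B.card ^ 2 * κ * X ^ l) := fun u hu => by
    have b1 := h.out_le (B ∪ C) u
    obtain ⟨i, hi⟩ : ∃ i, (nn G u (B ∪ C)).card = x.a + i :=
      ⟨(nn G u (B ∪ C)).card - x.a, by unfold Par.n at hc; omega⟩
    have b2 : (out G C u).card ≤ i + B.card := by
      have : out G C u ⊆ out G (B ∪ C) u ∪ B := fun y hy => by
        simp only [mem_union, mem_out] at *; tauto
      have := (card_le_card this).trans (card_union_le _ _)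
      unfold Par.n at hc
      omega
    have b3 := nn_le (G := G) u C (B ∪ C)
    rw [union_sdiff_right, sdiff_eq_self_of_disjoint hB, hi] at b3
    push_cast at b3
    have b4 : (i : ℝ) ≤ 3 * δ * X := by nlinarith [hC.nn1 u hu, x.a1]
    have b5 := hn.h4
    rw [← hκ] at b5
    have b6 : 8 * (x.a + 2) * (κ * i) ≤ X := by
      nlinarith [mul_le_mul_of_nonneg_left b4 (show 0 ≤ 8 * (x.a + 2) * κ by
        have := x.k1; have : 0 ≤ κ := by linarith
        positivity), mul_le_mul_of_nonneg_right b5 hX.le]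
    have hκ1 : 0 < κ := by linarith [x.k1]
    rw [hi]
    rcases x.sl_pay (i := i) (Or.inr (by
      nlinarith [hn.EX, mul_le_mul_of_nonneg_left (show (x.k : ℝ) ≤ κ by linarith)
        (show (0 : ℝ) ≤ (x.a + 2) * i by positivity)])) (η := 1 / (4 * (x.a + 2)))
      (by field_simp; norm_num) with b | b
    · rw [b.2, mul_zero, zero_add]
      refine ⟨?_, fun c1 c2 => by omega⟩
      split_ifs with c
      · have : ((out G C u).card : ℝ) ≤ 2 * B.card := by exact_mod_cast (by omega)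
        nlinarith [mul_le_mul_of_nonneg_left (pow_le_pow_left₀ (Nat.cast_nonneg _) this 2)
          (mul_pos hκ1 hU).le]
      · rw [mul_zero]; positivity
    · have c1 : κ * (2 * i ^ 2 * X ^ l) < x.F * x.sl (x.a + i) := by
        refine lt_of_le_of_lt ?_ (mul_lt_mul_of_pos_left b.2 hF)
        have d1 := hn.T3
        rw [hl, pow_succ] at d1
        have d2 := mul_le_mul_of_nonneg_left ((mul_le_mul_of_nonneg_left b6 hU.le).trans d1)
          (Nat.cast_nonneg (α := ℝ) i)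
        rw [show x.F * (i * (1 / (4 * (x.a + 2)) * x.D)) = i * (x.F * x.D) / (4 * (x.a + 2)) by
          ring, le_div_iff₀ (by positivity)]
        linarith
      suffices κ * (if 2 ≤ (out G C u).card then ((out G C u).card : ℝ) ^ 2 * X ^ l else 0)
        < x.F * x.sl (x.a + i) + 4 * B.card ^ 2 * κ * X ^ l from ⟨this.le, fun _ _ => this⟩
      have c2 : 0 ≤ (B.card : ℝ) ^ 2 * κ * X ^ l := by positivity
      split_ifs with c
      · have : ((out G C u).card : ℝ) ≤ i + B.card := by exact_mod_cast b2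
        have d1 : ((out G C u).card : ℝ) ^ 2 ≤ 2 * i ^ 2 + 2 * B.card ^ 2 := by
          nlinarith [pow_le_pow_left₀ (Nat.cast_nonneg _) this 2, sq_nonneg ((i : ℝ) - B.card)]
        nlinarith [mul_le_mul_of_nonneg_left d1 (mul_pos hκ1 hU).le]
      · have : 0 ≤ κ * (2 * i ^ 2 * X ^ l) := by positivity
        linarith
  have t4 := sum_le_card_nsmul _ _ _ t1
  rw [← mul_sum, sum_sub_distrib, sum_sub_distrib, sum_const, nsmul_eq_mul, nsmul_eq_mul] at t4
  have t5 : x.F * Bal G (x.k + 1) x.τ (x.τ / X) C B ≤ B.card * (X ^ (x.k + 1) * (2 * ξ - ε * δ / 4))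
      + (∑ u ∈ C, κ * (if 2 ≤ (out G C u).card then ((out G C u).card : ℝ) ^ 2 * X ^ l else 0)
        - x.F * ∑ u ∈ C, x.sl (nn G u (B ∪ C)).card) := by
    have : (x.n : ℝ) = B.card + C.card := by exact_mod_cast he.symm
    rw [this] at a1
    have b1 := mul_le_mul_of_nonneg_left t3 (show 0 ≤ κ by linarith [x.k1])
    have b2 := mul_le_mul_of_nonneg_left (a2.trans a1) hF.le
    unfold Bal
    rw [← mul_sum, sum_sub_distrib, ← mul_sum]
    rw [hκ] at b1 ⊢
    push_cast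
    linarith
  have t6 := sum_le_sum fun u hu => (t2 u hu).1
  rw [sum_add_distrib, ← mul_sum C _ x.F, sum_const, nsmul_eq_mul] at t6
  rcases Nat.eq_zero_or_pos B.card with c | c
  · by_cases c3 : ∀ u ∈ C, (out G C u).card ≤ 1
    · refine Or.inr ⟨nonpos_of_mul_nonpos_right (a := x.F) ?_ hF, by omega, c3⟩
      rw [c] at t5 t6
      push_cast at t5 t6
      linarith
    · push Not at c3
      obtain ⟨u, u1, u2⟩ := c3
      have t7 := sum_lt_sum (fun u hu => (t2 u hu).1) ⟨u, u1, (t2 u u1).2 c u2⟩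
      rw [sum_add_distrib, ← mul_sum C _ x.F, sum_const, nsmul_eq_mul] at t7
      refine Or.inl (neg_of_mul_neg_right (a := x.F) ?_ hF.le)
      rw [c] at t5 t7
      push_cast at t5 t7
      linarith
  · have c' : (0 : ℝ) < B.card := by exact_mod_cast c
    refine Or.inl (neg_of_mul_neg_right (a := x.F) ?_ hF.le)
    have b1 : C.card * (4 * B.card ^ 2 * κ * X ^ l) ≤ B.card * (X ^ (x.k + 1) * ξ) := by
      have d1 : 4 * B.card * κ ≤ ξ * X := by
        nlinarith [hn.Eξ, mul_le_mul_of_nonneg_right hK (show 0 ≤ κ by linarith [x.k1])]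
      have d2 := mul_le_mul s1 d1 (by have : 0 ≤ κ := by linarith [x.k1]
                                      positivity) hX.le
      rw [hl, pow_succ X, pow_succ X]
      nlinarith [mul_le_mul_of_nonneg_left d2 (mul_pos c' hU).le]
    nlinarith [mul_pos (mul_pos c' hW) (sub_pos.2 hn.h5)]

omit hC hB hb in
lemma small_good (hc : c = x.a + 1 + (x.Ca + 2) / (1 - θ)) (v : V)
    (hv : x.τ ≤ kc G (x.k + 1) (nb G v univ)) : ∃ C, Good G x.Δ x.n (x.k + 1) x.τ (x.τ / X) v C := by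
  obtain ⟨C, h1, h2, h3⟩ := exists_cl h hn hc hv
  refine ⟨C, h2, h3, fun O hO => ?_⟩
  have a1 := to_big (G := G) hn C O
  have a2 := hO.mono_left (filter_subset (fun w => θ * (1 - ξ) * X ≤ (nb G w C).card) O)
  have a3 := fun w (hw : w ∈ O.filter fun w => θ * (1 - ξ) * X ≤ (nb G w C).card) =>
    (mem_filter.1 hw).2
  by_cases c : (O.filter fun w => θ * (1 - ξ) * X ≤ (nb G w C).card).card + C.card = x.n
  · exact (caseB h hn h1 a2 a3 c).imp a1.trans_lt fun b => ⟨a1.trans b.1, b.2⟩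
  · exact Or.inl (a1.trans_lt (caseA h hn h1 a2 a3 c))

omit h hn hC hB hb in
theorem small (a k : ℕ) {θ ε : ℝ} (hε : 0 < ε) (hθ : ((k : ℝ) + 2) * θ ^ k ≤ 1)
    (hθ2 : 2 ≤ ((k : ℝ) + 2) * (1 - θ)) : ∃ Q : ℕ, ∀ x : Par, x.a = a → x.k = k → Q ≤ x.Δ →
      x.φ ≤ θ - ε → ∀ (V : Type) [Fintype V] (G : SimpleGraph V), InC G x →
      ((x.k + 1 : ℕ) + 1) * kc G (x.k + 1 + 1) univ ≤ (univ : Finset V).card * x.τ ∧
      (((x.k + 1 : ℕ) + 1) * kc G (x.k + 1 + 1) univ = (univ : Finset V).card * x.τ →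
        x.n * kc G 3 univ ≤ (univ : Finset V).card * Z (x.q + 1 + 1) x.n 3) := by
  have hθ1 : 0 < 1 - θ := by
    by_contra hc
    nlinarith [Nat.cast_nonneg (α := ℝ) k]
  obtain ⟨c1, hc1, hfo⟩ := first_order (k + 1 + 1)
  obtain ⟨c, hc⟩ : ∃ c : ℝ, c = a + 1 + ((a + 1) * 2 ^ (a + 2) + 2) / (1 - θ) := ⟨_, rfl⟩
  have hc0 : (a : ℝ) + 1 ≤ c := by rw [hc]; exact le_add_of_nonneg_right (by positivity)
  have hc2 : 0 < c := lt_of_lt_of_le (by positivity) hc0
  obtain ⟨κ, hκ⟩ : ∃ κ : ℝ, κ = (k + 1).factorial * (k + 1 + 1) := ⟨_, rfl⟩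
  have hκ0 : 0 ≤ κ := by rw [hκ]; positivity
  obtain ⟨lam, hlam⟩ : ∃ lam : ℝ, lam = (k + 1 + 1).choose 2 := ⟨_, rfl⟩
  have hl0 : 0 ≤ lam := by rw [hlam]; positivity
  obtain ⟨δ, hδ, hδ1⟩ := exists_pos_mul_lt (lt_min (half_pos hε) zero_lt_one)
    ((12 * c1 + 24 * κ) * c + 24 * κ * (a + 2))
  obtain ⟨E, hE⟩ : ∃ E : ℝ, E = 6 * c / (ε * δ) + k + 1 := ⟨_, rfl⟩
  have hE0 : 0 < 6 * c / (ε * δ) := by positivity
  have hE1 : 0 < E := by rw [hE]; positivity
  obtain ⟨ξ, hξ, hξ1⟩ := exists_pos_mul_lt (lt_min (half_pos hε) (mul_pos hε hδ))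
    ((lam + 3) * E + 12)
  obtain ⟨Q, hQ⟩ := exists_nat_ge ((5 * lam + 4 * c1 + 2 * κ) * E ^ 2 / ξ)
  refine ⟨Q, fun x ha hk hQ' hφ V _ G h => ?_⟩
  subst ha hk
  rw [lt_min_iff, add_mul] at hδ1 hξ1
  have p1 : 0 ≤ (12 * c1 + 24 * κ) * c * δ := by positivity
  have p2 : 0 ≤ 24 * κ * (x.a + 2) * δ := by positivity
  have p3 : 0 ≤ (lam + 3) * E * ξ := by positivity
  have p4 : (Q : ℝ) ≤ x.Δ := by exact_mod_cast hQ'
  have hn : Num x θ ((x.k + 1) / (1 - θ)) ε c c1 δ E ξ (x.Δ + E) := by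
    refine ⟨hθ, by linarith, div_mul_cancel₀ _ hθ1.ne', ?_, hε, hφ, hc0, hc1, hfo, hδ, hξ, rfl, ?_,
      by linarith, ?_, ?_, ?_, ?_, by linarith [hξ1.2]⟩
    · rw [div_le_iff₀ hθ1]
      nlinarith [x.lam_eq, mul_le_mul_of_nonneg_left hθ2 (show (0 : ℝ) ≤ x.k + 1 by positivity),
        congrArg (· * (1 - θ)) x.lam_eq]
    · rw [mul_comm (ε * δ), ← div_le_iff₀ (mul_pos hε hδ)]
      linarith [x.k1]
    · exact le_of_eq_of_le (by rw [hκ]; rfl) (show (12 * c1 + 24 * κ) * c * δ ≤ _ by linarith [hδ1.1])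
    · rw [div_le_iff₀ hξ] at hQ
      exact le_of_eq_of_le (by rw [hκ, hlam]; rfl) (hQ.trans (by nlinarith))
    · exact lt_of_eq_of_lt (by rw [hlam]; rfl) (show (lam + 3) * E * ξ < _ by linarith [hξ1.1])
    · exact le_of_eq_of_le (by rw [hκ]; rfl) (show 24 * κ * (x.a + 2) * δ ≤ _ by linarith [hδ1.2])
  have hτ0 : 0 < x.τ := x.P1pos.trans x.P1τ
  have hΔ := x.Δpos
  refine glob (by have := x.hk; omega) h.deg h.cf (x.price ?_ ?_) (small_good h hn hc)
  · rw [div_mul_eq_mul_div, div_lt_iff₀ hn.Xpos]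
    nlinarith
  · have a1 : 4 / 3 ≤ (1 - x.φ) * (x.k + 1) := by nlinarith [x.k1]
    nlinarith [hn.EX, hn.hk, mul_le_mul_of_nonneg_right a1 hΔ.le]

end Pool.Agent.Lib.MP_1b6faf_co.H8
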