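import Pool.Agent.Lib.MP_1b6faf_co.H8Aux

/-!
First order estimates for cliques of bounded size.
-/

namespace Pool.Agent.Lib.MP_1b6faf_co.H8

open Finset
open scoped Classical

/-- the first order upper bound holds with constant `c` -/
def FO (j : ℕ) (c : ℝ) : Prop := ∀ (V : Type) (G : SimpleGraph V) (S : Finset V)
    (X ν α β : ℝ), 0 < X → 0 ≤ ν → 0 ≤ α → S.card = (1 - α) * X →
    ∑ u ∈ S, ((nn G u S).card : ℝ) = β * X ^ 2 → (∀ u ∈ S, ((nn G u S).card : ℝ) ≤ ν * X) →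
    j.factorial * kc G j S ≤ X ^ j * (1 - j * α - j.choose 2 * β + c * (α ^ 2 + ν * β))

namespace Par

variable (x : Par)

noncomputable def F : ℝ := (x.k + 1).factorial
noncomputable def lam : ℝ := (x.k + 1 + 1).choose 2
noncomputable def M0 : ℝ := x.a * x.n + (x.r + 1) * (x.a + 1)

lemma Fpos : 1 ≤ x.F := by unfold F; exact_mod_cast Nat.factorial_pos _

lemma lam_eq : 2 * x.lam = (x.k + 1) * (x.k + 2) := by
  rw [lam, Nat.cast_choose_two]; push_cast; ring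

lemma rΔ : (x.r + 1) * (x.a + 1) ≤ (x.Δ : ℝ) := by
  have h1 : (x.r : ℝ) + 1 ≤ x.q := by exact_mod_cast x.hr
  rw [x.Δ_eq]; push_cast; nlinarith [x.a1]

lemma FP {X : ℝ} (h : (x.Δ : ℝ) ≤ X) : x.F * x.P ≤ X ^ (x.k + 1) :=
  (Z_le_pow _ _ _).trans (pow_le_pow_left₀ (Nat.cast_nonneg _) h _)

lemma FP' {X E ξ : ℝ} (hE : 0 ≤ E) (hX : X = x.Δ + E)
    (h : (x.k + 1) * E + x.lam * (x.a + 1) ≤ ξ * X) :
    (1 - ξ) * X ^ (x.k + 1) ≤ x.F * (x.P - (x.a + 1) * x.D) := by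
  have hX0 : 0 < X := by linarith [x.Δpos]
  have e : ((x.q + 1 : ℕ) : ℝ) * x.a + (x.r + 1 : ℕ) = x.Δ := by rw [x.Δ_eq]; push_cast; ring
  have h1 := Z_lower (q := x.q + 1) (a := x.a) (r := x.r + 1) (by have := x.hr; omega) (x.k + 1) hX0
    (by rw [e]; linarith)
  rw [e, ← x.Δ_eq] at h1
  change _ ≤ x.F * x.P at h1
  have h2 : (x.k.factorial : ℝ) * x.D ≤ X ^ x.k := (Z_le_pow _ _ _).trans
    (pow_le_pow_left₀ (Nat.cast_nonneg _) (by linarith [x.ΔR, x.a1]) _)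
  have h3 : x.F = (x.k + 1) * x.k.factorial := by rw [F, Nat.factorial_succ]; push_cast; ring
  have h4 : (((x.k + 1).choose 2 : ℕ) : ℝ) = x.lam - (x.k + 1) := by
    rw [Nat.cast_choose_two]; push_cast; linarith [x.lam_eq]
  have h5 : (0 : ℝ) ≤ x.lam - (x.k + 1) := h4 ▸ Nat.cast_nonneg _
  have h6 : (x.a * x.Δ + (x.r + 1 : ℕ) * (x.a + 1)) / X ^ 2 ≤ (x.a + 1) / X := by
    rw [div_le_div_iff₀ (by positivity) hX0]
    push_cast
    have : x.a * x.Δ + (x.r + 1) * (x.a + 1) ≤ (x.a + 1) * X := by nlinarith [x.rΔ, x.a1]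
    nlinarith [mul_le_mul_of_nonneg_right this hX0.le]
  have h7 : X ^ (x.k + 1) * (1 - (x.k + 1) * (E / X) - (x.lam - (x.k + 1)) * ((x.a + 1) / X))
      ≤ x.F * x.P := by
    refine le_trans (mul_le_mul_of_nonneg_left ?_ (by positivity)) h1
    rw [h4, show 1 - x.Δ / X = E / X by field_simp; linarith]
    push_cast at h6 ⊢
    linarith [mul_le_mul_of_nonneg_left h6 h5]
  have h8 : X ^ (x.k + 1) * (1 - (x.k + 1) * (E / X) - (x.lam - (x.k + 1)) * ((x.a + 1) / X))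
      = X ^ (x.k + 1) - X ^ x.k * ((x.k + 1) * E + (x.lam - (x.k + 1)) * (x.a + 1)) := by
    rw [pow_succ]; field_simp; ring
  have h9 := mul_le_mul_of_nonneg_left h (pow_pos hX0 x.k).le
  have h10 := mul_le_mul_of_nonneg_left h2 (show (0 : ℝ) ≤ (x.a + 1) * (x.k + 1) by positivity)
  rw [h8] at h7
  rw [mul_sub, h3]
  rw [h3] at h7
  rw [pow_succ] at *
  nlinarith

lemma term1 {c : ℝ} (hc : 0 ≤ c) (hfo : FO (x.k + 1 + 1) c) {V : Type} (G : SimpleGraph V)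
    (C : Finset V) {X E ν m ξ σ η : ℝ} (hn : x.n ≤ X) (hC : C.card ≤ X) (hC2 : X - C.card ≤ 2 * E)
    (hν : 0 ≤ ν) (hnn : ∀ u ∈ C, ((nn G u C).card : ℝ) ≤ ν * X)
    (hm : ∑ u ∈ C, ((nn G u C).card : ℝ) ≤ m * X) (hσ : σ = x.n - C.card) (hσE : |σ| ≤ E)
    (hη : ∑ u ∈ C, ((nn G u C).card : ℝ) = x.M0 + η * X) (hξ : 0 ≤ ξ)
    (hT1 : x.F * x.τ ≤ X ^ (x.k + 1)) (hT2 : (1 - ξ) * X ^ (x.k + 1) ≤ x.F * x.τ) :
    x.F * ((x.k + 1 + 1) * kc G (x.k + 1 + 1) C - C.card * x.τ) ≤ X ^ (x.k + 1) *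
      (-(x.k + 1) * σ - x.lam * η + c * (4 * E ^ 2 / X + ν * m) + E * ξ) := by
  have hX : 0 < X := x.npos.trans_le hn
  have h1 := hfo V G C X ν ((X - C.card) / X) ((x.M0 + η * X) / X ^ 2) hX hν
    (div_nonneg (by linarith) hX.le) (by field_simp; ring) (by rw [hη]; field_simp) hnn
  have e : ((x.q + 1 + 1 : ℕ) : ℝ) * x.a + (x.r + 1 : ℕ) = x.n := by rw [x.n_eq]; push_cast; ring
  have h2 := Z_lower (q := x.q + 1 + 1) (a := x.a) (r := x.r + 1) (by have := x.hr; omega)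
    (x.k + 1 + 1) hX (by rw [e]; exact hn)
  rw [e, ← x.n_eq] at h2
  have h3 : ((x.k + 1 + 1).factorial : ℝ) = x.F * (x.k + 1 + 1) := by
    rw [F, Nat.factorial_succ]; push_cast; ring
  rw [h3, mul_assoc] at h1 h2
  rw [x.τ_id] at h2
  push_cast at h1 h2
  change _ ≤ _ * (_ - _ - x.lam * _ + _) at h1
  change _ * (_ - _ - x.lam * (x.M0 / _)) ≤ _ at h2
  have hW : 0 < X ^ (x.k + 1) := pow_pos hX _
  rw [pow_succ X (x.k + 1)] at h1 h2
  generalize X ^ (x.k + 1) = W at *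
  have a1 : W * X * (1 - (x.k + 1 + 1) * ((X - C.card) / X) - x.lam * ((x.M0 + η * X) / X ^ 2)
      + c * (((X - C.card) / X) ^ 2 + ν * ((x.M0 + η * X) / X ^ 2))) =
      W * X * (1 - (x.k + 1 + 1) * (1 - x.n / X) - x.lam * (x.M0 / X ^ 2)) + W * (-(x.k + 1 + 1) * σ
        - x.lam * η + c * ((X - C.card) ^ 2 / X + ν * ((x.M0 + η * X) / X))) := by
    rw [hσ]; field_simp; ring
  have a2 : (X - C.card) ^ 2 / X ≤ 4 * E ^ 2 / X :=
    div_le_div_of_nonneg_right (by nlinarith) hX.le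
  have a3 : (x.M0 + η * X) / X ≤ m := by rw [div_le_iff₀ hX]; linarith
  have a4 := mul_le_mul_of_nonneg_left (mul_le_mul_of_nonneg_left
    (add_le_add a2 (mul_le_mul_of_nonneg_left a3 hν)) hc) hW.le
  have a5 : σ * (x.F * x.τ) ≤ W * (σ + E * ξ) := by
    have b1 := mul_nonneg hW.le hξ
    rcases abs_cases σ with b | b
    · nlinarith [mul_le_mul_of_nonneg_left hT1 b.2, mul_nonneg b1 ((abs_nonneg σ).trans hσE)]
    · nlinarith [mul_le_mul_of_nonneg_left hT2 (neg_nonneg.2 b.2.le),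
        mul_le_mul_of_nonneg_left (b.1 ▸ hσE) b1]
  have a6 : (C.card : ℝ) = x.n - σ := by linarith
  rw [a1] at h1
  rw [a6]
  rw [a6] at h1 a4
  linarith

end Par

end Pool.Agent.Lib.MP_1b6faf_co.H8
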