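import Pool.Agent.Lib.MP_1b6faf_co.H8Constr

/-!
Clique numbers of Turan graphs and their basic inequalities.
-/

namespace Pool.Agent.Lib.MP_1b6faf_co.H8

open Finset
open scoped Classical

/-- number of `j`-cliques of the Turan graph with `N` vertices and `q` parts -/
noncomputable def Z (q N j : ℕ) : ℝ := ebal j q (N / q) (N % q)

lemma balw_two (a r i : ℕ) : balw a r i = a ∨ balw a r i = a + 1 := by
  unfold balw; split_ifs <;> simp

lemma filter_balw {om a r : ℕ} (hr : r ≤ om) :
    ((range om).filter (fun i => balw a r i = a + 1)).card = r := by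
  have h1 := sum_two_val (range om) (balw a r) a (fun i _ => balw_two a r i)
  rw [sum_balw om a r hr, card_range] at h1
  omega

lemma Z_eq {q a r : ℕ} (hr : r ≤ q) (j : ℕ) : Z q (q * a + r) j = ebal j q a r := by
  unfold Z
  rcases hr.lt_or_eq with h | rfl
  · rw [Nat.mul_add_div (by omega), Nat.mul_add_mod, Nat.div_eq_of_lt h, Nat.mod_eq_of_lt h,
      add_zero]
  · rcases Nat.eq_zero_or_pos r with rfl | h
    · exact es_congr _ fun i hi => by simp at hi
    · rw [← Nat.mul_succ, Nat.mul_div_cancel_left _ h, Nat.mul_mod_right]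
      unfold ebal
      refine es_congr _ fun i hi => ?_
      simp [balw, mem_range.1 hi]

lemma bal (k : ℕ) (I : Finset ℕ) (w : ℕ → ℕ) (a : ℕ) (h : ∀ i ∈ I, w i = a ∨ w i = a + 1) :
    es k I (fun i => (w i : ℝ)) = Z I.card (∑ i ∈ I, w i) k := by
  have hr : (I.filter (fun i => w i = a + 1)).card ≤ I.card := card_filter_le _ _
  rw [sum_two_val I w a h, Z_eq hr]
  unfold ebal
  rw [es_eq_esymm, es_eq_esymm, map_two_val _ w a h,
    map_two_val _ _ a (fun i _ => balw_two a _ i), filter_balw hr, card_range]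

@[simp] lemma Z_zero (q N : ℕ) : Z q N 0 = 1 := by
  unfold Z ebal
  exact es_zero _ _

lemma Z_nonneg (q N j : ℕ) : 0 ≤ Z q N j := by
  unfold Z ebal
  exact es_nonneg _ fun _ _ => Nat.cast_nonneg _

lemma Z_nil (N j : ℕ) : Z 0 N (j + 1) = 0 := es_empty_succ _ _

lemma erase_bal {q a r i : ℕ} (hr : r ≤ q + 1) (hi : i < q + 1) (k : ℕ) :
    es k ((range (q + 1)).erase i) (fun l => (balw a r l : ℝ))
      = Z q ((q + 1) * a + r - balw a r i) k := by
  have hm := mem_range.2 hi
  rw [bal k _ _ a (fun l _ => balw_two a r l), card_erase_of_mem hm, card_range,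
    Nat.add_sub_cancel]
  have := add_sum_erase _ (balw a r) hm
  rw [sum_balw _ a r hr] at this
  congr 1
  omega

lemma Z_double {q a r : ℕ} (hr : r ≤ q + 1) (j : ℕ) :
    ((j : ℝ) + 1) * Z (q + 1) ((q + 1) * a + r) (j + 1) =
      r * (a + 1) * Z q (q * a + r - 1) j + (q + 1 - r) * a * Z q (q * a + r) j := by
  rw [Z_eq hr, ebal, es_succ_mul, sum_congr rfl (fun i hi => by
    rw [erase_bal hr (mem_range.1 hi)]),
    sum_balw_g (fun x => (x : ℝ) * Z q ((q + 1) * a + r - x) j) hr,
    show (q + 1) * a + r - (a + 1) = q * a + r - 1 by rw [add_mul]; omega,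
    show (q + 1) * a + r - a = q * a + r by rw [add_mul]; omega]
  push_cast
  ring

lemma Z_rec' {q a r : ℕ} (hr : r < q + 1) (j : ℕ) :
    Z (q + 1) ((q + 1) * a + r + 1) (j + 1)
      = Z (q + 1) ((q + 1) * a + r) (j + 1) + Z q (q * a + r) j := by
  have hm := mem_range.2 hr
  have hc : ∀ k', es k' ((range (q + 1)).erase r) (fun i => (balw a (r + 1) i : ℝ))
      = es k' ((range (q + 1)).erase r) (fun i => (balw a r i : ℝ)) := fun k' =>
    es_congr k' (fun i hi => by
      have := ne_of_mem_erase hi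
      unfold balw
      by_cases c : i < r
      · rw [if_pos c, if_pos (by omega)]
      · rw [if_neg c, if_neg (by omega)])
  have e1 : balw a (r + 1) r = a + 1 := by simp [balw]
  have e2 : balw a r r = a := by simp [balw]
  have e3 := erase_bal (a := a) hr.le hr j
  rw [e2, show (q + 1) * a + r - a = q * a + r by rw [add_mul]; omega] at e3
  rw [add_assoc, Z_eq (by omega), Z_eq hr.le, ← e3]
  unfold ebal
  rw [es_erase j hm, es_erase j hm (fun i => (balw a r i : ℝ)), hc, hc, e1, e2]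
  push_cast
  ring

lemma decomp (q N : ℕ) : ∃ a r, r < q + 1 ∧ N = (q + 1) * a + r :=
  ⟨N / (q + 1), N % (q + 1), Nat.mod_lt _ (by omega), (Nat.div_add_mod N (q + 1)).symm⟩

lemma Z_succ_le (q N j : ℕ) : Z q N j ≤ Z q (N + 1) j := by
  rcases j with _ | j
  · simp
  rcases q with _ | q
  · simp [Z_nil]
  obtain ⟨a, r, hr, rfl⟩ := decomp q N
  rw [Z_rec' hr]
  linarith [Z_nonneg q (q * a + r) j]

lemma Z_mono (q j : ℕ) {N N' : ℕ} (h : N ≤ N') : Z q N j ≤ Z q N' j :=
  monotone_nat_of_le_succ (f := fun N => Z q N j) (fun N => Z_succ_le q N j) h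

lemma Z_empty (q j : ℕ) : Z q 0 (j + 1) = 0 := by
  rcases q with _ | q
  · exact Z_nil _ _
  have h := Z_double (q := q) (a := 0) (r := 0) (by omega) j
  simp only [mul_zero, add_zero, Nat.cast_zero, zero_mul, mul_eq_zero] at h
  exact h.resolve_left (by positivity)

lemma ineq1 (q N j : ℕ) : ((N : ℝ) + j) * Z q N j ≤ N * Z q (N + 1) j := by
  rcases j with _ | j
  · simp
  rcases q with _ | q
  · simp [Z_nil]
  obtain ⟨a, r, hr, rfl⟩ := decomp q N
  have h1 := Z_double (a := a) hr.le j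
  have h2 := Z_mono q j (Nat.sub_le (q * a + r) 1)
  have h3 : (0 : ℝ) ≤ r * (a + 1) := by positivity
  rw [Z_rec' hr]
  push_cast
  nlinarith [mul_le_mul_of_nonneg_left h2 h3]

lemma ineq2 (q N j : ℕ) : ((N : ℝ) + 1) * (Z q (N + 1) j - Z q N j) ≤ j * Z q (N + 1) j := by
  rcases j with _ | j
  · simp
  rcases q with _ | q
  · simp [Z_nil]
  obtain ⟨a, r, hr, rfl⟩ := decomp q N
  have h1 := Z_double (q := q) (a := a) (r := r + 1) (by omega) j
  have h2 := Z_succ_le q (q * a + r) j
  have h3 : (0 : ℝ) ≤ (q - r) * a := by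
    have : (r : ℝ) ≤ q := by exact_mod_cast Nat.lt_succ_iff.1 hr
    exact mul_nonneg (by linarith) (Nat.cast_nonneg _)
  rw [← add_assoc, ← add_assoc, Nat.add_sub_cancel] at h1
  push_cast at h1 ⊢
  rw [h1, Z_rec' hr]
  nlinarith [mul_le_mul_of_nonneg_left h2 h3]

lemma link_le {q a r : ℕ} (hr : r < q + 1) (j : ℕ) :
    a * Z q (q * a + r) j ≤ Z (q + 1) ((q + 1) * a + r) (j + 1) := by
  have e2 : balw a r r = a := by simp [balw]
  have e3 := erase_bal (a := a) hr.le hr j
  rw [e2, show (q + 1) * a + r - a = q * a + r by rw [add_mul]; omega] at e3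
  rw [Z_eq hr.le, ← e3, ebal, es_erase j (mem_range.2 hr), e2]
  linarith [es_nonneg (j + 1) (I := (range (q + 1)).erase r) (w := fun i => (balw a r i : ℝ))
    fun _ _ => Nat.cast_nonneg _]

lemma ratio2 {q N : ℕ} (h : q ≤ N) (j : ℕ) : Z q (N + 1) j ≤ 2 * Z q N j := by
  rcases j with _ | j
  · simp
  rcases q with _ | q
  · simp [Z_nil]
  obtain ⟨a, r, hr, rfl⟩ := decomp q N
  have ha : (1 : ℝ) ≤ a := by
    rcases Nat.eq_zero_or_pos a with rfl | c
    · omega
    · exact_mod_cast c
  have h1 := link_le (a := a) hr j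
  rw [Z_rec' hr]
  nlinarith [Z_nonneg q (q * a + r) j]

lemma ratio_pow {q N : ℕ} (h : q ≤ N) (j i : ℕ) : Z q (N + i) j ≤ 2 ^ i * Z q N j := by
  induction i with
  | zero => simp
  | succ i ih =>
    have := ratio2 (q := q) (N := N + i) (by omega) j
    rw [← add_assoc, pow_succ]
    linarith

lemma Z_pos {q N j : ℕ} (h1 : j ≤ q) (h2 : q ≤ N) : 0 < Z q N j := by
  induction j generalizing q N with
  | zero => simp
  | succ j ih =>
    obtain ⟨q, rfl⟩ : ∃ p, q = p + 1 := ⟨q - 1, by omega⟩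
    obtain ⟨a, r, hr, rfl⟩ := decomp q N
    have ha : 1 ≤ a := by
      rcases Nat.eq_zero_or_pos a with rfl | c
      · omega
      · exact c
    have h3 := ih (q := q) (N := q * a + r) (by omega) (by nlinarith)
    have ha' : (0 : ℝ) < a := by exact_mod_cast ha
    exact (mul_pos ha' h3).trans_le (link_le hr j)

/-- geometric decay when vertices are removed -/
lemma decay (q N j i : ℕ) {M : ℝ} (hM : 0 < M) (h : (N : ℝ) + i ≤ M + 1) :
    Z q N j * (1 + j / M) ^ i ≤ Z q (N + i) j := by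
  induction i with
  | zero => simp
  | succ i ih =>
    push_cast at h
    have h1 := ih (by linarith)
    have h2 := ineq1 q (N + i) j
    have h3 := Z_nonneg q (N + i) j
    have h4 : Z q (N + i) j * (1 + j / M) ≤ Z q (N + i + 1) j := by
      rcases Nat.eq_zero_or_pos (N + i) with c | c
      · rw [c]
        rcases j with _ | j
        · simp
        · rw [Z_empty, zero_mul]; exact Z_nonneg _ _ _
      have hc : (0 : ℝ) < (N + i : ℕ) := by exact_mod_cast c
      have h5 : (j : ℝ) / M ≤ j / (N + i : ℕ) :=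
        div_le_div_of_nonneg_left (Nat.cast_nonneg _) hc (by push_cast; linarith)
      refine (mul_le_mul_of_nonneg_left (add_le_add_right h5 1) h3).trans ?_
      rw [one_add_div hc.ne', mul_div_assoc', div_le_iff₀ hc]
      linarith
    rw [pow_succ, ← mul_assoc, ← add_assoc]
    exact (mul_le_mul_of_nonneg_right h1 (by positivity)).trans h4

lemma decay' (q N j i : ℕ) {M : ℝ} (hM : 0 < M) (h : (N : ℝ) + i ≤ M + 1) :
    Z q N j * (1 + i * (j / M)) ≤ Z q (N + i) j :=
  (mul_le_mul_of_nonneg_left (one_add_mul_le_pow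
    ((by norm_num : (-2 : ℝ) ≤ 0).trans (by positivity)) i) (Z_nonneg _ _ _)).trans
    (decay q N j i hM h)

/-- at most linear growth when vertices are added -/
lemma growth (q N j i : ℕ) :
    ((N : ℝ) + 1) * (Z q (N + i) j - Z q N j) ≤ i * j * Z q (N + i) j := by
  induction i with
  | zero => simp
  | succ i ih =>
    have h1 := ineq2 q (N + i) j
    have h2 := Z_succ_le q (N + i) j
    have h3 : (0 : ℝ) ≤ i * j := by positivity
    have h4 : (0 : ℝ) ≤ i := by positivity
    rw [← add_assoc]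
    push_cast at h1 ⊢
    nlinarith [mul_le_mul_of_nonneg_left h2 h3, mul_nonneg h4 (sub_nonneg.2 h2)]

/-- the density does not decrease -/
lemma dens_mono (q j : ℕ) {N N' : ℕ} (h : N ≤ N') : N' * Z q N (j + 1) ≤ N * Z q N' (j + 1) := by
  induction N', h using Nat.le_induction with
  | base => exact le_rfl
  | succ M hM ih =>
    have h1 := ineq1 q M (j + 1)
    have h2 := Z_nonneg q M (j + 1)
    rcases Nat.eq_zero_or_pos M with rfl | c
    · obtain rfl : N = 0 := by omega
      simp [Z_empty]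
    have hc : (0 : ℝ) < M := by exact_mod_cast c
    have h3 : (0 : ℝ) ≤ N := Nat.cast_nonneg _
    have h4 : (0 : ℝ) ≤ j := Nat.cast_nonneg _
    push_cast at h1 ⊢
    refine le_of_mul_le_mul_left ?_ hc
    nlinarith [mul_le_mul_of_nonneg_left h1 h3, mul_le_mul_of_nonneg_left ih (add_pos hc one_pos).le,
      mul_nonneg h3 (mul_nonneg h4 h2)]

lemma Z_le_pow (q N j : ℕ) : (j.factorial : ℝ) * Z q N j ≤ (N : ℝ) ^ j := by
  induction j generalizing q N with
  | zero => simp
  | succ j ih =>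
    rcases q with _ | q
    · simp [Z_nil]
    obtain ⟨a, r, hr, rfl⟩ := decomp q N
    have h1 := Z_double (a := a) hr.le j
    have h2 := Z_mono q j (Nat.sub_le (q * a + r) 1)
    have h3 : (0 : ℝ) ≤ r * (a + 1) := by positivity
    have h4 := Z_mono q j (show q * a + r ≤ (q + 1) * a + r by nlinarith)
    have h5 := ih q ((q + 1) * a + r)
    have h6 : ((j : ℝ) + 1) * Z (q + 1) ((q + 1) * a + r) (j + 1)
        ≤ ((q + 1) * a + r : ℕ) * Z q ((q + 1) * a + r) j := by
      refine le_trans ?_ (mul_le_mul_of_nonneg_left h4 (Nat.cast_nonneg _))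
      push_cast
      nlinarith [mul_le_mul_of_nonneg_left h2 h3]
    rw [Nat.factorial_succ, pow_succ]
    push_cast at h5 h6 ⊢
    have h7 : (0 : ℝ) ≤ j.factorial := Nat.cast_nonneg _
    have h8 : (0 : ℝ) ≤ (q + 1) * a + r := by positivity
    nlinarith [mul_le_mul_of_nonneg_left h6 h7, mul_le_mul_of_nonneg_left h5 h8]

/-- first order lower bound for elementary symmetric sums -/
lemma es_lower (j : ℕ) (I : Finset ℕ) (w : ℕ → ℝ) (hw : ∀ i ∈ I, 0 ≤ w i) {X : ℝ} (hX : 0 < X)
    (hs : ∑ i ∈ I, w i ≤ X) :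
    X ^ j * (1 - j * (1 - (∑ i ∈ I, w i) / X) - j.choose 2 * ((∑ i ∈ I, w i ^ 2) / X ^ 2))
      ≤ j.factorial * es j I w := by
  induction j generalizing I with
  | zero => simp [es_zero]
  | succ j ih =>
    obtain ⟨α, hα⟩ : ∃ α, α = 1 - (∑ i ∈ I, w i) / X := ⟨_, rfl⟩
    obtain ⟨β, hβ⟩ : ∃ β, β = (∑ i ∈ I, w i ^ 2) / X ^ 2 := ⟨_, rfl⟩
    have hα0 : 0 ≤ α := by rw [hα, sub_nonneg, div_le_one hX]; exact hs
    have hβ0 : 0 ≤ β := by rw [hβ]; positivity
    have e1 : ∑ i ∈ I, w i = (1 - α) * X := by rw [hα]; field_simp; ring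
    have e2 : ∑ i ∈ I, w i ^ 2 = β * X ^ 2 := by rw [hβ]; field_simp
    have hC : (0 : ℝ) ≤ j.choose 2 := Nat.cast_nonneg _
    have key : ∀ i ∈ I, w i * (X ^ j * (1 - j * α - j.choose 2 * β)) - X ^ j * j / X * w i ^ 2
        ≤ j.factorial * (w i * es j (I.erase i) w) := by
      intro i hi
      have a1 := add_sum_erase I w hi
      have a2 := add_sum_erase I (fun i => w i ^ 2) hi
      have a3 := ih (I.erase i) (fun l hl => hw l (mem_of_mem_erase hl)) (by linarith [hw i hi])
      have a4 : 1 - (∑ l ∈ I.erase i, w l) / X = α + w i / X := by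
        rw [hα, ← a1]; field_simp; ring
      have a5 : (∑ l ∈ I.erase i, w l ^ 2) / X ^ 2 ≤ β := by
        rw [hβ]
        exact div_le_div_of_nonneg_right (by nlinarith [sq_nonneg (w i)]) (by positivity)
      rw [a4] at a3
      have a6 : X ^ j * (1 - j * (α + w i / X) - j.choose 2 * β)
          ≤ j.factorial * es j (I.erase i) w := by
        refine le_trans (mul_le_mul_of_nonneg_left ?_ (by positivity)) a3
        nlinarith [mul_le_mul_of_nonneg_left a5 hC]
      have a7 := mul_le_mul_of_nonneg_left a6 (hw i hi)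
      calc _ = w i * (X ^ j * (1 - j * (α + w i / X) - j.choose 2 * β)) := by field_simp; ring
        _ ≤ _ := by linarith
    have h1 := sum_le_sum key
    rw [sum_sub_distrib, ← sum_mul, ← mul_sum, ← mul_sum, ← es_succ_mul, e1, e2] at h1
    rw [← hα, ← hβ, Nat.factorial_succ, Nat.choose_succ_succ' j 1, Nat.choose_one_right]
    push_cast
    have h2 : X ^ j * j / X * (β * X ^ 2) = X ^ (j + 1) * (j * β) := by field_simp; ring
    have h3 : 0 ≤ X ^ (j + 1) * (α * (j * α + j.choose 2 * β)) := by positivity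
    rw [h2] at h1
    calc _ ≤ (1 - α) * X * (X ^ j * (1 - j * α - j.choose 2 * β)) - X ^ (j + 1) * (j * β) := by
          rw [pow_succ] at h3 ⊢
          nlinarith
      _ ≤ _ := by linarith

lemma Z_lower {q a r : ℕ} (hr : r ≤ q) (j : ℕ) {X : ℝ} (hX : 0 < X) (hs : (q : ℝ) * a + r ≤ X) :
    X ^ j * (1 - j * (1 - (q * a + r) / X) - j.choose 2 * ((a * (q * a + r) + r * (a + 1)) / X ^ 2))
      ≤ j.factorial * Z q (q * a + r) j := by
  have e1 := sum_balw_g (fun x => (x : ℝ)) (a := a) hr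
  have e2 := sum_balw_g (fun x => (x : ℝ) ^ 2) (a := a) hr
  have h := es_lower j (range q) (fun i => (balw a r i : ℝ)) (fun _ _ => Nat.cast_nonneg _) hX
    (by rw [e1]; push_cast; linarith)
  rw [e1, e2] at h
  rw [Z_eq hr]
  have e3 : (r : ℝ) * (a + 1 : ℕ) + (q - r) * a = q * a + r := by push_cast; ring
  have e4 : (r : ℝ) * (a + 1 : ℕ) ^ 2 + (q - r) * a ^ 2 = a * (q * a + r) + r * (a + 1) := by
    push_cast; ring
  rw [e3, e4] at h
  exact h

end Pool.Agent.Lib.MP_1b6faf_co.H8
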