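import Pool.Agent.Lib.MP_1b6faf_co.CaseT

/-!
The cluster inequality in the three regimes.
-/

namespace Pool.Agent.Lib.MP_1b6faf_co

open Finset
open scoped Classical

set_option linter.unusedSectionVars false

/-- the cluster inequality holds for suitable parameters -/
def CI (s k r : ℕ) : Prop :=
  ∃ u1 ε : ℝ, 0 < u1 ∧ u1 ≤ 1 / 2 ∧ (k + 3) * u1 ^ (k + 1) + 2 * ε * ((k + 2) * (k + 3)) ≤ 1 ∧
    0 < ε ∧ ∀ (V : Type) [Fintype V] (G : SimpleGraph V) (a : ℕ) (η ξ ξ1 : ℝ) (W Z Cs : Finset V)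
      (p : V → ℕ), Setup G s a r η ξ ξ1 W Z Cs p → Par s k u1 ε η ξ ξ1 →
      valW G s k a η ξ1 W Z Cs < rho s k a r * W.card ∨
        (valW G s k a η ξ1 W Z Cs ≤ rho s k a r * W.card ∧ Clean G s a r W Cs)

lemma ev_small (c d : ℝ) (hd : 0 < d) :
    ∀ᶠ ε in nhdsWithin (0 : ℝ) (Set.Ioi 0), c * ε ≤ d := by
  have h1 : Filter.Tendsto (fun ε : ℝ => c * ε) (nhds 0) (nhds (c * 0)) :=
    (continuous_const.mul continuous_id).tendsto 0
  rw [mul_zero] at h1
  exact (h1.eventually (ge_mem_nhds hd)).filter_mono nhdsWithin_le_nhds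

variable {V : Type*}

lemma jj_int (s a r : ℕ) (W : Finset V) : ∃ j : ℤ, jj s a r W = j :=
  ⟨W.card - ((s + 1) * a + r), by unfold jj; push_cast; rfl⟩

lemma DD_int (a : ℕ) (W : Finset V) (p : V → ℕ) (H : Finset V) (i0 : V → ℕ) :
    ∃ d : ℕ → ℤ, ∀ i, DD a W p H i0 i = d i :=
  ⟨fun i => (part W p i).card - a + (H.filter (fun z => i0 z = i)).card,
    fun i => by unfold DD ww; push_cast; rfl⟩

namespace Setup

variable [Fintype V] {G : SimpleGraph V} {s a r : ℕ} {η ξ ξ1 : ℝ}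
  {W Z Cs : Finset V} {p : V → ℕ} (h : Setup G s a r η ξ ξ1 W Z Cs p) {k : ℕ}
  {u1 ε : ℝ} (hp : Par s k u1 ε η ξ ξ1) (hk : k + 2 ≤ s)
include h hp hk

lemma cluster_of (hr : k = 0 → r ≤ 1 ∨ 4 ≤ s) {θ : ℝ} (hθ0 : 0 ≤ θ) (hθ1 : 2 * θ + ε ≤ 1)
    (hθ2 : θ + ε ≤ 1 / ((k + 3) * (1 - u1)))
    (hθ3 : 2 * s / (k + 3) + 2 * ε ≤ θ * (2 * s - r))
    (h1 : jj s a r W + (Hv G s a u1 W Z).card = 1 →
      (Hv G s a u1 W Z).card * max (jj s a r W) 0 = 0 →
      ((Hv G s a u1 W Z).Nonempty → jj s a r W ≤ 0) →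
      valW G s k a η ξ1 W Z Cs < rho s k a r * W.card) :
    valW G s k a η ξ1 W Z Cs < rho s k a r * W.card ∨
      (valW G s k a η ξ1 W Z Cs ≤ rho s k a r * W.card ∧ Clean G s a r W Cs) := by
  obtain ⟨j, hj⟩ := jj_int s a r W
  set m := (Hv G s a u1 W Z).card with hm
  rcases (by omega : (j ≤ -1 ∧ j + m ≤ 0) ∨ (j = 0 ∧ m = 0) ∨ j + m = 1 ∨ 2 ≤ j + m)
    with c | c | c | c
  · left
    refine h.caseA hp hk ?_ ?_
    · rw [hj]; exact_mod_cast c.1
    · rw [hj, ← hm]; exact_mod_cast c.2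
  · have e1 : jj s a r W = 0 := by rw [hj, c.1]; simp
    have e2 : Hv G s a u1 W Z = ∅ := card_eq_zero.1 c.2
    by_cases hc : ∀ i < s + 1, 0 ≤ cc s a r W p i
    · exact h.caseD hp hk e1 e2 hc hr
    · push Not at hc
      obtain ⟨i, hi, hc⟩ := hc
      left
      refine h.caseC hp hk e1 e2 hi ?_
      unfold cc ww at hc ⊢
      rw [e1, sub_zero] at hc ⊢
      have : (part W p i).card < a := by
        have : ((part W p i).card : ℝ) < a := by linarith
        exact_mod_cast this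
      have : ((part W p i).card : ℝ) + 1 ≤ a := by exact_mod_cast this
      linarith
  · left
    have e3 : (Hv G s a u1 W Z).Nonempty → jj s a r W ≤ 0 := fun hne => by
      have := card_pos.2 hne
      rw [hj]
      have : j ≤ 0 := by omega
      exact_mod_cast this
    refine h1 (by rw [hj]; exact_mod_cast c) ?_ e3
    rcases (Hv G s a u1 W Z).eq_empty_or_nonempty with d | d
    · rw [hm, d]; simp
    · rw [max_eq_right (e3 d), mul_zero]
  · left
    have e4 : (2 : ℝ) ≤ jj s a r W + m := by rw [hj]; exact_mod_cast c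
    refine h.caseB hp hk hθ0 hθ1 hθ2 (by linarith) ?_
    rw [← hm]
    set J := jj s a r W + m
    have hr0 : 0 ≤ θ * r := by positivity
    have e5 : 2 * (s : ℝ) / (k + 3) = 2 * (s / (k + 3)) := by ring
    have e6 : J * s / (k + 3) = J * (s / (k + 3)) := by ring
    rw [e5] at hθ3
    rw [e6]
    have e7 : 0 ≤ (J - 2) * (θ * s - s / (k + 3) - ε) := mul_nonneg (by linarith) (by linarith)
    linarith

end Setup

lemma three_pow (k : ℕ) : (k : ℝ) + 3 ≤ 3 * 3 ^ k := by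
  induction k with
  | zero => norm_num
  | succ k ih =>
    have : (1 : ℝ) ≤ 3 ^ k := one_le_pow₀ (by norm_num)
    push_cast; rw [pow_succ]; linarith

lemma two_pow (k : ℕ) : (k : ℝ) + 4 ≤ 2 ^ (k + 2) := by
  induction k with
  | zero => norm_num
  | succ k ih =>
    have : (1 : ℝ) ≤ 2 ^ (k + 2) := one_le_pow₀ (by norm_num)
    push_cast; rw [pow_succ]; linarith

theorem CI_small {s k r : ℕ} (hk : k + 2 ≤ s) (hr : 3 * r + 1 ≤ s) : CI s k r := by
  have hs2 : (2 : ℝ) ≤ s := by exact_mod_cast (by omega : 2 ≤ s)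
  have hr' : 3 * (r : ℝ) + 1 ≤ s := by exact_mod_cast hr
  have hk0 : (0 : ℝ) ≤ k := Nat.cast_nonneg _
  have hr0 : (0 : ℝ) ≤ r := Nat.cast_nonneg _
  set u1 : ℝ := 1 / 3 - 1 / (6 * s) with hu1
  have hδ : 1 / (6 * (s : ℝ)) ≤ 1 / 12 := one_div_le_one_div_of_le (by norm_num) (by linarith)
  have hδ0 : 0 < 1 / (6 * (s : ℝ)) := by positivity
  have hu0 : 0 < u1 := by linarith
  have hu3 : u1 < 1 / 3 := by linarith
  have hA : (k + 3) * u1 ^ (k + 1) < 1 := by
    have b1 : u1 ^ (k + 1) < (1 / 3) ^ (k + 1) := pow_lt_pow_left₀ hu3 hu0.le (by omega)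
    have b2 := three_pow k
    have b3 : (3 : ℝ) * 3 ^ k * (1 / 3) ^ (k + 1) = 1 := by
      rw [← pow_succ', ← mul_pow]; norm_num
    have b4 : ((k : ℝ) + 3) * u1 ^ (k + 1) < (k + 3) * (1 / 3) ^ (k + 1) := by gcongr
    have b5 : ((k : ℝ) + 3) * (1 / 3) ^ (k + 1) ≤ 3 * 3 ^ k * (1 / 3) ^ (k + 1) := by gcongr
    linarith
  have hB : s / ((k + 3) * (s - r)) < 1 / ((k + 3) * (1 - u1)) := by
    rw [div_lt_div_iff₀ (mul_pos (by linarith) (by linarith)) (mul_pos (by linarith) (by linarith))]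
    have : (s : ℝ) * (1 - u1) = 2 / 3 * s + 1 / 6 := by rw [hu1]; field_simp; ring
    nlinarith
  have hC : 1 / ((k + 3) * (1 - u1)) < 1 / 2 :=
    one_div_lt_one_div_of_lt (by norm_num) (by nlinarith)
  obtain ⟨θ, hθa, hθb⟩ := exists_between hB
  have hθ0 : 0 ≤ θ := le_trans (div_nonneg (by linarith)
    (mul_pos (by linarith) (by linarith)).le) hθa.le
  have hD : s / (k + 3) < θ * (s - r) := by
    rw [← div_div, div_lt_iff₀ (by linarith)] at hθa; exact hθa
  obtain ⟨ε, ⟨⟨e1, e2⟩, e3, e4⟩, e0⟩ := ((((ev_small (2 * ((k + 2) * (k + 3))) _ (sub_pos.2 hA)).and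
    (ev_small 1 _ (show 0 < 1 - 2 * θ by linarith))).and ((ev_small 1 _ (sub_pos.2 hθb)).and
    (ev_small 1 _ (sub_pos.2 hD)))).and self_mem_nhdsWithin).exists
  refine ⟨u1, ε, hu0, by linarith, by linarith, e0, ?_⟩
  intro V _ G a η ξ ξ1 W Z Cs p h hp
  have e5 : 2 * (s : ℝ) / (k + 3) = 2 * (s / (k + 3)) := by ring
  have hθr : 0 ≤ θ * r := by positivity
  refine h.cluster_of hp hk (fun _ => by omega) hθ0 (by linarith) (by linarith)
    (by rw [e5]; linarith) (fun hJ _ _ => h.caseB hp hk hθ0 (by linarith) (by linarith) hJ.ge ?_)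
  rw [hJ, one_mul, mul_one, mul_one]; linarith

theorem CI_top {k r : ℕ} (hr : r < k + 2) : CI (k + 2) k r := by
  have hk0 : (0 : ℝ) ≤ k := Nat.cast_nonneg _
  have hr' : (r : ℝ) + 1 ≤ k + 2 := by exact_mod_cast hr
  obtain ⟨u1, hu0, hu1, hA⟩ : ∃ u1 : ℝ, (k + 1) / (2 * (k + 2)) < u1 ∧ u1 ≤ 1 / 2 ∧
      (k + 3) * u1 ^ (k + 1) < 1 := by
    rcases k with _ | k
    · exact ⟨3 / 10, by norm_num, by norm_num, by norm_num⟩
    · have b0 : (((k + 1 : ℕ) : ℝ) + 1) / (2 * (((k + 1 : ℕ) : ℝ) + 2)) < 1 / 2 := by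
        rw [div_lt_div_iff₀ (by positivity) (by norm_num)]; linarith
      obtain ⟨u1, c1, c2⟩ := exists_between b0
      refine ⟨u1, c1, c2.le, ?_⟩
      have hu0 : 0 < u1 := lt_of_le_of_lt (by positivity) c1
      have b1 : u1 ^ (k + 1 + 1) < (1 / 2) ^ (k + 1 + 1) := pow_lt_pow_left₀ c2 hu0.le (by omega)
      have b2 := two_pow k
      have b3 : (2 : ℝ) ^ (k + 2) * (1 / 2) ^ (k + 1 + 1) = 1 := by
        rw [← mul_pow]; norm_num
      have b4 : (((k + 1 : ℕ) : ℝ) + 3) * u1 ^ (k + 1 + 1)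
          < (((k + 1 : ℕ) : ℝ) + 3) * (1 / 2) ^ (k + 1 + 1) := by gcongr
      have b5 : (((k + 1 : ℕ) : ℝ) + 3) * (1 / 2) ^ (k + 1 + 1)
          ≤ 2 ^ (k + 2) * (1 / 2) ^ (k + 1 + 1) := by
        gcongr; push_cast; linarith
      linarith
  have hu : 0 < u1 := lt_of_le_of_lt (by positivity) hu0
  have hB : 2 * (k + 2) / ((k : ℝ) + 3) ^ 2 < min (1 / 2) (1 / ((k + 3) * (1 - u1))) := by
    rw [div_lt_iff₀ (by positivity)] at hu0
    refine lt_min ?_ ?_
    · rw [div_lt_div_iff₀ (by positivity) (by norm_num)]; nlinarith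
    · rw [div_lt_div_iff₀ (by positivity) (mul_pos (by linarith) (by linarith))]; nlinarith
  obtain ⟨θ, hθa, hθb⟩ := exists_between hB
  have hθ0 : 0 ≤ θ := le_trans (by positivity) hθa.le
  have hD : 2 * (k + 2) / ((k : ℝ) + 3) < θ * (k + 3) := by
    rw [pow_two, ← div_div, div_lt_iff₀ (by linarith)] at hθa; exact hθa
  have hθ1 := (lt_min_iff.1 hθb).1
  have hθ2 := (lt_min_iff.1 hθb).2
  obtain ⟨ε, ⟨⟨⟨e1, e2⟩, e3, e4⟩, e5⟩, e0⟩ :=
    (((((ev_small (2 * ((k + 2) * (k + 3))) _ (sub_pos.2 hA)).and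
    (ev_small 1 _ (show 0 < 1 - 2 * θ by linarith))).and ((ev_small 1 _ (sub_pos.2 hθ2)).and
    (ev_small 2 _ (sub_pos.2 hD)))).and (ev_small (4 * ((k : ℝ) + 3) ^ 2) _ hu)).and
    self_mem_nhdsWithin).exists
  refine ⟨u1, ε, hu, hu1, by linarith, e0, ?_⟩
  intro V _ G a η ξ ξ1 W Z Cs p h hp
  refine h.cluster_of hp le_rfl (fun _ => by omega) hθ0 (by linarith) (by linarith) ?_
    (fun hJ hj0 hj => ?_)
  · push_cast
    have : θ * (k + 3) ≤ θ * (2 * (k + 2) - r) := by gcongr; linarith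
    linarith
  · obtain ⟨d, hd⟩ := DD_int a W p (Hv G (k + 2) a u1 W Z) h.low
    have b1 := h.sum_DD (H := Hv G (k + 2) a u1 W Z) (i0 := h.low) (fun z _ => h.low_lt z)
    rw [hJ] at b1
    by_contra hc
    have b2 : ∀ i ∈ range (k + 2 + 1), (1 : ℝ) ≤ DD a W p (Hv G (k + 2) a u1 W Z) h.low i := by
      intro i hi
      by_contra c
      refine hc (h.caseE hp e5 hJ hj0 hj (mem_range.1 hi) ?_)
      rw [hd] at c ⊢
      have : ¬ 1 ≤ d i := by exact_mod_cast c
      have : d i ≤ 0 := by omega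
      exact_mod_cast this
    have b3 := card_nsmul_le_sum _ _ _ b2
    rw [b1, card_range, nsmul_eq_mul] at b3
    push_cast at b3
    linarith

theorem CI_tie : CI 3 0 1 := by
  refine ⟨3 / 10, 1 / 200, by norm_num, by norm_num, by norm_num, by norm_num, ?_⟩
  intro V _ G a η ξ ξ1 W Z Cs p h hp
  refine h.cluster_of hp (by norm_num) (fun _ => by omega) (θ := 9 / 20) (by norm_num) (by norm_num)
    (by norm_num) (by norm_num) (fun hJ hj0 hj => ?_)
  obtain ⟨d, hd⟩ := DD_int a W p (Hv G 3 a (3 / 10) W Z) h.low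
  have b1 := h.sum_DD (H := Hv G 3 a (3 / 10) W Z) (i0 := h.low) (fun z _ => h.low_lt z)
  rw [hJ] at b1
  simp only [hd, sum_range_succ, sum_range_zero] at b1
  have b2 : d 0 + d 1 + d 2 + d 3 = 2 := by
    have : ((d 0 + d 1 + d 2 + d 3 : ℤ) : ℝ) = 2 := by push_cast at b1 ⊢; linarith
    exact_mod_cast this
  by_cases c1 : ∃ i < 4, d i ≤ -1
  · obtain ⟨i, hi, c1⟩ := c1
    have c1' : DD a W p (Hv G 3 a (3 / 10) W Z) h.low i ≤ -1 := by rw [hd]; exact_mod_cast c1
    refine h.caseG hp (by norm_num) h.low (fun l => if l = i then 2 / 3 else 0)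
      (fun l => by split_ifs <;> norm_num)
      (fun l m hlm => by split_ifs <;> first | (exfalso; omega) | norm_num) hJ hj0
      (fun l _ => by
        by_cases e : l = i
        · right; rw [e]; linarith
        · left; simp [e]) ?_
      (fun z hz => h.perz hp (by norm_num) (hj ⟨z, hz⟩) _ (fun l => by split_ifs <;> norm_num)
        (fun l => by split_ifs <;> norm_num)
        (fun l m hlm => by split_ifs <;> first | (exfalso; omega) | norm_num)
        (fun l m n _ _ _ => by split_ifs <;> first | (exfalso; omega) | norm_num) hz)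
    rw [sum_eq_single_of_mem i (mem_range.2 hi) (fun l _ e => by simp [e])]
    norm_num
    linarith
  push Not at c1
  have d0 := c1 0 (by norm_num)
  have d1 := c1 1 (by norm_num)
  have d2 := c1 2 (by norm_num)
  have d3 := c1 3 (by norm_num)
  by_cases c2 : ∃ i < 4, 2 ≤ d i
  · obtain ⟨i, hi, c2⟩ := c2
    have c3 : ∀ l < 4, l ≠ i → DD a W p (Hv G 3 a (3 / 10) W Z) h.low l = 0 := by
      intro l hl hli
      rw [hd]
      have : d l = 0 := by interval_cases i <;> interval_cases l <;> omega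
      exact_mod_cast this
    refine h.caseG hp (by norm_num) h.low (fun l => if l = i then 0 else 17 / 50)
      (fun l => by split_ifs <;> norm_num)
      (fun l m hlm => by split_ifs <;> norm_num) hJ hj0
      (fun l hl => by
        by_cases e : l = i
        · left; simp [e]
        · right; exact (c3 l hl e).le) ?_
      (fun z hz => h.perz hp (by norm_num) (hj ⟨z, hz⟩) _ (fun l => by split_ifs <;> norm_num)
        (fun l => by split_ifs <;> norm_num)
        (fun l m hlm => by split_ifs <;> norm_num)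
        (fun l m n _ _ _ => by split_ifs <;> norm_num) hz)
    rw [← add_sum_erase _ _ (mem_range.2 hi), sum_congr rfl (g := fun _ => (17 / 50 : ℝ))
      (fun l hl => by
        rw [if_neg (ne_of_mem_erase hl), c3 l (mem_range.1 (mem_of_mem_erase hl))
          (ne_of_mem_erase hl)]; norm_num), sum_const, card_erase_of_mem (mem_range.2 hi), card_range]
    norm_num
  push Not at c2
  have f0 := c2 0 (by norm_num)
  have f1 := c2 1 (by norm_num)
  have f2 := c2 2 (by norm_num)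
  have f3 := c2 3 (by norm_num)
  have key : ∀ A B : ℕ, A < 4 → B < 4 → B ≠ A → d A = 0 → d B = 0 →
      valW G 3 0 a η ξ1 W Z Cs < rho 3 0 a 1 * W.card := by
    intro A B hA hB hAB eA eB
    refine h.caseT hp (by norm_num) hJ ?_ hA hB hAB (by rw [hd, eA]; simp) (by rw [hd, eB]; simp) ?_
    · rcases (Hv G 3 a (3 / 10) W Z).eq_empty_or_nonempty with e | e
      · exact Or.inl e
      · exact Or.inr (hj e)
    · intro i hi hiA hiB
      rw [hd]
      have : d i = 1 := by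
        interval_cases A <;> interval_cases B <;> interval_cases i <;> omega
      exact_mod_cast this
  rcases (by omega : (d 0 = 0 ∧ d 1 = 0) ∨ (d 0 = 0 ∧ d 2 = 0) ∨ (d 0 = 0 ∧ d 3 = 0) ∨
    (d 1 = 0 ∧ d 2 = 0) ∨ (d 1 = 0 ∧ d 3 = 0) ∨ (d 2 = 0 ∧ d 3 = 0)) with e | e | e | e | e | e
  all_goals exact key _ _ (by norm_num) (by norm_num) (by norm_num) e.1 e.2

theorem CI_pos {s k r : ℕ} (hk : k + 2 ≤ s) (hr : r ≤ 1 ∨ 3 * r + 1 ≤ s) : CI s k r := by
  by_cases c : 3 * r + 1 ≤ s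
  · exact CI_small hk c
  · by_cases e : s = k + 2
    · subst e; exact CI_top (by omega)
    · have : s = 3 ∧ k = 0 ∧ r = 1 := by omega
      obtain ⟨rfl, rfl, rfl⟩ := this
      exact CI_tie

end Pool.Agent.Lib.MP_1b6faf_co
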