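import Pool.Agent.Lib.MP_1b6faf_co.ZIneq

/-!
Basic estimates for a single cluster.
-/

namespace Pool.Agent.Lib.MP_1b6faf_co

open Finset
open scoped Classical

structure Setup {V : Type*} [Fintype V] (G : SimpleGraph V) (s a r : ℕ) (η ξ ξ1 : ℝ)
    (W Z Cs : Finset V) (p : V → ℕ) : Prop where
  hs : 2 ≤ s
  hr : r < s
  clu : Cluster G (s + 1) a η ξ ξ1 W p
  deg : ∀ x S, (nb G x S).card ≤ s * a + r
  cf : CF G (s + 1) univ
  out : univ \ W = Z ∪ Cs
  disj : Disjoint Z Cs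
  hη : 0 < η
  ha : 1 ≤ η * a
  hηξ : 2 * (s + 1) * η ≤ ξ
  hξ : ξ ≤ ξ1
  small : 100 * (s + 1) ^ 2 * ξ1 ≤ 1

variable {V : Type*}

/-- part sizes -/
noncomputable def ww (W : Finset V) (p : V → ℕ) (i : ℕ) : ℝ := (part W p i).card

/-- neighbours of `z` in part `i` -/
noncomputable def yy (G : SimpleGraph V) (W : Finset V) (p : V → ℕ) (z : V) (i : ℕ) : ℝ :=
  (nb G z (part W p i)).card

/-- excess of vertices -/
noncomputable def jj (s a r : ℕ) (W : Finset V) : ℝ := W.card - ((s + 1) * a + r)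

/-- free capacity of part `i` -/
noncomputable def cc (s a r : ℕ) (W : Finset V) (p : V → ℕ) (i : ℕ) : ℝ :=
  ww W p i - a - jj s a r W

lemma part_nb (G : SimpleGraph V) (W : Finset V) (p : V → ℕ) (z : V) (i : ℕ) :
    part (nb G z W) p i = nb G z (part W p i) := by
  ext x; simp only [mem_part, mem_nb]; tauto

lemma yy_nonneg (G : SimpleGraph V) (W : Finset V) (p : V → ℕ) (z : V) (i : ℕ) :
    0 ≤ yy G W p z i := Nat.cast_nonneg _

lemma yy_le (G : SimpleGraph V) (W : Finset V) (p : V → ℕ) (z : V) (i : ℕ) :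
    yy G W p z i ≤ ww W p i := Nat.cast_le.2 (card_le_card (nb_subset _ _))

namespace Setup

variable [Fintype V] {G : SimpleGraph V} {s a r : ℕ} {η ξ ξ1 : ℝ} {W Z Cs : Finset V} {p : V → ℕ}
  (h : Setup G s a r η ξ ξ1 W Z Cs p)
include h

lemma s2 : (2 : ℝ) ≤ s := by exact_mod_cast h.hs

lemma rs : (r : ℝ) + 1 ≤ s := by exact_mod_cast h.hr

lemma apos : (0 : ℝ) < a := by
  by_contra hc; push Not at hc; nlinarith [h.ha, h.hη]

lemma η6 : 6 * η ≤ ξ := by nlinarith [h.hηξ, h.s2, h.hη]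

lemma ξpos : 0 < ξ := by linarith [h.η6, h.hη]

lemma ξ1pos : 0 < ξ1 := by linarith [h.ξpos, h.hξ]

lemma sξ1 : 300 * (s + 1) * ξ1 ≤ 1 := by
  have h1 := h.small; have h2 := h.s2; have h3 := h.ξ1pos
  have : 0 < (s + 1) * ξ1 := by positivity
  nlinarith

lemma ξ1small : 900 * ξ1 ≤ 1 := by nlinarith [h.sξ1, h.s2, h.ξ1pos]

lemma a1 : (1 : ℝ) ≤ a := by nlinarith [h.ha, h.η6, h.hξ, h.ξ1small, h.apos]

lemma mem_range_p {x : V} (hx : x ∈ W) : p x ∈ range (s + 1) := mem_range.2 (h.clu.lt x hx)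

lemma sum_ww : ∑ i ∈ range (s + 1), ww W p i = W.card := by
  rw [card_eq_sum_parts (I := range (s + 1)) (p := p) (fun x hx => h.mem_range_p hx)]
  push_cast; rfl

lemma sum_yy (z : V) : ∑ i ∈ range (s + 1), yy G W p z i = (nb G z W).card := by
  rw [card_eq_sum_parts (I := range (s + 1)) (p := p)
    (fun x hx => h.mem_range_p (nb_subset _ _ hx))]
  push_cast
  exact sum_congr rfl fun i _ => by rw [part_nb]; rfl

lemma degR (x : V) (S : Finset V) : ((nb G x S).card : ℝ) ≤ s * a + r := by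
  exact_mod_cast h.deg x S

lemma degR' (x : V) (S : Finset V) : ((nb G x S).card : ℝ) ≤ s * (a + 1) := by
  linarith [h.degR x S, h.rs]

lemma wlo {i : ℕ} (hi : i < s + 1) : (1 - η) * a ≤ ww W p i := h.clu.lo i hi

lemma whi {i : ℕ} (hi : i < s + 1) : ww W p i ≤ (1 + ξ1) * a := h.clu.hi i hi

lemma whalf {i : ℕ} (hi : i < s + 1) : (a : ℝ) / 2 ≤ ww W p i := by
  have := h.wlo hi
  nlinarith [h.η6, h.hξ, h.ξ1small, h.apos]

lemma w2 {i : ℕ} (hi : i < s + 1) : ww W p i ≤ 2 * a := by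
  have := h.whi hi
  nlinarith [h.ξ1small, h.apos]

lemma out_le {x : V} (_hx : x ∈ W) :
    ((nb G x (univ \ W)).card : ℝ) ≤ cc s a r W p (p x) + (mx G p W x).card := by
  have h1 : W ⊆ part W p (p x) ∪ mx G p W x ∪ nb G x W := by
    intro y hy
    simp only [mem_union, mem_part, mem_mx, mem_nb]
    tauto
  have h2 : (W.card : ℝ) ≤ ww W p (p x) + (mx G p W x).card + (nb G x W).card := by
    unfold ww
    exact_mod_cast (card_le_card h1).trans ((card_union_le _ _).trans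
      (Nat.add_le_add_right (card_union_le _ _) _))
  have h3 : Disjoint (nb G x W) (nb G x (univ \ W)) :=
    disjoint_sdiff.mono (nb_subset _ _) (nb_subset _ _)
  have h4 := card_le_card (union_subset (nb_mono (G := G) x (subset_univ W))
    (nb_mono (G := G) x (subset_univ (univ \ W))))
  rw [card_union_of_disjoint h3] at h4
  have h5 : ((nb G x W).card : ℝ) + (nb G x (univ \ W)).card ≤ (nb G x univ).card := by
    exact_mod_cast h4
  have h6 := h.degR x univ
  unfold cc jj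
  linarith

lemma out_split (x : V) :
    ((nb G x (univ \ W)).card : ℝ) = (nb G x Z).card + (nb G x Cs).card := by
  have h1 : nb G x (univ \ W) = nb G x Z ∪ nb G x Cs := by
    rw [h.out]; unfold nb; rw [filter_union]
  rw [h1, card_union_of_disjoint (h.disj.mono (nb_subset _ _) (nb_subset _ _))]
  push_cast; rfl

lemma notMem_of_Z {z : V} (hz : z ∈ Z) : z ∉ W := by
  have : z ∈ univ \ W := by rw [h.out]; exact mem_union_left _ hz
  exact (mem_sdiff.1 this).2

lemma cc_eq {i : ℕ} (hi : i < s + 1) :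
    cc s a r W p i = s * a + r - ∑ l ∈ (range (s + 1)).erase i, ww W p l := by
  have := add_sum_erase (range (s + 1)) (ww W p) (mem_range.2 hi)
  rw [h.sum_ww] at this
  unfold cc jj
  linarith

lemma cc_le {i : ℕ} (hi : i < s + 1) : cc s a r W p i ≤ 2 * s * (η * a) := by
  rw [h.cc_eq hi]
  have h1 := card_nsmul_le_sum ((range (s + 1)).erase i) (ww W p) ((1 - η) * a)
    (fun l hl => h.wlo (mem_range.1 (mem_of_mem_erase hl)))
  rw [card_erase_of_mem (mem_range.2 hi), card_range, Nat.add_sub_cancel, nsmul_eq_mul] at h1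
  nlinarith [h.rs, h.ha, h.s2]

lemma cc_le' {i : ℕ} (hi : i < s + 1) : cc s a r W p i ≤ ξ1 * a := by
  have := h.cc_le hi
  nlinarith [h.hηξ, h.hξ, h.apos, h.hη]

lemma out_le' {x : V} (hx : x ∈ W) : ((nb G x (univ \ W)).card : ℝ) ≤ 2 * (ξ1 * a) := by
  have h1 := h.out_le hx
  have h2 := h.cc_le' (h.clu.lt x hx)
  have h3 := h.clu.miss x hx
  linarith

lemma sum_cc : ∑ i ∈ range (s + 1), cc s a r W p i = r - s * jj s a r W := by
  unfold cc
  rw [sum_sub_distrib, sum_sub_distrib, h.sum_ww]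
  simp only [sum_const, card_range, nsmul_eq_mul]
  unfold jj
  push_cast
  ring

lemma jj_le : jj s a r W ≤ (s + 1) * (ξ1 * a) := by
  have h1 := sum_le_card_nsmul (range (s + 1)) (ww W p) ((1 + ξ1) * a)
    (fun l hl => h.whi (mem_range.1 hl))
  rw [h.sum_ww, card_range, nsmul_eq_mul] at h1
  unfold jj
  push_cast at h1
  nlinarith [Nat.cast_nonneg (α := ℝ) r]

lemma jj_ge : -(2 * (s + 1) * (η * a)) ≤ jj s a r W := by
  have h1 := card_nsmul_le_sum (range (s + 1)) (ww W p) ((1 - η) * a)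
    (fun l hl => h.wlo (mem_range.1 hl))
  rw [h.sum_ww, card_range, nsmul_eq_mul] at h1
  unfold jj
  push_cast at h1
  nlinarith [h.rs, h.ha, h.s2]

lemma neg_cc : a * ∑ i ∈ range (s + 1), max (-cc s a r W p i) 0 ≤ 4 * (mis G p W).card := by
  have h1 := sum_card_mx G p W
  rw [sum_parts (I := range (s + 1)) (p := p) (fun x hx => h.mem_range_p hx)] at h1
  have h2 : ∀ i ∈ range (s + 1), a * max (-cc s a r W p i) 0
      ≤ 2 * ∑ x ∈ part W p i, ((mx G p W x).card : ℝ) := by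
    intro i hi
    have h3 := card_nsmul_le_sum (part W p i) (fun x => ((mx G p W x).card : ℝ))
      (max (-cc s a r W p i) 0) (fun x hx => by
        have b1 := h.out_le (mem_part.1 hx).1
        rw [(mem_part.1 hx).2] at b1
        have b2 : (0 : ℝ) ≤ (nb G x (univ \ W)).card := Nat.cast_nonneg _
        exact max_le (by linarith) (Nat.cast_nonneg _))
    rw [nsmul_eq_mul] at h3
    have h4 := h.whalf (mem_range.1 hi)
    have h5 : 0 ≤ max (-cc s a r W p i) 0 := le_max_right _ _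
    unfold ww at h4
    nlinarith
  rw [mul_sum]
  refine (sum_le_sum h2).trans ?_
  rw [← mul_sum, h1]; linarith

lemma pos_cc : ∑ i ∈ range (s + 1), max (cc s a r W p i) 0
    ≤ s * (1 + max (-jj s a r W) 0) + ∑ i ∈ range (s + 1), max (-cc s a r W p i) 0 := by
  have h1 : ∑ i ∈ range (s + 1), max (cc s a r W p i) 0
      = ∑ i ∈ range (s + 1), cc s a r W p i + ∑ i ∈ range (s + 1), max (-cc s a r W p i) 0 := by
    rw [← sum_add_distrib]
    refine sum_congr rfl fun i _ => ?_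
    rcases le_total (cc s a r W p i) 0 with hc | hc
    · rw [max_eq_right hc, max_eq_left (by linarith)]; ring
    · rw [max_eq_left hc, max_eq_right (by linarith)]; ring
  rw [h1, h.sum_cc]
  have := le_max_left (-jj s a r W) 0
  nlinarith [h.rs, h.s2]

lemma part_miss {i j : ℕ} (hij : i ≠ j) {x : V} (hx : x ∈ part W p i) :
    ((nn G x (part W p j)).card : ℝ) ≤ ξ1 * a := by
  refine le_trans (Nat.cast_le.2 (card_le_card fun y hy => ?_)) (h.clu.miss x (mem_part.1 hx).1)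
  obtain ⟨a1, a2⟩ := mem_nn.1 hy
  exact mem_mx.2 ⟨(mem_part.1 a1).1, by rw [(mem_part.1 a1).2, (mem_part.1 hx).2]; exact hij.symm, a2⟩

lemma greedy (k : ℕ) (I : Finset ℕ) (S : Finset V) (β : ℝ)
    (hβ : ∀ i ∈ I, β ≤ ((S ∩ part W p i).card : ℝ)) (hk : k * (ξ1 * a) ≤ β) :
    (I.card.choose k : ℝ) * (β - k * (ξ1 * a)) ^ k ≤ kc G k S :=
  kc_greedy (part W p) I (ξ1 * a) (mul_pos h.ξ1pos h.apos).le
    (fun _ _ _ _ hij => part_disjoint W p hij) (fun _ _ _ _ hij _ hx => h.part_miss hij hx)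
    k I (Subset.refl _) S β hβ hk

lemma low_part (z : V) : ∃ i0 < s + 1, yy G W p z i0 = 0 ∨
    (yy G W p z i0 ≤ (s + 2) * (ξ1 * a) ∧
      ∃ i1 < s + 1, i1 ≠ i0 ∧ yy G W p z i1 ≤ (s + 2) * (ξ1 * a)) := by
  obtain ⟨i0, hi0, hmin⟩ := exists_min_image (range (s + 1)) (yy G W p z) ⟨0, by simp⟩
  refine ⟨i0, mem_range.1 hi0, ?_⟩
  by_contra hcon
  push Not at hcon
  obtain ⟨h1, h2⟩ := hcon
  have h3 : ∀ i ∈ (range (s + 1)).erase i0, (s + 2) * (ξ1 * a) ≤ yy G W p z i := by
    intro i hi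
    by_cases h4 : yy G W p z i0 ≤ (s + 2) * (ξ1 * a)
    · exact (h2 h4 i (mem_range.1 (mem_of_mem_erase hi)) (ne_of_mem_erase hi)).le
    · exact (not_le.1 h4).le.trans (hmin i (mem_of_mem_erase hi))
  obtain ⟨x, hx⟩ : (nb G z (part W p i0)).Nonempty := by
    rw [← card_pos]
    by_contra h0
    apply h1
    unfold yy
    have : (nb G z (part W p i0)).card = 0 := by omega
    rw [this]; simp
  obtain ⟨hx1, hx2⟩ := mem_nb.1 hx
  have hξa := mul_pos h.ξ1pos h.apos
  have h4 := h.greedy s ((range (s + 1)).erase i0) (nb G x (nb G z univ)) ((s + 1) * (ξ1 * a))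
    (fun i hi => by
      have b1 := h3 i hi
      have b2 := h.part_miss (ne_of_mem_erase hi).symm hx1
      have b3 : nb G z (part W p i) ⊆ (nb G x (nb G z univ) ∩ part W p i) ∪ nn G x (part W p i) := by
        intro u hu
        simp only [mem_union, mem_inter, mem_nb, mem_nn, mem_univ] at hu ⊢
        tauto
      have b4 : yy G W p z i ≤ (nb G x (nb G z univ) ∩ part W p i).card
          + (nn G x (part W p i)).card := by
        unfold yy
        exact_mod_cast (card_le_card b3).trans (card_union_le _ _)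
      linarith) (by nlinarith)
  rw [card_erase_of_mem hi0, card_range, Nat.add_sub_cancel, Nat.choose_self] at h4
  have h5 : 0 < kc G s (nb G x (nb G z univ)) := by
    refine lt_of_lt_of_le ?_ h4
    have : 0 < (s + 1) * (ξ1 * a) - s * (ξ1 * a) := by linarith
    positivity
  obtain ⟨K, h6, h7, h8⟩ := exists_clique_of_kc_pos h5
  have c1 : CF G s (nb G z univ) := h.cf.nb (mem_univ _)
  have hs := h.hs
  obtain ⟨s', rfl⟩ : ∃ s', s = s' + 1 := ⟨s - 1, by omega⟩
  have c2 : CF G s' (nb G x (nb G z univ)) := c1.nb (mem_nb.2 ⟨mem_univ _, hx2⟩)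
  have := c2 K h6 h7
  omega

lemma two_small {z : V} {i0 i1 : ℕ} (h0 : i0 < s + 1) (h1 : i1 < s + 1) (hne : i1 ≠ i0)
    (hy0 : yy G W p z i0 ≤ (s + 2) * (ξ1 * a)) (hy1 : yy G W p z i1 ≤ (s + 2) * (ξ1 * a)) :
    ((nb G z W).card : ℝ) ≤ s * a - a / 2 := by
  have e1 : i1 ∈ (range (s + 1)).erase i0 := mem_erase.2 ⟨hne, mem_range.2 h1⟩
  rw [← h.sum_yy, ← add_sum_erase _ _ (mem_range.2 h0), ← add_sum_erase _ _ e1]
  have h2 := sum_le_card_nsmul (((range (s + 1)).erase i0).erase i1) (yy G W p z) ((1 + ξ1) * a)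
    (fun l hl => (yy_le G W p z l).trans (h.whi (mem_range.1 (mem_of_mem_erase
      (mem_of_mem_erase hl)))))
  rw [card_erase_of_mem e1, card_erase_of_mem (mem_range.2 h0), card_range, Nat.add_sub_cancel,
    nsmul_eq_mul, Nat.cast_sub (by have := h.hs; omega)] at h2
  have h3 := mul_le_mul_of_nonneg_right h.sξ1 h.apos.le
  have h4 := mul_pos h.ξ1pos h.apos
  push_cast at h2
  nlinarith [h.s2]

lemma far_le {z : V} (hz : z ∉ W) :
    ((nb G z W).card : ℝ) ≤ s * a - ξ * a / 2 + max (jj s a r W) 0 := by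
  have hj := le_max_left (jj s a r W) 0
  have hj0 := le_max_right (jj s a r W) 0
  obtain ⟨i0, hi0, h1 | ⟨h1, i1, hi1, hne, h2⟩⟩ := h.low_part z
  · obtain ⟨k, hk, hki, hfar⟩ := h.clu.far z hz i0 hi0
    have e1 : k ∈ (range (s + 1)).erase i0 := mem_erase.2 ⟨hki, mem_range.2 hk⟩
    have h2 := h.cc_eq hi0
    rw [← h.sum_yy, ← add_sum_erase _ _ (mem_range.2 hi0), ← add_sum_erase _ _ e1, h1]
    rw [← add_sum_erase _ _ e1] at h2
    have h3 : ∑ l ∈ ((range (s + 1)).erase i0).erase k, yy G W p z l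
        ≤ ∑ l ∈ ((range (s + 1)).erase i0).erase k, ww W p l :=
      sum_le_sum fun l _ => yy_le G W p z l
    have h4 : yy G W p z k + (nn G z (part W p k)).card = ww W p k := card_nb_add_nn' _ _
    have h5 := h.wlo hi0
    have h6 := mul_le_mul_of_nonneg_right h.hηξ h.apos.le
    unfold cc at h2
    nlinarith [h.rs, h.ha, h.s2]
  · have := h.two_small hi0 hi1 hne h1 h2
    nlinarith [h.hξ, h.ξ1small, h.apos]

end Setup

end Pool.Agent.Lib.MP_1b6faf_co
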