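import Pool.Agent.Lib.MP_1b6faf_co.Esym

/-!
Smoothing of integer vectors: the balanced vector maximises the elementary symmetric sums,
with a quantitative second order gain.
-/

namespace Pool.Agent.Lib.MP_1b6faf_co

open Finset

/-- balanced part sizes: the first `r` parts have size `a+1`, the others `a` -/
def balw (a r : ℕ) (i : ℕ) : ℕ := if i < r then a + 1 else a

noncomputable def ebal (t om a r : ℕ) : ℝ := es t (range om) (fun i => (balw a r i : ℝ))

lemma es_eq_esymm (k : ℕ) (I : Finset ℕ) (w : ℕ → ℝ) : es k I w = (I.val.map w).esymm k := by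
  rw [es_eq_sum, Finset.esymm_map_val]

lemma map_two_val (I : Finset ℕ) (w : ℕ → ℕ) (a : ℕ) (h : ∀ i ∈ I, w i = a ∨ w i = a + 1) :
    I.val.map (fun i => (w i : ℝ)) =
      Multiset.replicate (I.filter (fun i => w i = a + 1)).card ((a : ℝ) + 1) +
      Multiset.replicate (I.card - (I.filter (fun i => w i = a + 1)).card) (a : ℝ) := by
  have h1 : I.val = (I.filter (fun i => w i = a + 1)).val + (I.filter (fun i => ¬ w i = a + 1)).val := by
    simp only [filter_val]
    exact (Multiset.filter_add_not _ _).symm
  have h2 : (I.filter (fun i => ¬ w i = a + 1)).card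
      = I.card - (I.filter (fun i => w i = a + 1)).card := by
    have := card_filter_add_card_filter_not (s := I) (fun i => w i = a + 1)
    omega
  rw [h1, Multiset.map_add, ← h2]
  congr 1
  · rw [Multiset.map_congr rfl (g := fun _ => (a : ℝ) + 1)]
    · rw [Multiset.map_const']; rfl
    · intro i hi
      have := (mem_filter.1 hi).2
      rw [this]; push_cast; ring
  · rw [Multiset.map_congr rfl (g := fun _ => (a : ℝ))]
    · rw [Multiset.map_const']; rfl
    · intro i hi
      have h3 := (mem_filter.1 hi)
      rcases h i h3.1 with h4 | h4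
      · rw [h4]
      · exact absurd h4 h3.2

lemma sum_two_val (I : Finset ℕ) (w : ℕ → ℕ) (a : ℕ) (h : ∀ i ∈ I, w i = a ∨ w i = a + 1) :
    ∑ i ∈ I, w i = I.card * a + (I.filter (fun i => w i = a + 1)).card := by
  rw [card_filter, card_eq_sum_ones, sum_mul, ← sum_add_distrib]
  refine sum_congr rfl fun i hi => ?_
  rcases h i hi with h1 | h1 <;> simp [h1]

lemma sum_balw (om a r : ℕ) (hr : r ≤ om) : ∑ i ∈ range om, balw a r i = om * a + r := by
  rw [sum_two_val (range om) (balw a r) a (fun i _ => by unfold balw; split_ifs <;> simp)]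
  have : (range om).filter (fun i => balw a r i = a + 1) = range r := by
    ext i; simp only [mem_filter, mem_range, balw]
    constructor
    · rintro ⟨_, h2⟩; by_contra h3; simp [h3] at h2
    · intro h2; simp [h2]; omega
  rw [this]; simp

lemma es_two_val (k om a r : ℕ) (hr : r ≤ om) (w : ℕ → ℕ)
    (h : ∀ i ∈ range om, w i = a ∨ w i = a + 1) (hs : ∑ i ∈ range om, w i = om * a + r) :
    es k (range om) (fun i => (w i : ℝ)) = ebal k om a r := by
  have hb : ∀ i ∈ range om, balw a r i = a ∨ balw a r i = a + 1 := fun i _ => by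
    unfold balw; split_ifs <;> simp
  have h1 := sum_two_val _ w a h
  have h2 := sum_two_val _ _ a hb
  rw [sum_balw om a r hr] at h2
  rw [hs] at h1
  have h3 : ((range om).filter (fun i => w i = a + 1)).card
      = ((range om).filter (fun i => balw a r i = a + 1)).card := by omega
  unfold ebal
  rw [es_eq_esymm, es_eq_esymm, map_two_val _ w a h, map_two_val _ _ a hb, h3]

lemma es_two_erase (t : ℕ) {I : Finset ℕ} {i k : ℕ} (hi : i ∈ I) (hk : k ∈ I) (hik : k ≠ i)
    (w : ℕ → ℝ) :
    es (t + 2) I w = es (t + 2) ((I.erase i).erase k) w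
      + (w i + w k) * es (t + 1) ((I.erase i).erase k) w
      + w i * w k * es t ((I.erase i).erase k) w := by
  have hk' : k ∈ I.erase i := mem_erase.2 ⟨hik, hk⟩
  rw [es_erase (t + 1) hi, es_erase (t + 1) hk', es_erase t hk']
  ring

lemma smoothing (t om a r b : ℕ) (hr : r ≤ om) (κ : ℝ) (hκ0 : 0 ≤ κ)
    (hκ : 2 * κ ≤ ((om - 2).choose t : ℝ) * (b : ℝ) ^ t) (w : ℕ → ℕ)
    (hs : ∑ i ∈ range om, w i = om * a + r) (hb : ∀ i ∈ range om, b ≤ w i) :
    es (t + 2) (range om) (fun i => (w i : ℝ))
      + κ * ∑ i ∈ range om, ((w i : ℝ) - a) * ((w i : ℝ) - a - 1) ≤ ebal (t + 2) om a r := by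
  induction hN : ∑ i ∈ range om, w i ^ 2 using Nat.strong_induction_on generalizing w with
  | _ N ih =>
  by_cases hex : ∃ i ∈ range om, ∃ k ∈ range om, w k + 2 ≤ w i
  · obtain ⟨i, hi, k, hk, hik⟩ := hex
    have hne : k ≠ i := by rintro rfl; omega
    have hk' : k ∈ (range om).erase i := mem_erase.2 ⟨hne, hk⟩
    set w' : ℕ → ℕ := fun j => if j = i then w i - 1 else if j = k then w k + 1 else w j with hw'
    have hwi : w' i = w i - 1 := by simp [hw']
    have hwk : w' k = w k + 1 := by simp [hw', hne]
    have hwj : ∀ j ∈ ((range om).erase i).erase k, w' j = w j := by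
      intro j hj
      have h1 := (mem_erase.1 hj).1
      have h2 := (mem_erase.1 (mem_erase.1 hj).2).1
      simp [hw', h1, h2]
    have split : ∀ {M : Type} [AddCommMonoid M] (f : ℕ → M), ∑ j ∈ range om, f j
        = f i + (f k + ∑ j ∈ ((range om).erase i).erase k, f j) := by
      intro M _ f
      rw [add_sum_erase _ f hk', add_sum_erase _ f hi]
    have hs' : ∑ j ∈ range om, w' j = om * a + r := by
      have e : ∑ j ∈ ((range om).erase i).erase k, w' j = ∑ j ∈ ((range om).erase i).erase k, w j :=
        sum_congr rfl hwj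
      rw [← hs, split w', split w, e, hwi, hwk]; omega
    have hb' : ∀ j ∈ range om, b ≤ w' j := by
      intro j hj
      have := hb j hj
      have := hb k hk
      simp only [hw']
      split_ifs <;> omega
    have hlt : ∑ j ∈ range om, w' j ^ 2 < N := by
      rw [← hN, split (fun j => w' j ^ 2), split (fun j => w j ^ 2),
        sum_congr rfl (fun j hj => by rw [hwj j hj]), hwi, hwk]
      obtain ⟨d, hd⟩ : ∃ d, w i = w k + 2 + d := ⟨w i - (w k + 2), by omega⟩
      have : w i - 1 = w k + 1 + d := by omega
      rw [this, hd]; nlinarith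
    have h1 := ih _ hlt w' hs' hb' rfl
    refine le_trans ?_ h1
    rw [es_two_erase t hi hk hne, es_two_erase t hi hk hne (fun j => (w' j : ℝ)),
      split (fun j => ((w j : ℝ) - a) * ((w j : ℝ) - a - 1)),
      split (fun j => ((w' j : ℝ) - a) * ((w' j : ℝ) - a - 1))]
    have hc : ∀ k', es k' (((range om).erase i).erase k) (fun j => (w' j : ℝ))
        = es k' (((range om).erase i).erase k) (fun j => (w j : ℝ)) := fun k' =>
      es_congr k' (fun j hj => by rw [hwj j hj])
    rw [hc, hc, hc, sum_congr rfl (g := fun j => ((w j : ℝ) - a) * ((w j : ℝ) - a - 1))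
      (s₁ := ((range om).erase i).erase k) (f := fun j => ((w' j : ℝ) - a) * ((w' j : ℝ) - a - 1))
      (fun j hj => by rw [hwj j hj]), hwi, hwk]
    have hcard : (((range om).erase i).erase k).card = om - 2 := by
      rw [card_erase_of_mem hk', card_erase_of_mem hi, card_range]; omega
    have hge := es_ge t (I := ((range om).erase i).erase k) (w := fun j => (w j : ℝ))
      (b := (b : ℝ)) (Nat.cast_nonneg _)
      (fun j hj => by exact_mod_cast hb j (mem_of_mem_erase (mem_of_mem_erase hj)))
    rw [hcard] at hge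
    have hcast : ((w i - 1 : ℕ) : ℝ) = (w i : ℝ) - 1 := by
      rw [Nat.cast_sub (by omega)]; simp
    have hd : (0 : ℝ) ≤ (w i : ℝ) - w k - 1 := by
      have : ((w k + 2 : ℕ) : ℝ) ≤ w i := by exact_mod_cast hik
      push_cast at this; linarith
    rw [hcast]
    push_cast
    have := mul_le_mul_of_nonneg_left (hκ.trans hge) hd
    nlinarith
  · push Not at hex
    have h2 : ∀ i ∈ range om, w i = a ∨ w i = a + 1 := by
      intro i hi
      by_contra hcon
      push Not at hcon
      rcases lt_or_gt_of_ne hcon.1 with h | h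
      · have h3 : ∑ j ∈ range om, w j < ∑ j ∈ range om, a := by
          apply sum_lt_sum
          · intro j hj; have := hex j hj i hi; omega
          · exact ⟨i, hi, h⟩
        rw [hs] at h3; simp at h3
      · have h3 : ∑ j ∈ range om, (a + 1) < ∑ j ∈ range om, w j := by
          apply sum_lt_sum
          · intro j hj; have := hex i hi j hj; omega
          · exact ⟨i, hi, by omega⟩
        rw [hs] at h3; simp at h3; nlinarith
    rw [es_two_val _ om a r hr w h2 hs, sum_eq_zero]
    · simp
    · intro i hi
      rcases h2 i hi with h | h <;> simp [h]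

lemma es_le_ebal (t om a r : ℕ) (hr : r ≤ om) (w : ℕ → ℕ)
    (hs : ∑ i ∈ range om, w i = om * a + r) :
    es (t + 2) (range om) (fun i => (w i : ℝ)) ≤ ebal (t + 2) om a r := by
  have := smoothing t om a r 0 hr 0 le_rfl (by rw [mul_zero]; positivity) w hs (fun _ _ => Nat.zero_le _)
  simpa using this

/-- adding `j` units raises the sum by at most `j` increments -/
lemma es_up (t om a r : ℕ) (hr : r ≤ om) (B : ℝ) (j : ℕ) (w : ℕ → ℕ)
    (hs : ∑ i ∈ range om, w i = om * a + r + j) (hB : ∀ i ∈ range om, (w i : ℝ) ≤ B) :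
    es (t + 2) (range om) (fun i => (w i : ℝ))
      ≤ ebal (t + 2) om a r + j * (((om - 1).choose (t + 1) : ℝ) * B ^ (t + 1)) := by
  induction j generalizing w with
  | zero => simpa using es_le_ebal t om a r hr w hs
  | succ j ih =>
    obtain ⟨i, hi, hpos⟩ : ∃ i ∈ range om, 0 < w i := by
      by_contra hcon
      push Not at hcon
      rw [sum_eq_zero (fun i hi => by have := hcon i hi; omega)] at hs
      omega
    set w' : ℕ → ℕ := fun j => if j = i then w i - 1 else w j with hw'
    have hwi : w' i = w i - 1 := by simp [hw']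
    have hwj : ∀ j ∈ (range om).erase i, w' j = w j := by
      intro j hj
      simp [hw', (mem_erase.1 hj).1]
    have hs' : ∑ j ∈ range om, w' j = om * a + r + j := by
      have e : ∑ j ∈ (range om).erase i, w' j = ∑ j ∈ (range om).erase i, w j :=
        sum_congr rfl hwj
      have e1 : w i + ∑ j ∈ (range om).erase i, w j = ∑ j ∈ range om, w j := add_sum_erase _ w hi
      have e2 : w' i + ∑ j ∈ (range om).erase i, w' j = ∑ j ∈ range om, w' j :=
        add_sum_erase _ w' hi
      omega
    have hB' : ∀ j ∈ range om, (w' j : ℝ) ≤ B := by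
      intro j hj
      refine le_trans ?_ (hB j hj)
      simp only [hw']
      split_ifs with h
      · subst h; exact_mod_cast Nat.sub_le _ _
      · exact le_rfl
    have h1 := ih w' hs' hB'
    rw [es_erase (t + 1) hi] at h1 ⊢
    have hc : ∀ k', es k' ((range om).erase i) (fun j => (w' j : ℝ))
        = es k' ((range om).erase i) (fun j => (w j : ℝ)) := fun k' =>
      es_congr k' (fun j hj => by rw [hwj j hj])
    rw [hc, hc, hwi, Nat.cast_sub (by omega)] at h1
    have hle := es_le (t + 1) (I := (range om).erase i) (w := fun j => (w j : ℝ)) (b := B)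
      (fun _ _ => Nat.cast_nonneg _) (fun j hj => hB j (mem_of_mem_erase hj))
    rw [card_erase_of_mem hi, card_range] at hle
    push_cast at *
    linarith

/-- removing `q` units lowers the sum by at least `q` increments -/
lemma es_down (t om a r : ℕ) (hom : 0 < om) (hr : r ≤ om) (b : ℝ) (hb0 : 0 ≤ b) (q : ℕ) (w : ℕ → ℕ)
    (hs : ∑ i ∈ range om, w i + q = om * a + r) (hb : ∀ i ∈ range om, b ≤ (w i : ℝ)) :
    es (t + 2) (range om) (fun i => (w i : ℝ))
      ≤ ebal (t + 2) om a r - q * (((om - 1).choose (t + 1) : ℝ) * b ^ (t + 1)) := by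
  have hi : 0 ∈ range om := mem_range.2 hom
  set w' : ℕ → ℕ := fun j => if j = 0 then w 0 + q else w j with hw'
  have hwi : w' 0 = w 0 + q := by simp [hw']
  have hwj : ∀ j ∈ (range om).erase 0, w' j = w j := by
    intro j hj
    simp [hw', (mem_erase.1 hj).1]
  have hs' : ∑ j ∈ range om, w' j = om * a + r := by
    have e : ∑ j ∈ (range om).erase 0, w' j = ∑ j ∈ (range om).erase 0, w j :=
      sum_congr rfl hwj
    have e1 : w 0 + ∑ j ∈ (range om).erase 0, w j = ∑ j ∈ range om, w j := add_sum_erase _ w hi
    have e2 : w' 0 + ∑ j ∈ (range om).erase 0, w' j = ∑ j ∈ range om, w' j :=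
      add_sum_erase _ w' hi
    omega
  have h1 := es_le_ebal t om a r hr w' hs'
  rw [es_erase (t + 1) hi] at h1 ⊢
  have hc : ∀ k', es k' ((range om).erase 0) (fun j => (w' j : ℝ))
      = es k' ((range om).erase 0) (fun j => (w j : ℝ)) := fun k' =>
    es_congr k' (fun j hj => by rw [hwj j hj])
  rw [hc, hc, hwi] at h1
  have hge := es_ge (t + 1) (I := (range om).erase 0) (w := fun j => (w j : ℝ)) (b := b)
    hb0 (fun j hj => hb j (mem_of_mem_erase hj))
  rw [card_erase_of_mem hi, card_range] at hge
  have := mul_le_mul_of_nonneg_left hge (Nat.cast_nonneg (α := ℝ) q)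
  push_cast at *
  linarith

end Pool.Agent.Lib.MP_1b6faf_co
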