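import Pool.Agent.Lib.MP_1b6faf_co.Zykov

/-!
Stability: a set with almost the maximum number of cliques contains a core.
-/

namespace Pool.Agent.Lib.MP_1b6faf_co

open Finset
open scoped Classical

structure Core {V : Type*} (G : SimpleGraph V) (k : ℕ) (a η : ℝ) (U : ℕ → Finset V) : Prop where
  disj : ∀ i < k, ∀ j < k, i ≠ j → Disjoint (U i) (U j)
  size : ∀ i < k, (1 - η) * a ≤ ((U i).card : ℝ)
  miss : ∀ i < k, ∀ j < k, i ≠ j → ∀ x ∈ U i, ((nn G x (U j)).card : ℝ) ≤ η * a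

lemma markov {α : Type*} (S : Finset α) (f : α → ℝ) (hf : ∀ x ∈ S, 0 ≤ f x) (c : ℝ) :
    ((S.filter (fun x => c < f x)).card : ℝ) * c ≤ ∑ x ∈ S, f x := by
  have h1 : ∑ x ∈ S.filter (fun x => c < f x), f x ≤ ∑ x ∈ S, f x :=
    sum_le_sum_of_subset_of_nonneg (filter_subset _ _) fun x hx _ => hf x hx
  have h2 := card_nsmul_le_sum (S.filter (fun x => c < f x)) f c
    (fun x hx => (mem_filter.1 hx).2.le)
  rw [nsmul_eq_mul] at h2
  linarith

lemma sum_card_mx {V : Type*} (G : SimpleGraph V) (p : V → ℕ) (S : Finset V) :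
    ∑ x ∈ S, ((mx G p S x).card : ℝ) = 2 * (mis G p S).card := by
  have := sum_mx (G := G) p S (fun _ _ => 1)
  simp only [sum_const, nsmul_eq_mul, mul_one] at this
  rw [this]; ring

lemma succ_pow_le (a : ℝ) (ha : 1 ≤ a) (q : ℕ) : (a + 1) ^ q ≤ a ^ q * (1 + 2 ^ q / a) := by
  have ha0 : 0 < a := by linarith
  have h1 : a + 1 = a * (1 + 1 / a) := by field_simp
  have h2 := one_add_pow_le' (1 / a) (by positivity) (by rw [div_le_one ha0]; exact ha) q
  rw [h1, mul_pow]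
  have : (2 : ℝ) ^ q / a = 2 ^ q * (1 / a) := by ring
  rw [this]
  exact mul_le_mul_of_nonneg_left h2 (by positivity)

theorem stability (s k : ℕ) (hk : k + 2 ≤ s) (η : ℝ) (hη : 0 < η) (hη1 : η ≤ 1) :
    ∃ η0 : ℝ, 0 < η0 ∧ η0 ≤ η ∧ ∃ a0 : ℝ, ∀ (V : Type) (G : SimpleGraph V) (S : Finset V) (a : ℝ),
      a0 ≤ a → CF G s S → (S.card : ℝ) ≤ s * (a + 1) →
      (1 - η0) * (s.choose (k + 2) : ℝ) * a ^ (k + 2) ≤ kc G (k + 2) S →
      ∃ U : ℕ → Finset V, Core G s a η U ∧ ∀ i < s, U i ⊆ S := by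
  set C : ℝ := (s.choose (k + 2) : ℝ) with hC
  have hC1 : 1 ≤ C := by
    have : 1 ≤ s.choose (k + 2) := Nat.choose_pos hk
    rw [hC]; exact_mod_cast this
  have hs2 : (2 : ℝ) ≤ s := by have : 2 ≤ s := by omega
                               exact_mod_cast this
  have hqs : (k : ℝ) + 2 ≤ s := by exact_mod_cast hk
  have h2k : (1 : ℝ) ≤ 2 ^ k := one_le_pow₀ (by norm_num)
  set K : ℝ := 16 * s ^ 2 * 2 ^ k * C with hK
  have hK1 : 16 ≤ K := by
    have : (1 : ℝ) ≤ s ^ 2 := by nlinarith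
    have h3 : (1 : ℝ) ≤ s ^ 2 * 2 ^ k := one_le_mul_of_one_le_of_one_le this h2k
    have h4 : (1 : ℝ) ≤ s ^ 2 * 2 ^ k * C := one_le_mul_of_one_le_of_one_le h3 hC1
    rw [hK]; linarith
  have hK0 : 0 < K := by linarith
  set η0 : ℝ := η ^ 2 / (2 * K) with hη0
  have hη0pos : 0 < η0 := by positivity
  have hη0K : η0 * K = η ^ 2 / 2 := by rw [hη0]; field_simp
  have hη0le : η0 ≤ η / 4 := by nlinarith
  refine ⟨η0, hη0pos, by linarith, max 1 (2 ^ (k + 2) / η0), ?_⟩
  intro V G S a ha hS hcard hrich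
  have ha1 : 1 ≤ a := le_trans (le_max_left _ _) ha
  have ha0 : 0 < a := by linarith
  have ha2 : 2 ^ (k + 2) / a ≤ η0 := by
    have := le_trans (le_max_right _ _) ha
    rw [div_le_iff₀ hη0pos] at this
    rw [div_le_iff₀ ha0]; linarith
  obtain ⟨p, hp, hz⟩ := erdos_zykov s S (ind (k + 2)) (ind_nonneg _) hS
  set w : ℕ → ℝ := fun i => ((part S p i).card : ℝ) with hw
  have hw0 : ∀ i ∈ range s, 0 ≤ w i := fun _ _ => Nat.cast_nonneg _
  have hsum : ∑ i ∈ range s, w i = S.card := by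
    rw [card_eq_sum_parts (I := range s) (p := p) (fun x hx => mem_range.2 (hp x hx))]
    push_cast; rfl
  set A : ℝ := (S.card : ℝ) / s with hA
  have hA0 : 0 ≤ A := by positivity
  have hA1 : A ≤ a + 1 := by rw [hA, div_le_iff₀ (by linarith)]; linarith
  have hNT := NT_nonneg (G := G) (ind_nonneg (k + 2)) S p
  change kc G (k + 2) S + NT G (ind (k + 2)) S p ≤ es (k + 2) (range s) w at hz
  have hmac := maclaurin (k + 2) (range s) w hw0
  rw [hsum, card_range] at hmac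
  have hAq : A ^ (k + 2) ≤ a ^ (k + 2) * (1 + η0) := by
    calc A ^ (k + 2) ≤ (a + 1) ^ (k + 2) := pow_le_pow_left₀ hA0 hA1 _
      _ ≤ a ^ (k + 2) * (1 + 2 ^ (k + 2) / a) := succ_pow_le a ha1 _
      _ ≤ _ := by gcongr
  have haq : 0 < a ^ (k + 2) := by positivity
  have hA2 : (1 - η0) * a ≤ A := by
    have h1 : (1 - η0) * a ^ (k + 2) ≤ A ^ (k + 2) := by
      have : C * ((1 - η0) * a ^ (k + 2)) ≤ C * A ^ (k + 2) := by linarith
      exact le_of_mul_le_mul_left this (by linarith)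
    have h2 : ((1 - η0) * a) ^ (k + 2) ≤ (1 - η0) * a ^ (k + 2) := by
      rw [mul_pow]
      refine mul_le_mul_of_nonneg_right ?_ haq.le
      have h3 : (1 - η0) ^ (k + 1) ≤ 1 := pow_le_one₀ (by linarith) (by linarith)
      rw [pow_succ]
      nlinarith
    exact le_of_pow_le_pow_left₀ (n := k + 2) (by omega) hA0 (h2.trans h1)
  have hAa : a / 2 ≤ A := by nlinarith
  have hak : 0 < (a / 2) ^ k := by positivity
  have hak2 : a ^ (k + 2) = (a / 2) ^ k * (2 ^ k * a ^ 2) := by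
    rw [div_pow]; field_simp; ring
  have hsize : ∀ j < s, (1 - η / 2) * a ≤ w j := by
    intro j hj
    have h1 := maclaurin_stab k (range s) w hw0 (mem_range.2 hj) (by rw [card_range]; omega)
    rw [hsum, card_range] at h1
    have h2 : A ^ k * ((A - w j) / (s - 1)) ^ 2 ≤ 2 * η0 * a ^ (k + 2) := by
      have : C * (A ^ k * ((A - w j) / (s - 1)) ^ 2) ≤ C * (2 * η0 * a ^ (k + 2)) := by
        have h3 := mul_le_mul_of_nonneg_left hAq (show 0 ≤ C by linarith)
        nlinarith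
      exact le_of_mul_le_mul_left this (by linarith)
    have h3 : (a / 2) ^ k * ((A - w j) / (s - 1)) ^ 2 ≤ (a / 2) ^ k * (2 * η0 * (2 ^ k * a ^ 2)) := by
      have h4 : (a / 2) ^ k ≤ A ^ k := pow_le_pow_left₀ (by positivity) hAa _
      have h5 := mul_le_mul_of_nonneg_right h4 (sq_nonneg ((A - w j) / (s - 1)))
      rw [hak2] at h2
      linarith
    have h4 := le_of_mul_le_mul_left h3 hak
    have hs1 : (0 : ℝ) < s - 1 := by linarith
    rw [div_pow, div_le_iff₀ (by positivity)] at h4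
    have h5 : (A - w j) ^ 2 ≤ (η / 4 * a) ^ 2 := by
      have h6 : ((s : ℝ) - 1) ^ 2 ≤ s ^ 2 * C := by nlinarith
      have h7 : 2 * η0 * (2 ^ k * a ^ 2) * ((s : ℝ) - 1) ^ 2
          ≤ 2 * η0 * (2 ^ k * a ^ 2) * (s ^ 2 * C) := by gcongr
      have h8 : 2 * η0 * (2 ^ k * a ^ 2) * (s ^ 2 * C) = (η0 * K) * a ^ 2 / 8 := by
        rw [hK]; ring
      rw [h8, hη0K] at h7
      nlinarith
    have h6 : A - w j ≤ η / 4 * a := (abs_le_of_sq_le_sq' h5 (by positivity)).2
    nlinarith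
  have hmis := mis_le (G := G) p s k hp (a / 2) (by positivity)
    (fun i hi => le_trans (by nlinarith) (hsize i hi)) hk
  have hmis2 : ((mis G p S).card : ℝ) ≤ s ^ 2 * (4 * C * η0 * (2 ^ k * a ^ 2)) := by
    have h1 : es (k + 2) (range s) w - kc G (k + 2) S + NT G (ind (k + 2)) S p
        ≤ 4 * C * η0 * a ^ (k + 2) := by
      have h3 := mul_le_mul_of_nonneg_left hAq (show 0 ≤ C by linarith)
      nlinarith
    have h2 : ((k : ℝ) + 2) ^ 2 ≤ s ^ 2 := pow_le_pow_left₀ (by positivity) hqs _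
    have h3 : 0 ≤ es (k + 2) (range s) w - kc G (k + 2) S + NT G (ind (k + 2)) S p := by linarith
    have h4 := mul_le_mul h2 h1 h3 (by positivity)
    have h5 : (a / 2) ^ k * ((mis G p S).card : ℝ)
        ≤ (a / 2) ^ k * (s ^ 2 * (4 * C * η0 * (2 ^ k * a ^ 2))) := by
      rw [hak2] at h4
      linarith
    exact le_of_mul_le_mul_left h5 hak
  set B := S.filter (fun x => η * a < ((mx G p S x).card : ℝ)) with hB
  have hBcard : (B.card : ℝ) ≤ η / 2 * a := by
    have h1 := markov S (fun x => ((mx G p S x).card : ℝ)) (fun _ _ => Nat.cast_nonneg _) (η * a)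
    rw [sum_card_mx] at h1
    have h2 : s ^ 2 * (4 * C * η0 * (2 ^ k * a ^ 2)) = (η0 * K) * a ^ 2 / 4 := by rw [hK]; ring
    rw [h2, hη0K] at hmis2
    have h3 : (B.card : ℝ) * (η * a) ≤ (η / 2 * a) * (η * a) := by nlinarith
    exact le_of_mul_le_mul_right h3 (by positivity)
  refine ⟨fun i => part S p i \ B, ⟨?_, ?_, ?_⟩, fun i _ => sdiff_subset.trans (part_subset _ _ _)⟩
  · intro i _ j _ hij
    exact (part_disjoint S p hij).mono sdiff_subset sdiff_subset
  · intro i hi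
    have h1 : ((part S p i).card : ℝ) ≤ (part S p i \ B).card + B.card := by
      exact_mod_cast card_le_card_sdiff_add_card
    have := hsize i hi
    simp only [hw] at this
    linarith
  · intro i _ j _ hij x hx
    obtain ⟨hx1, hx2⟩ := mem_sdiff.1 hx
    obtain ⟨hxS, hxi⟩ := mem_part.1 hx1
    have h1 : ((mx G p S x).card : ℝ) ≤ η * a := by
      by_contra h
      exact hx2 (mem_filter.2 ⟨hxS, not_le.1 h⟩)
    refine le_trans ?_ h1
    have : nn G x (part S p j \ B) ⊆ mx G p S x := by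
      intro y hy
      obtain ⟨a1, a2⟩ := mem_nn.1 hy
      obtain ⟨a3, a4⟩ := mem_part.1 (mem_sdiff.1 a1).1
      exact mem_mx.2 ⟨a3, by rw [a4, hxi]; exact hij.symm, a2⟩
    exact_mod_cast card_le_card this

end Pool.Agent.Lib.MP_1b6faf_co
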