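import Pool.Agent.Lib.MP_1b6faf_co.Decomp

/-!
The vertices outside all clusters are poor on average.
-/

namespace Pool.Agent.Lib.MP_1b6faf_co

open Finset
open scoped Classical

noncomputable def rho0 (s k : ℕ) (a : ℝ) : ℝ := (s.choose (k + 2) : ℝ) * a ^ (k + 2) / (k + 3)

lemma znum1 (k : ℕ) (a u x η : ℝ) (ha : 1 ≤ a) (hu : 0 ≤ u) (hx : 0 ≤ x) (hη : 0 ≤ η)
    (h : u + x ≤ 1 + 1 / a) : u ^ (k + 2) + (1 - η) * x ≤ 1 + 2 ^ (k + 2) / a := by
  have ha0 : 0 < a := by linarith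
  have h0 : 0 ≤ 1 / a := by positivity
  have h1 : u ^ (k + 1) ≤ (1 + 1 / a) ^ (k + 1) := pow_le_pow_left₀ hu (by linarith) _
  have h2 : 1 ≤ (1 + 1 / a) ^ (k + 1) := one_le_pow₀ (by linarith)
  have h3 := one_add_pow_le' (1 / a) h0 (by rw [div_le_one ha0]; exact ha) (k + 2)
  have e : (2 : ℝ) ^ (k + 2) / a = 2 ^ (k + 2) * (1 / a) := by ring
  rw [e]
  refine le_trans ?_ h3
  rw [pow_succ u, pow_succ (1 + 1 / a)]
  nlinarith [mul_nonneg hη hx]

lemma znum2 (k : ℕ) (a u x η η0 y : ℝ) (hη0 : 0 < η0) (hη : η0 ≤ η) (hη1 : η ≤ 1)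
    (ha : 1 / a ≤ η0 / 8) (hu : 0 ≤ u)
    (hx : 0 ≤ x) (h : u + x ≤ 1 + 1 / a) (hy1 : y ≤ u ^ (k + 2)) (hy2 : y ≤ 1 - η0) :
    y + (1 - η) * x ≤ 1 - η0 / 4 := by
  by_cases h1 : x ≤ η0 / 2
  · nlinarith
  · push Not at h1
    have h2 : u ≤ 1 - 3 * η0 / 8 := by linarith
    have h3 : u ^ k ≤ 1 := pow_le_one₀ hu (by linarith)
    have h4 : u ^ (k + 2) ≤ u * (1 - 3 * η0 / 8) := by
      have : u ^ (k + 2) = u ^ k * (u * u) := by ring
      rw [this]
      nlinarith [mul_nonneg hu hu]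
    have h5 : (1 - 3 * η0 / 8) * (u + x) ≤ (1 - 3 * η0 / 8) * (1 + η0 / 8) :=
      mul_le_mul_of_nonneg_left (by linarith) (by linarith)
    nlinarith

theorem z_ineq (s k : ℕ) (hk : k + 2 ≤ s) (η : ℝ) (hη : 0 < η) (hη1 : η ≤ 1) :
    ∃ a0 : ℝ, ∀ (V : Type) (G : SimpleGraph V) (Z Y : Finset V) (a : ℝ), a0 ≤ a →
      (∀ x S, ((nb G x S).card : ℝ) ≤ s * (a + 1)) → CF G (s + 1) Z → Disjoint Z Y →
      (∀ U : ℕ → Finset V, Core G (s + 1) a η U → ¬ ∀ i < s + 1, U i ⊆ Z) →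
      kc G (k + 3) Z + (1 - η) * rho0 s k a / (s * a) * ∑ z ∈ Z, ((nb G z Y).card : ℝ)
        ≤ rho0 s k a * (1 - 2 / a) * Z.card := by
  obtain ⟨s', rfl⟩ : ∃ s', s = s' + 1 := ⟨s - 1, by omega⟩
  obtain ⟨ε, hε, hεη, hext⟩ := extend_core s' (by omega) η hη hη1
  obtain ⟨η0, hη0, hη0ε, a1, hstab⟩ := stability (s' + 1) k hk ε hε (by linarith)
  set σ : ℝ := ((s' + 1 : ℕ) : ℝ) with hσ
  have hσ1 : σ = s' + 1 := by rw [hσ]; push_cast; rfl
  have hσ0 : 0 < σ := by rw [hσ1]; positivity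
  refine ⟨max a1 ((8 * σ * (2 ^ (k + 2) + 2) / ε + 8) / η0), ?_⟩
  intro V G Z Y a ha hdeg hCF hZY hno
  have ha1 : a1 ≤ a := le_trans (le_max_left _ _) ha
  have ha2 : 8 * σ * (2 ^ (k + 2) + 2) / ε + 8 ≤ a * η0 := by
    have := le_trans (le_max_right _ _) ha
    rwa [div_le_iff₀ hη0] at this
  have hq : 0 ≤ 8 * σ * (2 ^ (k + 2) + 2) / ε := by positivity
  have ha8 : 8 ≤ a := by nlinarith
  have ha0 : 0 < a := by linarith
  have ha3 : 1 / a ≤ η0 / 8 := by rw [div_le_iff₀ ha0]; linarith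
  set M : ℝ := ((s' + 1).choose (k + 2) : ℝ) * a ^ (k + 2) with hM
  have hM0 : 0 < M := by
    have : 0 < (s' + 1).choose (k + 2) := Nat.choose_pos hk
    positivity
  have hρ : rho0 (s' + 1) k a = M / (k + 3) := rfl
  set R := Z.filter (fun z => (1 - η0) * ((s' + 1).choose (k + 2) : ℝ) * a ^ (k + 2)
    ≤ kc G (k + 2) (nb G z Z)) with hR
  have hcore : ∀ z ∈ R, HasCore G Z (s' + 1) a ε z := fun z hz =>
    hstab V G (nb G z Z) a ha1 (hCF.nb (mem_filter.1 hz).1) (hdeg z Z) (mem_filter.1 hz).2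
  have hRN : ∀ z ∈ R, ε * a ≤ ((nb G z (Z \ R)).card : ℝ) := by
    intro z hz
    by_contra hcon
    push Not at hcon
    obtain ⟨U, hU, hUZ⟩ := hext V G Z z a (by nlinarith) (fun x => hσ1 ▸ hdeg x Z) hCF
      (mem_filter.1 hz).1 (hcore z hz) (le_trans (Nat.cast_le.2 (card_le_card (fun x hx => by
        obtain ⟨b1, b2⟩ := mem_filter.1 hx
        exact mem_nb.2 ⟨mem_sdiff.2 ⟨(mem_nb.1 b1).1, fun h => b2 (hcore x h)⟩,
          (mem_nb.1 b1).2⟩))) hcon.le)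
    exact hno U hU hUZ
  have hcount : (R.card : ℝ) * ε ≤ (Z \ R).card * (2 * σ) := by
    have h1 := card_nsmul_le_sum _ _ _ hRN
    rw [sum_card_nb_comm, nsmul_eq_mul] at h1
    have h2 := sum_le_card_nsmul (Z \ R) (fun x => ((nb G x R).card : ℝ)) (2 * σ * a)
      (fun x _ => (hdeg x R).trans (by nlinarith))
    rw [nsmul_eq_mul] at h2
    have h3 : ((R.card : ℝ) * ε) * a ≤ ((Z \ R).card * (2 * σ)) * a := by linarith
    exact le_of_mul_le_mul_right h3 ha0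
  set val : V → ℝ := fun z => kc G (k + 2) (nb G z Z) / M
    + (1 - η) * (((nb G z Y).card : ℝ) / (σ * a)) with hval
  have hbase : ∀ z ∈ Z, kc G (k + 2) (nb G z Z) / M ≤ (((nb G z Z).card : ℝ) / (σ * a)) ^ (k + 2) ∧
      ((nb G z Z).card : ℝ) / (σ * a) + ((nb G z Y).card : ℝ) / (σ * a) ≤ 1 + 1 / a := by
    intro z hz
    constructor
    · have := zykov (hCF.nb hz) (k + 2)
      rw [div_le_iff₀ hM0]
      refine this.trans (le_of_eq ?_)
      rw [hM, ← hσ, div_pow, div_pow, mul_pow]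
      field_simp
    · have h1 : Disjoint (nb G z Z) (nb G z Y) := hZY.mono (nb_subset _ _) (nb_subset _ _)
      have h2 := card_le_card (union_subset (nb_mono (G := G) z (subset_union_left (s₁ := Z) (s₂ := Y)))
        (nb_mono (G := G) z (subset_union_right (s₁ := Z) (s₂ := Y))))
      rw [card_union_of_disjoint h1] at h2
      have h3 : ((nb G z Z).card : ℝ) + (nb G z Y).card ≤ (nb G z (Z ∪ Y)).card := by
        exact_mod_cast h2
      have h4 := hdeg z (Z ∪ Y)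
      rw [← add_div, div_le_iff₀ (by positivity)]
      have : (1 + 1 / a) * (σ * a) = σ * (a + 1) := by field_simp
      linarith
  have hv1 : ∀ z ∈ R, val z ≤ 1 + 2 ^ (k + 2) / a := by
    intro z hz
    obtain ⟨h1, h2⟩ := hbase z (mem_filter.1 hz).1
    have := znum1 k a _ _ η (by linarith) (by positivity) (by positivity) hη.le h2
    simp only [hval]; linarith
  have hv2 : ∀ z ∈ Z \ R, val z ≤ 1 - η0 / 4 := by
    intro z hz
    obtain ⟨h1, h2⟩ := hbase z (mem_sdiff.1 hz).1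
    refine znum2 k a _ _ η η0 _ hη0 (by linarith) hη1 ha3 (by positivity) (by positivity) h2 h1 ?_
    have h3 : ¬ (1 - η0) * ((s' + 1).choose (k + 2) : ℝ) * a ^ (k + 2) ≤ kc G (k + 2) (nb G z Z) :=
      fun h => (mem_sdiff.1 hz).2 (mem_filter.2 ⟨(mem_sdiff.1 hz).1, h⟩)
    rw [div_le_iff₀ hM0, hM]
    linarith [not_le.1 h3]
  have hsum : ∑ z ∈ Z, val z ≤ (1 - 2 / a) * Z.card := by
    have hRZ : R ⊆ Z := filter_subset _ _
    rw [← sum_sdiff hRZ]
    have h1 := sum_le_card_nsmul _ _ _ hv1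
    have h2 := sum_le_card_nsmul _ _ _ hv2
    rw [nsmul_eq_mul] at h1 h2
    have h3 : ((Z \ R).card : ℝ) + R.card = Z.card := by
      exact_mod_cast card_sdiff_add_card_eq_card hRZ
    have h4 : (R.card : ℝ) ≤ (Z \ R).card * (2 * σ / ε) := by
      rw [← mul_div_assoc, le_div_iff₀ hε]; exact hcount
    have h5 : 2 * σ / ε * ((2 ^ (k + 2) + 2) / a) + 2 / a ≤ η0 / 4 := by
      have e : 2 * σ / ε * ((2 ^ (k + 2) + 2) / a) + 2 / a
        = (8 * σ * (2 ^ (k + 2) + 2) / ε + 8) / (4 * a) := by field_simp; ring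
      rw [e, div_le_iff₀ (by positivity)]
      linarith
    have h6 := mul_le_mul_of_nonneg_right h4 (show 0 ≤ (2 ^ (k + 2) + 2) / a by positivity)
    have h7 := mul_le_mul_of_nonneg_left h5 (Nat.cast_nonneg (α := ℝ) (Z \ R).card)
    have e2 : (2 ^ (k + 2) + 2) / a = 2 ^ (k + 2) / a + 2 / a := by ring
    rw [← h3]
    rw [e2] at h6 h7
    nlinarith
  have hk3 : (0 : ℝ) < (k : ℝ) + 3 := by positivity
  have e1 : kc G (k + 3) Z = (∑ z ∈ Z, kc G (k + 2) (nb G z Z)) / (k + 3) := by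
    rw [← kc_succ]; push_cast; field_simp; ring
  have e2 : kc G (k + 3) Z + (1 - η) * rho0 (s' + 1) k a / (σ * a) * ∑ z ∈ Z, ((nb G z Y).card : ℝ)
      = M / (k + 3) * ∑ z ∈ Z, val z := by
    rw [e1, hρ, sum_div, mul_sum, mul_sum, ← sum_add_distrib]
    refine sum_congr rfl fun z _ => ?_
    simp only [hval]
    field_simp
  rw [e2, hρ, mul_assoc]
  exact mul_le_mul_of_nonneg_left hsum (by positivity)

end Pool.Agent.Lib.MP_1b6faf_co
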