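import Pool.Agent.Lib.MP_1b6faf_co.Cliques

/-!
Zykov's bound by the Erdos majorisation argument, keeping track of the non-transversal cliques.
-/

namespace Pool.Agent.Lib.MP_1b6faf_co

open Finset
open scoped Classical

variable {V : Type*} {G : SimpleGraph V}

/-- all cliques inside `S` have at most `k` vertices -/
def CF (G : SimpleGraph V) (k : ℕ) (S : Finset V) : Prop :=
  ∀ K : Finset V, K ⊆ S → G.IsClique (K : Set V) → K.card ≤ k

lemma CF.mono {k : ℕ} {S T : Finset V} (h : CF G k T) (hST : S ⊆ T) : CF G k S :=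
  fun K hK hc => h K (hK.trans hST) hc

lemma CF.nb {k : ℕ} {S : Finset V} (h : CF G (k + 1) S) {x : V} (hx : x ∈ S) :
    CF G k (nb G x S) := by
  intro K hK hc
  have h1 : K ∈ cl G (MP_1b6faf_co.nb G x S) := mem_cl.2 ⟨hK, hc⟩
  have h2 := mem_cl.1 (insert_mem_cl hx h1)
  have := h _ h2.1 h2.2
  rw [card_insert_of_notMem (not_mem_of_mem_cl_nb h1)] at this
  omega

noncomputable def NT (G : SimpleGraph V) (lam : ℕ → ℝ) (S : Finset V) (p : V → ℕ) : ℝ :=
  ∑ K ∈ cl G S, if (mp p).IsClique (K : Set V) then 0 else lam K.card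

lemma Phi_add_smul (l1 l2 : ℕ → ℝ) (c : ℝ) (S : Finset V) :
    Phi G (fun j => l1 j + c * l2 j) S = Phi G l1 S + c * Phi G l2 S := by
  unfold Phi
  rw [mul_sum, ← sum_add_distrib]

lemma NT_add_smul (l1 l2 : ℕ → ℝ) (c : ℝ) (S : Finset V) (p : V → ℕ) :
    NT G (fun j => l1 j + c * l2 j) S p = NT G l1 S p + c * NT G l2 S p := by
  unfold NT
  rw [mul_sum, ← sum_add_distrib]
  refine sum_congr rfl fun K _ => ?_
  split_ifs <;> simp

lemma Phi_empty (lam : ℕ → ℝ) : Phi G lam ∅ = lam 0 := by
  have : cl G (∅ : Finset V) = {∅} := by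
    ext K; simp only [mem_cl, subset_empty, mem_singleton]
    constructor
    · exact fun h => h.1
    · rintro rfl; simp
  simp [Phi, this]

lemma NT_empty (lam : ℕ → ℝ) (p : V → ℕ) : NT G lam ∅ p = 0 := by
  unfold NT
  refine sum_eq_zero fun K hK => ?_
  have := subset_empty.1 (mem_cl.1 hK).1
  subst this
  simp

theorem erdos_zykov (s : ℕ) (S : Finset V) (lam : ℕ → ℝ) (hl : ∀ j, 0 ≤ lam j) (hS : CF G s S) :
    ∃ p : V → ℕ, (∀ x ∈ S, p x < s) ∧
      Phi G lam S + NT G lam S p ≤ F lam (range s) (fun i => ((part S p i).card : ℝ)) := by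
  induction s generalizing S lam with
  | zero =>
    have : S = ∅ := by
      by_contra h
      obtain ⟨x, hx⟩ := nonempty_iff_ne_empty.2 h
      have := hS {x} (singleton_subset_iff.2 hx) (by simp)
      simp at this
    subst this
    exact ⟨fun _ => 0, by simp, by simp [Phi_empty, NT_empty, F_empty]⟩
  | succ s ih =>
    rcases S.eq_empty_or_nonempty with rfl | hne
    · refine ⟨fun _ => 0, by simp, ?_⟩
      rw [Phi_empty, NT_empty, add_zero]
      exact F_ge_zero hl _ (fun _ _ => Nat.cast_nonneg _)
    obtain ⟨x, hx, hmax⟩ := exists_max_image S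
      (fun x => Phi G (fun j => lam (j + 1)) (nb G x S)) hne
    set S' := nb G x S with hS'
    set V1 := nn G x S with hV1
    have hl' : ∀ j, 0 ≤ lam j + (V1.card : ℝ) * lam (j + 1) := fun j => by
      have := hl j; have := hl (j + 1); positivity
    obtain ⟨p', hp', hineq⟩ := ih S' (fun j => lam j + (V1.card : ℝ) * lam (j + 1)) hl' (hS.nb hx)
    set p : V → ℕ := fun y => if G.Adj x y then p' y else s with hp
    have hpS' : ∀ y ∈ S', p y = p' y := fun y hy => by simp [hp, (mem_nb.1 hy).2]
    have hpV : ∀ y ∈ V1, p y = s := fun y hy => by simp [hp, (mem_nn.1 hy).2]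
    have hor : ∀ y ∈ S, y ∈ S' ∨ y ∈ V1 := fun y hy => by
      by_cases h : G.Adj x y
      · exact Or.inl (mem_nb.2 ⟨hy, h⟩)
      · exact Or.inr (mem_nn.2 ⟨hy, h⟩)
    refine ⟨p, fun y hy => ?_, ?_⟩
    · rcases hor y hy with h | h
      · rw [hpS' y h]; exact (hp' y h).trans (Nat.lt_succ_self _)
      · rw [hpV y h]; exact Nat.lt_succ_self _
    have hpart : ∀ i ∈ range s, ((part S p i).card : ℝ) = (part S' p' i).card := by
      intro i hi
      congr 2
      ext y
      simp only [mem_part]
      constructor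
      · rintro ⟨h1, h2⟩
        rcases hor y h1 with h | h
        · exact ⟨h, by rw [← hpS' y h, h2]⟩
        · rw [hpV y h] at h2; have := mem_range.1 hi; omega
      · rintro ⟨h1, h2⟩
        exact ⟨nb_subset _ _ h1, by rw [hpS' y h1, h2]⟩
    have hparts : part S p s = V1 := by
      ext y
      simp only [mem_part]
      constructor
      · rintro ⟨h1, h2⟩
        rcases hor y h1 with h | h
        · have := hp' y h; rw [hpS' y h] at h2; omega
        · exact h
      · exact fun h => ⟨nn_subset _ _ h, hpV y h⟩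
    rw [range_add_one, F_insert _ notMem_range_self, F_congr lam hpart,
      F_congr (fun j => lam (j + 1)) hpart, hparts, ← F_add_smul]
    refine le_trans ?_ hineq
    rw [Phi_add_smul, NT_add_smul]
    -- the pointwise inequality
    set h : V → Finset V → ℝ := fun v K =>
      if K.erase v ∈ cl G S' ∧ ¬ (mp p').IsClique ((K.erase v : Finset V) : Set V)
        then lam K.card else 0 with hh
    have hh0 : ∀ v K, 0 ≤ h v K := fun v K => by
      simp only [hh]; split_ifs
      · exact hl _
      · exact le_rfl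
    have htr : ∀ K : Finset V, K ⊆ S' → (mp p').IsClique (K : Set V) → (mp p).IsClique (K : Set V) := by
      intro K hK hc u hu v hv huv
      show p u ≠ p v
      rw [hpS' u (hK hu), hpS' v (hK hv)]
      exact hc hu hv huv
    have key : ∀ K ∈ cl G S, lam K.card + (if (mp p).IsClique (K : Set V) then 0 else lam K.card)
        ≤ (if K ⊆ S' then lam K.card + (if (mp p').IsClique (K : Set V) then 0 else lam K.card)
          else 0) + ∑ v ∈ V1, if v ∈ K then lam K.card + h v K else 0 := by
      intro K hK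
      have hlK := hl K.card
      have hnn : ∀ v ∈ V1, 0 ≤ (if v ∈ K then lam K.card + h v K else 0) := fun v _ => by
        split_ifs
        · have := hh0 v K; linarith
        · exact le_rfl
      by_cases hKS : K ⊆ S'
      · have := sum_nonneg hnn
        rw [if_pos hKS]
        by_cases ht : (mp p').IsClique (K : Set V)
        · rw [if_pos ht, if_pos (htr K hKS ht)]; linarith
        · rw [if_neg ht]; split_ifs <;> linarith
      · rw [if_neg hKS, zero_add]
        obtain ⟨v, hvK, hvS⟩ := not_subset.1 hKS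
        have hvV : v ∈ V1 := (hor v ((mem_cl.1 hK).1 hvK)).resolve_left hvS
        by_cases h2 : K.erase v ⊆ S'
        · refine le_trans ?_ (single_le_sum hnn hvV)
          rw [if_pos hvK]
          by_cases ht : (mp p).IsClique (K : Set V)
          · rw [if_pos ht]; have := hh0 v K; linarith
          · rw [if_neg ht]
            have : h v K = lam K.card := by
              simp only [hh]
              rw [if_pos]
              refine ⟨mem_cl.2 ⟨h2, (mem_cl.1 hK).2.subset (by simp)⟩, fun hc => ht ?_⟩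
              have hc' := htr _ h2 hc
              rw [← insert_erase hvK, coe_insert]
              refine hc'.insert fun y hy _ => ?_
              show p v ≠ p y
              rw [hpV v hvV, hpS' y (h2 hy)]
              exact (hp' y (h2 hy)).ne'
            rw [this]
        · obtain ⟨u, huK, huS⟩ := not_subset.1 h2
          have huK' := mem_of_mem_erase huK
          have huV : u ∈ V1 := (hor u ((mem_cl.1 hK).1 huK')).resolve_left huS
          have huv : u ≠ v := ne_of_mem_erase huK
          have h3 := sum_le_sum_of_subset_of_nonneg (s := {u, v}) (t := V1)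
            (f := fun v => if v ∈ K then lam K.card + h v K else 0)
            (insert_subset huV (singleton_subset_iff.2 hvV)) (fun w hw _ => hnn w hw)
          rw [sum_pair huv, if_pos huK', if_pos hvK] at h3
          have := hh0 v K
          have := hh0 u K
          split_ifs <;> linarith
    have e1 : Phi G lam S + NT G lam S p = ∑ K ∈ cl G S,
        (lam K.card + (if (mp p).IsClique (K : Set V) then 0 else lam K.card)) := by
      rw [sum_add_distrib]; rfl
    rw [e1]
    refine (sum_le_sum key).trans ?_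
    rw [sum_add_distrib, ← sum_filter, sum_comm]
    have e2 : (cl G S).filter (fun K => K ⊆ S') = cl G S' := by
      ext K
      simp only [mem_filter, mem_cl]
      constructor
      · exact fun h => ⟨h.2, h.1.2⟩
      · exact fun h => ⟨⟨h.1.trans (nb_subset _ _), h.2⟩, h.1⟩
    rw [e2, sum_add_distrib]
    have e3 : ∀ v ∈ V1, ∑ K ∈ cl G S, (if v ∈ K then lam K.card + h v K else 0)
        ≤ Phi G (fun j => lam (j + 1)) S' + NT G (fun j => lam (j + 1)) S' p' := by
      intro v hv
      have hvS := nn_subset _ _ hv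
      rw [← sum_filter, sum_add_distrib, sum_cl_mem_card hvS, sum_cl_mem hvS]
      refine add_le_add (hmax v hvS) ?_
      unfold NT
      have e4 : ∀ K ∈ cl G (nb G v S), h v (insert v K) = if K ∈ cl G S' then
          (if (mp p').IsClique (K : Set V) then 0 else lam (K.card + 1)) else 0 := by
        intro K hK
        have hn := not_mem_of_mem_cl_nb hK
        simp only [hh]
        rw [erase_insert hn, card_insert_of_notMem hn]
        by_cases a1 : K ∈ cl G S' <;> by_cases a2 : (mp p').IsClique (K : Set V) <;> simp [a1, a2]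
      rw [sum_congr rfl e4, ← sum_filter]
      refine sum_le_sum_of_subset_of_nonneg (fun K hK => (mem_filter.1 hK).2) fun K _ _ => ?_
      split_ifs
      · exact le_rfl
      · exact hl _
    have e5 := sum_le_card_nsmul _ _ _ e3
    rw [nsmul_eq_mul] at e5
    have e6 : Phi G lam S' = ∑ K ∈ cl G S', lam K.card := rfl
    have e7 : NT G lam S' p' = ∑ K ∈ cl G S',
      if (mp p').IsClique (K : Set V) then 0 else lam K.card := rfl
    linarith

lemma NT_nonneg {lam : ℕ → ℝ} (hl : ∀ j, 0 ≤ lam j) (S : Finset V) (p : V → ℕ) :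
    0 ≤ NT G lam S p := by
  unfold NT
  refine sum_nonneg fun K _ => ?_
  split_ifs
  · exact le_rfl
  · exact hl _

/-- Zykov's bound in averaged form -/
theorem zykov {s : ℕ} {S : Finset V} (hS : CF G s S) (k : ℕ) :
    kc G k S ≤ (s.choose k : ℝ) * ((S.card : ℝ) / s) ^ k := by
  obtain ⟨p, hp, h⟩ := erdos_zykov s S (ind k) (ind_nonneg k) hS
  have h1 := NT_nonneg (G := G) (ind_nonneg k) S p
  have h2 := maclaurin k (range s) (fun i => ((part S p i).card : ℝ)) (fun _ _ => Nat.cast_nonneg _)
  have h3 : ∑ i ∈ range s, ((part S p i).card : ℝ) = S.card := by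
    rw [card_eq_sum_parts (I := range s) (p := p) (fun x hx => mem_range.2 (hp x hx))]
    push_cast; rfl
  rw [h3, card_range] at h2
  unfold kc
  unfold es at h2
  linarith

/-- the number of missing pairs is controlled by the deficit -/
theorem mis_le {S : Finset V} (p : V → ℕ) (s k : ℕ) (hp : ∀ x ∈ S, p x < s) (β : ℝ) (hβ0 : 0 ≤ β)
    (hβ : ∀ i < s, β ≤ ((part S p i).card : ℝ)) (hk : k + 2 ≤ s) :
    ((mis G p S).card : ℝ) * β ^ k ≤ ((k : ℝ) + 2) ^ 2 *
      (es (k + 2) (range s) (fun i => ((part S p i).card : ℝ))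
        - kc G (k + 2) S + NT G (ind (k + 2)) S p) := by
  set NC : Finset (Finset V) := (cl (mp p) S).filter
    (fun K : Finset V => K.card = k + 2 ∧ ¬ G.IsClique (K : Set V)) with hNC
  have h1 : (NC.card : ℝ) = es (k + 2) (range s) (fun i => ((part S p i).card : ℝ))
        - kc G (k + 2) S + NT G (ind (k + 2)) S p := by
    rw [← kc_mp p (k + 2) S (range s) (fun x hx => mem_range.2 (hp x hx))]
    unfold kc Phi NT cl
    rw [hNC]
    unfold cl
    simp only [filter_filter, card_filter, sum_filter]
    push_cast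
    rw [← sum_sub_distrib, ← sum_add_distrib]
    refine sum_congr rfl fun K _ => ?_
    unfold ind
    by_cases a1 : (mp p).IsClique (K : Set V) <;> by_cases a2 : G.IsClique (K : Set V) <;>
      by_cases a3 : K.card = k + 2 <;> simp [a1, a2, a3]
  rw [← h1]
  have h2 : ∀ e ∈ mis G p S, β ^ k ≤ ∑ K ∈ NC, if e.1 ∈ K ∧ e.2 ∈ K then (1 : ℝ) else 0 := by
    intro e he
    obtain ⟨a1, a2, a3, a4⟩ := mem_mis.1 he
    have b1 : e.2 ∈ nb (mp p) e.1 S := mem_nb.2 ⟨a2, a3.ne⟩
    have b2 : ∑ K ∈ NC, (if e.1 ∈ K ∧ e.2 ∈ K then (1 : ℝ) else 0)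
        = ∑ K ∈ (cl (mp p) S).filter (fun K => e.1 ∈ K),
          (if e.2 ∈ K then ind (k + 2) K.card else 0) := by
      rw [hNC, sum_filter, sum_filter]
      refine sum_congr rfl fun K _ => ?_
      unfold ind
      by_cases c1 : e.1 ∈ K <;> by_cases c2 : e.2 ∈ K <;> by_cases c3 : K.card = k + 2 <;>
        simp [c1, c2, c3]
      intro hc
      exact a4 (hc c1 c2 (fun h => by rw [h] at a3; exact lt_irrefl _ a3))
    have hne : e.2 ≠ e.1 := fun h => by rw [h] at a3; exact lt_irrefl _ a3
    rw [b2, sum_cl_mem a1]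
    have b3 : ∀ K ∈ cl (mp p) (nb (mp p) e.1 S),
        (if e.2 ∈ insert e.1 K then ind (k + 2) (insert e.1 K).card else 0)
        = if e.2 ∈ K then ind (k + 1) K.card else 0 := by
      intro K hK
      rw [card_insert_of_notMem (not_mem_of_mem_cl_nb hK)]
      simp [hne, ind]
    rw [sum_congr rfl b3, ← sum_filter, sum_cl_mem_card b1, ind_succ]
    have b4 := kc_mp p k (nb (mp p) e.2 (nb (mp p) e.1 S)) (((range s).erase (p e.1)).erase (p e.2))
      (fun y hy => by
        obtain ⟨c1, c2⟩ := mem_nb.1 hy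
        obtain ⟨c3, c4⟩ := mem_nb.1 c1
        exact mem_erase.2 ⟨Ne.symm c2, mem_erase.2 ⟨Ne.symm c4, mem_range.2 (hp y c3)⟩⟩)
    unfold kc at b4
    rw [b4]
    have b5 := es_ge k (I := ((range s).erase (p e.1)).erase (p e.2))
      (w := fun i => ((part (nb (mp p) e.2 (nb (mp p) e.1 S)) p i).card : ℝ)) hβ0 (fun i hi => by
        have c1 := (mem_erase.1 hi).1
        have c2 := (mem_erase.1 (mem_erase.1 hi).2).1
        have c3 := mem_range.1 (mem_erase.1 (mem_erase.1 hi).2).2
        refine (hβ i c3).trans ?_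
        have : part S p i ⊆ part (nb (mp p) e.2 (nb (mp p) e.1 S)) p i := by
          intro y hy
          obtain ⟨d1, d2⟩ := mem_part.1 hy
          refine mem_part.2 ⟨mem_nb.2 ⟨mem_nb.2 ⟨d1, ?_⟩, ?_⟩, d2⟩
          · show p e.1 ≠ p y
            rw [d2]; exact c2.symm
          · show p e.2 ≠ p y
            rw [d2]; exact c1.symm
        exact_mod_cast card_le_card this)
    refine le_trans ?_ b5
    rw [card_erase_of_mem (mem_erase.2 ⟨a3.ne', mem_range.2 (hp _ a2)⟩),
      card_erase_of_mem (mem_range.2 (hp _ a1)), card_range]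
    have : 1 ≤ (s - 1 - 1).choose k := Nat.choose_pos (by omega)
    have h3 : (1 : ℝ) ≤ ((s - 1 - 1).choose k : ℝ) := by exact_mod_cast this
    have h4 : 0 ≤ β ^ k := by positivity
    nlinarith
  have h3 := card_nsmul_le_sum _ _ _ h2
  rw [nsmul_eq_mul, sum_comm] at h3
  refine h3.trans ?_
  have h4 : ∀ K ∈ NC, ∑ e ∈ mis G p S, (if e.1 ∈ K ∧ e.2 ∈ K then (1 : ℝ) else 0)
      ≤ ((k : ℝ) + 2) ^ 2 := by
    intro K hK
    rw [← sum_filter, sum_const, nsmul_eq_mul, mul_one]
    have c1 : (mis G p S).filter (fun e => e.1 ∈ K ∧ e.2 ∈ K) ⊆ K ×ˢ K := fun e he =>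
      mem_product.2 (mem_filter.1 he).2
    have c2 := card_le_card c1
    rw [card_product, (mem_filter.1 hK).2.1] at c2
    have : (((mis G p S).filter (fun e => e.1 ∈ K ∧ e.2 ∈ K)).card : ℝ) ≤ ((k + 2) * (k + 2) : ℕ) := by
      exact_mod_cast c2
    push_cast at this
    nlinarith
  have h5 := sum_le_card_nsmul _ _ _ h4
  rw [nsmul_eq_mul] at h5
  linarith

end Pool.Agent.Lib.MP_1b6faf_co
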